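import Pool.Agent.H59.BMOA.Ent

/-! Entropy lower bound, summation. -/

namespace H59.RB

set_option linter.unusedSectionVars false

open Finset BigOperators MeasureTheory

lemma sqrt2_bounds : 1.414 < Real.sqrt 2 ∧ Real.sqrt 2 < 1.4143 := by
  constructor
  · rw [Real.lt_sqrt (by norm_num)]; norm_num
  · rw [Real.sqrt_lt' (by norm_num)]; norm_num

lemma geom_sqrt2 (m : ℕ) : ∑ n ∈ Finset.range (m+1), Real.sqrt 2 ^ n ≤ 4 * Real.sqrt 2 ^ m := by
  have hb := sqrt2_bounds
  induction m with
  | zero => simp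
  | succ m ih =>
    rw [Finset.sum_range_succ]
    have h0 : 0 < Real.sqrt 2 ^ m := by positivity
    rw [pow_succ] at *
    nlinarith

lemma geom_set (s : Finset ℕ) (X : ℝ) (hX : 0 ≤ X) (h : ∀ n ∈ s, Real.sqrt 2 ^ n ≤ X) :
    ∑ n ∈ s, Real.sqrt 2 ^ n ≤ 4 * X := by
  rcases s.eq_empty_or_nonempty with hs | hs
  · rw [hs]; simpa using hX
  · set m := s.max' hs with hm
    have h1 : s ⊆ Finset.range (m+1) := by
      intro n hn
      have := s.le_max' n hn
      simp only [Finset.mem_range]; omega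
    calc ∑ n ∈ s, Real.sqrt 2 ^ n ≤ ∑ n ∈ Finset.range (m+1), Real.sqrt 2 ^ n :=
          Finset.sum_le_sum_of_subset_of_nonneg h1 (fun _ _ _ => by positivity)
      _ ≤ 4 * Real.sqrt 2 ^ m := geom_sqrt2 m
      _ ≤ 4 * X := by linarith [h m (s.max'_mem hs)]

section
variable {T S : Type} [AddCommGroup T] [Fintype S] [DecidableEq S]
variable {ι ι' : Type} [Fintype ι] [Nonempty ι] [Fintype ι'] [Nonempty ι']

lemma emax_reindex (c : ι → S → ℝ) (f : ι' → ι) (L : ℕ) : emax (fun i => c (f i)) L ≤ emax c L := by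
  unfold emax
  apply Finset.expect_le_expect
  intro ω _
  apply Finset.sup'_le
  intro i _
  have : (Real.sqrt L)⁻¹ * ∑ l, proc (fun i => c (f i)) (ω l) i =
      (Real.sqrt L)⁻¹ * ∑ l, proc c (ω l) (f i) := rfl
  rw [this]
  exact Finset.le_sup' (fun i => (Real.sqrt L)⁻¹ * ∑ l, proc c (ω l) i) (Finset.mem_univ (f i))

variable [MeasurableSpace T] (μ : Measure T) [IsProbabilityMeasure μ]
  [MeasurableAdd T] [μ.IsAddLeftInvariant]

/-- Entropy lower bound for the expected maximum. -/
theorem ent_lower (c : T → S → ℝ) (hinv : ∀ x y z, dsq c (z + x) (z + y) = dsq c x y)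
    (D : ℝ) (hD : 0 < D) (hcD : ∀ x, dd c x 0 ≤ D) (hV : ∀ r > 0, 0 < VV μ c r)
    (e : ℕ → ℝ) (R : ℕ) (heD : ∀ n ≤ R, e n ≤ D)
    (he : ∀ n ≤ R, ∀ r, r < e n → VV μ c r < (1/2) ^ (2^n)) :
    ∃ (ι : Type) (_ : Fintype ι) (_ : Nonempty ι) (x : ι → T), ∃ L₀ : ℕ, ∀ L ≥ L₀,
      ∑ n ∈ Finset.range (R+1), Real.sqrt 2 ^ n * e n ≤
        8000 * emax (fun i => c (x i)) L + 10000 * D := by
  obtain ⟨ι0, i1, i2, i3, x0, hx0, hLB0⟩ := exists_family μ c hinv D hD hV (R+1) 0
  obtain ⟨ι1, j1, j2, j3, x1, hx1, hLB1⟩ := exists_family μ c hinv D hD hV (R+1) 1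
  refine ⟨ι0 ⊕ ι1, inferInstance, inferInstance, Sum.elim x0 x1, ?_⟩
  obtain ⟨L0, hL0⟩ := hLB0 D hD
  obtain ⟨L1, hL1⟩ := hLB1 D hD
  refine ⟨max L0 L1, fun L hL => ?_⟩
  have h0 := hL0 L (le_trans (le_max_left _ _) hL)
  have h1 := hL1 L (le_trans (le_max_right _ _) hL)
  set E := emax (fun i => c (Sum.elim x0 x1 i)) L with hE
  have h2 : emax (fun i => c (x0 i)) L ≤ E :=
    emax_reindex (fun i => c (Sum.elim x0 x1 i)) Sum.inl L
  have h3 : emax (fun i => c (x1 i)) L ≤ E :=
    emax_reindex (fun i => c (Sum.elim x0 x1 i)) Sum.inr L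
  set Q := 2 * (R+1) with hQ
  have hsum : ∑ q ∈ Finset.range Q, gain μ c D q ≤ 2 * E + 2 * D := by
    have h4 : ∑ q ∈ Finset.range Q, gain μ c D q =
        ∑ i ∈ Finset.range (R+1), gain μ c D (0 + 2 * i) +
        ∑ i ∈ Finset.range (R+1), gain μ c D (1 + 2 * i) := by
      rw [hQ]
      generalize R + 1 = n
      induction n with
      | zero => simp
      | succ n ih =>
        rw [show 2 * (n+1) = 2 * n + 1 + 1 by ring, Finset.sum_range_succ, Finset.sum_range_succ, ih,
          Finset.sum_range_succ, Finset.sum_range_succ]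
        rw [zero_add, add_comm 1 (2*n)]
        ring
    rw [h4]; linarith
  -- Λ
  set Λ : ℕ → ℝ := fun q => Real.sqrt (Real.log (1 / VV μ c (rad D q))) with hΛ
  have hVpos : ∀ q, 0 < VV μ c (rad D q) := fun q => hV _ (rad_pos hD q)
  have hlogn : ∀ q, 0 ≤ Real.log (1 / VV μ c (rad D q)) := by
    intro q
    apply Real.log_nonneg
    rw [le_div_iff₀ (hVpos q), one_mul]
    exact VV_le_one μ c _
  have hΛ0 : Λ 0 = 0 := by
    have : VV μ c (rad D 0) = 1 := by
      unfold VV rad
      have : {x | dd c x 0 ≤ D / 8 ^ 0} = Set.univ := by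
        ext x; simp only [pow_zero, div_one, Set.mem_ofPred_eq, Set.mem_univ, iff_true]; exact hcD x
      rw [this]; simp
    simp only [hΛ, this]; simp
  have hΛn : ∀ q, 0 ≤ Λ q := fun q => Real.sqrt_nonneg _
  have hgain : ∀ q, (rad D q / 768) * (Λ (q+1) - Λ q) - rad D q / 32 ≤ gain μ c D q := by
    intro q
    unfold gain
    have h5 : Real.log (VV μ c (rad D q) / VV μ c (rad D (q+1))) = Λ (q+1) ^ 2 - Λ q ^ 2 := by
      simp only [hΛ]
      rw [Real.sq_sqrt (hlogn _), Real.sq_sqrt (hlogn _), Real.log_div (hVpos q).ne' (hVpos (q+1)).ne',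
        one_div, one_div, Real.log_inv, Real.log_inv]
      ring
    have h6 : Λ (q+1) - Λ q ≤ Real.sqrt (Real.log (VV μ c (rad D q) / VV μ c (rad D (q+1)))) := by
      rw [h5]
      rcases le_total (Λ (q+1)) (Λ q) with h | h
      · exact le_trans (by linarith) (Real.sqrt_nonneg _)
      · apply Real.le_sqrt_of_sq_le
        nlinarith [hΛn q, hΛn (q+1)]
    have h7 := rad_pos hD q
    have h8 : (rad D q / 768) * (Λ (q+1) - Λ q) ≤
        (rad D q / 768) * Real.sqrt (Real.log (VV μ c (rad D q) / VV μ c (rad D (q+1)))) :=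
      mul_le_mul_of_nonneg_left h6 (by positivity)
    linarith
  -- Abel summation
  have habel : ∀ n, ∑ q ∈ Finset.range n, rad D q * (Λ (q+1) - Λ q) =
      7 * ∑ q ∈ Finset.range n, rad D (q+1) * Λ (q+1) + rad D n * Λ n := by
    intro n
    induction n with
    | zero => simp [hΛ0]
    | succ n ih =>
      rw [Finset.sum_range_succ, ih, Finset.sum_range_succ]
      have := rad_succ D n
      have h9 : rad D n = 8 * rad D (n+1) := by rw [this]; ring
      rw [h9]; ring
  set Bq := ∑ q ∈ Finset.range Q, rad D (q+1) * Λ (q+1) with hBq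
  have hradsum : ∀ n, ∑ q ∈ Finset.range n, rad D q ≤ 8/7 * D := by
    intro n
    have : ∑ q ∈ Finset.range n, rad D q = 8/7 * D - 8/7 * rad D n := by
      induction n with
      | zero => simp [rad]
      | succ n ih => rw [Finset.sum_range_succ, ih, rad_succ]; ring
    rw [this]; linarith [rad_pos hD n]
  have hB7 : 7 * Bq ≤ 768 * (2 * E + 2 * D) + 24 * (8/7 * D) := by
    have h10 : ∑ q ∈ Finset.range Q, ((rad D q / 768) * (Λ (q+1) - Λ q) - rad D q / 32) ≤
        2 * E + 2 * D := (Finset.sum_le_sum (fun q _ => hgain q)).trans hsum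
    rw [Finset.sum_sub_distrib] at h10
    have h11 : ∑ q ∈ Finset.range Q, (rad D q / 768) * (Λ (q+1) - Λ q) =
        (1/768) * ∑ q ∈ Finset.range Q, rad D q * (Λ (q+1) - Λ q) := by
      rw [Finset.mul_sum]; exact Finset.sum_congr rfl (fun _ _ => by ring)
    have h12 : ∑ q ∈ Finset.range Q, rad D q / 32 = (1/32) * ∑ q ∈ Finset.range Q, rad D q := by
      rw [Finset.mul_sum]; exact Finset.sum_congr rfl (fun _ _ => by ring)
    rw [h11, h12, habel Q] at h10
    have h13 := hradsum Q
    have h14 : 0 ≤ rad D Q * Λ Q := mul_nonneg (rad_pos hD Q).le (hΛn Q)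
    linarith
  have hBq0 : 0 ≤ Bq := Finset.sum_nonneg (fun q _ => mul_nonneg (rad_pos hD _).le (hΛn _))
  -- layering
  have hlayer : ∀ n ≤ R, e n ≤ rad D Q + ∑ q ∈ Finset.range Q,
      (if rad D (q+1) < e n then 7 * rad D (q+1) else 0) := by
    intro n hn
    have : ∀ m, e n ≤ rad D 0 → (e n ≤ rad D m + ∑ q ∈ Finset.range m,
      (if rad D (q+1) < e n then 7 * rad D (q+1) else 0)) := by
      intro m h15
      induction m with
      | zero => simpa using h15
      | succ m ih =>
        rw [Finset.sum_range_succ]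
        by_cases hc : rad D (m+1) < e n
        · rw [if_pos hc]
          have := rad_succ D m
          have h9 : rad D m = 8 * rad D (m+1) := by rw [this]; ring
          linarith
        · rw [if_neg hc]
          have h16 : 0 ≤ ∑ q ∈ Finset.range m,
            (if rad D (q+1) < e n then 7 * rad D (q+1) else 0) := by
            apply Finset.sum_nonneg
            intro q _
            split_ifs
            · linarith [rad_pos hD (q+1)]
            · exact le_rfl
          push Not at hc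
          linarith
    apply this Q
    have : rad D 0 = D := by simp [rad]
    rw [this]; exact heD n hn
  have hlog2 : 0.6931471803 < Real.log 2 := Real.log_two_gt_d9
  have hpoint : ∀ q, ∀ n ≤ R, rad D (q+1) < e n → Real.sqrt 2 ^ n ≤ 1.3 * Λ (q+1) := by
    intro q n hn hlt
    have h17 := he n hn _ hlt
    have h18 : (2:ℝ)^n * Real.log 2 ≤ Λ (q+1) ^ 2 := by
      simp only [hΛ]
      rw [Real.sq_sqrt (hlogn _)]
      have h19 : (2:ℝ) ^ (2^n) ≤ 1 / VV μ c (rad D (q+1)) := by
        rw [le_div_iff₀ (hVpos _)]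
        calc (2:ℝ) ^ (2^n) * VV μ c (rad D (q+1)) ≤ 2 ^ (2^n) * (1/2) ^ (2^n) :=
              mul_le_mul_of_nonneg_left h17.le (by positivity)
          _ = 1 := by rw [← mul_pow]; norm_num
      have h20 := Real.log_le_log (by positivity) h19
      rw [Real.log_pow] at h20
      push_cast at h20
      exact h20
    have h21 : (Real.sqrt 2 ^ n) ^ 2 = 2 ^ n := by
      rw [← pow_mul, mul_comm, pow_mul, Real.sq_sqrt (by norm_num)]
    have h22 : (Real.sqrt 2 ^ n) ^ 2 ≤ (1.3 * Λ (q+1)) ^ 2 := by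
      rw [h21, mul_pow]
      have : (0:ℝ) < 2^n := by positivity
      nlinarith
    exact (abs_le_of_sq_le_sq' h22 (by have := hΛn (q+1); positivity)).2
  -- final
  have hfin : ∑ n ∈ Finset.range (R+1), Real.sqrt 2 ^ n * e n ≤
      (∑ n ∈ Finset.range (R+1), Real.sqrt 2 ^ n) * rad D Q + 36.4 * Bq := by
    calc ∑ n ∈ Finset.range (R+1), Real.sqrt 2 ^ n * e n
        ≤ ∑ n ∈ Finset.range (R+1), Real.sqrt 2 ^ n * (rad D Q + ∑ q ∈ Finset.range Q,
          (if rad D (q+1) < e n then 7 * rad D (q+1) else 0)) := by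
          apply Finset.sum_le_sum
          intro n hn
          apply mul_le_mul_of_nonneg_left _ (by positivity)
          exact hlayer n (by simpa [Nat.lt_succ_iff] using hn)
      _ = (∑ n ∈ Finset.range (R+1), Real.sqrt 2 ^ n) * rad D Q +
          ∑ q ∈ Finset.range Q, 7 * rad D (q+1) *
            ∑ n ∈ (Finset.range (R+1)).filter (fun n => rad D (q+1) < e n), Real.sqrt 2 ^ n := by
          simp only [mul_add, Finset.sum_add_distrib, ← Finset.sum_mul]
          congr 1
          simp only [Finset.mul_sum]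
          rw [Finset.sum_comm]
          refine Finset.sum_congr rfl (fun q _ => ?_)
          rw [Finset.sum_filter]
          refine Finset.sum_congr rfl (fun n _ => ?_)
          split_ifs <;> ring
      _ ≤ (∑ n ∈ Finset.range (R+1), Real.sqrt 2 ^ n) * rad D Q +
          ∑ q ∈ Finset.range Q, 7 * rad D (q+1) * (4 * (1.3 * Λ (q+1))) := by
          gcongr with q _
          · have := rad_pos hD (q+1); positivity
          · apply geom_set _ _ (by have := hΛn (q+1); positivity)
            intro n hn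
            rw [Finset.mem_filter, Finset.mem_range, Nat.lt_succ_iff] at hn
            exact hpoint q n hn.1 hn.2
      _ = _ := by
          rw [hBq, Finset.mul_sum]
          congr 1
          refine Finset.sum_congr rfl (fun q _ => by ring)
  have htail : (∑ n ∈ Finset.range (R+1), Real.sqrt 2 ^ n) * rad D Q ≤ D := by
    have h23 : ∑ n ∈ Finset.range (R+1), Real.sqrt 2 ^ n ≤ 64 ^ (R+1) := by
      have hb := sqrt2_bounds
      calc ∑ n ∈ Finset.range (R+1), Real.sqrt 2 ^ n ≤ 4 * Real.sqrt 2 ^ R := geom_sqrt2 R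
        _ ≤ 64 * 64 ^ R := by
            gcongr
            · norm_num
            · linarith
        _ = 64 ^ (R+1) := by ring
    have h24 : rad D Q = D / 64 ^ (R+1) := by
      unfold rad
      rw [hQ, pow_mul]; norm_num
    rw [h24, mul_div_assoc', div_le_iff₀ (by positivity)]
    calc _ ≤ 64 ^ (R+1) * D := mul_le_mul_of_nonneg_right h23 hD.le
      _ = _ := by ring
  linarith [hfin, htail, hB7, hBq0]

end

end H59.RB
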