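import Pool.Agent.H59.BMOA.SubG
import Pool.Agent.H59.BMOA.Ent2

/-! PAC-Bayes chaining: deterministic part. -/

namespace H59.RB

set_option linter.unusedSectionVars false

open Finset BigOperators MeasureTheory

/-- Gibbs variational inequality. -/
lemma pac {Y : Type*} [MeasurableSpace Y] (ν : Measure Y) [IsProbabilityMeasure ν]
    (ψ G : Y → ℝ) (hψm : Measurable ψ) (hψ0 : ∀ y, 0 ≤ ψ y) (M : ℝ) (hM : 0 < M)
    (hψM : ∀ y, ψ y ≤ M) (hψ1 : ∫ y, ψ y ∂ν = 1) (hGm : Measurable G) (hG0 : ∀ y, 0 ≤ G y)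
    (B : ℝ) (hGB : ∀ y, G y ≤ B) :
    ∫ y, ψ y * G y ∂ν ≤ 4 * (Real.log M + Real.log (∫ y, Real.exp (G y / 4) ∂ν)) := by
  have hint : ∀ F : Y → ℝ, Measurable F → ∀ K, (∀ y, |F y| ≤ K) → Integrable F ν := by
    intro F hF K hK
    exact Integrable.of_bound hF.aestronglyMeasurable K (Filter.Eventually.of_forall hK)
  have hψi : Integrable ψ ν := hint ψ hψm M (fun y => by rw [abs_of_nonneg (hψ0 y)]; exact hψM y)
  have hψGi : Integrable (fun y => ψ y * G y) ν := hint _ (hψm.mul hGm) (M * B) (fun y => by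
    rw [abs_mul, abs_of_nonneg (hψ0 y), abs_of_nonneg (hG0 y)]
    exact mul_le_mul (hψM y) (hGB y) (hG0 y) hM.le)
  have hexpm : Measurable (fun y => Real.exp (G y / 4)) := Real.measurable_exp.comp (hGm.div_const 4)
  have hexpb : ∀ y, |Real.exp (G y / 4)| ≤ Real.exp (B / 4) := fun y => by
    rw [abs_of_pos (Real.exp_pos _)]; exact Real.exp_le_exp.2 (by linarith [hGB y])
  have hexpi : Integrable (fun y => Real.exp (G y / 4)) ν := hint _ hexpm _ hexpb
  have hψei : Integrable (fun y => ψ y * Real.exp (G y / 4)) ν :=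
    hint _ (hψm.mul hexpm) (M * Real.exp (B/4)) (fun y => by
      rw [abs_mul, abs_of_nonneg (hψ0 y)]
      exact mul_le_mul (hψM y) (hexpb y) (abs_nonneg _) hM.le)
  set c := (∫ y, ψ y * G y ∂ν) / 4 with hc
  have h1 : Real.exp c ≤ ∫ y, ψ y * Real.exp (G y / 4) ∂ν := by
    have h2 : ∀ y, Real.exp c * (ψ y * (1 - c) + ψ y * G y / 4) ≤ ψ y * Real.exp (G y / 4) := by
      intro y
      have h3 : Real.exp c * (1 + (G y / 4 - c)) ≤ Real.exp (G y / 4) := by
        have h4 : Real.exp (G y / 4) = Real.exp c * Real.exp (G y / 4 - c) := by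
          rw [← Real.exp_add]; congr 1; ring
        rw [h4]
        apply mul_le_mul_of_nonneg_left _ (Real.exp_pos _).le
        linarith [Real.add_one_le_exp (G y / 4 - c)]
      calc Real.exp c * (ψ y * (1 - c) + ψ y * G y / 4) = ψ y * (Real.exp c * (1 + (G y / 4 - c))) := by ring
        _ ≤ _ := mul_le_mul_of_nonneg_left h3 (hψ0 y)
    have h5 : ∫ y, Real.exp c * (ψ y * (1 - c) + ψ y * G y / 4) ∂ν = Real.exp c := by
      rw [integral_const_mul, integral_add (hψi.mul_const _) (hψGi.div_const _), integral_mul_const,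
        hψ1, integral_div, ← hc]
      ring
    rw [← h5]
    apply integral_mono _ hψei h2
    exact ((hψi.mul_const _).add (hψGi.div_const _)).const_mul _
  have h6 : ∫ y, ψ y * Real.exp (G y / 4) ∂ν ≤ M * ∫ y, Real.exp (G y / 4) ∂ν := by
    rw [← integral_const_mul]
    exact integral_mono hψei (hexpi.const_mul _) (fun y =>
      mul_le_mul_of_nonneg_right (hψM y) (Real.exp_pos _).le)
  have hpos : 0 < ∫ y, Real.exp (G y / 4) ∂ν := by
    have h7 : (1:ℝ) ≤ ∫ y, Real.exp (G y / 4) ∂ν := by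
      have : (1:ℝ) = ∫ y, (1:ℝ) ∂ν := by simp
      rw [this]
      exact integral_mono (integrable_const _) hexpi (fun y => Real.one_le_exp (by
        have := hG0 y; positivity))
    linarith
  have h8 : c ≤ Real.log (M * ∫ y, Real.exp (G y / 4) ∂ν) := by
    rw [Real.le_log_iff_exp_le (by positivity)]
    exact h1.trans h6
  rw [Real.log_mul hM.ne' hpos.ne'] at h8
  have : ∫ y, ψ y * G y ∂ν = 4 * c := by rw [hc]; ring
  rw [this]; linarith

/-- Cauchy-Schwarz with a weight, bounded functions. -/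
lemma cs_weight {Y : Type*} [MeasurableSpace Y] (ν : Measure Y) [IsProbabilityMeasure ν]
    (ψ U V : Y → ℝ) (hψm : Measurable ψ) (hψ0 : ∀ y, 0 ≤ ψ y) (M : ℝ)
    (hψM : ∀ y, ψ y ≤ M) (hU : Measurable U) (hU0 : ∀ y, 0 ≤ U y) (BU : ℝ) (hUB : ∀ y, U y ≤ BU)
    (hV : Measurable V) (hV0 : ∀ y, 0 ≤ V y) (BV : ℝ) (hVB : ∀ y, V y ≤ BV) :
    ∫ y, ψ y * (Real.sqrt (U y) * Real.sqrt (V y)) ∂ν ≤
      Real.sqrt (∫ y, ψ y * U y ∂ν) * Real.sqrt (∫ y, ψ y * V y ∂ν) := by
  have hint : ∀ F : Y → ℝ, Measurable F → ∀ K, (∀ y, |F y| ≤ K) → Integrable F ν := by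
    intro F hF K hK
    exact Integrable.of_bound hF.aestronglyMeasurable K (Filter.Eventually.of_forall hK)
  have hUi : Integrable (fun y => ψ y * U y) ν := hint _ (hψm.mul hU) (M * BU) (fun y => by
    rw [abs_mul, abs_of_nonneg (hψ0 y), abs_of_nonneg (hU0 y)]
    exact mul_le_mul (hψM y) (hUB y) (hU0 y) ((hψ0 y).trans (hψM y)))
  have hVi : Integrable (fun y => ψ y * V y) ν := hint _ (hψm.mul hV) (M * BV) (fun y => by
    rw [abs_mul, abs_of_nonneg (hψ0 y), abs_of_nonneg (hV0 y)]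
    exact mul_le_mul (hψM y) (hVB y) (hV0 y) ((hψ0 y).trans (hψM y)))
  have hUVi : Integrable (fun y => ψ y * (Real.sqrt (U y) * Real.sqrt (V y))) ν := by
    apply hint _ (hψm.mul ((hU.sqrt).mul (hV.sqrt))) (M * (Real.sqrt BU * Real.sqrt BV))
    intro y
    show |ψ y * (Real.sqrt (U y) * Real.sqrt (V y))| ≤ _
    rw [abs_of_nonneg (mul_nonneg (hψ0 y) (mul_nonneg (Real.sqrt_nonneg _) (Real.sqrt_nonneg _)))]
    exact mul_le_mul (hψM y) (mul_le_mul (Real.sqrt_le_sqrt (hUB y)) (Real.sqrt_le_sqrt (hVB y))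
      (Real.sqrt_nonneg _) (Real.sqrt_nonneg _)) (mul_nonneg (Real.sqrt_nonneg _) (Real.sqrt_nonneg _))
      ((hψ0 y).trans (hψM y))
  set a := ∫ y, ψ y * U y ∂ν with ha
  set b := ∫ y, ψ y * V y ∂ν with hb
  have ha0 : 0 ≤ a := integral_nonneg (fun y => mul_nonneg (hψ0 y) (hU0 y))
  have hb0 : 0 ≤ b := integral_nonneg (fun y => mul_nonneg (hψ0 y) (hV0 y))
  set z := ∫ y, ψ y * (Real.sqrt (U y) * Real.sqrt (V y)) ∂ν with hz
  have key : ∀ l : ℝ, 0 < l → 2 * z ≤ l * a + b / l := by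
    intro l hl
    have h1 : ∀ y, 2 * (ψ y * (Real.sqrt (U y) * Real.sqrt (V y))) ≤ l * (ψ y * U y) + (ψ y * V y) / l := by
      intro y
      have h2 : 2 * (Real.sqrt (U y) * Real.sqrt (V y)) ≤ l * U y + V y / l := by
        have h3 := Real.sq_sqrt (hU0 y)
        have h4 := Real.sq_sqrt (hV0 y)
        have h5 : 0 ≤ (l * Real.sqrt (U y) - Real.sqrt (V y)) ^ 2 / l := by positivity
        have h6 : (l * Real.sqrt (U y) - Real.sqrt (V y)) ^ 2 / l =
            l * Real.sqrt (U y) ^ 2 - 2 * (Real.sqrt (U y) * Real.sqrt (V y)) + Real.sqrt (V y) ^ 2 / l := by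
          field_simp
          ring
        rw [h6, h3, h4] at h5
        linarith
      calc 2 * (ψ y * (Real.sqrt (U y) * Real.sqrt (V y))) = ψ y * (2 * (Real.sqrt (U y) * Real.sqrt (V y))) := by ring
        _ ≤ ψ y * (l * U y + V y / l) := mul_le_mul_of_nonneg_left h2 (hψ0 y)
        _ = _ := by ring
    have h7 := integral_mono (hUVi.const_mul 2) ((hUi.const_mul l).add (hVi.div_const l)) h1
    rw [integral_const_mul] at h7
    have h8 : ∫ y, ((fun y => l * (ψ y * U y)) + fun y => ψ y * V y / l) y ∂ν = l * a + b / l := by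
      rw [integral_add' (hUi.const_mul l) (hVi.div_const l), integral_const_mul, integral_div]
    rw [h8] at h7
    exact h7
  rcases ha0.eq_or_lt with h0 | h0
  · -- a = 0
    rw [← h0, Real.sqrt_zero, zero_mul]
    by_contra hcon
    push Not at hcon
    have h1 := key ((b + 1) / z) (by positivity)
    rw [← h0, mul_zero, zero_add] at h1
    have h2 : b / ((b + 1) / z) = b / (b + 1) * z := by field_simp
    rw [h2] at h1
    have h3 : b / (b + 1) ≤ 1 := by rw [div_le_one (by positivity)]; linarith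
    nlinarith
  · rcases hb0.eq_or_lt with h0' | h0'
    · rw [← h0', Real.sqrt_zero, mul_zero]
      by_contra hcon
      push Not at hcon
      have h1 := key (z / (a + 1)) (by positivity)
      rw [← h0', zero_div, add_zero] at h1
      have h3 : z / (a + 1) * a ≤ z := by
        rw [div_mul_eq_mul_div, div_le_iff₀ (by positivity)]; nlinarith
      linarith
    · have h1 := key (Real.sqrt b / Real.sqrt a) (by positivity)
      have hsa : 0 < Real.sqrt a := Real.sqrt_pos.2 h0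
      have hsb : 0 < Real.sqrt b := Real.sqrt_pos.2 h0'
      have h2 : Real.sqrt b / Real.sqrt a * a = Real.sqrt a * Real.sqrt b := by
        nth_rewrite 2 [← Real.mul_self_sqrt h0.le]; field_simp
      have h3 : b / (Real.sqrt b / Real.sqrt a) = Real.sqrt a * Real.sqrt b := by
        nth_rewrite 1 [← Real.mul_self_sqrt h0'.le]; field_simp
      rw [h2, h3] at h1
      linarith

/-- characters -/
structure Ch {T κ : Type*} [AddCommGroup T] [MeasurableSpace T] (χ : κ → T → ℂ) : Prop where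
  meas : ∀ k, Measurable (χ k)
  norm_eq : ∀ k x, ‖χ k x‖ = 1
  map_add : ∀ k x y, χ k (x + y) = χ k x * χ k y

section
variable {T κ : Type*} [AddCommGroup T] [MeasurableSpace T] [DecidableEq κ] {χ : κ → T → ℂ}

lemma Ch.map_zero (h : Ch χ) (k : κ) : χ k 0 = 1 := by
  have h1 := h.map_add k 0 0
  rw [add_zero] at h1
  have h2 : χ k 0 ≠ 0 := by
    intro h3
    have := h.norm_eq k 0
    rw [h3] at this
    simp at this
  have h3 : χ k 0 * (χ k 0 - 1) = 0 := by rw [mul_sub, mul_one, ← h1]; ring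
  rcases mul_eq_zero.1 h3 with h4 | h4
  · exact absurd h4 h2
  · linear_combination h4

lemma Ch.dist_sub (h : Ch χ) (k : κ) (x s t : T) :
    ‖χ k (x - s) - χ k (x - t)‖ ^ 2 ≤ 2 * ‖χ k s - 1‖ ^ 2 + 2 * ‖χ k t - 1‖ ^ 2 := by
  have h1 : ∀ s, ‖χ k (x - s) - χ k x‖ = ‖χ k s - 1‖ := by
    intro s
    have h2 : χ k x = χ k (x - s) * χ k s := by rw [← h.map_add]; congr 1; abel
    rw [h2, ← mul_one_sub, norm_mul, h.norm_eq, one_mul, norm_sub_rev]
  have h3 : ‖χ k (x - s) - χ k (x - t)‖ ≤ ‖χ k s - 1‖ + ‖χ k t - 1‖ := by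
    calc ‖χ k (x - s) - χ k (x - t)‖ = ‖(χ k (x - s) - χ k x) - (χ k (x - t) - χ k x)‖ := by
          congr 1; ring
      _ ≤ ‖χ k (x - s) - χ k x‖ + ‖χ k (x - t) - χ k x‖ := norm_sub_le _ _
      _ = _ := by rw [h1, h1]
  have h4 : ‖χ k (x - s) - χ k (x - t)‖ ^ 2 ≤ (‖χ k s - 1‖ + ‖χ k t - 1‖) ^ 2 :=
    pow_le_pow_left₀ (norm_nonneg _) h3 2
  nlinarith [sq_nonneg (‖χ k s - 1‖ - ‖χ k t - 1‖)]

/-- the random polynomial restricted to the set `c` of frequencies -/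
noncomputable def ff (χ : κ → T → ℂ) (a X : κ → ℂ) (c : Finset κ) (x : T) : ℂ :=
  ∑ k ∈ c, a k * X k * χ k x

/-- squared distance for a pair of frequency sets -/
noncomputable def Dsq (χ : κ → T → ℂ) (a : κ → ℂ) (c c' : Finset κ) (y z : T) : ℝ :=
  ∑ k ∈ c ∪ c', ‖a k‖ ^ 2 * ‖(if k ∈ c then χ k y else 0) - (if k ∈ c' then χ k z else 0)‖ ^ 2

lemma Dsq_nonneg (a : κ → ℂ) (c c' : Finset κ) (y z : T) : 0 ≤ Dsq χ a c c' y z :=
  Finset.sum_nonneg (fun _ _ => by positivity)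

lemma ff_sub (a X : κ → ℂ) (c c' : Finset κ) (y z : T) :
    ff χ a X c y - ff χ a X c' z =
      ∑ k ∈ c ∪ c', (a k * ((if k ∈ c then χ k y else 0) - (if k ∈ c' then χ k z else 0))) * X k := by
  unfold ff
  have h1 : ∑ k ∈ c, a k * X k * χ k y = ∑ k ∈ c ∪ c', if k ∈ c then a k * X k * χ k y else 0 := by
    rw [← Finset.sum_filter]
    congr 1
    ext k; simp
  have h2 : ∑ k ∈ c', a k * X k * χ k z = ∑ k ∈ c ∪ c', if k ∈ c' then a k * X k * χ k z else 0 := by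
    rw [← Finset.sum_filter]
    congr 1
    ext k; simp
  rw [h1, h2, ← Finset.sum_sub_distrib]
  refine Finset.sum_congr rfl (fun k _ => ?_)
  split_ifs <;> ring

lemma norm_ff_sub_sq (a X : κ → ℂ) (hX : ∀ k, ‖X k‖ ≤ 1) (c c' : Finset κ) (y z : T) :
    ‖ff χ a X c y - ff χ a X c' z‖ ^ 2 ≤ (c ∪ c').card * Dsq χ a c c' y z := by
  rw [ff_sub]
  have h1 : ‖∑ k ∈ c ∪ c', (a k * ((if k ∈ c then χ k y else 0) - (if k ∈ c' then χ k z else 0))) * X k‖ ≤
      ∑ k ∈ c ∪ c', ‖a k‖ * ‖(if k ∈ c then χ k y else 0) - (if k ∈ c' then χ k z else 0)‖ := by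
    refine (norm_sum_le _ _).trans (Finset.sum_le_sum (fun k _ => ?_))
    rw [norm_mul, norm_mul]
    calc _ ≤ ‖a k‖ * ‖(if k ∈ c then χ k y else 0) - (if k ∈ c' then χ k z else 0)‖ * 1 :=
          mul_le_mul_of_nonneg_left (hX k) (by positivity)
      _ = _ := mul_one _
  calc _ ≤ (∑ k ∈ c ∪ c', ‖a k‖ * ‖(if k ∈ c then χ k y else 0) - (if k ∈ c' then χ k z else 0)‖) ^ 2 :=
        pow_le_pow_left₀ (norm_nonneg _) h1 2
    _ ≤ (c ∪ c').card * ∑ k ∈ c ∪ c', (‖a k‖ * ‖(if k ∈ c then χ k y else 0) -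
          (if k ∈ c' then χ k z else 0)‖) ^ 2 := sq_sum_le_card_mul_sum_sq
    _ = _ := by
        congr 1
        unfold Dsq
        exact Finset.sum_congr rfl (fun k _ => by ring)

/-- normalised square -/
noncomputable def gg (χ : κ → T → ℂ) (a X : κ → ℂ) (c c' : Finset κ) (y z : T) : ℝ :=
  ‖ff χ a X c y - ff χ a X c' z‖ ^ 2 / Dsq χ a c c' y z

lemma gg_nonneg (a X : κ → ℂ) (c c' : Finset κ) (y z : T) : 0 ≤ gg χ a X c c' y z :=
  div_nonneg (sq_nonneg _) (Dsq_nonneg _ _ _ _ _)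

lemma gg_le (a X : κ → ℂ) (hX : ∀ k, ‖X k‖ ≤ 1) (c c' : Finset κ) (y z : T) :
    gg χ a X c c' y z ≤ (c ∪ c').card := by
  unfold gg
  rcases (Dsq_nonneg (χ := χ) a c c' y z).eq_or_lt with h | h
  · rw [← h, div_zero]; positivity
  · rw [div_le_iff₀ h]; exact norm_ff_sub_sq a X hX c c' y z

lemma gg_mul (a X : κ → ℂ) (hX : ∀ k, ‖X k‖ ≤ 1) (c c' : Finset κ) (y z : T) :
    ‖ff χ a X c y - ff χ a X c' z‖ = Real.sqrt (Dsq χ a c c' y z) * Real.sqrt (gg χ a X c c' y z) := by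
  rw [← Real.sqrt_mul (Dsq_nonneg _ _ _ _ _)]
  have : Dsq χ a c c' y z * gg χ a X c c' y z = ‖ff χ a X c y - ff χ a X c' z‖ ^ 2 := by
    unfold gg
    rcases (Dsq_nonneg (χ := χ) a c c' y z).eq_or_lt with h | h
    · have := norm_ff_sub_sq (χ := χ) a X hX c c' y z
      rw [← h, mul_zero] at this
      rw [← h, zero_mul]
      exact (le_antisymm this (sq_nonneg _)).symm
    · rw [mul_div_cancel₀ _ h.ne']
  rw [this, Real.sqrt_sq (norm_nonneg _)]

/-- energy of a set of frequencies -/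
noncomputable def en (a : κ → ℂ) (c : Finset κ) : ℝ := ∑ k ∈ c, ‖a k‖ ^ 2

lemma en_nonneg (a : κ → ℂ) (c : Finset κ) : 0 ≤ en a c := Finset.sum_nonneg (fun _ _ => sq_nonneg _)

lemma en_mono (a : κ → ℂ) {c c' : Finset κ} (h : c ⊆ c') : en a c ≤ en a c' :=
  Finset.sum_le_sum_of_subset_of_nonneg h (fun _ _ _ => sq_nonneg _)

/-- squared metric of a set of frequencies -/
noncomputable def dm (χ : κ → T → ℂ) (a : κ → ℂ) (B : Finset κ) (s : T) : ℝ :=
  ∑ k ∈ B, ‖a k‖ ^ 2 * ‖χ k s - 1‖ ^ 2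

lemma dm_nonneg (a : κ → ℂ) (B : Finset κ) (s : T) : 0 ≤ dm χ a B s :=
  Finset.sum_nonneg (fun _ _ => by positivity)

lemma dm_le (h : Ch χ) (a : κ → ℂ) (B : Finset κ) (s : T) : dm χ a B s ≤ 4 * en a B := by
  unfold dm en
  rw [Finset.mul_sum]
  apply Finset.sum_le_sum
  intro k _
  have h1 : ‖χ k s - 1‖ ≤ 2 := by
    calc ‖χ k s - 1‖ ≤ ‖χ k s‖ + ‖(1:ℂ)‖ := norm_sub_le _ _
      _ = 2 := by rw [h.norm_eq]; simp; norm_num
  have h2 : ‖χ k s - 1‖ ^ 2 ≤ 2 ^ 2 := pow_le_pow_left₀ (norm_nonneg _) h1 2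
  nlinarith [sq_nonneg ‖a k‖]

lemma Dsq_le (h : Ch χ) (a : κ → ℂ) (c c' B : Finset κ) (hc : c ⊆ B) (x s t : T) :
    Dsq χ a c c' (x - s) (x - t) ≤ (en a (c \ c') + en a (c' \ c)) + 2 * dm χ a B s + 2 * dm χ a B t := by
  have h1 : Dsq χ a c c' (x - s) (x - t) =
      en a (c \ c') + en a (c' \ c) + ∑ k ∈ c ∩ c', ‖a k‖ ^ 2 * ‖χ k (x - s) - χ k (x - t)‖ ^ 2 := by
    unfold Dsq en
    have hu : c ∪ c' = (c \ c') ∪ ((c' \ c) ∪ (c ∩ c')) := by
      ext k; simp only [Finset.mem_union, Finset.mem_sdiff, Finset.mem_inter]; tauto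
    have hd1 : Disjoint (c \ c') ((c' \ c) ∪ (c ∩ c')) := by
      rw [Finset.disjoint_left]; intro k; simp only [Finset.mem_union, Finset.mem_sdiff, Finset.mem_inter]; tauto
    have hd2 : Disjoint (c' \ c) (c ∩ c') := by
      rw [Finset.disjoint_left]; intro k; simp only [Finset.mem_sdiff, Finset.mem_inter]; tauto
    rw [hu, Finset.sum_union hd1, Finset.sum_union hd2, add_assoc]
    congr 1
    · refine Finset.sum_congr rfl (fun k hk => ?_)
      rw [Finset.mem_sdiff] at hk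
      rw [if_pos hk.1, if_neg hk.2, sub_zero, h.norm_eq]; ring
    · congr 1
      · refine Finset.sum_congr rfl (fun k hk => ?_)
        rw [Finset.mem_sdiff] at hk
        rw [if_neg hk.2, if_pos hk.1, zero_sub, norm_neg, h.norm_eq]; ring
      · refine Finset.sum_congr rfl (fun k hk => ?_)
        rw [Finset.mem_inter] at hk
        rw [if_pos hk.1, if_pos hk.2]
  rw [h1]
  have h2 : ∑ k ∈ c ∩ c', ‖a k‖ ^ 2 * ‖χ k (x - s) - χ k (x - t)‖ ^ 2 ≤
      2 * dm χ a B s + 2 * dm χ a B t := by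
    calc ∑ k ∈ c ∩ c', ‖a k‖ ^ 2 * ‖χ k (x - s) - χ k (x - t)‖ ^ 2
        ≤ ∑ k ∈ c ∩ c', (2 * (‖a k‖ ^ 2 * ‖χ k s - 1‖ ^ 2) + 2 * (‖a k‖ ^ 2 * ‖χ k t - 1‖ ^ 2)) := by
          apply Finset.sum_le_sum
          intro k _
          have := h.dist_sub k x s t
          nlinarith [sq_nonneg ‖a k‖]
      _ ≤ ∑ k ∈ B, (2 * (‖a k‖ ^ 2 * ‖χ k s - 1‖ ^ 2) + 2 * (‖a k‖ ^ 2 * ‖χ k t - 1‖ ^ 2)) := by
          apply Finset.sum_le_sum_of_subset_of_nonneg
          · exact Finset.inter_subset_left.trans hc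
          · intro k _ _; positivity
      _ = _ := by
          unfold dm
          rw [Finset.sum_add_distrib, Finset.mul_sum, Finset.mul_sum]
  linarith

end

end H59.RB
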