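import Pool.Agent.H59.BMOA.Chain

/-! PAC-Bayes chaining: the level inequality and the full chain. -/

namespace H59.RB

set_option linter.unusedSectionVars false

open Finset BigOperators MeasureTheory

/-- bounded probability densities -/
structure Dens {T : Type*} [MeasurableSpace T] (μ : Measure T) (φ : T → ℝ) (M : ℝ) : Prop where
  meas : Measurable φ
  nonneg : ∀ s, 0 ≤ φ s
  le : ∀ s, φ s ≤ M
  one : ∫ s, φ s ∂μ = 1

section
variable {T κ : Type*} [AddCommGroup T] [MeasurableSpace T] [MeasurableAdd₂ T] [MeasurableNeg T]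
  [DecidableEq κ] {χ : κ → T → ℂ}
variable (μ : Measure T) [IsProbabilityMeasure μ] [μ.IsAddLeftInvariant] [μ.IsNegInvariant]

lemma Dens.integrable {φ : T → ℝ} {M : ℝ} (h : Dens μ φ M) : Integrable φ μ :=
  Integrable.of_bound h.meas.aestronglyMeasurable M (Filter.Eventually.of_forall (fun s => by
    rw [Real.norm_eq_abs, abs_of_nonneg (h.nonneg s)]; exact h.le s))

/-- averaged squared metric -/
noncomputable def PP (χ : κ → T → ℂ) (a : κ → ℂ) (φ : T → ℝ) (B : Finset κ) : ℝ :=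
  ∫ s, φ s * dm χ a B s ∂μ

lemma measurable_ff (h : Ch χ) (a X : κ → ℂ) (c : Finset κ) : Measurable (ff χ a X c) := by
  unfold ff
  exact Finset.measurable_sum _ (fun k _ => (h.meas k).const_mul _)

lemma measurable_dm (h : Ch χ) (a : κ → ℂ) (B : Finset κ) : Measurable (dm χ a B) := by
  unfold dm
  exact Finset.measurable_sum _ (fun k _ => (((h.meas k).sub_const 1).norm.pow_const 2).const_mul _)

lemma measurable_Dsq (h : Ch χ) (a : κ → ℂ) (c c' : Finset κ) :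
    Measurable (fun p : T × T => Dsq χ a c c' p.1 p.2) := by
  unfold Dsq
  apply Finset.measurable_sum
  intro k _
  apply Measurable.const_mul
  apply Measurable.pow_const
  apply Measurable.norm
  apply Measurable.sub
  · split_ifs
    · exact (h.meas k).comp measurable_fst
    · exact measurable_const
  · split_ifs
    · exact (h.meas k).comp measurable_snd
    · exact measurable_const

lemma measurable_gg (h : Ch χ) (a X : κ → ℂ) (c c' : Finset κ) :
    Measurable (fun p : T × T => gg χ a X c c' p.1 p.2) := by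
  unfold gg
  apply Measurable.div
  · exact ((((measurable_ff h a X c).comp measurable_fst).sub
      ((measurable_ff h a X c').comp measurable_snd)).norm.pow_const 2)
  · exact measurable_Dsq h a c c'

lemma norm_ff_le (h : Ch χ) (a X : κ → ℂ) (hX : ∀ k, ‖X k‖ ≤ 1) (c : Finset κ) (x : T) :
    ‖ff χ a X c x‖ ≤ ∑ k ∈ c, ‖a k‖ := by
  unfold ff
  refine (norm_sum_le _ _).trans (Finset.sum_le_sum (fun k _ => ?_))
  rw [norm_mul, norm_mul, h.norm_eq, mul_one]
  calc ‖a k‖ * ‖X k‖ ≤ ‖a k‖ * 1 := mul_le_mul_of_nonneg_left (hX k) (norm_nonneg _)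
    _ = _ := mul_one _

lemma PP_nonneg (a : κ → ℂ) {φ : T → ℝ} {M : ℝ} (hφ : Dens μ φ M) (B : Finset κ) :
    0 ≤ PP μ χ a φ B := integral_nonneg (fun s => mul_nonneg (hφ.nonneg s) (dm_nonneg _ _ _))

lemma integrable_mul_bdd {φ : T → ℝ} {M : ℝ} (hφ : Dens μ φ M) (f : T → ℂ) (hf : Measurable f)
    (K : ℝ) (hK : ∀ s, ‖f s‖ ≤ K) : Integrable (fun s => (φ s : ℂ) * f s) μ := by
  apply Integrable.of_bound (((Complex.measurable_ofReal.comp hφ.meas).mul hf).aestronglyMeasurable)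
    (M * K)
  apply Filter.Eventually.of_forall
  intro s
  show ‖(φ s : ℂ) * f s‖ ≤ M * K
  rw [norm_mul, Complex.norm_real, Real.norm_eq_abs, abs_of_nonneg (hφ.nonneg s)]
  exact mul_le_mul (hφ.le s) (hK s) (norm_nonneg _) ((hφ.nonneg s).trans (hφ.le s))

lemma integrable_mul_bdd_real {φ : T → ℝ} {M : ℝ} (hφ : Dens μ φ M) (f : T → ℝ) (hf : Measurable f)
    (K : ℝ) (hK : ∀ s, |f s| ≤ K) : Integrable (fun s => φ s * f s) μ := by
  apply Integrable.of_bound ((hφ.meas.mul hf).aestronglyMeasurable) (M * K)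
  apply Filter.Eventually.of_forall
  intro s
  show ‖φ s * f s‖ ≤ M * K
  rw [Real.norm_eq_abs, abs_mul, abs_of_nonneg (hφ.nonneg s)]
  exact mul_le_mul (hφ.le s) (hK s) (abs_nonneg _) ((hφ.nonneg s).trans (hφ.le s))

attribute [local irreducible] Dsq gg

lemma bdd_int {Y E : Type*} [MeasurableSpace Y] [NormedAddCommGroup E] [MeasurableSpace E]
    [BorelSpace E] [SecondCountableTopology E] (ν : Measure Y) [IsProbabilityMeasure ν] {F : Y → E}
    (hF : Measurable F) (K : ℝ) (hK : ∀ y, ‖F y‖ ≤ K) : Integrable F ν :=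
  Integrable.of_bound hF.aestronglyMeasurable K (Filter.Eventually.of_forall hK)

/-- abstract level inequality -/
lemma level_abs {Y ι : Type*} [MeasurableSpace Y] (ν : Measure Y) [IsProbabilityMeasure ν]
    (ψ : Y → ℝ) (hψm : Measurable ψ) (hψ0 : ∀ y, 0 ≤ ψ y) (M : ℝ) (hM : 0 < M)
    (hψM : ∀ y, ψ y ≤ M) (J : Finset ι) (v : ι → ℂ) (Z : ι → Y → ℂ) (D g : ι → Y → ℝ)
    (hZm : ∀ j, Measurable (Z j)) (hDm : ∀ j, Measurable (D j)) (hgm : ∀ j, Measurable (g j))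
    (hD0 : ∀ j y, 0 ≤ D j y) (hg0 : ∀ j y, 0 ≤ g j y) (BD Bg : ι → ℝ)
    (hDB : ∀ j y, D j y ≤ BD j) (hgB : ∀ j y, g j y ≤ Bg j)
    (hZ : ∀ j y, ‖Z j y‖ = Real.sqrt (D j y) * Real.sqrt (g j y)) :
    ‖∑ j ∈ J, v j * ∫ y, (ψ y : ℂ) * Z j y ∂ν‖ ≤
      Real.sqrt (∑ j ∈ J, ‖v j‖ ^ 2 * ∫ y, ψ y * D j y ∂ν) *
        Real.sqrt (∫ y, ψ y * ∑ j ∈ J, g j y ∂ν) := by
  set U : Y → ℝ := fun y => ∑ j ∈ J, ‖v j‖ ^ 2 * D j y with hU
  set V : Y → ℝ := fun y => ∑ j ∈ J, g j y with hV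
  have hUm : Measurable U := Finset.measurable_sum _ (fun j _ => (hDm j).const_mul _)
  have hVm : Measurable V := Finset.measurable_sum _ (fun j _ => hgm j)
  have hU0 : ∀ y, 0 ≤ U y := fun y => Finset.sum_nonneg (fun j _ => mul_nonneg (sq_nonneg _) (hD0 j y))
  have hV0 : ∀ y, 0 ≤ V y := fun y => Finset.sum_nonneg (fun j _ => hg0 j y)
  have hUB : ∀ y, U y ≤ ∑ j ∈ J, ‖v j‖ ^ 2 * BD j := fun y =>
    Finset.sum_le_sum (fun j _ => mul_le_mul_of_nonneg_left (hDB j y) (sq_nonneg _))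
  have hVB : ∀ y, V y ≤ ∑ j ∈ J, Bg j := fun y => Finset.sum_le_sum (fun j _ => hgB j y)
  have hZb : ∀ j y, ‖(ψ y : ℂ) * Z j y‖ ≤ M * (Real.sqrt (BD j) * Real.sqrt (Bg j)) := by
    intro j y
    rw [norm_mul, Complex.norm_real, Real.norm_eq_abs, abs_of_nonneg (hψ0 y), hZ]
    exact mul_le_mul (hψM y) (mul_le_mul (Real.sqrt_le_sqrt (hDB j y)) (Real.sqrt_le_sqrt (hgB j y))
      (Real.sqrt_nonneg _) (Real.sqrt_nonneg _)) (mul_nonneg (Real.sqrt_nonneg _) (Real.sqrt_nonneg _)) hM.le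
  have hZi : ∀ j, Integrable (fun y => (ψ y : ℂ) * Z j y) ν := fun j =>
    bdd_int ν ((Complex.measurable_ofReal.comp hψm).mul (hZm j)) _ (hZb j)
  have hpt : ∀ y, ‖∑ j ∈ J, v j * Z j y‖ ≤ Real.sqrt (U y) * Real.sqrt (V y) := by
    intro y
    calc ‖∑ j ∈ J, v j * Z j y‖
        ≤ ∑ j ∈ J, Real.sqrt (‖v j‖ ^ 2 * D j y) * Real.sqrt (g j y) := by
          refine (norm_sum_le _ _).trans (le_of_eq (Finset.sum_congr rfl (fun j _ => ?_)))
          rw [norm_mul, hZ, Real.sqrt_mul (sq_nonneg _), Real.sqrt_sq (norm_nonneg _)]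
          ring
      _ ≤ _ := Real.sum_sqrt_mul_sqrt_le _ (fun j => mul_nonneg (sq_nonneg _) (hD0 j y))
          (fun j => hg0 j y)
  have e3 : ∑ j ∈ J, v j * ∫ y, (ψ y : ℂ) * Z j y ∂ν =
      ∫ y, (ψ y : ℂ) * ∑ j ∈ J, v j * Z j y ∂ν := by
    have e4 : ∀ y, (ψ y : ℂ) * ∑ j ∈ J, v j * Z j y = ∑ j ∈ J, v j * ((ψ y : ℂ) * Z j y) := by
      intro y
      rw [Finset.mul_sum]
      exact Finset.sum_congr rfl (fun j _ => by ring)
    simp only [e4]
    rw [integral_finsetSum _ (fun j _ => (hZi j).const_mul _)]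
    refine Finset.sum_congr rfl (fun j _ => ?_)
    rw [integral_const_mul]
  have h1 : ‖∑ j ∈ J, v j * ∫ y, (ψ y : ℂ) * Z j y ∂ν‖ ≤
      ∫ y, ψ y * (Real.sqrt (U y) * Real.sqrt (V y)) ∂ν := by
    rw [e3]
    refine (norm_integral_le_integral_norm _).trans ?_
    apply integral_mono_of_nonneg (Filter.Eventually.of_forall (fun _ => norm_nonneg _))
    · apply bdd_int ν (hψm.mul ((hUm.sqrt).mul hVm.sqrt))
        (M * (Real.sqrt (∑ j ∈ J, ‖v j‖ ^ 2 * BD j) * Real.sqrt (∑ j ∈ J, Bg j)))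
      intro y
      show ‖ψ y * (Real.sqrt (U y) * Real.sqrt (V y))‖ ≤ _
      rw [Real.norm_eq_abs, abs_of_nonneg (mul_nonneg (hψ0 y) (mul_nonneg (Real.sqrt_nonneg _) (Real.sqrt_nonneg _)))]
      exact mul_le_mul (hψM y) (mul_le_mul (Real.sqrt_le_sqrt (hUB y)) (Real.sqrt_le_sqrt (hVB y))
        (Real.sqrt_nonneg _) (Real.sqrt_nonneg _)) (mul_nonneg (Real.sqrt_nonneg _) (Real.sqrt_nonneg _))
        hM.le
    · apply Filter.Eventually.of_forall
      intro y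
      show ‖(ψ y : ℂ) * ∑ j ∈ J, v j * Z j y‖ ≤ _
      rw [norm_mul, Complex.norm_real, Real.norm_eq_abs, abs_of_nonneg (hψ0 y)]
      exact mul_le_mul_of_nonneg_left (hpt y) (hψ0 y)
  refine h1.trans ((cs_weight ν ψ U V hψm hψ0 M hψM hUm hU0 _ hUB hVm hV0 _ hVB).trans ?_)
  apply mul_le_mul_of_nonneg_right _ (Real.sqrt_nonneg _)
  apply Real.sqrt_le_sqrt
  apply le_of_eq
  have e5 : ∀ y, ψ y * U y = ∑ j ∈ J, ‖v j‖ ^ 2 * (ψ y * D j y) := by
    intro y
    simp only [hU]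
    rw [Finset.mul_sum]
    exact Finset.sum_congr rfl (fun j _ => by ring)
  simp only [e5]
  rw [integral_finsetSum]
  · exact Finset.sum_congr rfl (fun j _ => integral_const_mul _ _)
  · intro j _
    apply Integrable.const_mul
    apply bdd_int ν (hψm.mul (hDm j)) (M * BD j)
    intro y
    show ‖ψ y * D j y‖ ≤ _
    rw [Real.norm_eq_abs, abs_of_nonneg (mul_nonneg (hψ0 y) (hD0 j y))]
    exact mul_le_mul (hψM y) (hDB j y) (hD0 j y) hM.le

lemma rep_diff {φ φ' : T → ℝ} {M M' : ℝ} (hφ : Dens μ φ M) (hφ' : Dens μ φ' M')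
    (f g : T → ℂ) (hf : Measurable f) (hg : Measurable g) (Kf Kg : ℝ) (hKf : ∀ s, ‖f s‖ ≤ Kf)
    (hKg : ∀ s, ‖g s‖ ≤ Kg) :
    (∫ s, (φ s : ℂ) * f s ∂μ) - ∫ t, (φ' t : ℂ) * g t ∂μ =
      ∫ p : T × T, ((φ p.1 * φ' p.2 : ℝ) : ℂ) * (f p.1 - g p.2) ∂(μ.prod μ) := by
  have i1 : Integrable (fun s => (φ s : ℂ) * f s) μ := integrable_mul_bdd μ hφ f hf Kf hKf
  have i2 : Integrable (fun s => (φ' s : ℂ) * g s) μ := integrable_mul_bdd μ hφ' g hg Kg hKg
  have i3 : Integrable (fun s => (φ s : ℂ)) μ := (hφ.integrable μ).ofReal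
  have i4 : Integrable (fun s => (φ' s : ℂ)) μ := (hφ'.integrable μ).ofReal
  have e1 : ∫ p : T × T, ((φ p.1 : ℂ) * f p.1) * (φ' p.2 : ℂ) ∂(μ.prod μ) =
      ∫ s, (φ s : ℂ) * f s ∂μ := by
    rw [integral_prod_mul (fun s => (φ s : ℂ) * f s) (fun t => (φ' t : ℂ)),
      integral_complex_ofReal, hφ'.one]
    simp
  have e2 : ∫ p : T × T, (φ p.1 : ℂ) * ((φ' p.2 : ℂ) * g p.2) ∂(μ.prod μ) =
      ∫ t, (φ' t : ℂ) * g t ∂μ := by
    rw [integral_prod_mul (fun s => (φ s : ℂ)) (fun t => (φ' t : ℂ) * g t),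
      integral_complex_ofReal, hφ.one]
    simp
  rw [← e1, ← e2, ← integral_sub (i1.mul_prod i4) (i3.mul_prod i2)]
  refine integral_congr_ae (Filter.Eventually.of_forall (fun p => ?_))
  simp only []
  push_cast
  ring

lemma int_PP1 (a : κ → ℂ) {φ φ' : T → ℝ} {M' : ℝ} (hφ' : Dens μ φ' M') (B : Finset κ) :
    ∫ p : T × T, (φ p.1 * φ' p.2) * dm χ a B p.1 ∂(μ.prod μ) = PP μ χ a φ B := by
  have : ∀ p : T × T, (φ p.1 * φ' p.2) * dm χ a B p.1 = (φ p.1 * dm χ a B p.1) * φ' p.2 := by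
    intro p; ring
  simp only [this]
  rw [integral_prod_mul (fun s => φ s * dm χ a B s) φ', hφ'.one, mul_one]
  rfl

lemma int_PP2 (a : κ → ℂ) {φ φ' : T → ℝ} {M : ℝ} (hφ : Dens μ φ M) (B : Finset κ) :
    ∫ p : T × T, (φ p.1 * φ' p.2) * dm χ a B p.2 ∂(μ.prod μ) = PP μ χ a φ' B := by
  have : ∀ p : T × T, (φ p.1 * φ' p.2) * dm χ a B p.2 = φ p.1 * (φ' p.2 * dm χ a B p.2) := by
    intro p; ring
  simp only [this]
  rw [integral_prod_mul φ (fun s => φ' s * dm χ a B s), hφ.one, one_mul]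
  rfl

lemma int_Dsq_le (h : Ch χ) (a : κ → ℂ) {φ φ' : T → ℝ} {M M' : ℝ} (hM : 0 < M) (hM' : 0 < M')
    (hφ : Dens μ φ M) (hφ' : Dens μ φ' M') (c c' B : Finset κ) (hc : c ⊆ B) (x : T) :
    ∫ p : T × T, (φ p.1 * φ' p.2) * Dsq χ a c c' (x - p.1) (x - p.2) ∂(μ.prod μ) ≤
      (en a (c \ c') + en a (c' \ c)) + 2 * PP μ χ a φ B + 2 * PP μ χ a φ' B := by
  have hψm : Measurable (fun p : T × T => φ p.1 * φ' p.2) :=
    (hφ.meas.comp measurable_fst).mul (hφ'.meas.comp measurable_snd)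
  have hψ0 : ∀ p : T × T, 0 ≤ φ p.1 * φ' p.2 := fun p => mul_nonneg (hφ.nonneg _) (hφ'.nonneg _)
  have hψM : ∀ p : T × T, φ p.1 * φ' p.2 ≤ M * M' := fun p =>
    mul_le_mul (hφ.le _) (hφ'.le _) (hφ'.nonneg _) hM.le
  have hb : ∀ F : T × T → ℝ, Measurable F → ∀ K, (∀ p, 0 ≤ F p) → (∀ p, F p ≤ K) →
      Integrable (fun p : T × T => (φ p.1 * φ' p.2) * F p) (μ.prod μ) := by
    intro F hF K h0 hK
    apply bdd_int (μ.prod μ) (hψm.mul hF) (M * M' * K)
    intro p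
    show ‖(φ p.1 * φ' p.2) * F p‖ ≤ _
    rw [Real.norm_eq_abs, abs_of_nonneg (mul_nonneg (hψ0 p) (h0 p))]
    exact mul_le_mul (hψM p) (hK p) (h0 p) (by positivity)
  have i1 := hb (fun p => dm χ a B p.1) ((measurable_dm h a B).comp measurable_fst) _
    (fun p => dm_nonneg _ _ _) (fun p => dm_le h a B p.1)
  have i2 := hb (fun p => dm χ a B p.2) ((measurable_dm h a B).comp measurable_snd) _
    (fun p => dm_nonneg _ _ _) (fun p => dm_le h a B p.2)
  have i0 : Integrable (fun p : T × T => φ p.1 * φ' p.2) (μ.prod μ) := by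
    have := hb (fun _ => 1) measurable_const 1 (fun _ => zero_le_one) (fun _ => le_rfl)
    simpa using this
  have hflip : Measurable (fun p : T × T => (x - p.1, x - p.2)) :=
    (measurable_const.sub measurable_fst).prodMk (measurable_const.sub measurable_snd)
  have i3 := hb (fun p => Dsq χ a c c' (x - p.1) (x - p.2)) ((measurable_Dsq h a c c').comp hflip)
    ((en a (c \ c') + en a (c' \ c)) + 2 * (4 * en a B) + 2 * (4 * en a B))
    (fun p => Dsq_nonneg a c c' (x - p.1) (x - p.2)) (fun p => by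
      have h0 := Dsq_le h a c c' B hc x p.1 p.2
      have h1 := dm_le h a B p.1
      have h2 := dm_le h a B p.2
      show Dsq χ a c c' (x - p.1) (x - p.2) ≤ _
      linarith)
  set E := en a (c \ c') + en a (c' \ c) with hE
  have hψ1 : ∫ p : T × T, φ p.1 * φ' p.2 ∂(μ.prod μ) = 1 := by
    rw [integral_prod_mul, hφ.one, hφ'.one, one_mul]
  have j1 : Integrable (fun p : T × T => E * (φ p.1 * φ' p.2) + 2 * ((φ p.1 * φ' p.2) * dm χ a B p.1))
      (μ.prod μ) := (i0.const_mul E).add (i1.const_mul 2)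
  have j2 : Integrable (fun p : T × T => E * (φ p.1 * φ' p.2) + 2 * ((φ p.1 * φ' p.2) * dm χ a B p.1) +
      2 * ((φ p.1 * φ' p.2) * dm χ a B p.2)) (μ.prod μ) := j1.add (i2.const_mul 2)
  calc ∫ p : T × T, (φ p.1 * φ' p.2) * Dsq χ a c c' (x - p.1) (x - p.2) ∂(μ.prod μ)
      ≤ ∫ p : T × T, (E * (φ p.1 * φ' p.2) + 2 * ((φ p.1 * φ' p.2) * dm χ a B p.1) +
        2 * ((φ p.1 * φ' p.2) * dm χ a B p.2)) ∂(μ.prod μ) := by
        apply integral_mono i3 j2
        intro p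
        simp only []
        calc _ ≤ (φ p.1 * φ' p.2) * (E + 2 * dm χ a B p.1 + 2 * dm χ a B p.2) :=
              mul_le_mul_of_nonneg_left (Dsq_le h a c c' B hc x p.1 p.2) (hψ0 p)
          _ = _ := by ring
    _ = _ := by
        rw [integral_add j1 (i2.const_mul 2),
          integral_add (i0.const_mul E) (i1.const_mul 2), integral_const_mul,
          integral_const_mul, integral_const_mul, hψ1, int_PP1 μ a hφ', int_PP2 μ a hφ, mul_one]

/-- The level inequality. -/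
theorem level_ineq (h : Ch χ) (a X : κ → ℂ) (hX : ∀ k, ‖X k‖ ≤ 1) {ι : Type*} (J : Finset ι)
    (c c' B : ι → Finset κ) (hcB : ∀ j, c j ⊆ B j) (v : ι → ℂ)
    {φ φ' : T → ℝ} {M M' : ℝ} (hM : 0 < M) (hM' : 0 < M') (hφ : Dens μ φ M) (hφ' : Dens μ φ' M')
    (x : T) :
    ‖∑ j ∈ J, v j * ((∫ s, (φ s : ℂ) * ff χ a X (c j) (x - s) ∂μ) -
        ∫ t, (φ' t : ℂ) * ff χ a X (c' j) (x - t) ∂μ)‖ ≤
      Real.sqrt (∑ j ∈ J, ‖v j‖ ^ 2 * ((en a (c j \ c' j) + en a (c' j \ c j)) +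
        2 * PP μ χ a φ (B j) + 2 * PP μ χ a φ' (B j))) *
      Real.sqrt (4 * (Real.log (M * M') + Real.log (∫ p : T × T, Real.exp
        ((∑ j ∈ J, gg χ a X (c j) (c' j) p.1 p.2) / 4) ∂(μ.prod μ)))) := by
  set ψ : T × T → ℝ := fun p => φ p.1 * φ' p.2 with hψ
  have hψm : Measurable ψ := (hφ.meas.comp measurable_fst).mul (hφ'.meas.comp measurable_snd)
  have hψ0 : ∀ p, 0 ≤ ψ p := fun p => mul_nonneg (hφ.nonneg _) (hφ'.nonneg _)
  have hψM : ∀ p, ψ p ≤ M * M' := fun p => mul_le_mul (hφ.le _) (hφ'.le _) (hφ'.nonneg _) hM.le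
  have hψ1 : ∫ p, ψ p ∂(μ.prod μ) = 1 := by
    rw [hψ, integral_prod_mul, hφ.one, hφ'.one, one_mul]
  have hflip : Measurable (fun p : T × T => (x - p.1, x - p.2)) :=
    (measurable_const.sub measurable_fst).prodMk (measurable_const.sub measurable_snd)
  have hrep : ∀ j, (∫ s, (φ s : ℂ) * ff χ a X (c j) (x - s) ∂μ) -
        ∫ t, (φ' t : ℂ) * ff χ a X (c' j) (x - t) ∂μ =
      ∫ p : T × T, (ψ p : ℂ) * (ff χ a X (c j) (x - p.1) - ff χ a X (c' j) (x - p.2)) ∂(μ.prod μ) := by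
    intro j
    exact rep_diff μ hφ hφ' (fun s => ff χ a X (c j) (x - s)) (fun s => ff χ a X (c' j) (x - s))
      ((measurable_ff h a X (c j)).comp (measurable_const.sub measurable_id))
      ((measurable_ff h a X (c' j)).comp (measurable_const.sub measurable_id)) _ _
      (fun s => norm_ff_le h a X hX _ _) (fun s => norm_ff_le h a X hX _ _)
  simp only [hrep]
  have hgm : ∀ j, Measurable (fun p : T × T => gg χ a X (c j) (c' j) (x - p.1) (x - p.2)) :=
    fun j => (measurable_gg h a X (c j) (c' j)).comp hflip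
  have key := level_abs (μ.prod μ) ψ hψm hψ0 (M * M') (by positivity) hψM J v
    (fun j p => ff χ a X (c j) (x - p.1) - ff χ a X (c' j) (x - p.2))
    (fun j p => Dsq χ a (c j) (c' j) (x - p.1) (x - p.2))
    (fun j p => gg χ a X (c j) (c' j) (x - p.1) (x - p.2))
    (fun j => ((measurable_ff h a X (c j)).comp (measurable_const.sub measurable_fst)).sub
        ((measurable_ff h a X (c' j)).comp (measurable_const.sub measurable_snd)))
    (fun j => (measurable_Dsq h a (c j) (c' j)).comp hflip)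
    hgm
    (fun j p => Dsq_nonneg a (c j) (c' j) (x - p.1) (x - p.2))
    (fun j p => gg_nonneg a X (c j) (c' j) (x - p.1) (x - p.2))
    (fun j => (en a (c j \ c' j) + en a (c' j \ c j)) + 2 * (4 * en a (B j)) + 2 * (4 * en a (B j)))
    (fun j => ((c j ∪ c' j).card : ℝ))
    (fun j p => by
      have h0 := Dsq_le h a (c j) (c' j) (B j) (hcB j) x p.1 p.2
      have h1 := dm_le h a (B j) p.1
      have h2 := dm_le h a (B j) p.2
      show Dsq χ a (c j) (c' j) (x - p.1) (x - p.2) ≤ _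
      linarith)
    (fun j p => gg_le a X hX (c j) (c' j) (x - p.1) (x - p.2))
    (fun j p => gg_mul a X hX (c j) (c' j) (x - p.1) (x - p.2))
  refine key.trans ?_
  apply mul_le_mul
  · apply Real.sqrt_le_sqrt
    apply Finset.sum_le_sum
    intro j _
    exact mul_le_mul_of_nonneg_left (int_Dsq_le μ h a hM hM' hφ hφ' (c j) (c' j) (B j) (hcB j) x)
      (sq_nonneg _)
  · apply Real.sqrt_le_sqrt
    refine (pac (μ.prod μ) ψ (fun p => ∑ j ∈ J, gg χ a X (c j) (c' j) (x - p.1) (x - p.2)) hψm hψ0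
      (M * M') (by positivity) hψM hψ1 (Finset.measurable_sum _ (fun j _ => hgm j))
      (fun p => Finset.sum_nonneg (fun j _ => gg_nonneg a X (c j) (c' j) (x - p.1) (x - p.2)))
      (∑ j ∈ J, ((c j ∪ c' j).card : ℝ))
      (fun p => Finset.sum_le_sum (fun j _ => gg_le a X hX (c j) (c' j) (x - p.1) (x - p.2)))).trans ?_
    have hmp : MeasurePreserving (fun p : T × T => (x - p.1, x - p.2)) (μ.prod μ) (μ.prod μ) := by
      have h2 : MeasurePreserving (fun s : T => x - s) μ μ := Measure.measurePreserving_sub_left μ x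
      exact h2.prod h2
    have h3 : ∫ p : T × T, Real.exp ((∑ j ∈ J, gg χ a X (c j) (c' j) (x - p.1) (x - p.2)) / 4) ∂(μ.prod μ) =
        ∫ p : T × T, Real.exp ((∑ j ∈ J, gg χ a X (c j) (c' j) p.1 p.2) / 4) ∂(μ.prod μ) := by
      have hmF : Measurable (fun p : T × T => Real.exp ((∑ j ∈ J, gg χ a X (c j) (c' j) p.1 p.2) / 4)) :=
        Real.measurable_exp.comp ((Finset.measurable_sum _ (fun j _ => measurable_gg h a X (c j) (c' j))).div_const 4)
      have h4 := integral_map hmp.measurable.aemeasurable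
        (f := fun p : T × T => Real.exp ((∑ j ∈ J, gg χ a X (c j) (c' j) p.1 p.2) / 4))
        (by rw [hmp.map_eq]; exact hmF.aestronglyMeasurable)
      rw [hmp.map_eq] at h4
      rw [h4]
    rw [h3]
  · exact Real.sqrt_nonneg _
  · exact Real.sqrt_nonneg _

end

end H59.RB
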