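import Pool.Agent.H59.BMOA.Chain2

/-! The full chain. -/

namespace H59.RB

set_option linter.unusedSectionVars false

open Finset BigOperators MeasureTheory

section
variable {T κ : Type*} [AddCommGroup T] [MeasurableSpace T] [MeasurableAdd₂ T] [MeasurableNeg T]
  [DecidableEq κ] {χ : κ → T → ℂ}
variable (μ : Measure T) [IsProbabilityMeasure μ] [μ.IsAddLeftInvariant] [μ.IsNegInvariant]

lemma ff_sub_self_le (h : Ch χ) (a X : κ → ℂ) (hX : ∀ k, ‖X k‖ ≤ 1) (B : Finset κ) (x s : T) :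
    ‖ff χ a X B x - ff χ a X B (x - s)‖ ≤ Real.sqrt B.card * Real.sqrt (dm χ a B s) := by
  have h1 : ff χ a X B x - ff χ a X B (x - s) = ∑ k ∈ B, a k * X k * (χ k x - χ k (x - s)) := by
    unfold ff
    rw [← Finset.sum_sub_distrib]
    exact Finset.sum_congr rfl (fun k _ => by ring)
  have h2 : ∀ k, ‖χ k x - χ k (x - s)‖ = ‖χ k s - 1‖ := by
    intro k
    have h3 : χ k x = χ k (x - s) * χ k s := by rw [← h.map_add]; congr 1; abel
    rw [h3, ← mul_sub_one, norm_mul, h.norm_eq, one_mul]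
  rw [h1, ← Real.sqrt_mul (by positivity)]
  apply Real.le_sqrt_of_sq_le
  calc ‖∑ k ∈ B, a k * X k * (χ k x - χ k (x - s))‖ ^ 2
      ≤ (∑ k ∈ B, ‖a k‖ * ‖χ k s - 1‖) ^ 2 := by
        apply pow_le_pow_left₀ (norm_nonneg _)
        refine (norm_sum_le _ _).trans (Finset.sum_le_sum (fun k _ => ?_))
        rw [norm_mul, norm_mul, h2]
        apply mul_le_mul_of_nonneg_right _ (norm_nonneg _)
        calc ‖a k‖ * ‖X k‖ ≤ ‖a k‖ * 1 := mul_le_mul_of_nonneg_left (hX k) (norm_nonneg _)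
          _ = _ := mul_one _
    _ ≤ B.card * ∑ k ∈ B, (‖a k‖ * ‖χ k s - 1‖) ^ 2 := sq_sum_le_card_mul_sum_sq
    _ = _ := by
        unfold dm
        congr 1
        exact Finset.sum_congr rfl (fun k _ => by ring)

lemma ff_congr_support (a X : κ → ℂ) {c B : Finset κ} (hcB : c ⊆ B) (hz : ∀ k ∈ B, k ∉ c → a k = 0)
    (x : T) : ff χ a X c x = ff χ a X B x := by
  unfold ff
  exact Finset.sum_subset hcB (fun k hk hkc => by rw [hz k hk hkc]; ring)

/-- end of the chain -/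
lemma chain_end (h : Ch χ) (a X : κ → ℂ) (hX : ∀ k, ‖X k‖ ≤ 1) {ι : Type*} (J : Finset ι)
    (B : ι → Finset κ) (R : ℕ) {φ : T → ℝ} {M : ℝ} (hM : 0 < M) (hφ : Dens μ φ M)
    (hcard : ∑ j ∈ J, ((B j).card : ℝ) ≤ 2 ^ R) (v : ι → ℂ) (x : T) :
    ‖∑ j ∈ J, v j * (ff χ a X (B j) x - ∫ s, (φ s : ℂ) * ff χ a X (B j) (x - s) ∂μ)‖ ≤
      Real.sqrt 2 ^ R * Real.sqrt (∑ j ∈ J, ‖v j‖ ^ 2 * PP μ χ a φ (B j)) := by
  have hff : ∀ j, Integrable (fun s => (φ s : ℂ) * ff χ a X (B j) (x - s)) μ := fun j =>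
    integrable_mul_bdd μ hφ _ ((measurable_ff h a X (B j)).comp (measurable_const.sub measurable_id)) _
      (fun s => norm_ff_le h a X hX (B j) (x - s))
  have hφi : Integrable (fun s => (φ s : ℂ)) μ := (hφ.integrable μ).ofReal
  -- representation
  have h1 : ∀ j, ff χ a X (B j) x - ∫ s, (φ s : ℂ) * ff χ a X (B j) (x - s) ∂μ =
      ∫ s, (φ s : ℂ) * (ff χ a X (B j) x - ff χ a X (B j) (x - s)) ∂μ := by
    intro j
    have h2 : ff χ a X (B j) x = ∫ s, (φ s : ℂ) * ff χ a X (B j) x ∂μ := by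
      rw [integral_mul_const, integral_complex_ofReal, hφ.one]; simp
    nth_rewrite 1 [h2]
    rw [← integral_sub (hφi.mul_const _) (hff j)]
    refine integral_congr_ae (Filter.Eventually.of_forall (fun s => ?_))
    simp only []
    ring
  simp only [h1]
  have hmeas : ∀ j, Measurable (fun s => ff χ a X (B j) x - ff χ a X (B j) (x - s)) := fun j =>
    measurable_const.sub ((measurable_ff h a X (B j)).comp (measurable_const.sub measurable_id))
  -- use level_abs with D = dm and g = ‖.‖²/dm ; simpler: direct estimate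
  have h3 : ∑ j ∈ J, v j * ∫ s, (φ s : ℂ) * (ff χ a X (B j) x - ff χ a X (B j) (x - s)) ∂μ =
      ∫ s, (φ s : ℂ) * ∑ j ∈ J, v j * (ff χ a X (B j) x - ff χ a X (B j) (x - s)) ∂μ := by
    have e4 : ∀ s, (φ s : ℂ) * ∑ j ∈ J, v j * (ff χ a X (B j) x - ff χ a X (B j) (x - s)) =
        ∑ j ∈ J, v j * ((φ s : ℂ) * (ff χ a X (B j) x - ff χ a X (B j) (x - s))) := by
      intro s
      rw [Finset.mul_sum]
      exact Finset.sum_congr rfl (fun j _ => by ring)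
    simp only [e4]
    rw [integral_finsetSum]
    · exact Finset.sum_congr rfl (fun j _ => (integral_const_mul _ _).symm)
    · intro j _
      apply Integrable.const_mul
      exact integrable_mul_bdd μ hφ _ (hmeas j) (∑ k ∈ B j, ‖a k‖ + ∑ k ∈ B j, ‖a k‖)
        (fun s => (norm_sub_le _ _).trans (add_le_add (norm_ff_le h a X hX _ _) (norm_ff_le h a X hX _ _)))
  rw [h3]
  set U : T → ℝ := fun s => ∑ j ∈ J, ‖v j‖ ^ 2 * dm χ a (B j) s with hU
  have hUm : Measurable U := Finset.measurable_sum _ (fun j _ => (measurable_dm h a (B j)).const_mul _)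
  have hU0 : ∀ s, 0 ≤ U s := fun s => Finset.sum_nonneg (fun j _ => mul_nonneg (sq_nonneg _) (dm_nonneg _ _ _))
  have hUB : ∀ s, U s ≤ ∑ j ∈ J, ‖v j‖ ^ 2 * (4 * en a (B j)) := fun s =>
    Finset.sum_le_sum (fun j _ => mul_le_mul_of_nonneg_left (dm_le h a _ _) (sq_nonneg _))
  have hpt : ∀ s, ‖∑ j ∈ J, v j * (ff χ a X (B j) x - ff χ a X (B j) (x - s))‖ ≤
      Real.sqrt (U s) * Real.sqrt (2 ^ R) := by
    intro s
    calc ‖∑ j ∈ J, v j * (ff χ a X (B j) x - ff χ a X (B j) (x - s))‖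
        ≤ ∑ j ∈ J, Real.sqrt (‖v j‖ ^ 2 * dm χ a (B j) s) * Real.sqrt ((B j).card : ℝ) := by
          refine (norm_sum_le _ _).trans (Finset.sum_le_sum (fun j _ => ?_))
          rw [norm_mul, Real.sqrt_mul (sq_nonneg _), Real.sqrt_sq (norm_nonneg _)]
          calc ‖v j‖ * ‖ff χ a X (B j) x - ff χ a X (B j) (x - s)‖
              ≤ ‖v j‖ * (Real.sqrt (B j).card * Real.sqrt (dm χ a (B j) s)) :=
                mul_le_mul_of_nonneg_left (ff_sub_self_le h a X hX _ _ _) (norm_nonneg _)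
            _ = _ := by ring
      _ ≤ Real.sqrt (U s) * Real.sqrt (∑ j ∈ J, ((B j).card : ℝ)) :=
          Real.sum_sqrt_mul_sqrt_le _ (fun j => mul_nonneg (sq_nonneg _) (dm_nonneg _ _ _))
            (fun j => by positivity)
      _ ≤ _ := mul_le_mul_of_nonneg_left (Real.sqrt_le_sqrt hcard) (Real.sqrt_nonneg _)
  have h4 : ‖∫ s, (φ s : ℂ) * ∑ j ∈ J, v j * (ff χ a X (B j) x - ff χ a X (B j) (x - s)) ∂μ‖ ≤
      ∫ s, φ s * (Real.sqrt (U s) * Real.sqrt (2 ^ R)) ∂μ := by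
    refine (norm_integral_le_integral_norm _).trans ?_
    apply integral_mono_of_nonneg (Filter.Eventually.of_forall (fun _ => norm_nonneg _))
    · apply integrable_mul_bdd_real μ hφ _ (hUm.sqrt.mul_const _)
        (Real.sqrt (∑ j ∈ J, ‖v j‖ ^ 2 * (4 * en a (B j))) * Real.sqrt (2 ^ R))
      intro s
      rw [abs_of_nonneg (by positivity)]
      exact mul_le_mul_of_nonneg_right (Real.sqrt_le_sqrt (hUB s)) (Real.sqrt_nonneg _)
    · apply Filter.Eventually.of_forall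
      intro s
      show ‖(φ s : ℂ) * ∑ j ∈ J, v j * (ff χ a X (B j) x - ff χ a X (B j) (x - s))‖ ≤ _
      rw [norm_mul, Complex.norm_real, Real.norm_eq_abs, abs_of_nonneg (hφ.nonneg s)]
      exact mul_le_mul_of_nonneg_left (hpt s) (hφ.nonneg s)
  refine h4.trans ((cs_weight μ φ U (fun _ => (2:ℝ) ^ R) hφ.meas hφ.nonneg M hφ.le hUm hU0 _ hUB
    measurable_const (fun _ => by positivity) (2 ^ R) (fun _ => le_rfl)).trans (le_of_eq ?_))
  have e1 : ∫ s, φ s * (2:ℝ) ^ R ∂μ = 2 ^ R := by rw [integral_mul_const, hφ.one, one_mul]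
  have e2 : Real.sqrt ((2:ℝ) ^ R) = Real.sqrt 2 ^ R := by
    rw [Real.sqrt_eq_iff_eq_sq (by positivity) (by positivity), ← pow_mul, mul_comm R 2, pow_mul,
      Real.sq_sqrt (by norm_num)]
  have e3 : ∫ s, φ s * U s ∂μ = ∑ j ∈ J, ‖v j‖ ^ 2 * PP μ χ a φ (B j) := by
    have e5 : ∀ s, φ s * U s = ∑ j ∈ J, ‖v j‖ ^ 2 * (φ s * dm χ a (B j) s) := by
      intro s
      simp only [hU]
      rw [Finset.mul_sum]
      exact Finset.sum_congr rfl (fun j _ => by ring)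
    simp only [e5]
    rw [integral_finsetSum]
    · exact Finset.sum_congr rfl (fun j _ => integral_const_mul _ _)
    · intro j _
      apply Integrable.const_mul
      apply integrable_mul_bdd_real μ hφ _ (measurable_dm h a (B j)) (4 * en a (B j))
      intro s
      rw [abs_of_nonneg (dm_nonneg _ _ _)]
      exact dm_le h a _ _
  rw [e1, e2, e3]; ring

lemma sqrt_add_three (a b c : ℝ) (ha : 0 ≤ a) (hb : 0 ≤ b) (hc : 0 ≤ c) :
    Real.sqrt (a + b + c) ≤ Real.sqrt a + Real.sqrt b + Real.sqrt c := by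
  rw [Real.sqrt_le_left (by positivity)]
  have h1 := Real.sq_sqrt ha
  have h2 := Real.sq_sqrt hb
  have h3 := Real.sq_sqrt hc
  nlinarith [mul_nonneg (Real.sqrt_nonneg a) (Real.sqrt_nonneg b),
    mul_nonneg (Real.sqrt_nonneg a) (Real.sqrt_nonneg c),
    mul_nonneg (Real.sqrt_nonneg b) (Real.sqrt_nonneg c)]

lemma sqrt_two_pow (n : ℕ) : Real.sqrt ((2:ℝ) ^ n) = Real.sqrt 2 ^ n := by
  rw [Real.sqrt_eq_iff_eq_sq (by positivity) (by positivity), ← pow_mul, mul_comm n 2, pow_mul,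
    Real.sq_sqrt (by norm_num)]

/-- The chain. -/
theorem chain (h : Ch χ) (a X : κ → ℂ) (hX : ∀ k, ‖X k‖ ≤ 1) {ι : Type*} (J : Finset ι)
    (B : ι → Finset κ) (R : ℕ) (φ : ℕ → T → ℝ) (hφ : ∀ n ≤ R, Dens μ (φ n) (2 ^ (2 ^ n)))
    (c : ℕ → ι → Finset κ) (hc0 : ∀ j, c 0 j = ∅) (hcB : ∀ n j, c n j ⊆ B j)
    (hcR : ∀ j, ∀ k ∈ B j, k ∉ c R j → a k = 0)
    (hcard : ∑ j ∈ J, ((B j).card : ℝ) ≤ 2 ^ R) (Ξ : ℝ) (hΞ : 0 ≤ Ξ)
    (hΘ : ∀ n < R, Real.log (∫ p : T × T, Real.exp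
        ((∑ j ∈ J, gg χ a X (c (n+1) j) (c n j) p.1 p.2) / 4) ∂(μ.prod μ)) ≤ 2 ^ n * Ξ)
    (v : ι → ℂ) (x : T) :
    ‖∑ j ∈ J, v j * ff χ a X (B j) x‖ ≤ Real.sqrt (9 + 4 * Ξ) *
      (∑ n ∈ Finset.range R, Real.sqrt 2 ^ n * Real.sqrt (∑ j ∈ J, ‖v j‖ ^ 2 *
        (en a (c (n+1) j \ c n j) + en a (c n j \ c (n+1) j))) +
       4 * ∑ n ∈ Finset.range (R+1), Real.sqrt 2 ^ n * Real.sqrt (∑ j ∈ J, ‖v j‖ ^ 2 *
        PP μ χ a (φ n) (B j))) := by
  set A : ℕ → ι → ℂ := fun n j => ∫ s, (φ n s : ℂ) * ff χ a X (c n j) (x - s) ∂μ with hA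
  have hA0 : ∀ j, A 0 j = 0 := by
    intro j
    simp only [hA, hc0]
    simp [ff]
  have hAR : ∀ j, A R j = ∫ s, (φ R s : ℂ) * ff χ a X (B j) (x - s) ∂μ := by
    intro j
    simp only [hA]
    refine integral_congr_ae (Filter.Eventually.of_forall (fun s => ?_))
    simp only []
    rw [ff_congr_support a X (hcB R j) (hcR j)]
  set W : ℕ → ℝ := fun n => Real.sqrt (∑ j ∈ J, ‖v j‖ ^ 2 *
        (en a (c (n+1) j \ c n j) + en a (c n j \ c (n+1) j))) with hW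
  set Q : ℕ → ℝ := fun n => Real.sqrt (∑ j ∈ J, ‖v j‖ ^ 2 * PP μ χ a (φ n) (B j)) with hQ
  set G := Real.sqrt (9 + 4 * Ξ) with hG
  have hG1 : 1 ≤ G := by
    rw [hG, Real.one_le_sqrt]; linarith
  have htel : ∑ j ∈ J, v j * ff χ a X (B j) x =
      ∑ n ∈ Finset.range R, ∑ j ∈ J, v j * (A (n+1) j - A n j) +
      ∑ j ∈ J, v j * (ff χ a X (B j) x - A R j) := by
    rw [Finset.sum_comm, ← Finset.sum_add_distrib]
    refine Finset.sum_congr rfl (fun j _ => ?_)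
    rw [← Finset.mul_sum, Finset.sum_range_sub (fun n => A n j) R, hA0]
    ring
  have hlev : ∀ n ∈ Finset.range R, ‖∑ j ∈ J, v j * (A (n+1) j - A n j)‖ ≤
      G * (Real.sqrt 2 ^ n * W n + Real.sqrt 2 ^ (n+1) * Q (n+1) + Real.sqrt 2 * (Real.sqrt 2 ^ n * Q n)) := by
    intro n hn
    rw [Finset.mem_range] at hn
    have h1 := level_ineq μ h a X hX J (c (n+1)) (c n) B (hcB (n+1)) v
      (M := 2 ^ (2 ^ (n+1))) (M' := 2 ^ (2 ^ n)) (by positivity) (by positivity)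
      (hφ (n+1) (by omega)) (hφ n (by omega)) x
    refine h1.trans ?_
    have h2 : Real.sqrt (4 * (Real.log ((2:ℝ) ^ (2 ^ (n+1)) * 2 ^ (2 ^ n)) + Real.log (∫ p : T × T, Real.exp
        ((∑ j ∈ J, gg χ a X (c (n+1) j) (c n j) p.1 p.2) / 4) ∂(μ.prod μ)))) ≤ Real.sqrt 2 ^ n * G := by
      rw [hG, ← sqrt_two_pow, ← Real.sqrt_mul (by positivity)]
      apply Real.sqrt_le_sqrt
      have h3 := hΘ n hn
      have h4 : Real.log ((2:ℝ) ^ (2 ^ (n+1)) * 2 ^ (2 ^ n)) ≤ 2.1 * 2 ^ n := by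
        rw [← pow_add, Real.log_pow]
        have h5 := Real.log_two_lt_d9
        have h6 : ((2 ^ (n+1) + 2 ^ n : ℕ) : ℝ) = 3 * 2 ^ n := by push_cast; ring
        rw [h6]
        have : (0:ℝ) < 2 ^ n := by positivity
        nlinarith
      have : (0:ℝ) < 2 ^ n := by positivity
      nlinarith
    have h7 : Real.sqrt (∑ j ∈ J, ‖v j‖ ^ 2 * ((en a (c (n+1) j \ c n j) + en a (c n j \ c (n+1) j)) +
        2 * PP μ χ a (φ (n+1)) (B j) + 2 * PP μ χ a (φ n) (B j))) ≤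
        W n + Real.sqrt 2 * Q (n+1) + Real.sqrt 2 * Q n := by
      have h8 : ∑ j ∈ J, ‖v j‖ ^ 2 * ((en a (c (n+1) j \ c n j) + en a (c n j \ c (n+1) j)) +
        2 * PP μ χ a (φ (n+1)) (B j) + 2 * PP μ χ a (φ n) (B j)) =
        ∑ j ∈ J, ‖v j‖ ^ 2 * (en a (c (n+1) j \ c n j) + en a (c n j \ c (n+1) j)) +
        2 * ∑ j ∈ J, ‖v j‖ ^ 2 * PP μ χ a (φ (n+1)) (B j) +
        2 * ∑ j ∈ J, ‖v j‖ ^ 2 * PP μ χ a (φ n) (B j) := by
        rw [Finset.mul_sum, Finset.mul_sum, ← Finset.sum_add_distrib, ← Finset.sum_add_distrib]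
        exact Finset.sum_congr rfl (fun j _ => by ring)
      rw [h8]
      have p1 : 0 ≤ ∑ j ∈ J, ‖v j‖ ^ 2 * PP μ χ a (φ (n+1)) (B j) :=
        Finset.sum_nonneg (fun j _ => mul_nonneg (sq_nonneg _) (PP_nonneg μ a (hφ _ (by omega)) _))
      have p2 : 0 ≤ ∑ j ∈ J, ‖v j‖ ^ 2 * PP μ χ a (φ n) (B j) :=
        Finset.sum_nonneg (fun j _ => mul_nonneg (sq_nonneg _) (PP_nonneg μ a (hφ _ (by omega)) _))
      have p0 : 0 ≤ ∑ j ∈ J, ‖v j‖ ^ 2 * (en a (c (n+1) j \ c n j) + en a (c n j \ c (n+1) j)) :=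
        Finset.sum_nonneg (fun j _ => mul_nonneg (sq_nonneg _) (add_nonneg (en_nonneg _ _) (en_nonneg _ _)))
      refine (sqrt_add_three _ _ _ p0 (by positivity) (by positivity)).trans ?_
      rw [Real.sqrt_mul (by norm_num), Real.sqrt_mul (by norm_num)]
    have hWQ : 0 ≤ W n + Real.sqrt 2 * Q (n+1) + Real.sqrt 2 * Q n := by
      simp only [hW, hQ]; positivity
    calc _ ≤ (W n + Real.sqrt 2 * Q (n+1) + Real.sqrt 2 * Q n) * (Real.sqrt 2 ^ n * G) :=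
          mul_le_mul h7 h2 (Real.sqrt_nonneg _) hWQ
      _ = _ := by rw [pow_succ]; ring
  have hend : ‖∑ j ∈ J, v j * (ff χ a X (B j) x - A R j)‖ ≤ G * (Real.sqrt 2 ^ R * Q R) := by
    have h1 := chain_end μ h a X hX J B R (M := 2 ^ (2 ^ R)) (by positivity) (hφ R le_rfl) hcard v x
    simp only [hAR]
    refine h1.trans ?_
    have : 0 ≤ Real.sqrt 2 ^ R * Q R := by simp only [hQ]; positivity
    nlinarith
  have hQn : ∀ n, 0 ≤ Real.sqrt 2 ^ n * Q n := fun n => by simp only [hQ]; positivity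
  rw [htel]
  refine (norm_add_le _ _).trans ?_
  have h9 : ‖∑ n ∈ Finset.range R, ∑ j ∈ J, v j * (A (n+1) j - A n j)‖ ≤
      G * (∑ n ∈ Finset.range R, Real.sqrt 2 ^ n * W n +
        ∑ n ∈ Finset.range R, Real.sqrt 2 ^ (n+1) * Q (n+1) +
        Real.sqrt 2 * ∑ n ∈ Finset.range R, Real.sqrt 2 ^ n * Q n) := by
    refine (norm_sum_le _ _).trans ((Finset.sum_le_sum hlev).trans (le_of_eq ?_))
    rw [← Finset.mul_sum, Finset.sum_add_distrib, Finset.sum_add_distrib, ← Finset.mul_sum]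
  set SQ := ∑ n ∈ Finset.range (R+1), Real.sqrt 2 ^ n * Q n with hSQ
  have h10 : ∑ n ∈ Finset.range R, Real.sqrt 2 ^ (n+1) * Q (n+1) ≤ SQ := by
    rw [hSQ, Finset.sum_range_succ']
    linarith [hQn 0]
  have h11 : ∑ n ∈ Finset.range R, Real.sqrt 2 ^ n * Q n ≤ SQ := by
    rw [hSQ, Finset.sum_range_succ]
    linarith [hQn R]
  have h12 : Real.sqrt 2 ^ R * Q R ≤ SQ := by
    rw [hSQ, Finset.sum_range_succ]
    have : 0 ≤ ∑ n ∈ Finset.range R, Real.sqrt 2 ^ n * Q n := Finset.sum_nonneg (fun n _ => hQn n)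
    linarith
  have hb := sqrt2_bounds
  have hSQ0 : 0 ≤ SQ := Finset.sum_nonneg (fun n _ => hQn n)
  have h13 : Real.sqrt 2 * ∑ n ∈ Finset.range R, Real.sqrt 2 ^ n * Q n ≤ 1.5 * SQ := by
    have h14 : 0 ≤ ∑ n ∈ Finset.range R, Real.sqrt 2 ^ n * Q n := Finset.sum_nonneg (fun n _ => hQn n)
    nlinarith
  calc _ ≤ G * (∑ n ∈ Finset.range R, Real.sqrt 2 ^ n * W n +
        ∑ n ∈ Finset.range R, Real.sqrt 2 ^ (n+1) * Q (n+1) +
        Real.sqrt 2 * ∑ n ∈ Finset.range R, Real.sqrt 2 ^ n * Q n) + G * (Real.sqrt 2 ^ R * Q R) :=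
        add_le_add h9 hend
    _ = G * (∑ n ∈ Finset.range R, Real.sqrt 2 ^ n * W n +
        ∑ n ∈ Finset.range R, Real.sqrt 2 ^ (n+1) * Q (n+1) +
        Real.sqrt 2 * ∑ n ∈ Finset.range R, Real.sqrt 2 ^ n * Q n + Real.sqrt 2 ^ R * Q R) := by ring
    _ ≤ _ := by
        apply mul_le_mul_of_nonneg_left _ (by linarith)
        linarith

end

end H59.RB
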