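import Pool.Agent.H59.BMOA.Grid
import Pool.Agent.H59.BMOA.Ent2

/-! From square functions over blocks to mean oscillation. -/

namespace H59.RB

set_option linter.unusedSectionVars false

open Finset BigOperators MeasureTheory Complex

/-! ### orthogonality -/

lemma int_exp_zero (lam : ℝ) (hl : 0 < lam) (n : ℤ) (hn : n ≠ 0) :
    ∫ s in (0:ℝ)..(2 * Real.pi / lam), Complex.exp ((n:ℂ) * lam * s * I) = 0 := by
  have hc : (n:ℂ) * lam * I ≠ 0 := by
    have h1 : (n:ℂ) ≠ 0 := by exact_mod_cast hn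
    have h2 : (lam:ℂ) ≠ 0 := by exact_mod_cast hl.ne'
    exact mul_ne_zero (mul_ne_zero h1 h2) I_ne_zero
  have h1 : ∀ s : ℝ, Complex.exp ((n:ℂ) * lam * s * I) = Complex.exp (((n:ℂ) * lam * I) * s) := by
    intro s; congr 1; ring
  simp only [h1]
  rw [integral_exp_mul_complex hc]
  have h2 : (n:ℂ) * lam * I * ((2 * Real.pi / lam : ℝ) : ℂ) = (n:ℂ) * (2 * Real.pi * I) := by
    have h2 : (lam:ℂ) ≠ 0 := by exact_mod_cast hl.ne'
    push_cast
    field_simp
  rw [h2, Complex.exp_int_mul_two_pi_mul_I]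
  simp

lemma norm_sq_sum (J : Finset ℕ) (b : ℕ → ℂ) : ((‖∑ j ∈ J, b j‖ ^ 2 : ℝ) : ℂ) =
    ∑ j ∈ J, ∑ k ∈ J, b j * (starRingEnd ℂ) (b k) := by
  rw [← Finset.sum_mul_sum, ← map_sum, Complex.mul_conj, Complex.normSq_eq_norm_sq]

lemma ortho (J : Finset ℕ) (b : ℕ → ℂ) (lam : ℝ) (hl : 0 < lam) :
    ∫ s in (0:ℝ)..(2 * Real.pi / lam), ‖∑ j ∈ J, Complex.exp ((j:ℂ) * lam * s * I) * b j‖ ^ 2 =
      (2 * Real.pi / lam) * ∑ j ∈ J, ‖b j‖ ^ 2 := by
  have h1 : ((∫ s in (0:ℝ)..(2 * Real.pi / lam), ‖∑ j ∈ J, Complex.exp ((j:ℂ) * lam * s * I) * b j‖ ^ 2 : ℝ) : ℂ) =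
      (((2 * Real.pi / lam) * ∑ j ∈ J, ‖b j‖ ^ 2 : ℝ) : ℂ) := by
    rw [← intervalIntegral.integral_ofReal]
    simp only [norm_sq_sum]
    have hcont : ∀ j k : ℕ, Continuous (fun s : ℝ => Complex.exp ((j:ℂ) * lam * s * I) * b j *
        (starRingEnd ℂ) (Complex.exp ((k:ℂ) * lam * s * I) * b k)) := by
      intro j k
      apply Continuous.mul
      · fun_prop
      · exact Complex.continuous_conj.comp (by fun_prop)
    rw [intervalIntegral.integral_finsetSum (fun j _ => (continuous_finsetSum _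
      (fun k _ => hcont j k)).intervalIntegrable _ _)]
    have h2 : ∀ j ∈ J, ∫ s in (0:ℝ)..(2 * Real.pi / lam), ∑ k ∈ J,
        Complex.exp ((j:ℂ) * lam * s * I) * b j * (starRingEnd ℂ) (Complex.exp ((k:ℂ) * lam * s * I) * b k) =
        ((2 * Real.pi / lam * ‖b j‖ ^ 2 : ℝ) : ℂ) := by
      intro j hj
      rw [intervalIntegral.integral_finsetSum (fun k _ => (hcont j k).intervalIntegrable _ _)]
      have h3 : ∀ k ∈ J, ∫ s in (0:ℝ)..(2 * Real.pi / lam),
          Complex.exp ((j:ℂ) * lam * s * I) * b j * (starRingEnd ℂ) (Complex.exp ((k:ℂ) * lam * s * I) * b k) =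
          if k = j then ((2 * Real.pi / lam * ‖b j‖ ^ 2 : ℝ) : ℂ) else 0 := by
        intro k _
        have h4 : ∀ s : ℝ, Complex.exp ((j:ℂ) * lam * s * I) * b j *
            (starRingEnd ℂ) (Complex.exp ((k:ℂ) * lam * s * I) * b k) =
            (b j * (starRingEnd ℂ) (b k)) * Complex.exp ((((j:ℤ) - k : ℤ) : ℂ) * lam * s * I) := by
          intro s
          rw [map_mul, ← Complex.exp_conj]
          simp only [map_mul, Complex.conj_I, Complex.conj_ofReal, map_natCast]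
          have : Complex.exp ((((j:ℤ) - k : ℤ) : ℂ) * lam * s * I) =
              Complex.exp ((j:ℂ) * lam * s * I) * Complex.exp ((k:ℂ) * lam * s * -I) := by
            rw [← Complex.exp_add]; congr 1; push_cast; ring
          rw [this]; ring
        simp only [h4]
        rw [intervalIntegral.integral_const_mul]
        split_ifs with hk
        · rw [hk]
          simp only [sub_self, Int.cast_zero, zero_mul, Complex.exp_zero]
          rw [Complex.mul_conj, Complex.normSq_eq_norm_sq]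
          simp
          ring
        · rw [int_exp_zero lam hl _ (by
            intro h0
            apply hk
            have : (j:ℤ) = k := by linarith
            exact_mod_cast this.symm), mul_zero]
      rw [Finset.sum_congr rfl h3, Finset.sum_ite_eq' J j, if_pos hj]
    rw [Finset.sum_congr rfl h2]
    push_cast
    rw [Finset.mul_sum]
  exact_mod_cast h1

/-! ### polynomials and blocks -/

/-- trigonometric polynomial -/
noncomputable def ep (c : ℕ → ℂ) (S : Finset ℕ) (x : ℝ) : ℂ :=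
  ∑ k ∈ S, c k * Complex.exp ((k:ℂ) * x * I)

lemma ep_cont (c : ℕ → ℂ) (S : Finset ℕ) : Continuous (ep c S) := by
  unfold ep; fun_prop

/-- set of frequencies selected by a property of the scale-`m` block index -/
def sel (P : ℕ → Prop) [DecidablePred P] (N m : ℕ) : Finset ℕ :=
  (Finset.range N).filter (fun k => P (k / 2 ^ m))

variable (P : ℕ → Prop) [DecidablePred P]

/-- intermediate sums -/
noncomputable def TT (c : ℕ → ℂ) (U : Finset ℕ) (α : ℝ) (q : ℕ) (s : ℝ) : ℂ :=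
  ∑ k ∈ U, c k * Complex.exp ((k:ℂ) * α * I) * Complex.exp (((k / 2 ^ q : ℕ) : ℂ) * ((2:ℝ) ^ q : ℝ) * s * I)

lemma TT_cont (c : ℕ → ℂ) (U : Finset ℕ) (α : ℝ) (q : ℕ) : Continuous (TT c U α q) := by
  unfold TT; fun_prop

lemma TT_zero (c : ℕ → ℂ) (U : Finset ℕ) (α s : ℝ) : TT c U α 0 s = ep c U (α + s) := by
  unfold TT ep
  refine Finset.sum_congr rfl (fun k _ => ?_)
  rw [mul_assoc, ← Complex.exp_add]
  congr 2
  simp
  ring

lemma div_lt_of (N q k : ℕ) (hk : k < N) : k / 2 ^ q < N := lt_of_le_of_lt (Nat.div_le_self _ _) hk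

lemma sel_filter (N m q j : ℕ) (hq : q ≤ m) (hj : P (j / 2 ^ (m - q))) :
    (sel P N m).filter (fun k => k / 2 ^ q = j) = blk N q j := by
  ext k
  unfold sel
  rw [Finset.mem_filter, Finset.mem_filter, mem_blk, Finset.mem_range]
  constructor
  · rintro ⟨⟨h1, _⟩, h2⟩; exact ⟨h1, h2⟩
  · rintro ⟨h1, h2⟩
    refine ⟨⟨h1, ?_⟩, h2⟩
    have : k / 2 ^ m = j / 2 ^ (m - q) := by
      rw [← h2, Nat.div_div_eq_div_mul, ← pow_add]; congr 2; omega
    rw [this]; exact hj

lemma sel_filter' (N m q j : ℕ) (hq : q ≤ m) (hj : ¬ P (j / 2 ^ (m - q))) :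
    (sel P N m).filter (fun k => k / 2 ^ q = j) = ∅ := by
  ext k
  unfold sel
  rw [Finset.mem_filter, Finset.mem_filter]
  constructor
  · rintro ⟨⟨h1, h3⟩, h2⟩
    have : k / 2 ^ m = j / 2 ^ (m - q) := by
      rw [← h2, Nat.div_div_eq_div_mul, ← pow_add]; congr 2; omega
    rw [this] at h3
    exact absurd h3 hj
  · intro h; simp at h

lemma fiber (N m q : ℕ) (hq : q ≤ m) (F : ℕ → ℂ) :
    ∑ k ∈ sel P N m, F k = ∑ j ∈ (Finset.range N).filter (fun j => P (j / 2 ^ (m - q))),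
      ∑ k ∈ blk N q j, F k := by
  have h1 : ∀ k ∈ sel P N m, k / 2 ^ q ∈ Finset.range N := by
    intro k hk
    unfold sel at hk
    rw [Finset.mem_filter, Finset.mem_range] at hk
    rw [Finset.mem_range]; exact div_lt_of N q k hk.1
  rw [← Finset.sum_fiberwise_of_maps_to h1, Finset.sum_filter]
  refine Finset.sum_congr rfl (fun j _ => ?_)
  split_ifs with hj
  · rw [sel_filter P N m q j hq hj]
  · rw [sel_filter' P N m q j hq hj, Finset.sum_empty]

lemma TT_eq (c : ℕ → ℂ) (N m q : ℕ) (hq : q ≤ m) (α s : ℝ) : TT c (sel P N m) α q s =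
    ∑ j ∈ (Finset.range N).filter (fun j => P (j / 2 ^ (m - q))),
      Complex.exp ((j:ℂ) * ((2:ℝ) ^ q : ℝ) * s * I) * ep c (blk N q j) α := by
  unfold TT
  rw [fiber P N m q hq]
  refine Finset.sum_congr rfl (fun j _ => ?_)
  unfold ep
  rw [Finset.mul_sum]
  refine Finset.sum_congr rfl (fun k hk => ?_)
  rw [(mem_blk.1 hk).2]
  ring

lemma TT_sub (c : ℕ → ℂ) (N m q : ℕ) (hq : q < m) (α s : ℝ) :
    TT c (sel P N m) α q s - TT c (sel P N m) α (q+1) s =
    (1 - Complex.exp (-(((2:ℝ) ^ q : ℝ) * s * I))) *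
    ∑ j ∈ ((Finset.range N).filter (fun j => P (j / 2 ^ (m - q)))).filter (fun j => j % 2 = 1),
      Complex.exp ((j:ℂ) * ((2:ℝ) ^ q : ℝ) * s * I) * ep c (blk N q j) α := by
  unfold TT
  rw [← Finset.sum_sub_distrib, fiber P N m q hq.le, Finset.mul_sum]
  conv_rhs => rw [Finset.sum_filter]
  refine Finset.sum_congr rfl (fun j _ => ?_)
  have h1 : ∀ k ∈ blk N q j, k / 2 ^ (q+1) = j / 2 := by
    intro k hk
    rw [pow_succ, ← Nat.div_div_eq_div_mul, (mem_blk.1 hk).2]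
  split_ifs with hj
  · unfold ep
    rw [Finset.mul_sum, Finset.mul_sum]
    refine Finset.sum_congr rfl (fun k hk => ?_)
    rw [(mem_blk.1 hk).2, h1 k hk]
    have hj2 : (j:ℂ) = 2 * ((j / 2 : ℕ) : ℂ) + 1 := by
      have : j = 2 * (j / 2) + 1 := by omega
      exact_mod_cast this
    have e1 : Complex.exp (((j / 2 : ℕ) : ℂ) * ((2:ℝ) ^ (q+1) : ℝ) * s * I) =
        Complex.exp (-(((2:ℝ) ^ q : ℝ) * s * I)) * Complex.exp ((j:ℂ) * ((2:ℝ) ^ q : ℝ) * s * I) := by
      rw [← Complex.exp_add]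
      congr 1
      rw [hj2]
      push_cast
      ring
    rw [e1]; ring
  · apply Finset.sum_eq_zero
    intro k hk
    rw [(mem_blk.1 hk).2, h1 k hk]
    have hj2 : (j:ℂ) = 2 * ((j / 2 : ℕ) : ℂ) := by
      have : j = 2 * (j / 2) := by omega
      exact_mod_cast this
    have e1 : Complex.exp (((j / 2 : ℕ) : ℂ) * ((2:ℝ) ^ (q+1) : ℝ) * s * I) =
        Complex.exp ((j:ℂ) * ((2:ℝ) ^ q : ℝ) * s * I) := by
      congr 1
      rw [hj2]
      push_cast
      ring
    rw [e1]; ring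

lemma norm_one_sub_exp (y : ℝ) : ‖1 - Complex.exp (-((y:ℂ) * I))‖ ≤ |y| := by
  rw [norm_sub_rev]
  have := Real.norm_exp_I_mul_ofReal_sub_one_le (x := -y)
  have e : Complex.exp (I * ((-y : ℝ) : ℂ)) = Complex.exp (-((y:ℂ) * I)) := by
    congr 1; push_cast; ring
  rw [e] at this
  simpa using this


lemma TT_tel (c : ℕ → ℂ) (U : Finset ℕ) (α s : ℝ) (m : ℕ) :
    TT c U α 0 s = TT c U α m s + ∑ q ∈ Finset.range m, (TT c U α q s - TT c U α (q+1) s) := by
  rw [Finset.sum_range_sub' (fun q => TT c U α q s) m]; ring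

lemma geom3 (m : ℕ) : ∑ q ∈ Finset.range m, Real.sqrt 2 ^ q ≤ 3 * Real.sqrt 2 ^ m := by
  rcases m with _ | m
  · simp
  · refine (geom_sqrt2 m).trans ?_
    rw [pow_succ]
    have hb := sqrt2_bounds
    have h0 : 0 < Real.sqrt 2 ^ m := by positivity
    nlinarith

/-- size of the increments, L² version -/
lemma inc_L2 (hP : ¬ P 0) (c : ℕ → ℂ) (N : ℕ) (B : ℝ)
    (H : ∀ q α, ∑ j ∈ Finset.Ico 1 N, ‖ep c (blk N q j) α‖ ^ 2 ≤ B ^ 2) (m q : ℕ) (hq : q < m) (α : ℝ) :
    ∫ s in (0:ℝ)..(2 * Real.pi / 2 ^ m), ‖TT c (sel P N m) α q s - TT c (sel P N m) α (q+1) s‖ ^ 2 ≤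
      (2 * Real.pi) ^ 2 * (Real.sqrt 2 ^ q / Real.sqrt 2 ^ m) ^ 2 * (2 * Real.pi / 2 ^ m) * B ^ 2 := by
  set J := ((Finset.range N).filter (fun j => P (j / 2 ^ (m - q)))).filter (fun j => j % 2 = 1) with hJ
  have hpi := Real.pi_pos
  set ℓ := 2 * Real.pi / 2 ^ m with hℓ
  have hℓ0 : 0 < ℓ := by positivity
  set W : ℝ → ℝ := fun s => ‖∑ j ∈ J, Complex.exp ((j:ℂ) * ((2:ℝ) ^ q : ℝ) * s * I) * ep c (blk N q j) α‖ ^ 2 with hW
  have hWc : Continuous W := by simp only [hW]; fun_prop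
  have h1 : ∀ s ∈ Set.Icc (0:ℝ) ℓ, ‖TT c (sel P N m) α q s - TT c (sel P N m) α (q+1) s‖ ^ 2 ≤
      (2 ^ q * ℓ) ^ 2 * W s := by
    intro s hs
    rw [TT_sub P c N m q hq, norm_mul, mul_pow]
    apply mul_le_mul_of_nonneg_right _ (by positivity)
    apply pow_le_pow_left₀ (norm_nonneg _)
    have h2 := norm_one_sub_exp ((2:ℝ) ^ q * s)
    have e : ((((2:ℝ) ^ q * s : ℝ)) : ℂ) * I = (((2:ℝ) ^ q : ℝ) : ℂ) * s * I := by push_cast; ring
    rw [e] at h2
    refine h2.trans ?_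
    rw [abs_of_nonneg (mul_nonneg (by positivity) hs.1)]
    exact mul_le_mul_of_nonneg_left hs.2 (by positivity)
  have h2 : ∫ s in (0:ℝ)..ℓ, ‖TT c (sel P N m) α q s - TT c (sel P N m) α (q+1) s‖ ^ 2 ≤
      ∫ s in (0:ℝ)..ℓ, (2 ^ q * ℓ) ^ 2 * W s := by
    apply intervalIntegral.integral_mono_on hℓ0.le
    · exact (((TT_cont _ _ _ _).sub (TT_cont _ _ _ _)).norm.pow 2).intervalIntegrable _ _
    · exact (continuous_const.mul hWc).intervalIntegrable _ _
    · exact h1
  have hqm : ℓ ≤ 2 * Real.pi / 2 ^ q := by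
    rw [hℓ]
    apply div_le_div_of_nonneg_left (by positivity) (by positivity)
    exact pow_le_pow_right₀ (by norm_num) hq.le
  have h3 : ∫ s in (0:ℝ)..ℓ, W s ≤ ∫ s in (0:ℝ)..(2 * Real.pi / 2 ^ q), W s := by
    apply intervalIntegral.integral_mono_interval le_rfl hℓ0.le hqm
    · exact Filter.Eventually.of_forall (fun s => by simp only [hW, Pi.zero_apply]; positivity)
    · exact hWc.intervalIntegrable _ _
  have h4 : ∫ s in (0:ℝ)..(2 * Real.pi / 2 ^ q), W s ≤ 2 * Real.pi / 2 ^ q * B ^ 2 := by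
    have h5 := ortho J (fun j => ep c (blk N q j) α) ((2:ℝ) ^ q) (by positivity)
    simp only [hW]
    rw [h5]
    apply mul_le_mul_of_nonneg_left _ (by positivity)
    refine le_trans (Finset.sum_le_sum_of_subset_of_nonneg ?_ (fun _ _ _ => sq_nonneg _)) (H q α)
    intro j hj
    rw [hJ, Finset.mem_filter, Finset.mem_filter, Finset.mem_range] at hj
    rw [Finset.mem_Ico]
    refine ⟨?_, hj.1.1⟩
    by_contra h0
    have : j = 0 := by omega
    rw [this] at hj
    simp at hj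
  rw [intervalIntegral.integral_const_mul] at h2
  refine h2.trans ?_
  calc (2 ^ q * ℓ) ^ 2 * ∫ s in (0:ℝ)..ℓ, W s ≤ (2 ^ q * ℓ) ^ 2 * (2 * Real.pi / 2 ^ q * B ^ 2) :=
        mul_le_mul_of_nonneg_left (h3.trans h4) (by positivity)
    _ = _ := by
        rw [hℓ]
        have e1 : Real.sqrt 2 ^ q ^ 1 = Real.sqrt 2 ^ q := by ring_nf
        have e2 : (Real.sqrt 2 ^ q / Real.sqrt 2 ^ m) ^ 2 = 2 ^ q / 2 ^ m := by
          rw [div_pow, ← pow_mul, ← pow_mul, mul_comm q 2, mul_comm m 2, pow_mul, pow_mul,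
            Real.sq_sqrt (by norm_num)]
        rw [e2]
        field_simp

/-- the high frequency part -/
lemma high_est (hP : ¬ P 0) (c : ℕ → ℂ) (N : ℕ) (B : ℝ)
    (H : ∀ q α, ∑ j ∈ Finset.Ico 1 N, ‖ep c (blk N q j) α‖ ^ 2 ≤ B ^ 2) (m : ℕ) (α : ℝ) :
    ∫ s in (0:ℝ)..(2 * Real.pi / 2 ^ m), ‖ep c (sel P N m) (α + s)‖ ^ 2 ≤
      800 * (2 * Real.pi / 2 ^ m) * B ^ 2 := by
  have hpi := Real.pi_pos
  set ℓ := 2 * Real.pi / 2 ^ m with hℓ
  have hℓ0 : 0 < ℓ := by positivity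
  set U := sel P N m with hU
  set lam : ℕ → ℝ := fun q => Real.sqrt 2 ^ q / Real.sqrt 2 ^ m with hlam
  have hlam0 : ∀ q, 0 < lam q := fun q => by simp only [hlam]; positivity
  have hlamS : ∑ q ∈ Finset.range m, lam q ≤ 3 := by
    simp only [hlam]
    rw [← Finset.sum_div, div_le_iff₀ (by positivity)]
    exact geom3 m
  have hlamS0 : 0 ≤ ∑ q ∈ Finset.range m, lam q := Finset.sum_nonneg (fun q _ => (hlam0 q).le)
  have hc1 : ∀ q, Continuous (fun s => ‖TT c U α q s - TT c U α (q+1) s‖ ^ 2) :=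
    fun q => ((TT_cont _ _ _ _).sub (TT_cont _ _ _ _)).norm.pow 2
  have hpt : ∀ s, ‖ep c U (α + s)‖ ^ 2 ≤ 2 * ‖TT c U α m s‖ ^ 2 +
      6 * ∑ q ∈ Finset.range m, (lam q)⁻¹ * ‖TT c U α q s - TT c U α (q+1) s‖ ^ 2 := by
    intro s
    rw [← TT_zero, TT_tel c U α s m]
    have h1 : ‖∑ q ∈ Finset.range m, (TT c U α q s - TT c U α (q+1) s)‖ ^ 2 ≤
        3 * ∑ q ∈ Finset.range m, (lam q)⁻¹ * ‖TT c U α q s - TT c U α (q+1) s‖ ^ 2 := by
      calc _ ≤ (∑ q ∈ Finset.range m, ‖TT c U α q s - TT c U α (q+1) s‖) ^ 2 :=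
            pow_le_pow_left₀ (norm_nonneg _) (norm_sum_le _ _) 2
        _ ≤ (∑ q ∈ Finset.range m, lam q) *
            ∑ q ∈ Finset.range m, (lam q)⁻¹ * ‖TT c U α q s - TT c U α (q+1) s‖ ^ 2 := by
            apply Finset.sum_sq_le_sum_mul_sum_of_sq_le_mul
            · intro q _; exact (hlam0 q).le
            · intro q _; have := hlam0 q; positivity
            · intro q _
              have := (hlam0 q).ne'
              apply le_of_eq
              field_simp
        _ ≤ _ := by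
            apply mul_le_mul_of_nonneg_right hlamS
            exact Finset.sum_nonneg (fun q _ => by have := hlam0 q; positivity)
    set X := TT c U α m s
    set Y := ∑ q ∈ Finset.range m, (TT c U α q s - TT c U α (q+1) s)
    have h2 : ‖X + Y‖ ^ 2 ≤ (‖X‖ + ‖Y‖) ^ 2 := pow_le_pow_left₀ (norm_nonneg _) (norm_add_le _ _) 2
    nlinarith [sq_nonneg (‖X‖ - ‖Y‖)]
  have hm : ∫ s in (0:ℝ)..ℓ, ‖TT c U α m s‖ ^ 2 ≤ ℓ * B ^ 2 := by
    have h1 : ∀ s, TT c U α m s = ∑ j ∈ (Finset.range N).filter (fun j => P (j / 2 ^ (m - m))),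
      Complex.exp ((j:ℂ) * ((2:ℝ) ^ m : ℝ) * s * I) * ep c (blk N m j) α := fun s =>
        TT_eq P c N m m le_rfl α s
    simp only [h1]
    rw [ortho _ (fun j => ep c (blk N m j) α) ((2:ℝ) ^ m) (by positivity)]
    apply mul_le_mul_of_nonneg_left _ (by positivity)
    refine le_trans (Finset.sum_le_sum_of_subset_of_nonneg ?_ (fun _ _ _ => sq_nonneg _)) (H m α)
    intro j hj
    rw [Finset.mem_filter, Finset.mem_range] at hj
    rw [Finset.mem_Ico]
    refine ⟨?_, hj.1⟩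
    by_contra h0
    have : j = 0 := by omega
    rw [this] at hj
    simp at hj
    exact hP hj.2
  calc ∫ s in (0:ℝ)..ℓ, ‖ep c U (α + s)‖ ^ 2 ≤ ∫ s in (0:ℝ)..ℓ, (2 * ‖TT c U α m s‖ ^ 2 +
      6 * ∑ q ∈ Finset.range m, (lam q)⁻¹ * ‖TT c U α q s - TT c U α (q+1) s‖ ^ 2) := by
        apply intervalIntegral.integral_mono_on hℓ0.le
        · exact (((ep_cont c U).comp (continuous_const.add continuous_id)).norm.pow 2).intervalIntegrable _ _
        · apply Continuous.intervalIntegrable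
          exact (continuous_const.mul ((TT_cont _ _ _ _).norm.pow 2)).add
            (continuous_const.mul (continuous_finsetSum _ (fun q _ => continuous_const.mul (hc1 q))))
        · intro s _; exact hpt s
    _ = 2 * (∫ s in (0:ℝ)..ℓ, ‖TT c U α m s‖ ^ 2) + 6 * ∑ q ∈ Finset.range m, (lam q)⁻¹ *
        ∫ s in (0:ℝ)..ℓ, ‖TT c U α q s - TT c U α (q+1) s‖ ^ 2 := by
        have i1 : IntervalIntegrable (fun s => 2 * ‖TT c U α m s‖ ^ 2) volume 0 ℓ :=
          (continuous_const.mul ((TT_cont _ _ _ _).norm.pow 2)).intervalIntegrable _ _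
        have i3 : ∀ q, IntervalIntegrable (fun s => (lam q)⁻¹ * ‖TT c U α q s - TT c U α (q+1) s‖ ^ 2)
            volume 0 ℓ := fun q => (continuous_const.mul (hc1 q)).intervalIntegrable _ _
        have i2 : IntervalIntegrable (fun s => 6 * ∑ q ∈ Finset.range m, (lam q)⁻¹ *
            ‖TT c U α q s - TT c U α (q+1) s‖ ^ 2) volume 0 ℓ :=
          (continuous_const.mul (continuous_finsetSum _ (fun q _ => continuous_const.mul (hc1 q)))).intervalIntegrable _ _
        rw [intervalIntegral.integral_add i1 i2,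
          intervalIntegral.integral_const_mul, intervalIntegral.integral_const_mul,
          intervalIntegral.integral_finsetSum (fun q _ => i3 q)]
        simp only [intervalIntegral.integral_const_mul]
    _ ≤ 2 * (ℓ * B ^ 2) + 6 * ∑ q ∈ Finset.range m, ((2 * Real.pi) ^ 2 * ℓ * B ^ 2) * lam q := by
        have h5 : ∀ q ∈ Finset.range m, (lam q)⁻¹ *
            ∫ s in (0:ℝ)..ℓ, ‖TT c U α q s - TT c U α (q+1) s‖ ^ 2 ≤ ((2 * Real.pi) ^ 2 * ℓ * B ^ 2) * lam q := by
          intro q hq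
          have h6 := inc_L2 P hP c N B H m q (Finset.mem_range.1 hq) α
          rw [← hU, ← hℓ] at h6
          have h7 := hlam0 q
          rw [inv_mul_le_iff₀ h7]
          refine h6.trans (le_of_eq ?_)
          simp only [hlam]
          ring
        have := Finset.sum_le_sum h5
        linarith
    _ ≤ 800 * ℓ * B ^ 2 := by
        rw [← Finset.mul_sum]
        have h8 : Real.pi ^ 2 ≤ 10 := by
          have := Real.pi_lt_d2
          nlinarith
        have h9 : 0 ≤ ℓ * B ^ 2 := by positivity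
        have h10 : (2 * Real.pi) ^ 2 * ℓ * B ^ 2 * ∑ q ∈ Finset.range m, lam q ≤ 120 * (ℓ * B ^ 2) := by
          calc _ ≤ (2 * Real.pi) ^ 2 * ℓ * B ^ 2 * 3 := mul_le_mul_of_nonneg_left hlamS (by positivity)
            _ = 12 * Real.pi ^ 2 * (ℓ * B ^ 2) := by ring
            _ ≤ _ := by nlinarith
        nlinarith

/-- increments of one dyadic block -/
lemma low_block (c : ℕ → ℂ) (N : ℕ) (B : ℝ) (hB : 0 ≤ B)
    (H : ∀ q α, ∑ j ∈ Finset.Ico 1 N, ‖ep c (blk N q j) α‖ ^ 2 ≤ B ^ 2) (i : ℕ) (α s : ℝ) (hs : 0 ≤ s) :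
    ‖ep c (blk N i 1) (α + s) - ep c (blk N i 1) α‖ ≤ 4 * 2 ^ i * s * B := by
  have hU : blk N i 1 = sel (fun j => j = 1) N i := rfl
  have h0 : ep c (blk N i 1) (α + s) = TT c (blk N i 1) α i s +
      ∑ q ∈ Finset.range i, (TT c (blk N i 1) α q s - TT c (blk N i 1) α (q+1) s) := by
    rw [← TT_zero, TT_tel c _ α s i]
  have hone : ‖ep c (blk N i 1) α‖ ≤ B := by
    by_cases hN : 2 ≤ N
    · have h1 := H i α
      have h2 : ‖ep c (blk N i 1) α‖ ^ 2 ≤ ∑ j ∈ Finset.Ico 1 N, ‖ep c (blk N i j) α‖ ^ 2 :=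
        Finset.single_le_sum (f := fun j => ‖ep c (blk N i j) α‖ ^ 2) (fun _ _ => sq_nonneg _)
          (Finset.mem_Ico.2 ⟨le_rfl, by omega⟩)
      exact abs_le_of_sq_le_sq' (h2.trans h1) hB |>.2
    · have : blk N i 1 = ∅ := by
        ext k
        rw [mem_blk]
        constructor
        · rintro ⟨h1, h2⟩
          have : k = 0 := by omega
          rw [this] at h2
          simp at h2
        · intro h; simp at h
      rw [this]; unfold ep; simpa using hB
  have hlast : ‖TT c (blk N i 1) α i s - ep c (blk N i 1) α‖ ≤ 2 ^ i * s * B := by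
    have h1 : TT c (blk N i 1) α i s = Complex.exp ((((2:ℝ) ^ i : ℝ) : ℂ) * s * I) * ep c (blk N i 1) α := by
      unfold TT ep
      rw [Finset.mul_sum]
      refine Finset.sum_congr rfl (fun k hk => ?_)
      rw [(mem_blk.1 hk).2]
      push_cast; ring
    rw [h1, ← sub_one_mul, norm_mul]
    have h2 := Real.norm_exp_I_mul_ofReal_sub_one_le (x := (2:ℝ) ^ i * s)
    have e : I * ((((2:ℝ) ^ i * s : ℝ)) : ℂ) = (((2:ℝ) ^ i : ℝ) : ℂ) * s * I := by push_cast; ring
    rw [e, Real.norm_eq_abs, abs_of_nonneg (by positivity)] at h2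
    exact mul_le_mul h2 hone (norm_nonneg _) (by positivity)
  have hinc : ∀ q ∈ Finset.range i, ‖TT c (blk N i 1) α q s - TT c (blk N i 1) α (q+1) s‖ ≤
      (Real.sqrt 2 ^ i * s * B) * Real.sqrt 2 ^ q := by
    intro q hq
    rw [Finset.mem_range] at hq
    rw [hU, TT_sub (fun j => j = 1) c N i q hq, norm_mul]
    set J := ((Finset.range N).filter (fun j => j / 2 ^ (i - q) = 1)).filter (fun j => j % 2 = 1) with hJ
    have h2 := norm_one_sub_exp ((2:ℝ) ^ q * s)
    have e : ((((2:ℝ) ^ q * s : ℝ)) : ℂ) * I = (((2:ℝ) ^ q : ℝ) : ℂ) * s * I := by push_cast; ring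
    rw [e, abs_of_nonneg (by positivity)] at h2
    have h3 : ‖∑ j ∈ J, Complex.exp ((j:ℂ) * ((2:ℝ) ^ q : ℝ) * s * I) * ep c (blk N q j) α‖ ≤
        Real.sqrt 2 ^ (i - q) * B := by
      have h4 : ‖∑ j ∈ J, Complex.exp ((j:ℂ) * ((2:ℝ) ^ q : ℝ) * s * I) * ep c (blk N q j) α‖ ≤
          ∑ j ∈ J, ‖ep c (blk N q j) α‖ := by
        refine (norm_sum_le _ _).trans (le_of_eq (Finset.sum_congr rfl (fun j _ => ?_)))
        rw [norm_mul]
        have : ‖Complex.exp ((j:ℂ) * ((2:ℝ) ^ q : ℝ) * s * I)‖ = 1 := by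
          have e : (j:ℂ) * ((2:ℝ) ^ q : ℝ) * s * I = (((j:ℝ) * (2:ℝ) ^ q * s : ℝ) : ℂ) * I := by
            push_cast; ring
          rw [e, Complex.norm_exp_ofReal_mul_I]
        rw [this, one_mul]
      have hcard : (J.card : ℝ) ≤ 2 ^ (i - q) := by
        have h5 : J ⊆ Finset.Ico (2 ^ (i - q)) (2 * 2 ^ (i - q)) := by
          intro j hj
          rw [hJ, Finset.mem_filter, Finset.mem_filter] at hj
          have h6 := hj.1.2
          have hp : 0 < 2 ^ (i - q) := by positivity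
          rw [Nat.div_eq_iff hp] at h6
          rw [Finset.mem_Ico]
          omega
        have h7 := Finset.card_le_card h5
        rw [Nat.card_Ico] at h7
        have : J.card ≤ 2 ^ (i - q) := by omega
        exact_mod_cast this
      have h6 : (∑ j ∈ J, ‖ep c (blk N q j) α‖) ^ 2 ≤ (Real.sqrt 2 ^ (i - q) * B) ^ 2 := by
        calc _ ≤ J.card * ∑ j ∈ J, ‖ep c (blk N q j) α‖ ^ 2 := sq_sum_le_card_mul_sum_sq
          _ ≤ 2 ^ (i - q) * B ^ 2 := by
              apply mul_le_mul hcard _ (Finset.sum_nonneg (fun _ _ => sq_nonneg _)) (by positivity)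
              refine le_trans (Finset.sum_le_sum_of_subset_of_nonneg ?_ (fun _ _ _ => sq_nonneg _)) (H q α)
              intro j hj
              rw [hJ, Finset.mem_filter, Finset.mem_filter, Finset.mem_range] at hj
              rw [Finset.mem_Ico]
              omega
          _ = _ := by
              rw [mul_pow, ← pow_mul, mul_comm (i-q) 2, pow_mul, Real.sq_sqrt (by norm_num)]
      exact h4.trans (abs_le_of_sq_le_sq' h6 (by positivity)).2
    calc _ ≤ (2 ^ q * s) * (Real.sqrt 2 ^ (i - q) * B) :=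
          mul_le_mul h2 h3 (norm_nonneg _) (by positivity)
      _ = _ := by
          have e1 : (2:ℝ) ^ q = Real.sqrt 2 ^ q * Real.sqrt 2 ^ q := by
            rw [← mul_pow, Real.mul_self_sqrt (by norm_num)]
          have e2 : Real.sqrt 2 ^ i = Real.sqrt 2 ^ q * Real.sqrt 2 ^ (i - q) := by
            rw [← pow_add]; congr 1; omega
          rw [e1, e2]; ring
  rw [h0]
  calc _ = ‖(TT c (blk N i 1) α i s - ep c (blk N i 1) α) +
      ∑ q ∈ Finset.range i, (TT c (blk N i 1) α q s - TT c (blk N i 1) α (q+1) s)‖ := by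
        congr 1; ring
    _ ≤ 2 ^ i * s * B + ∑ q ∈ Finset.range i, (Real.sqrt 2 ^ i * s * B) * Real.sqrt 2 ^ q :=
        (norm_add_le _ _).trans (add_le_add hlast ((norm_sum_le _ _).trans (Finset.sum_le_sum hinc)))
    _ ≤ 2 ^ i * s * B + (Real.sqrt 2 ^ i * s * B) * (3 * Real.sqrt 2 ^ i) := by
        rw [← Finset.mul_sum]
        have := mul_le_mul_of_nonneg_left (geom3 i) (by positivity : 0 ≤ Real.sqrt 2 ^ i * s * B)
        linarith
    _ = _ := by
        have e1 : (2:ℝ) ^ i = Real.sqrt 2 ^ i * Real.sqrt 2 ^ i := by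
          rw [← mul_pow, Real.mul_self_sqrt (by norm_num)]
        rw [e1]; ring

lemma blk_zero_succ (N m : ℕ) : blk N (m+1) 0 = blk N m 0 ∪ blk N m 1 := by
  ext k
  rw [Finset.mem_union, mem_blk, mem_blk, mem_blk]
  have : k / 2 ^ (m+1) = (k / 2 ^ m) / 2 := by rw [pow_succ, ← Nat.div_div_eq_div_mul]
  rw [this]
  generalize k / 2 ^ m = y
  omega

/-- the low frequency part -/
lemma low_est (c : ℕ → ℂ) (N : ℕ) (B : ℝ) (hB : 0 ≤ B)
    (H : ∀ q α, ∑ j ∈ Finset.Ico 1 N, ‖ep c (blk N q j) α‖ ^ 2 ≤ B ^ 2) (m : ℕ) (α s : ℝ) (hs : 0 ≤ s) :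
    ‖ep c (blk N m 0) (α + s) - ep c (blk N m 0) α‖ ≤ 4 * 2 ^ m * s * B := by
  induction m with
  | zero =>
    have h1 : ∀ x, ep c (blk N 0 0) x = ep c (blk N 0 0) 0 := by
      intro x
      unfold ep
      refine Finset.sum_congr rfl (fun k hk => ?_)
      have : k = 0 := by have := (mem_blk.1 hk).2; simpa using this
      rw [this]; simp
    rw [h1, h1 α, sub_self, norm_zero]
    positivity
  | succ m ih =>
    have h1 : ∀ x, ep c (blk N (m+1) 0) x = ep c (blk N m 0) x + ep c (blk N m 1) x := by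
      intro x
      unfold ep
      rw [blk_zero_succ, Finset.sum_union (blk_disj (by norm_num))]
    rw [h1, h1 α]
    have h2 := low_block c N B hB H m α s hs
    calc _ = ‖(ep c (blk N m 0) (α + s) - ep c (blk N m 0) α) +
        (ep c (blk N m 1) (α + s) - ep c (blk N m 1) α)‖ := by congr 1; ring
      _ ≤ _ := (norm_add_le _ _).trans (add_le_add ih h2)
      _ = _ := by rw [pow_succ]; ring

/-- mean square oscillation of the polynomial -/
theorem osc_est (α ℓ : ℝ) (hℓ : 0 < ℓ) (hℓ2 : ℓ ≤ 2 * Real.pi) :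
    ∃ m : ℕ, ∀ (c : ℕ → ℂ) (N : ℕ) (B : ℝ), 0 ≤ B →
      (∀ q α, ∑ j ∈ Finset.Ico 1 N, ‖ep c (blk N q j) α‖ ^ 2 ≤ B ^ 2) →
      ∫ s in (0:ℝ)..ℓ, ‖ep c (Finset.range N) (α + s) - ep c (blk N m 0) α‖ ^ 2 ≤ 5000 * B ^ 2 * ℓ := by
  have hpi := Real.pi_pos
  obtain ⟨m, hm1, hm2⟩ := exists_nat_pow_near (x := 2 * Real.pi / ℓ) (y := 2)
    (by rw [le_div_iff₀ hℓ]; linarith) (by norm_num)
  have h1 : ℓ ≤ 2 * Real.pi / 2 ^ m := by
    rw [le_div_iff₀ hℓ] at hm1
    rw [le_div_iff₀ (by positivity)]; linarith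
  have h2 : 2 * Real.pi / 2 ^ m ≤ 2 * ℓ := by
    rw [div_lt_iff₀ hℓ, pow_succ] at hm2
    rw [div_le_iff₀ (by positivity)]; nlinarith
  refine ⟨m, fun c N B hB H => ?_⟩
  have hhigh := high_est (fun j => 1 ≤ j) (by norm_num) c N B H m α
  have hsplit : ∀ x, ep c (Finset.range N) x = ep c (blk N m 0) x + ep c (sel (fun j => 1 ≤ j) N m) x := by
    intro x
    have h3 : Finset.range N = blk N m 0 ∪ sel (fun j => 1 ≤ j) N m := by
      ext k
      unfold sel
      rw [Finset.mem_union, mem_blk, Finset.mem_filter, Finset.mem_range]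
      generalize k / 2 ^ m = y
      omega
    have h4 : Disjoint (blk N m 0) (sel (fun j => 1 ≤ j) N m) := by
      rw [Finset.disjoint_left]
      intro k hk hk'
      unfold sel at hk'
      rw [mem_blk] at hk
      rw [Finset.mem_filter] at hk'
      omega
    unfold ep
    conv_lhs => rw [h3]
    rw [Finset.sum_union h4]
  have hc1 : Continuous (fun s : ℝ => ‖ep c (sel (fun j => 1 ≤ j) N m) (α + s)‖ ^ 2) :=
    ((ep_cont c _).comp (continuous_const.add continuous_id)).norm.pow 2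
  have hpt : ∀ s ∈ Set.Icc (0:ℝ) ℓ, ‖ep c (Finset.range N) (α + s) - ep c (blk N m 0) α‖ ^ 2 ≤
      2 * ‖ep c (sel (fun j => 1 ≤ j) N m) (α + s)‖ ^ 2 + 2 * (26 * B) ^ 2 := by
    intro s hs
    have h3 := low_est c N B hB H m α s hs.1
    have h4 : 4 * 2 ^ m * s * B ≤ 26 * B := by
      apply mul_le_mul_of_nonneg_right _ hB
      have h5 : s * 2 ^ m ≤ 2 * Real.pi := by
        have h6 : s ≤ 2 * Real.pi / 2 ^ m := hs.2.trans h1
        rwa [le_div_iff₀ (by positivity)] at h6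
      have := Real.pi_lt_d2
      nlinarith
    rw [hsplit]
    set X := ep c (sel (fun j => 1 ≤ j) N m) (α + s)
    set Y := ep c (blk N m 0) (α + s) - ep c (blk N m 0) α with hY
    have e : ep c (blk N m 0) (α + s) + X - ep c (blk N m 0) α = X + Y := by rw [hY]; ring
    rw [e]
    have h7 : ‖X + Y‖ ^ 2 ≤ (‖X‖ + ‖Y‖) ^ 2 := pow_le_pow_left₀ (norm_nonneg _) (norm_add_le _ _) 2
    have h8 : ‖Y‖ ^ 2 ≤ (26 * B) ^ 2 := pow_le_pow_left₀ (norm_nonneg _) (h3.trans h4) 2
    nlinarith [sq_nonneg (‖X‖ - ‖Y‖)]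
  calc _ ≤ ∫ s in (0:ℝ)..ℓ, (2 * ‖ep c (sel (fun j => 1 ≤ j) N m) (α + s)‖ ^ 2 + 2 * (26 * B) ^ 2) := by
        apply intervalIntegral.integral_mono_on hℓ.le
        · exact ((((ep_cont c _).comp (continuous_const.add continuous_id)).sub continuous_const).norm.pow 2).intervalIntegrable _ _
        · exact ((continuous_const.mul hc1).add continuous_const).intervalIntegrable _ _
        · exact hpt
    _ = 2 * (∫ s in (0:ℝ)..ℓ, ‖ep c (sel (fun j => 1 ≤ j) N m) (α + s)‖ ^ 2) + ℓ * (2 * (26 * B) ^ 2) := by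
        have i1 : IntervalIntegrable (fun s : ℝ => 2 * ‖ep c (sel (fun j => 1 ≤ j) N m) (α + s)‖ ^ 2)
            volume 0 ℓ := (continuous_const.mul hc1).intervalIntegrable _ _
        have i2 : IntervalIntegrable (fun _ : ℝ => 2 * (26 * B) ^ 2) volume 0 ℓ :=
          continuous_const.intervalIntegrable _ _
        rw [intervalIntegral.integral_add i1 i2, intervalIntegral.integral_const_mul,
          intervalIntegral.integral_const, sub_zero, smul_eq_mul]
    _ ≤ 2 * (800 * (2 * Real.pi / 2 ^ m) * B ^ 2) + ℓ * (2 * (26 * B) ^ 2) := by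
        have h5 : ∫ s in (0:ℝ)..ℓ, ‖ep c (sel (fun j => 1 ≤ j) N m) (α + s)‖ ^ 2 ≤
            ∫ s in (0:ℝ)..(2 * Real.pi / 2 ^ m), ‖ep c (sel (fun j => 1 ≤ j) N m) (α + s)‖ ^ 2 := by
          apply intervalIntegral.integral_mono_interval le_rfl hℓ.le h1
          · exact Filter.Eventually.of_forall (fun s => by simp only [Pi.zero_apply]; positivity)
          · exact hc1.intervalIntegrable _ _
        linarith
    _ ≤ _ := by
        have hB2 : 0 ≤ B ^ 2 := sq_nonneg _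
        nlinarith [mul_le_mul_of_nonneg_right h2 hB2]

end H59.RB
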