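import Pool.Agent.H59.BMOA.Comb

/-! The random constant, and the truncated block estimate for random samples. -/

namespace H59.RB

set_option linter.unusedSectionVars false

open Finset BigOperators MeasureTheory

section
variable {T : Type*} [AddCommGroup T] [MeasurableSpace T] [MeasurableAdd₂ T] [MeasurableNeg T]
  {χ : ℕ → T → ℂ}
variable (μ : Measure T) [IsProbabilityMeasure μ] [μ.IsAddLeftInvariant] [μ.IsNegInvariant]
variable {Ω : Type*} [MeasurableSpace Ω] (P : Measure Ω) [IsProbabilityMeasure P] {X : ℕ → Ω → ℂ}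

lemma GG_nonneg (a Y : ℕ → ℂ) (N m n : ℕ) (y z : T) : 0 ≤ GG χ a Y N m n y z :=
  Finset.sum_nonneg (fun _ _ => gg_nonneg _ _ _ _ _ _)

lemma GG_le (a Y : ℕ → ℂ) (hY : ∀ k, ‖Y k‖ ≤ 1) (N m n : ℕ) (y z : T) :
    GG χ a Y N m n y z ≤ ∑ j ∈ Finset.Ico 1 N, ((co a N m (n+1) j ∪ co a N m n j).card : ℝ) :=
  Finset.sum_le_sum (fun _ _ => gg_le _ _ hY _ _ _ _)

/-- joint measurability -/
lemma measurable_ffj (h : Ch χ) (a : ℕ → ℂ) (hX : ∀ k, Measurable (X k)) (c : Finset ℕ)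
    {α : Type*} [MeasurableSpace α] (g : α → Ω) (hg : Measurable g) (t : α → T) (ht : Measurable t) :
    Measurable (fun p : α => ff χ a (fun k => X k (g p)) c (t p)) := by
  unfold ff
  apply Finset.measurable_sum
  intro k _
  exact (((hX k).comp hg).const_mul _).mul ((h.meas k).comp ht)

lemma measurable_GGj (h : Ch χ) (a : ℕ → ℂ) (hX : ∀ k, Measurable (X k)) (N m n : ℕ) :
    Measurable (fun p : Ω × (T × T) => GG χ a (fun k => X k p.1) N m n p.2.1 p.2.2) := by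
  unfold GG gg
  apply Finset.measurable_sum
  intro j _
  generalize co a N m (n+1) j = c
  generalize co a N m n j = c'
  have h1 := measurable_ffj h a hX c (α := Ω × (T × T)) (fun p => p.1) measurable_fst (fun p => p.2.1)
    (measurable_fst.comp measurable_snd)
  have h2 := measurable_ffj h a hX c' (α := Ω × (T × T)) (fun p => p.1) measurable_fst (fun p => p.2.2)
    (measurable_snd.comp measurable_snd)
  have h3 : Measurable (fun p : Ω × (T × T) => Dsq χ a c c' p.2.1 p.2.2) :=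
    (measurable_Dsq h a c c').comp measurable_snd
  exact (((h1.sub h2).norm).pow_const 2).div h3

/-- exponential integral -/
noncomputable def EI (χ : ℕ → T → ℂ) (a : ℕ → ℂ) (X : ℕ → Ω → ℂ) (N n m : ℕ) (ω : Ω) : ℝ :=
  ∫ p : T × T, Real.exp (GG χ a (fun k => X k ω) N m n p.1 p.2 / 4) ∂(μ.prod μ)

lemma EI_integrable (h : Ch χ) (a : ℕ → ℂ) (hX : ∀ k, Measurable (X k)) (hX1 : ∀ k ω, ‖X k ω‖ ≤ 1)
    (N n m : ℕ) (ω : Ω) :
    Integrable (fun p : T × T => Real.exp (GG χ a (fun k => X k ω) N m n p.1 p.2 / 4)) (μ.prod μ) := by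
  refine Integrable.of_bound (C := Real.exp ((∑ j ∈ Finset.Ico 1 N,
    ((co a N m (n+1) j ∪ co a N m n j).card : ℝ)) / 4)) ?_ (Filter.Eventually.of_forall (fun p => ?_))
  · have h1 := (((measurable_GGj h a hX N m n).div_const 4).exp)
    exact (h1.comp (measurable_const.prodMk measurable_id : Measurable (fun p : T × T => (ω, p)))).aestronglyMeasurable
  · rw [Real.norm_eq_abs, abs_of_pos (Real.exp_pos _)]
    apply Real.exp_le_exp.2
    have := GG_le (χ := χ) a (fun k => X k ω) (fun k => hX1 k ω) N m n p.1 p.2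
    linarith

lemma EI_pos (h : Ch χ) (a : ℕ → ℂ) (hX : ∀ k, Measurable (X k)) (hX1 : ∀ k ω, ‖X k ω‖ ≤ 1)
    (N n m : ℕ) (ω : Ω) : 0 < EI μ χ a X N n m ω := by
  have h1 : (1:ℝ) ≤ EI μ χ a X N n m ω := by
    calc (1:ℝ) = ∫ p : T × T, (1:ℝ) ∂(μ.prod μ) := by simp
      _ ≤ _ := by
          apply integral_mono (integrable_const _) (EI_integrable μ h a hX hX1 N n m ω)
          intro p
          apply Real.one_le_exp
          have := GG_nonneg (χ := χ) a (fun k => X k ω) N m n p.1 p.2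
          positivity
  linarith

lemma EI_meas (h : Ch χ) (a : ℕ → ℂ) (hX : ∀ k, Measurable (X k)) (N n m : ℕ) :
    Measurable (EI μ χ a X N n m) := by
  unfold EI
  have h1 : StronglyMeasurable (fun p : Ω × (T × T) =>
      Real.exp (GG χ a (fun k => X k p.1) N m n p.2.1 p.2.2 / 4)) :=
    (((measurable_GGj h a hX N m n).div_const 4).exp).stronglyMeasurable
  exact h1.integral_prod_right.measurable

lemma GG_expect (a : ℕ → ℂ) (hX : SubG P X) (N n m : ℕ) (y z : T) :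
    ∫⁻ ω, ENNReal.ofReal (Real.exp (GG χ a (fun k => X k ω) N m n y z / 4)) ∂P ≤
      2 ^ (2 ^ (n+2)) := by
  classical
  set J := (Finset.Ico 1 N).filter (fun j => (co a N m (n+1) j).Nonempty ∨ (co a N m n j).Nonempty) with hJ
  have hcard : J.card ≤ 2 ^ (n+2) := by
    have h3 : J = (Finset.Ico 1 N).filter (fun j => (co a N m (n+1) j).Nonempty) ∪
        (Finset.Ico 1 N).filter (fun j => (co a N m n j).Nonempty) := by
      rw [hJ, Finset.filter_or]
    rw [h3]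
    refine (Finset.card_union_le _ _).trans ?_
    have h4 := active_card a N m (n+1)
    have h5 := active_card a N m n
    have h6 : 2 ^ (n+1) = 2 * 2 ^ n := by rw [pow_succ]; ring
    have h7 : 2 ^ (n+2) = 4 * 2 ^ n := by rw [pow_succ, pow_succ]; ring
    have h8 : 0 < 2 ^ n := by positivity
    omega
  have heq : ∀ ω, GG χ a (fun k => X k ω) N m n y z =
      ∑ j ∈ J, gg χ a (fun k => X k ω) (co a N m (n+1) j) (co a N m n j) y z := by
    intro ω
    unfold GG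
    rw [hJ, Finset.sum_filter]
    refine Finset.sum_congr rfl (fun j _ => ?_)
    split_ifs with hj
    · rfl
    · rw [not_or, Finset.not_nonempty_iff_eq_empty, Finset.not_nonempty_iff_eq_empty] at hj
      rw [hj.1, hj.2, gg_empty]
  simp only [heq]
  have hd : ∀ i ∈ J, ∀ j ∈ J, i ≠ j → Disjoint (co a N m (n+1) i ∪ co a N m n i)
      (co a N m (n+1) j ∪ co a N m n j) := by
    intro i _ j _ hij
    apply Finset.disjoint_of_subset_left
      (Finset.union_subset (co_sub a N m (n+1) i) (co_sub a N m n i))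
    apply Finset.disjoint_of_subset_right
      (Finset.union_subset (co_sub a N m (n+1) j) (co_sub a N m n j))
    exact blk_disj hij
  have h1 := expgg (χ := χ) hX a J (fun j => co a N m (n+1) j) (fun j => co a N m n j) hd y z
  refine h1.trans ?_
  exact pow_le_pow_right₀ (by norm_num) hcard

lemma EI_lint (h : Ch χ) (a : ℕ → ℂ) (hX : SubG P X) (hX1 : ∀ k ω, ‖X k ω‖ ≤ 1) (N n m : ℕ) (ω : Ω) :
    ENNReal.ofReal (EI μ χ a X N n m ω) =
      ∫⁻ p : T × T, ENNReal.ofReal (Real.exp (GG χ a (fun k => X k ω) N m n p.1 p.2 / 4)) ∂(μ.prod μ) := by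
  unfold EI
  rw [ofReal_integral_eq_lintegral_ofReal (EI_integrable μ h a hX.meas hX1 N n m ω)
    (Filter.Eventually.of_forall (fun p => (Real.exp_pos _).le))]

lemma EI_expect (h : Ch χ) (a : ℕ → ℂ) (hX : SubG P X) (hX1 : ∀ k ω, ‖X k ω‖ ≤ 1) (N n m : ℕ) :
    ∫⁻ ω, ENNReal.ofReal (EI μ χ a X N n m ω) ∂P ≤ 2 ^ (2 ^ (n+2)) := by
  simp only [EI_lint μ P h a hX hX1 N n m]
  set F : Ω → T × T → ENNReal := fun ω p =>
    ENNReal.ofReal (Real.exp (GG χ a (fun k => X k ω) N m n p.1 p.2 / 4)) with hF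
  have hm : Measurable (Function.uncurry F) :=
    (((measurable_GGj h a hX.meas N m n).div_const 4).exp).ennreal_ofReal
  have hswap : ∫⁻ ω, ∫⁻ p, F ω p ∂(μ.prod μ) ∂P = ∫⁻ p, ∫⁻ ω, F ω p ∂P ∂(μ.prod μ) :=
    lintegral_lintegral_swap hm.aemeasurable
  rw [hswap]
  have h2 : ∀ p : T × T, ∫⁻ ω, F ω p ∂P ≤ 2 ^ (2 ^ (n+2)) := fun p =>
    GG_expect P a hX N n m p.1 p.2
  generalize (2:ENNReal) ^ (2 ^ (n+2)) = M at h2 ⊢
  calc ∫⁻ p, ∫⁻ ω, F ω p ∂P ∂(μ.prod μ) ≤ ∫⁻ _ : T × T, M ∂(μ.prod μ) := lintegral_mono h2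
    _ = M := by rw [lintegral_const, measure_univ, mul_one]

/-- normalising constants -/
noncomputable def Kc (n : ℕ) : ℝ := 3 * 64 ^ (n+1) * 2 ^ (2 ^ (n+2))

lemma Kc_pos (n : ℕ) : 0 < Kc n := by unfold Kc; positivity

lemma log_Kc (n : ℕ) : Real.log (Kc n) ≤ 9 * 2 ^ n := by
  unfold Kc
  have h1 : (3:ℝ) * 64 ^ (n+1) * 2 ^ (2 ^ (n+2)) ≤ 2 ^ (2 + 6 * (n+1) + 2 ^ (n+2)) := by
    have e : (2:ℝ) ^ (2 + 6 * (n+1) + 2 ^ (n+2)) = 4 * 64 ^ (n+1) * 2 ^ (2 ^ (n+2)) := by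
      rw [pow_add _ (2 + 6 * (n+1)) (2 ^ (n+2)), pow_add _ 2 (6 * (n+1)), pow_mul]
      norm_num
    rw [e]
    apply mul_le_mul_of_nonneg_right _ (by positivity)
    apply mul_le_mul_of_nonneg_right (by norm_num) (by positivity)
  have h2 : Real.log (3 * 64 ^ (n+1) * 2 ^ (2 ^ (n+2))) ≤ Real.log (2 ^ (2 + 6 * (n+1) + 2 ^ (n+2))) :=
    Real.log_le_log (by positivity) h1
  refine h2.trans ?_
  rw [Real.log_pow]
  have h3 := Real.log_two_lt_d9
  have h0 := Real.log_two_gt_d9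
  have h4 : (n:ℝ) + 1 ≤ 2 ^ n := by
    have : n + 1 ≤ 2 ^ n := Nat.lt_two_pow_self
    exact_mod_cast this
  have h5 : ((2 + 6 * (n+1) + 2 ^ (n+2) : ℕ) : ℝ) ≤ 12 * 2 ^ n := by
    push_cast
    have h6 : (1:ℝ) ≤ 2 ^ n := one_le_pow₀ (by norm_num)
    have h7 : (2:ℝ) ^ (n+2) = 4 * 2 ^ n := by rw [pow_succ, pow_succ]; ring
    rw [h7]; linarith
  have h8 : (0:ℝ) < 2 ^ n := by positivity
  calc _ ≤ (12 * 2 ^ n) * Real.log 2 := mul_le_mul_of_nonneg_right h5 (by linarith)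
    _ ≤ _ := by nlinarith

/-- Random constant controlling all exponential integrals. -/
theorem exists_Xi (h : Ch χ) (a : ℕ → ℂ) (hX : SubG P X) (hX1 : ∀ k ω, ‖X k ω‖ ≤ 1) (N R : ℕ)
    (ha : cE a N ≤ 1) :
    ∃ Ξ : Ω → ℝ, Measurable Ξ ∧ (∀ ω, 0 ≤ Ξ ω) ∧ ∫⁻ ω, ENNReal.ofReal (Ξ ω) ∂P ≤ 11 ∧
      ∀ ω m, ∀ n < R, Real.log (∫ p : T × T, Real.exp (GG χ a (fun k => X k ω) N m n p.1 p.2 / 4) ∂(μ.prod μ)) ≤
        2 ^ n * Ξ ω := by
  choose Rep hRep1 hRep2 using fun n => exists_rep (KK a N (n+1))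
  set Z : ℕ → Ω → ℝ := fun n ω => ∑ m ∈ Rep n, EI μ χ a X N n m ω with hZ
  have hZ0 : ∀ n ω, 0 ≤ Z n ω := fun n ω => Finset.sum_nonneg (fun m _ => (EI_pos μ h a hX.meas hX1 N n m ω).le)
  have hZm : ∀ n, Measurable (Z n) := fun n => Finset.measurable_sum _ (fun m _ => EI_meas μ h a hX.meas N n m)
  have hRepc : ∀ n, ((Rep n).card : ℝ) ≤ 3 * 64 ^ (n+1) := by
    intro n
    have h1 : (KK a N (n+1)).card ≤ 8 ^ (n+1) := by
      refine (KK_card a N (n+1)).trans ?_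
      have : (8:ℝ) ^ (n+1) * cE a N ≤ ((8 ^ (n+1) : ℕ) : ℝ) := by
        push_cast
        have h8 : (0:ℝ) < 8 ^ (n+1) := by positivity
        nlinarith
      exact (Nat.floor_mono this).trans (Nat.floor_natCast _).le
    have h2 := hRep1 n
    have h3 : (Rep n).card ≤ 3 * 64 ^ (n+1) := by
      have h4 : 64 ^ (n+1) = 8 ^ (n+1) * 8 ^ (n+1) := by rw [← mul_pow]; norm_num
      have h5 : 1 ≤ 8 ^ (n+1) := Nat.one_le_pow _ _ (by norm_num)
      rw [h4]
      nlinarith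
    exact_mod_cast h3
  have hZE : ∀ n, ∫⁻ ω, ENNReal.ofReal (Z n ω) ∂P ≤ ENNReal.ofReal (Kc n) := by
    intro n
    have h1 : ∀ ω, ENNReal.ofReal (Z n ω) = ∑ m ∈ Rep n, ENNReal.ofReal (EI μ χ a X N n m ω) := by
      intro ω
      rw [hZ]
      exact ENNReal.ofReal_sum_of_nonneg (fun m _ => (EI_pos μ h a hX.meas hX1 N n m ω).le)
    simp only [h1]
    rw [lintegral_finsetSum _ (fun m _ => (EI_meas μ h a hX.meas N n m).ennreal_ofReal)]
    calc _ ≤ ∑ m ∈ Rep n, (2:ENNReal) ^ (2 ^ (n+2)) :=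
          Finset.sum_le_sum (fun m _ => EI_expect μ P h a hX hX1 N n m)
      _ = ENNReal.ofReal ((Rep n).card * 2 ^ (2 ^ (n+2))) := by
          rw [Finset.sum_const, nsmul_eq_mul, ENNReal.ofReal_mul (by positivity),
            ENNReal.ofReal_natCast, ENNReal.ofReal_pow (by norm_num)]
          norm_num
      _ ≤ _ := by
          apply ENNReal.ofReal_le_ofReal
          unfold Kc
          exact mul_le_mul_of_nonneg_right (hRepc n) (by positivity)
  refine ⟨fun ω => 9 + ∑ n ∈ Finset.range R, (1/2) ^ n * (Z n ω / Kc n), ?_, ?_, ?_, ?_⟩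
  · exact measurable_const.add (Finset.measurable_sum _ (fun n _ => ((hZm n).div_const _).const_mul _))
  · intro ω
    have : 0 ≤ ∑ n ∈ Finset.range R, (1/2) ^ n * (Z n ω / Kc n) :=
      Finset.sum_nonneg (fun n _ => mul_nonneg (by positivity) (div_nonneg (hZ0 n ω) (Kc_pos n).le))
    linarith
  · have h1 : ∀ ω, ENNReal.ofReal (9 + ∑ n ∈ Finset.range R, (1/2) ^ n * (Z n ω / Kc n)) =
        9 + ∑ n ∈ Finset.range R, ENNReal.ofReal ((1/2) ^ n / Kc n) * ENNReal.ofReal (Z n ω) := by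
      intro ω
      rw [ENNReal.ofReal_add (by norm_num) (Finset.sum_nonneg (fun n _ => mul_nonneg (by positivity)
        (div_nonneg (hZ0 n ω) (Kc_pos n).le))), ENNReal.ofReal_sum_of_nonneg
        (fun n _ => mul_nonneg (by positivity) (div_nonneg (hZ0 n ω) (Kc_pos n).le))]
      congr 1
      · norm_num
      · refine Finset.sum_congr rfl (fun n _ => ?_)
        rw [← ENNReal.ofReal_mul (div_nonneg (by positivity) (Kc_pos n).le)]
        congr 1; ring
    simp only [h1]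
    rw [lintegral_add_left measurable_const, lintegral_const, measure_univ, mul_one,
      lintegral_finsetSum _ (fun n _ => ((hZm n).ennreal_ofReal).const_mul _)]
    have h2 : ∀ n ∈ Finset.range R, ∫⁻ ω, ENNReal.ofReal ((1/2) ^ n / Kc n) * ENNReal.ofReal (Z n ω) ∂P ≤
        ENNReal.ofReal ((1/2) ^ n) := by
      intro n _
      rw [lintegral_const_mul _ (hZm n).ennreal_ofReal]
      calc _ ≤ ENNReal.ofReal ((1/2) ^ n / Kc n) * ENNReal.ofReal (Kc n) := by
            gcongr; exact hZE n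
        _ = _ := by
            rw [← ENNReal.ofReal_mul (div_nonneg (by positivity) (Kc_pos n).le)]
            congr 1
            rw [div_mul_cancel₀ _ (Kc_pos n).ne']
    calc _ ≤ 9 + ∑ n ∈ Finset.range R, ENNReal.ofReal ((1/2) ^ n) := by
          gcongr with n hn
          exact h2 n hn
      _ = 9 + ENNReal.ofReal (∑ n ∈ Finset.range R, (1/2) ^ n) := by
          rw [ENNReal.ofReal_sum_of_nonneg (fun n _ => by positivity)]
      _ ≤ 9 + ENNReal.ofReal 2 := by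
          gcongr; exact half_sum R
      _ = 11 := by norm_num
  · intro ω m n hn
    obtain ⟨m', hm', hc1, hc2⟩ := hRep2 n m
    have h1 : (∫ p : T × T, Real.exp (GG χ a (fun k => X k ω) N m n p.1 p.2 / 4) ∂(μ.prod μ)) =
        EI μ χ a X N n m' ω := by
      unfold EI
      refine integral_congr_ae (Filter.Eventually.of_forall (fun p => ?_))
      simp only []
      rw [GG_congr a (fun k => X k ω) N n hc1 hc2]
    rw [h1]
    have h2 : EI μ χ a X N n m' ω ≤ Z n ω :=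
      Finset.single_le_sum (f := fun m => EI μ χ a X N n m ω)
        (fun m _ => (EI_pos μ h a hX.meas hX1 N n m ω).le) hm'
    have h3 := EI_pos μ h a hX.meas hX1 N n m' ω
    have hK := Kc_pos n
    have h4 : Real.log (Z n ω) ≤ 9 * 2 ^ n + Z n ω / Kc n := by
      have h5 : 0 < Z n ω := lt_of_lt_of_le h3 h2
      have h6 : Real.log (Z n ω) = Real.log (Kc n) + Real.log (Z n ω / Kc n) := by
        rw [Real.log_div h5.ne' hK.ne']; ring
      have h7 := Real.log_le_sub_one_of_pos (div_pos h5 hK)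
      have h8 := log_Kc n
      linarith
    have h9 : (1/2 : ℝ) ^ n * (Z n ω / Kc n) ≤ ∑ n ∈ Finset.range R, (1/2) ^ n * (Z n ω / Kc n) :=
      Finset.single_le_sum (f := fun n => (1/2 : ℝ) ^ n * (Z n ω / Kc n))
        (fun n _ => mul_nonneg (by positivity) (div_nonneg (hZ0 n ω) (Kc_pos n).le)) (Finset.mem_range.2 hn)
    have h10 : (2:ℝ) ^ n * ((1/2) ^ n * (Z n ω / Kc n)) = Z n ω / Kc n := by
      rw [← mul_assoc, ← mul_pow]; norm_num
    have h11 : (0:ℝ) < 2 ^ n := by positivity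
    calc _ ≤ Real.log (Z n ω) := Real.log_le_log h3 h2
      _ ≤ 9 * 2 ^ n + Z n ω / Kc n := h4
      _ ≤ _ := by rw [← h10]; nlinarith

/-- Truncated sufficiency. -/
theorem suff_trunc (h : Ch χ) (a : ℕ → ℂ) (hX : SubG P X) (hX1 : ∀ k ω, ‖X k ω‖ ≤ 1) (N : ℕ)
    (ha : cE a N ≤ 1) (E : ℝ)
    (hE : ∀ m R, ∀ w : ℕ → ℝ, (∀ j, 0 ≤ w j) → ∑ j ∈ Finset.Ico 1 N, w j = 1 → ∃ e : ℕ → ℝ,
      (∀ n, 0 ≤ e n) ∧
      (∀ n, (1/2 : ℝ) ^ (2 ^ n) ≤ μ.real {s | Real.sqrt (∑ j ∈ Finset.Ico 1 N, w j * dm χ a (blk N m j) s) ≤ e n}) ∧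
      ∑ n ∈ Finset.range (R+1), Real.sqrt 2 ^ n * e n ≤ E) :
    ∃ Ξ : Ω → ℝ, Measurable Ξ ∧ (∀ ω, 0 ≤ Ξ ω) ∧ ∫⁻ ω, ENNReal.ofReal (Ξ ω) ∂P ≤ 11 ∧
      ∀ ω m x, ∑ j ∈ Finset.Ico 1 N, ‖ff χ a (fun k => X k ω) (blk N m j) x‖ ^ 2 ≤
        (9 + 4 * Ξ ω) * (13 + 4 * (2 * E + 1)) ^ 2 := by
  obtain ⟨R, hR0, hRN, hRs⟩ := exists_R a N
  obtain ⟨Ξ, hΞm, hΞ0, hΞE, hΞ⟩ := exists_Xi μ P h a hX hX1 N R ha
  refine ⟨Ξ, hΞm, hΞ0, hΞE, fun ω m x => ?_⟩
  by_cases hNe : (Finset.Ico 1 N).Nonempty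
  · have : Nonempty {j // j ∈ Finset.Ico 1 N} := by
      obtain ⟨j, hj⟩ := hNe; exact ⟨⟨j, hj⟩⟩
    have hbd : ∀ (j : {j // j ∈ Finset.Ico 1 N}) s, dm χ a (blk N m j) s ≤ 4 := by
      intro j s
      refine (dm_le h a _ s).trans ?_
      have h1 : en a (blk N m j) ≤ cE a N := by
        unfold cE
        apply Finset.sum_le_sum_of_subset_of_nonneg
        · intro k hk; exact Finset.mem_range.2 (mem_blk.1 hk).1
        · intro _ _ _; exact sq_nonneg _
      linarith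
    obtain ⟨φ, c, hφ, hc, hcost⟩ := mix_cost μ (fun (j : {j // j ∈ Finset.Ico 1 N}) s => dm χ a (blk N m j) s)
      (fun j => measurable_dm h a _) (fun j s => dm_nonneg a _ s) 4 hbd R E (by
        intro w hw0 hw1
        set w' : ℕ → ℝ := fun j => if hj : j ∈ Finset.Ico 1 N then w ⟨j, hj⟩ else 0 with hw'
        have e1 : ∀ F : ℕ → ℝ, ∑ j ∈ Finset.Ico 1 N, w' j * F j = ∑ j : {j // j ∈ Finset.Ico 1 N}, w j * F j := by
          intro F
          rw [← Finset.sum_coe_sort (Finset.Ico 1 N) (fun j => w' j * F j)]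
          refine Finset.sum_congr rfl (fun j _ => ?_)
          simp only [hw']
          rw [dif_pos j.2]
        obtain ⟨e, he0, he1, he2⟩ := hE m R w' (by
          intro j; simp only [hw']; split_ifs
          · exact hw0 _
          · exact le_rfl) (by
          have := e1 (fun _ => 1)
          simp only [mul_one] at this
          rw [this, hw1])
        refine ⟨e, he0, fun n => ?_, he2⟩
        have := he1 n
        simp only [e1 (fun j => dm χ a (blk N m j) _)] at this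
        exact this)
    apply block_est μ h a (fun k => X k ω) (fun k => hX1 k ω) N m R ha hR0 hRN hRs (2 * E + 1) φ c hφ hc
      (fun j hj => (hcost ⟨j, hj⟩).le) hNe (Ξ ω) (hΞ0 ω) (fun n hn => hΞ ω m n hn) x
  · rw [Finset.not_nonempty_iff_eq_empty] at hNe
    rw [hNe, Finset.sum_empty]
    have := hΞ0 ω
    positivity

end

end H59.RB
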