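import Pool.Agent.H59.BMOA.Def
import Pool.Agent.H59.BMOA.Xi
import Pool.Agent.H59.BMOA.Osc

/-! The circle group and the comparison of the entropy numbers. -/

namespace H59.RB

set_option linter.unusedSectionVars false

open Finset BigOperators MeasureTheory Complex AddCircle

instance twoPiPos : Fact (0 < 2 * Real.pi) := ⟨Real.two_pi_pos⟩

/-- the circle -/
abbrev TC : Type := AddCircle (2 * Real.pi)

/-- normalised Haar measure -/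
noncomputable abbrev mc : Measure TC := haarAddCircle

/-- characters -/
noncomputable def chc (k : ℕ) (x : TC) : ℂ := fourier (k:ℤ) x

lemma chc_coe (k : ℕ) (t : ℝ) : chc k (t : TC) = Complex.exp ((k:ℂ) * t * I) := by
  unfold chc
  rw [fourier_coe_apply]
  congr 1
  push_cast
  have : (Real.pi : ℂ) ≠ 0 := by exact_mod_cast Real.pi_ne_zero
  field_simp

lemma chc_Ch : Ch chc := by
  constructor
  · intro k
    exact (fourier (k:ℤ)).continuous.measurable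
  · intro k x
    induction x using QuotientAddGroup.induction_on with
    | H t =>
      have := chc_coe k t
      rw [show (QuotientAddGroup.mk t : TC) = (t : TC) from rfl, this]
      have e : (k:ℂ) * t * I = ((k * t : ℝ) : ℂ) * I := by push_cast; ring
      rw [e, Complex.norm_exp_ofReal_mul_I]
  · intro k x y
    unfold chc
    rw [fourier_apply, fourier_apply, fourier_apply, smul_add, AddCircle.toCircle_add]
    simp

lemma chc_rep (x : TC) : ∃ y : ℝ, ∀ k, chc k x = Complex.exp ((k:ℂ) * y * I) := by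
  induction x using QuotientAddGroup.induction_on with
  | H t => exact ⟨t, fun k => chc_coe k t⟩

lemma mc_real (S : Set TC) (hS : MeasurableSet S) :
    mc.real S = volume.real {t : ℝ | t ∈ Set.Icc 0 (2 * Real.pi) ∧ ((t : TC) ∈ S)} / (2 * Real.pi) := by
  have hpi := Real.two_pi_pos
  have h1 := AddCircle.measurePreserving_mk (2 * Real.pi) 0
  have h2 : (volume : Measure TC) S = (volume.restrict (Set.Ioc 0 (0 + 2 * Real.pi))) ((fun t : ℝ => (t : TC)) ⁻¹' S) := by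
    rw [h1.measure_preimage hS.nullMeasurableSet]
  rw [volume_eq_smul_haarAddCircle, Measure.smul_apply, smul_eq_mul, zero_add] at h2
  have hm : MeasurableSet ((fun t : ℝ => (t : TC)) ⁻¹' S) := h1.measurable hS
  rw [Measure.restrict_apply hm] at h2
  have h3 : (volume : Measure ℝ) (((fun t : ℝ => (t : TC)) ⁻¹' S) ∩ Set.Ioc 0 (2 * Real.pi)) =
      volume {t : ℝ | t ∈ Set.Icc 0 (2 * Real.pi) ∧ ((t : TC) ∈ S)} := by
    have e : {t : ℝ | t ∈ Set.Icc 0 (2 * Real.pi) ∧ ((t : TC) ∈ S)} =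
        ((fun t : ℝ => (t : TC)) ⁻¹' S) ∩ Set.Icc 0 (2 * Real.pi) := by
      ext t; simp [and_comm]
    rw [e]
    apply measure_congr
    exact (ae_eq_refl _).inter Ioc_ae_eq_Icc
  rw [h3] at h2
  rw [Measure.real, Measure.real, ← h2, ENNReal.toReal_mul, ENNReal.toReal_ofReal hpi.le]
  field_simp

/-! ### truncated metric -/

/-- truncated squared metric -/
noncomputable def rhoN (a : ℕ → ℂ) (N m : ℕ) (w : ℕ → ℝ) (t : ℝ) : ℝ :=
  ∑ k ∈ Finset.range N, if 2 ^ m ≤ k then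
    w (k / 2 ^ m) * ‖a k‖ ^ 2 * ‖Complex.exp (k * t * Complex.I) - 1‖ ^ 2 else 0

lemma term_nonneg (a : ℕ → ℂ) (m : ℕ) (w : ℕ → ℝ) (hw : ∀ j, 0 ≤ w j) (t : ℝ) (k : ℕ) :
    0 ≤ (if 2 ^ m ≤ k then w (k / 2 ^ m) * ‖a k‖ ^ 2 * ‖Complex.exp (k * t * Complex.I) - 1‖ ^ 2 else 0) := by
  split_ifs
  · have := hw (k / 2 ^ m); positivity
  · exact le_rfl

lemma norm_exp_sub_one_le_two (k : ℕ) (t : ℝ) : ‖Complex.exp (k * t * Complex.I) - 1‖ ^ 2 ≤ 4 := by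
  have h1 : ‖Complex.exp ((k:ℂ) * t * I)‖ = 1 := by
    have e : (k:ℂ) * t * I = ((k * t : ℝ) : ℂ) * I := by push_cast; ring
    rw [e, Complex.norm_exp_ofReal_mul_I]
  have h2 : ‖Complex.exp (k * t * Complex.I) - 1‖ ≤ 2 := by
    refine (norm_sub_le _ _).trans ?_
    rw [h1]; norm_num
  have := pow_le_pow_left₀ (norm_nonneg _) h2 2
  linarith

lemma term_le (a : ℕ → ℂ) (m : ℕ) (w : ℕ → ℝ) (hw : ∀ j, 0 ≤ w j) (hw1 : ∀ j, w j ≤ 1) (t : ℝ) (k : ℕ) :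
    (if 2 ^ m ≤ k then w (k / 2 ^ m) * ‖a k‖ ^ 2 * ‖Complex.exp (k * t * Complex.I) - 1‖ ^ 2 else 0) ≤
      4 * ‖a k‖ ^ 2 := by
  split_ifs
  · have h1 := hw (k / 2 ^ m)
    have h2 := hw1 (k / 2 ^ m)
    have h3 := norm_exp_sub_one_le_two k t
    have h4 : 0 ≤ ‖a k‖ ^ 2 := sq_nonneg _
    have h5 : 0 ≤ ‖Complex.exp (k * t * Complex.I) - 1‖ ^ 2 := sq_nonneg _
    calc _ ≤ 1 * ‖a k‖ ^ 2 * 4 := by gcongr
      _ = _ := by ring
  · positivity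

lemma term_summable (a : ℕ → ℂ) (ha : Summable (fun k => ‖a k‖ ^ 2)) (m : ℕ) (w : ℕ → ℝ)
    (hw : ∀ j, 0 ≤ w j) (hw1 : ∀ j, w j ≤ 1) (t : ℝ) : Summable (fun k : ℕ =>
    if 2 ^ m ≤ k then w (k / 2 ^ m) * ‖a k‖ ^ 2 * ‖Complex.exp (k * t * Complex.I) - 1‖ ^ 2 else 0) :=
  Summable.of_nonneg_of_le (fun k => term_nonneg a m w hw t k) (fun k => term_le a m w hw hw1 t k)
    (ha.mul_left 4)

lemma rhoN_le (a : ℕ → ℂ) (ha : Summable (fun k => ‖a k‖ ^ 2)) (N m : ℕ) (w : ℕ → ℝ)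
    (hw : ∀ j, 0 ≤ w j) (hw1 : ∀ j, w j ≤ 1) (t : ℝ) : rhoN a N m w t ≤ rhoSq a m w t :=
  (term_summable a ha m w hw hw1 t).sum_le_tsum _ (fun k _ => term_nonneg a m w hw t k)

lemma rhoN_tendsto (a : ℕ → ℂ) (ha : Summable (fun k => ‖a k‖ ^ 2)) (m : ℕ) (w : ℕ → ℝ)
    (hw : ∀ j, 0 ≤ w j) (hw1 : ∀ j, w j ≤ 1) (t : ℝ) :
    Filter.Tendsto (fun N => rhoN a N m w t) Filter.atTop (nhds (rhoSq a m w t)) :=
  (term_summable a ha m w hw hw1 t).hasSum.tendsto_sum_nat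

lemma rhoN_mono (a : ℕ → ℂ) (m : ℕ) (w : ℕ → ℝ) (hw : ∀ j, 0 ≤ w j) (t : ℝ) :
    Monotone (fun N => rhoN a N m w t) := by
  apply monotone_nat_of_le_succ
  intro N
  unfold rhoN
  rw [Finset.sum_range_succ]
  linarith [term_nonneg a m w hw t N]

lemma rhoN_cont (a : ℕ → ℂ) (N m : ℕ) (w : ℕ → ℝ) : Continuous (rhoN a N m w) := by
  unfold rhoN
  apply continuous_finsetSum
  intro k _
  split_ifs
  · fun_prop
  · exact continuous_const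

lemma rhoSq_meas (a : ℕ → ℂ) (ha : Summable (fun k => ‖a k‖ ^ 2)) (m : ℕ) (w : ℕ → ℝ)
    (hw : ∀ j, 0 ≤ w j) (hw1 : ∀ j, w j ≤ 1) : Measurable (rhoSq a m w) :=
  measurable_of_tendsto_metrizable (fun N => (rhoN_cont a N m w).measurable)
    (tendsto_pi_nhds.2 (fun t => rhoN_tendsto a ha m w hw hw1 t))

/-! ### entropy numbers in general -/

/-- the level set measure -/
noncomputable def Vr (ρ : ℝ → ℝ) (r : ℝ) : ℝ :=
  volume.real {t : ℝ | t ∈ Set.Icc 0 (2 * Real.pi) ∧ Real.sqrt (ρ t) ≤ r}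

lemma Vr_mono (ρ : ℝ → ℝ) {r s : ℝ} (h : r ≤ s) : Vr ρ r ≤ Vr ρ s := by
  unfold Vr
  apply measureReal_mono
  · intro t ht; exact ⟨ht.1, ht.2.trans h⟩
  · refine ne_top_of_le_ne_top (measure_Icc_lt_top (a := (0:ℝ)) (b := 2 * Real.pi)).ne (measure_mono ?_)
    intro t ht; exact ht.1

lemma Vr_set_fin (ρ : ℝ → ℝ) (r : ℝ) :
    volume {t : ℝ | t ∈ Set.Icc 0 (2 * Real.pi) ∧ Real.sqrt (ρ t) ≤ r} ≠ ⊤ :=
  ne_top_of_le_ne_top (measure_Icc_lt_top (a := (0:ℝ)) (b := 2 * Real.pi)).ne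
    (measure_mono (fun _ ht => ht.1))

lemma Vr_meas {ρ : ℝ → ℝ} (hρ : Measurable ρ) (r : ℝ) :
    MeasurableSet {t : ℝ | t ∈ Set.Icc 0 (2 * Real.pi) ∧ Real.sqrt (ρ t) ≤ r} :=
  measurableSet_Icc.inter (measurableSet_le hρ.sqrt measurable_const)

/-- continuity from above along a decreasing sequence of sets -/
lemma Vr_limit {ρ : ℝ → ℝ} (σ : ℕ → ℝ → ℝ) (r : ℝ) (s : ℕ → ℝ) (v : ℝ)
    (hσ : ∀ n, Measurable (σ n))
    (hanti : Antitone (fun n => {t : ℝ | t ∈ Set.Icc 0 (2 * Real.pi) ∧ Real.sqrt (σ n t) ≤ s n}))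
    (hsub : (⋂ n, {t : ℝ | t ∈ Set.Icc 0 (2 * Real.pi) ∧ Real.sqrt (σ n t) ≤ s n}) ⊆
      {t : ℝ | t ∈ Set.Icc 0 (2 * Real.pi) ∧ Real.sqrt (ρ t) ≤ r})
    (hv : ∀ n, v ≤ Vr (σ n) (s n)) : v ≤ Vr ρ r := by
  have h1 := tendsto_measure_iInter_atTop (μ := (volume : Measure ℝ))
    (s := fun n => {t : ℝ | t ∈ Set.Icc 0 (2 * Real.pi) ∧ Real.sqrt (σ n t) ≤ s n})
    (fun n => (Vr_meas (hσ n) (s n)).nullMeasurableSet) hanti ⟨0, Vr_set_fin _ _⟩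
  have hfin : volume (⋂ n, {t : ℝ | t ∈ Set.Icc 0 (2 * Real.pi) ∧ Real.sqrt (σ n t) ≤ s n}) ≠ ⊤ :=
    ne_top_of_le_ne_top (Vr_set_fin ρ r) (measure_mono hsub)
  have h2 := (ENNReal.tendsto_toReal hfin).comp h1
  have h3 : v ≤ (volume (⋂ n, {t : ℝ | t ∈ Set.Icc 0 (2 * Real.pi) ∧ Real.sqrt (σ n t) ≤ s n})).toReal :=
    ge_of_tendsto' h2 (fun n => hv n)
  refine h3.trans ?_
  exact ENNReal.toReal_mono (Vr_set_fin ρ r) (measure_mono hsub)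

/-- general entropy number -/
noncomputable def eN (ρ : ℝ → ℝ) (v : ℝ) : ℝ := sInf {ε : ℝ | 0 ≤ ε ∧ v ≤ Vr ρ ε}

lemma eN_nonneg (ρ : ℝ → ℝ) (v : ℝ) : 0 ≤ eN ρ v := Real.sInf_nonneg (fun _ h => h.1)

lemma eN_le (ρ : ℝ → ℝ) (v ε : ℝ) (h0 : 0 ≤ ε) (h : v ≤ Vr ρ ε) : eN ρ v ≤ ε :=
  csInf_le ⟨0, fun _ h => h.1⟩ ⟨h0, h⟩

lemma eN_lt (ρ : ℝ → ℝ) (v r : ℝ) (hv : 0 < v) (h : r < eN ρ v) : Vr ρ r < v := by
  by_cases hr : 0 ≤ r
  · by_contra hcon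
    push Not at hcon
    exact absurd (eN_le ρ v r hr hcon) (not_le.2 h)
  · push Not at hr
    have : {t : ℝ | t ∈ Set.Icc 0 (2 * Real.pi) ∧ Real.sqrt (ρ t) ≤ r} = ∅ := by
      ext t
      simp only [Set.mem_ofPred_eq, Set.mem_empty_iff_false, iff_false, not_and, not_le]
      intro _
      exact lt_of_lt_of_le hr (Real.sqrt_nonneg _)
    unfold Vr
    rw [this]; simpa using hv

lemma eN_spec {ρ : ℝ → ℝ} (hρ : Measurable ρ) (v D : ℝ) (hv : v ≤ 2 * Real.pi) (_hD : 0 ≤ D)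
    (hρD : ∀ t, ρ t ≤ D) : v ≤ Vr ρ (eN ρ v) := by
  have hne : {ε : ℝ | 0 ≤ ε ∧ v ≤ Vr ρ ε}.Nonempty := by
    refine ⟨Real.sqrt D, Real.sqrt_nonneg _, ?_⟩
    have : {t : ℝ | t ∈ Set.Icc 0 (2 * Real.pi) ∧ Real.sqrt (ρ t) ≤ Real.sqrt D} = Set.Icc 0 (2 * Real.pi) := by
      ext t
      simp only [Set.mem_ofPred_eq, and_iff_left_iff_imp]
      intro _
      exact Real.sqrt_le_sqrt (hρD t)
    unfold Vr
    rw [this, Real.volume_real_Icc_of_le Real.two_pi_pos.le]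
    linarith
  refine Vr_limit (fun _ => ρ) (eN ρ v) (fun n => eN ρ v + 1 / ((n:ℝ) + 1)) v (fun _ => hρ) ?_ ?_ ?_
  · intro n n' hnn' t ht
    refine ⟨ht.1, ht.2.trans ?_⟩
    have : 1 / ((n':ℝ) + 1) ≤ 1 / ((n:ℝ) + 1) := by
      apply one_div_le_one_div_of_le (by positivity)
      have : (n:ℝ) ≤ n' := by exact_mod_cast hnn'
      linarith
    linarith
  · intro t ht
    rw [Set.mem_iInter] at ht
    refine ⟨(ht 0).1, ?_⟩
    apply le_of_forall_pos_le_add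
    intro δ hδ
    obtain ⟨n, hn⟩ := exists_nat_one_div_lt hδ
    have := (ht n).2
    linarith
  · intro n
    obtain ⟨ε, hε, hlt⟩ := exists_lt_of_csInf_lt hne (lt_add_of_pos_right (sInf {ε : ℝ | 0 ≤ ε ∧ v ≤ Vr ρ ε})
      (by positivity : (0:ℝ) < 1 / ((n:ℝ) + 1)))
    exact hε.2.trans (Vr_mono ρ hlt.le)

lemma entNum_eq (a : ℕ → ℂ) (m : ℕ) (w : ℕ → ℝ) (n : ℕ) :
    entNum a m w n = eN (rhoSq a m w) (2 * Real.pi * (1/2) ^ (2 ^ n)) := rfl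

end H59.RB
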