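import Pool.Agent.H59.BMOA.MP

/-! The minimax step: from mixtures of blocks to a single chain for all blocks. -/

namespace H59.RB

set_option linter.unusedSectionVars false

open Finset BigOperators MeasureTheory

section
variable {T : Type*} [MeasurableSpace T] (μ : Measure T) [IsProbabilityMeasure μ]

lemma Dens.comb {φ φ' : T → ℝ} {M : ℝ} (h : Dens μ φ M) (h' : Dens μ φ' M) (p q : ℝ) (hp : 0 ≤ p)
    (hq : 0 ≤ q) (hpq : p + q = 1) : Dens μ (fun s => p * φ s + q * φ' s) M := by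
  have hi : Integrable φ μ := Integrable.of_bound h.meas.aestronglyMeasurable M
    (Filter.Eventually.of_forall (fun s => by
      rw [Real.norm_eq_abs, abs_of_nonneg (h.nonneg s)]; exact h.le s))
  have hi' : Integrable φ' μ := Integrable.of_bound h'.meas.aestronglyMeasurable M
    (Filter.Eventually.of_forall (fun s => by
      rw [Real.norm_eq_abs, abs_of_nonneg (h'.nonneg s)]; exact h'.le s))
  refine ⟨(h.meas.const_mul p).add (h'.meas.const_mul q), fun s => ?_, fun s => ?_, ?_⟩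
  · have := h.nonneg s; have := h'.nonneg s; positivity
  · have h1 := mul_le_mul_of_nonneg_left (h.le s) hp
    have h2 := mul_le_mul_of_nonneg_left (h'.le s) hq
    calc p * φ s + q * φ' s ≤ p * M + q * M := add_le_add h1 h2
      _ = M := by rw [← add_mul, hpq, one_mul]
  · rw [integral_add (hi.const_mul p) (hi'.const_mul q), integral_const_mul, integral_const_mul,
      h.one, h'.one]
    linarith

variable {ι : Type} [Fintype ι] [Nonempty ι]

/-- the cost of a strategy at block `j` -/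
noncomputable def cost (d : ι → T → ℝ) (R : ℕ) (φ : ℕ → T → ℝ) (c : ℕ → ℝ) (j : ι) : ℝ :=
  ∑ n ∈ Finset.range (R+1), Real.sqrt 2 ^ n * (c n + (c n)⁻¹ * ∫ s, φ n s * d j s ∂μ)

theorem minimax (d : ι → T → ℝ) (hd : ∀ j, Measurable (d j)) (D : ℝ) (hdD : ∀ j s, |d j s| ≤ D)
    (R : ℕ) (A : ℝ)
    (hA : ∀ w : ι → ℝ, (∀ j, 0 ≤ w j) → ∑ j, w j = 1 → ∃ (φ : ℕ → T → ℝ) (c : ℕ → ℝ),
      (∀ n, Dens μ (φ n) (2 ^ (2 ^ n))) ∧ (∀ n, 0 < c n) ∧
      ∑ j, w j * cost μ d R φ c j < A) :
    ∃ (φ : ℕ → T → ℝ) (c : ℕ → ℝ),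
      (∀ n, Dens μ (φ n) (2 ^ (2 ^ n))) ∧ (∀ n, 0 < c n) ∧ ∀ j, cost μ d R φ c j < A := by
  set S : Set (ι → ℝ) := {p | ∃ (φ : ℕ → T → ℝ) (c : ℕ → ℝ),
      (∀ n, Dens μ (φ n) (2 ^ (2 ^ n))) ∧ (∀ n, 0 < c n) ∧ ∀ j, cost μ d R φ c j < p j} with hS
  have hopen : IsOpen S := by
    have : S = ⋃ (x : (ℕ → T → ℝ) × (ℕ → ℝ)), ⋃ (_ : (∀ n, Dens μ (x.1 n) (2 ^ (2 ^ n))) ∧ (∀ n, 0 < x.2 n)),
        {p : ι → ℝ | ∀ j, cost μ d R x.1 x.2 j < p j} := by
      ext p
      simp only [hS, Set.mem_iUnion, Set.mem_ofPred_eq, Prod.exists, exists_prop, and_assoc]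
    rw [this]
    refine isOpen_iUnion (fun x => isOpen_iUnion (fun _ => ?_))
    have h2 : {p : ι → ℝ | ∀ j, cost μ d R x.1 x.2 j < p j} =
        Set.pi Set.univ (fun j => Set.Ioi (cost μ d R x.1 x.2 j)) := by
      ext p; simp
    rw [h2]
    exact isOpen_set_pi Set.finite_univ (fun j _ => isOpen_Ioi)
  have hconv : Convex ℝ S := by
    rintro p ⟨φ, c, hφ, hc, hp⟩ p' ⟨φ', c', hφ', hc', hp'⟩ α β hα hβ hαβ
    set q : ℕ → ℝ := fun n => α * (c n)⁻¹ + β * (c' n)⁻¹ with hq
    have hq0 : ∀ n, 0 < q n := by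
      intro n
      have h1 := inv_pos.2 (hc n)
      have h2 := inv_pos.2 (hc' n)
      rcases hα.eq_or_lt with h | h
      · have hb : β = 1 := by linarith
        simp only [hq]
        rw [← h, hb]; linarith
      · have : 0 ≤ β * (c' n)⁻¹ := by positivity
        have : 0 < α * (c n)⁻¹ := by positivity
        simp only [hq]; linarith
    refine ⟨fun n s => (α * (c n)⁻¹ / q n) * φ n s + (β * (c' n)⁻¹ / q n) * φ' n s,
      fun n => (q n)⁻¹, ?_, fun n => inv_pos.2 (hq0 n), ?_⟩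
    · intro n
      apply Dens.comb μ (hφ n) (hφ' n)
      · have := inv_pos.2 (hc n); have := hq0 n; positivity
      · have := inv_pos.2 (hc' n); have := hq0 n; positivity
      · rw [← add_div]; exact div_self (hq0 n).ne'
    · intro j
      have hle : cost μ d R (fun n s => (α * (c n)⁻¹ / q n) * φ n s + (β * (c' n)⁻¹ / q n) * φ' n s)
          (fun n => (q n)⁻¹) j ≤ α * cost μ d R φ c j + β * cost μ d R φ' c' j := by
        unfold cost
        rw [Finset.mul_sum, Finset.mul_sum, ← Finset.sum_add_distrib]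
        apply Finset.sum_le_sum
        intro n _
        have hi : Integrable (fun s => φ n s * d j s) μ := by
          refine Integrable.of_bound ((hφ n).meas.mul (hd j)).aestronglyMeasurable (2 ^ (2 ^ n) * D)
            (Filter.Eventually.of_forall (fun s => ?_))
          rw [Real.norm_eq_abs, abs_mul, abs_of_nonneg ((hφ n).nonneg s)]
          exact mul_le_mul ((hφ n).le s) (hdD j s) (abs_nonneg _) (by positivity)
        have hi' : Integrable (fun s => φ' n s * d j s) μ := by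
          refine Integrable.of_bound ((hφ' n).meas.mul (hd j)).aestronglyMeasurable (2 ^ (2 ^ n) * D)
            (Filter.Eventually.of_forall (fun s => ?_))
          rw [Real.norm_eq_abs, abs_mul, abs_of_nonneg ((hφ' n).nonneg s)]
          exact mul_le_mul ((hφ' n).le s) (hdD j s) (abs_nonneg _) (by positivity)
        have hint : ∫ s, ((α * (c n)⁻¹ / q n) * φ n s + (β * (c' n)⁻¹ / q n) * φ' n s) * d j s ∂μ =
            (α * (c n)⁻¹ / q n) * ∫ s, φ n s * d j s ∂μ + (β * (c' n)⁻¹ / q n) * ∫ s, φ' n s * d j s ∂μ := by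
          rw [← integral_const_mul, ← integral_const_mul, ← integral_add (hi.const_mul _) (hi'.const_mul _)]
          congr 1; ext s; ring
        rw [hint, inv_inv]
        set I := ∫ s, φ n s * d j s ∂μ
        set I' := ∫ s, φ' n s * d j s ∂μ
        have hqn := hq0 n
        have h3 : q n * (α * (c n)⁻¹ / q n * I + β * (c' n)⁻¹ / q n * I') =
            α * ((c n)⁻¹ * I) + β * ((c' n)⁻¹ * I') := by
          field_simp
        rw [h3]
        have h4 : (q n)⁻¹ ≤ α * c n + β * c' n := by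
          have hcn := hc n
          have hcn' := hc' n
          have hpos : 0 ≤ α * c n + β * c' n := by positivity
          rw [inv_le_iff_one_le_mul₀ hqn]
          simp only [hq]
          have e1 : (α * c n + β * c' n) * (α * (c n)⁻¹ + β * (c' n)⁻¹) =
              α ^ 2 + β ^ 2 + α * β * (c n / c' n + c' n / c n) := by
            field_simp
            ring
          rw [e1]
          have e2 : 2 ≤ c n / c' n + c' n / c n := by
            rw [div_add_div _ _ hcn'.ne' hcn.ne', le_div_iff₀ (by positivity)]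
            nlinarith [sq_nonneg (c n - c' n)]
          have e3 : 0 ≤ α * β := by positivity
          nlinarith
        have h5 : 0 < Real.sqrt 2 ^ n := by positivity
        calc Real.sqrt 2 ^ n * ((q n)⁻¹ + (α * ((c n)⁻¹ * I) + β * ((c' n)⁻¹ * I')))
            ≤ Real.sqrt 2 ^ n * ((α * c n + β * c' n) + (α * ((c n)⁻¹ * I) + β * ((c' n)⁻¹ * I'))) := by
              gcongr
          _ = _ := by ring
      refine lt_of_le_of_lt hle ?_
      have h1 := hp j
      have h2 := hp' j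
      simp only [Pi.add_apply, Pi.smul_apply, smul_eq_mul]
      rcases hα.eq_or_lt with h | h
      · have hb : β = 1 := by linarith
        rw [← h, hb]; linarith
      · nlinarith
  by_contra hcon
  have hnot : (fun _ => A : ι → ℝ) ∉ S := by
    rintro ⟨φ, c, hφ, hc, h⟩
    exact hcon ⟨φ, c, hφ, hc, h⟩
  obtain ⟨f, hf⟩ := geometric_hahn_banach_open_point hconv hopen hnot
  classical
  set g : ι → ℝ := fun j => f (Pi.single j 1) with hg
  have hfs : ∀ p : ι → ℝ, f p = ∑ j, p j * g j := by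
    intro p
    have h1 : p = ∑ j, p j • (Pi.single j 1 : ι → ℝ) := by
      ext i
      simp [Finset.sum_apply, Pi.single_apply]
    conv_lhs => rw [h1]
    rw [map_sum]
    refine Finset.sum_congr rfl (fun j _ => ?_)
    rw [map_smul, smul_eq_mul]
  -- nonempty
  have hcard : (0:ℝ) < Fintype.card ι := by exact_mod_cast Fintype.card_pos
  obtain ⟨φ0, c0, hφ0, hc0, -⟩ := hA (fun _ => (Fintype.card ι : ℝ)⁻¹) (fun _ => by positivity)
    (by rw [Finset.sum_const, Finset.card_univ, nsmul_eq_mul, mul_inv_cancel₀ hcard.ne'])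
  have hg0 : ∀ j, g j ≤ 0 := by
    intro j
    by_contra hj
    push Not at hj
    set v : ι → ℝ := fun i => cost μ d R φ0 c0 i + 1 with hv
    set t : ℝ := |f (fun _ => A) - f v| / g j with ht
    have ht0 : 0 ≤ t := by positivity
    have hmem : v + t • (Pi.single j 1 : ι → ℝ) ∈ S := by
      refine ⟨φ0, c0, hφ0, hc0, fun i => ?_⟩
      simp only [Pi.add_apply, Pi.smul_apply, smul_eq_mul, hv]
      have : 0 ≤ t * (Pi.single j 1 : ι → ℝ) i := by
        apply mul_nonneg ht0
        rw [Pi.single_apply]; split_ifs <;> norm_num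
      linarith
    have h1 := hf _ hmem
    rw [map_add, map_smul, smul_eq_mul] at h1
    have h2 : t * f (Pi.single j 1) = |f (fun _ => A) - f v| := by
      change t * g j = _
      rw [ht, div_mul_cancel₀ _ hj.ne']
    rw [h2] at h1
    have := le_abs_self (f (fun _ => A) - f v)
    linarith
  set s : ℝ := ∑ j, (- g j) with hs
  have hs0 : 0 < s := by
    have h1 : 0 ≤ s := Finset.sum_nonneg (fun j _ => by have := hg0 j; linarith)
    rcases h1.eq_or_lt with h | h
    · exfalso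
      have h2 : ∀ j, g j = 0 := by
        intro j
        have := (Finset.sum_eq_zero_iff_of_nonneg (fun j _ => by have := hg0 j; linarith)).1 h.symm j
          (Finset.mem_univ j)
        linarith
      have h3 : ∀ p, f p = 0 := by intro p; rw [hfs]; simp [h2]
      have h4 := hf (fun i => cost μ d R φ0 c0 i + 1) ⟨φ0, c0, hφ0, hc0, fun i => by linarith⟩
      rw [h3, h3] at h4
      exact lt_irrefl _ h4
    · exact h
  obtain ⟨φ, c, hφ, hc, hlt⟩ := hA (fun j => (- g j) / s) (fun j => by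
    have := hg0 j; apply div_nonneg _ hs0.le; linarith) (by
      rw [← Finset.sum_div, ← hs, div_self hs0.ne'])
  have h1 : ∀ η : ℝ, 0 < η → ∑ j, (- g j) * cost μ d R φ c j + η * s > A * s := by
    intro η hη
    have h2 := hf (fun i => cost μ d R φ c i + η) ⟨φ, c, hφ, hc, fun i => by linarith⟩
    rw [hfs, hfs] at h2
    have e1 : ∑ j, (cost μ d R φ c j + η) * g j = -(∑ j, (- g j) * cost μ d R φ c j + η * s) := by
      rw [hs, Finset.mul_sum, ← Finset.sum_add_distrib, ← Finset.sum_neg_distrib]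
      exact Finset.sum_congr rfl (fun j _ => by ring)
    have e2 : ∑ j, A * g j = -(A * s) := by
      rw [hs, Finset.mul_sum, ← Finset.sum_neg_distrib]
      exact Finset.sum_congr rfl (fun j _ => by ring)
    rw [e1, e2] at h2
    linarith
  have h2 : ∑ j, (- g j) * cost μ d R φ c j < A * s := by
    have e : ∑ j, (- g j) / s * cost μ d R φ c j = (∑ j, (- g j) * cost μ d R φ c j) / s := by
      rw [Finset.sum_div]
      exact Finset.sum_congr rfl (fun j _ => by ring)
    rw [e, div_lt_iff₀ hs0] at hlt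
    exact hlt
  set δ := A * s - ∑ j, (- g j) * cost μ d R φ c j with hδ
  have hδ0 : 0 < δ := by linarith
  have h3 := h1 (δ / s) (by positivity)
  rw [div_mul_cancel₀ _ hs0.ne'] at h3
  linarith

/-- normalised indicator of a sublevel set -/
noncomputable def psiT (ρ : T → ℝ) (r : ℝ) (x : T) : ℝ :=
  Set.indicator {y | ρ y ≤ r} (fun _ => (μ.real {y | ρ y ≤ r})⁻¹) x

lemma dens_psiT {ρ : T → ℝ} (hρ : Measurable ρ) (r : ℝ) (M : ℝ) (hM : 0 < M)
    (hV : M⁻¹ ≤ μ.real {y | ρ y ≤ r}) : Dens μ (psiT μ ρ r) M := by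
  have hms : MeasurableSet {y | ρ y ≤ r} := measurableSet_le hρ measurable_const
  have hpos : 0 < μ.real {y | ρ y ≤ r} := lt_of_lt_of_le (inv_pos.2 hM) hV
  refine ⟨measurable_const.indicator hms, fun s => ?_, fun s => ?_, ?_⟩
  · unfold psiT
    apply Set.indicator_nonneg
    intro x _; positivity
  · unfold psiT
    have h1 : (μ.real {y | ρ y ≤ r})⁻¹ ≤ M := by
      rw [inv_le_comm₀ hpos hM]; exact hV
    by_cases h : s ∈ {y | ρ y ≤ r}
    · rw [Set.indicator_of_mem h]; exact h1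
    · rw [Set.indicator_of_notMem h]; exact hM.le
  · unfold psiT
    rw [integral_indicator_const _ hms, smul_eq_mul]
    exact mul_inv_cancel₀ hpos.ne'

lemma int_psiT_le {ρ : T → ℝ} (hρ : Measurable ρ) (r : ℝ) (hr : 0 ≤ r) (M : ℝ) (hM : 0 < M)
    (hV : M⁻¹ ≤ μ.real {y | ρ y ≤ r}) (q : T → ℝ) (hq : ∀ y, ρ y ≤ r → q y ≤ r ^ 2) :
    ∫ s, psiT μ ρ r s * q s ∂μ ≤ r ^ 2 := by
  have hd := dens_psiT μ hρ r M hM hV
  have hi : Integrable (psiT μ ρ r) μ := Integrable.of_bound hd.meas.aestronglyMeasurable M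
    (Filter.Eventually.of_forall (fun s => by
      rw [Real.norm_eq_abs, abs_of_nonneg (hd.nonneg s)]; exact hd.le s))
  have h2 : ∀ s, psiT μ ρ r s * q s ≤ psiT μ ρ r s * r ^ 2 := by
    intro s
    by_cases h : ρ s ≤ r
    · exact mul_le_mul_of_nonneg_left (hq s h) (hd.nonneg s)
    · have : psiT μ ρ r s = 0 := by
        unfold psiT
        rw [Set.indicator_of_notMem]
        exact h
      rw [this]; simp
  by_cases hi2 : Integrable (fun s => psiT μ ρ r s * q s) μ
  · calc ∫ s, psiT μ ρ r s * q s ∂μ ≤ ∫ s, psiT μ ρ r s * r ^ 2 ∂μ :=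
        integral_mono hi2 (hi.mul_const _) h2
      _ = r ^ 2 := by rw [integral_mul_const, hd.one, one_mul]
  · rw [integral_undef hi2]; positivity

/-- entropy bounds give a good strategy against each mixture -/
theorem mix_cost (d : ι → T → ℝ) (hd : ∀ j, Measurable (d j)) (hd0 : ∀ j s, 0 ≤ d j s) (D : ℝ)
    (hdD : ∀ j s, d j s ≤ D) (R : ℕ) (E : ℝ)
    (hE : ∀ w : ι → ℝ, (∀ j, 0 ≤ w j) → ∑ j, w j = 1 → ∃ e : ℕ → ℝ, (∀ n, 0 ≤ e n) ∧
      (∀ n, (1/2 : ℝ) ^ (2 ^ n) ≤ μ.real {s | Real.sqrt (∑ j, w j * d j s) ≤ e n}) ∧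
      ∑ n ∈ Finset.range (R+1), Real.sqrt 2 ^ n * e n ≤ E) :
    ∃ (φ : ℕ → T → ℝ) (c : ℕ → ℝ),
      (∀ n, Dens μ (φ n) (2 ^ (2 ^ n))) ∧ (∀ n, 0 < c n) ∧ ∀ j, cost μ d R φ c j < 2 * E + 1 := by
  apply minimax μ d hd D (fun j s => by rw [abs_of_nonneg (hd0 j s)]; exact hdD j s) R (2 * E + 1)
  intro w hw0 hw1
  obtain ⟨e, he0, heV, heE⟩ := hE w hw0 hw1
  set ρ : T → ℝ := fun s => Real.sqrt (∑ j, w j * d j s) with hρ
  have hρm : Measurable ρ :=
    (Finset.measurable_sum _ (fun j _ => (hd j).const_mul (w j))).sqrt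
  have hV : ∀ n, ((2:ℝ) ^ (2 ^ n))⁻¹ ≤ μ.real {s | ρ s ≤ e n} := by
    intro n
    have := heV n
    rwa [one_div, inv_pow] at this
  set Z : ℝ := ∑ n ∈ Finset.range (R+1), Real.sqrt 2 ^ n with hZ
  have hZ0 : 0 < Z := Finset.sum_pos (fun n _ => by positivity) ⟨0, by simp⟩
  set η : ℝ := 1 / (2 * Z) with hη
  have hη0 : 0 < η := by positivity
  refine ⟨fun n => psiT μ ρ (e n), fun n => e n + η,
    fun n => dens_psiT μ hρm (e n) _ (by positivity) (hV n), fun n => by have := he0 n; positivity, ?_⟩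
  have hint : ∀ n, ∑ j, w j * ∫ s, psiT μ ρ (e n) s * d j s ∂μ ≤ e n ^ 2 := by
    intro n
    have hdn := dens_psiT μ hρm (e n) _ (by positivity) (hV n)
    have hi : ∀ j, Integrable (fun s => psiT μ ρ (e n) s * d j s) μ := by
      intro j
      refine Integrable.of_bound (hdn.meas.mul (hd j)).aestronglyMeasurable (2 ^ (2 ^ n) * D)
        (Filter.Eventually.of_forall (fun s => ?_))
      rw [Real.norm_eq_abs, abs_mul, abs_of_nonneg (hdn.nonneg s), abs_of_nonneg (hd0 j s)]
      exact mul_le_mul (hdn.le s) (hdD j s) (hd0 j s) (by positivity)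
    have h1 : ∑ j, w j * ∫ s, psiT μ ρ (e n) s * d j s ∂μ =
        ∫ s, psiT μ ρ (e n) s * (∑ j, w j * d j s) ∂μ := by
      simp only [← integral_const_mul]
      rw [← integral_finsetSum _ (fun j _ => (hi j).const_mul (w j))]
      congr 1; ext s
      rw [Finset.mul_sum]
      exact Finset.sum_congr rfl (fun j _ => by ring)
    rw [h1]
    apply int_psiT_le μ hρm (e n) (he0 n) _ (by positivity) (hV n)
    intro y hy
    have h0 : 0 ≤ ∑ j, w j * d j y := Finset.sum_nonneg (fun j _ => mul_nonneg (hw0 j) (hd0 j y))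
    calc ∑ j, w j * d j y = Real.sqrt (∑ j, w j * d j y) ^ 2 := (Real.sq_sqrt h0).symm
      _ ≤ e n ^ 2 := pow_le_pow_left₀ (Real.sqrt_nonneg _) hy 2
  have h2 : ∑ j, w j * cost μ d R (fun n => psiT μ ρ (e n)) (fun n => e n + η) j =
      ∑ n ∈ Finset.range (R+1), Real.sqrt 2 ^ n * ((e n + η) + (e n + η)⁻¹ *
        ∑ j, w j * ∫ s, psiT μ ρ (e n) s * d j s ∂μ) := by
    unfold cost
    simp only [Finset.mul_sum]
    rw [Finset.sum_comm]
    refine Finset.sum_congr rfl (fun n _ => ?_)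
    have : ∀ j, w j * (Real.sqrt 2 ^ n * (e n + η + (e n + η)⁻¹ * ∫ s, psiT μ ρ (e n) s * d j s ∂μ)) =
        Real.sqrt 2 ^ n * (e n + η) * w j +
        Real.sqrt 2 ^ n * ((e n + η)⁻¹ * (w j * ∫ s, psiT μ ρ (e n) s * d j s ∂μ)) := by
      intro j; ring
    simp only [this]
    rw [Finset.sum_add_distrib, ← Finset.mul_sum, hw1, ← Finset.mul_sum]
    ring
  rw [h2]
  have h3 : ∀ n ∈ Finset.range (R+1), Real.sqrt 2 ^ n * ((e n + η) + (e n + η)⁻¹ *
        ∑ j, w j * ∫ s, psiT μ ρ (e n) s * d j s ∂μ) ≤ 2 * (Real.sqrt 2 ^ n * e n) + η * Real.sqrt 2 ^ n := by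
    intro n _
    have hen := he0 n
    have h4 : (e n + η)⁻¹ * ∑ j, w j * ∫ s, psiT μ ρ (e n) s * d j s ∂μ ≤ e n := by
      rw [inv_mul_le_iff₀ (by positivity)]
      refine (hint n).trans ?_
      nlinarith
    have h5 : 0 < Real.sqrt 2 ^ n := by positivity
    nlinarith
  calc _ ≤ ∑ n ∈ Finset.range (R+1), (2 * (Real.sqrt 2 ^ n * e n) + η * Real.sqrt 2 ^ n) :=
        Finset.sum_le_sum h3
    _ = 2 * (∑ n ∈ Finset.range (R+1), Real.sqrt 2 ^ n * e n) + η * Z := by
        rw [Finset.sum_add_distrib, Finset.mul_sum, hZ, Finset.mul_sum]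
    _ < 2 * E + 1 := by
        have : η * Z = 1 / 2 := by rw [hη]; field_simp
        linarith

end

end H59.RB
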