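import Pool.Agent.H59.BMOA.Core
import Pool.Agent.H59.BMOA.MM

/-! Summation of the error terms, and the block estimate for a fixed sample. -/

namespace H59.RB

set_option linter.unusedSectionVars false

open Finset BigOperators MeasureTheory

/-- majorant -/
noncomputable def maj (R : ℕ) (τ : ℕ → ℝ) (n : ℕ) : ℝ :=
  ∑ i ∈ Finset.range (R+1), if n ≤ i then Real.sqrt 2 ^ (i - n) * τ i else 0

lemma maj_ge (R : ℕ) (τ : ℕ → ℝ) (hτ : ∀ n, 0 ≤ τ n) {n i : ℕ} (hn : n ≤ i) (hi : i ≤ R) :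
    Real.sqrt 2 ^ (i - n) * τ i ≤ maj R τ n := by
  unfold maj
  have h1 := Finset.single_le_sum (f := fun i => if n ≤ i then Real.sqrt 2 ^ (i - n) * τ i else 0)
    (s := Finset.range (R+1)) (fun i _ => by
      split_ifs
      · have := hτ i; positivity
      · exact le_rfl) (Finset.mem_range.2 (by omega : i < R+1))
  simp only [if_pos hn] at h1
  exact h1

lemma maj_sum (R : ℕ) (τ : ℕ → ℝ) (hτ : ∀ n, 0 ≤ τ n) :
    ∑ n ∈ Finset.range (R+1), 2 ^ n * maj R τ n ≤ 4 * ∑ n ∈ Finset.range (R+1), 2 ^ n * τ n := by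
  unfold maj
  simp only [Finset.mul_sum]
  rw [Finset.sum_comm]
  apply Finset.sum_le_sum
  intro i _
  have h2 : ∀ n, (2:ℝ) ^ n * (if n ≤ i then Real.sqrt 2 ^ (i - n) * τ i else 0) =
      (if n ≤ i then Real.sqrt 2 ^ n else 0) * (Real.sqrt 2 ^ i * τ i) := by
    intro n
    split_ifs with h
    · have e1 : (2:ℝ) ^ n = Real.sqrt 2 ^ n * Real.sqrt 2 ^ n := by
        rw [← mul_pow, Real.mul_self_sqrt (by norm_num)]
      have e2 : Real.sqrt 2 ^ i = Real.sqrt 2 ^ n * Real.sqrt 2 ^ (i - n) := by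
        rw [← pow_add]; congr 1; omega
      rw [e1, e2]; ring
    · simp
  simp only [h2]
  rw [← Finset.sum_mul, ← Finset.sum_filter]
  have h3 : ∑ n ∈ (Finset.range (R+1)).filter (fun n => n ≤ i), Real.sqrt 2 ^ n ≤ 4 * Real.sqrt 2 ^ i := by
    apply geom_set _ _ (by positivity)
    intro n hn
    apply pow_le_pow_right₀ (by linarith [sqrt2_bounds.1])
    exact (Finset.mem_filter.1 hn).2
  have e3 : (2:ℝ) ^ i = Real.sqrt 2 ^ i * Real.sqrt 2 ^ i := by
    rw [← mul_pow, Real.mul_self_sqrt (by norm_num)]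
  have h4 : 0 ≤ Real.sqrt 2 ^ i * τ i := by have := hτ i; positivity
  calc _ ≤ (4 * Real.sqrt 2 ^ i) * (Real.sqrt 2 ^ i * τ i) := mul_le_mul_of_nonneg_right h3 h4
    _ = _ := by rw [e3]; ring

lemma ratio_sum (a : ℕ → ℂ) (N m R j : ℕ) (ha : cE a N ≤ 1) :
    ∑ n ∈ Finset.range R, WW a N m n j / maj R (tau a N m) n ≤ 6 := by
  classical
  have hτ : ∀ n, 0 ≤ tau a N m n := fun n => le_trans (by positivity) (tau_ge a N m n)
  have hτ' : ∀ n, 0 < tau a N m n := fun n => lt_of_lt_of_le (by positivity) (tau_ge a N m n)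
  set s := Nat.findGreatest (fun n => ¬ Act a N m n j) R with hs
  have hs0 : ¬ Act a N m 0 j := by unfold Act; simp
  have hsR : s ≤ R := Nat.findGreatest_le R
  have hsA : ¬ Act a N m s j := Nat.findGreatest_spec (P := fun n => ¬ Act a N m n j) (Nat.zero_le R) hs0
  have hlast : ∀ n, s < n → n ≤ R → Act a N m n j := by
    intro n h1 h2
    have := Nat.findGreatest_is_greatest h1 h2
    push Not at this
    exact this
  have hpos : ∀ n ≤ R, 0 < maj R (tau a N m) n := by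
    intro n hn
    have := maj_ge R (tau a N m) hτ le_rfl hn
    rw [Nat.sub_self, pow_zero, one_mul] at this
    exact lt_of_lt_of_le (hτ' n) this
  have hterm : ∀ n ∈ Finset.range R, WW a N m n j / maj R (tau a N m) n ≤
      (1/2) ^ n + (if n ≤ s then Real.sqrt 2 ^ n else 0) / Real.sqrt 2 ^ s := by
    intro n hn
    rw [Finset.mem_range] at hn
    by_cases hns : n ≤ s
    · rw [if_pos hns]
      have h1 : WW a N m n j ≤ tau a N m s := (WW_le_blk a N m n j).trans (blk_le_tau a N m s j ha hsA)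
      have h2 := maj_ge R (tau a N m) hτ hns hsR
      have h3 : WW a N m n j / maj R (tau a N m) n ≤ Real.sqrt 2 ^ n / Real.sqrt 2 ^ s := by
        rw [div_le_div_iff₀ (hpos n hn.le) (by positivity)]
        have e2 : Real.sqrt 2 ^ s = Real.sqrt 2 ^ n * Real.sqrt 2 ^ (s - n) := by
          rw [← pow_add]; congr 1; omega
        calc WW a N m n j * Real.sqrt 2 ^ s ≤ tau a N m s * Real.sqrt 2 ^ s :=
              mul_le_mul_of_nonneg_right h1 (by positivity)
          _ = Real.sqrt 2 ^ n * (Real.sqrt 2 ^ (s - n) * tau a N m s) := by rw [e2]; ring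
          _ ≤ _ := mul_le_mul_of_nonneg_left h2 (by positivity)
      have : (0:ℝ) ≤ (1/2) ^ n := by positivity
      linarith
    · rw [if_neg hns, zero_div, add_zero]
      push Not at hns
      have h1 := WW_le_act a N m n j (hlast n hns hn.le) (hlast (n+1) (by omega) hn)
      have h2 := maj_ge R (tau a N m) hτ le_rfl hn.le
      rw [Nat.sub_self, pow_zero, one_mul] at h2
      rw [div_le_iff₀ (hpos n hn.le)]
      have e : ((1:ℝ)/8) ^ n = (1/2) ^ n * (1/4) ^ n := by rw [← mul_pow]; norm_num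
      calc WW a N m n j ≤ 2 * (1/8) ^ n := h1
        _ = (1/2) ^ n * (2 * (1/4) ^ n) := by rw [e]; ring
        _ ≤ (1/2) ^ n * maj R (tau a N m) n :=
          mul_le_mul_of_nonneg_left ((tau_ge a N m n).trans h2) (by positivity)
  refine (Finset.sum_le_sum hterm).trans ?_
  rw [Finset.sum_add_distrib, ← Finset.sum_div, ← Finset.sum_filter]
  have h3 : ∑ n ∈ (Finset.range R).filter (fun n => n ≤ s), Real.sqrt 2 ^ n ≤ 4 * Real.sqrt 2 ^ s := by
    apply geom_set _ _ (by positivity)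
    intro n hn
    apply pow_le_pow_right₀ (by linarith [sqrt2_bounds.1])
    exact (Finset.mem_filter.1 hn).2
  have h4 : (∑ n ∈ (Finset.range R).filter (fun n => n ≤ s), Real.sqrt 2 ^ n) / Real.sqrt 2 ^ s ≤ 4 := by
    rw [div_le_iff₀ (by positivity)]; exact h3
  linarith [half_sum R]

/-- summation of the core errors -/
lemma core_sum (a : ℕ → ℂ) (N m R : ℕ) (ha : cE a N ≤ 1) (J : Finset ℕ) (v : ℕ → ℂ) :
    ∑ n ∈ Finset.range R, Real.sqrt 2 ^ n * Real.sqrt (∑ j ∈ J, ‖v j‖ ^ 2 * WW a N m n j) ≤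
      13 * Real.sqrt (∑ j ∈ J, ‖v j‖ ^ 2) := by
  have hτ : ∀ n, 0 ≤ tau a N m n := fun n => le_trans (by positivity) (tau_ge a N m n)
  have hτ' : ∀ n, 0 < tau a N m n := fun n => lt_of_lt_of_le (by positivity) (tau_ge a N m n)
  have hpos : ∀ n ≤ R, 0 < maj R (tau a N m) n := by
    intro n hn
    have := maj_ge R (tau a N m) hτ le_rfl hn
    rw [Nat.sub_self, pow_zero, one_mul] at this
    exact lt_of_lt_of_le (hτ' n) this
  set x : ℕ → ℝ := fun n => ∑ j ∈ J, ‖v j‖ ^ 2 * WW a N m n j with hx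
  have hx0 : ∀ n, 0 ≤ x n := fun n => Finset.sum_nonneg (fun j _ => mul_nonneg (sq_nonneg _) (WW_nonneg _ _ _ _ _))
  have h1 : ∀ n ∈ Finset.range R, Real.sqrt 2 ^ n * Real.sqrt (x n) =
      Real.sqrt (2 ^ n * |maj R (tau a N m) n|) * Real.sqrt (x n / |maj R (tau a N m) n|) := by
    intro n hn
    rw [Finset.mem_range] at hn
    have hp := hpos n hn.le
    rw [abs_of_pos hp, ← Real.sqrt_mul (by positivity), ← sqrt_two_pow, ← Real.sqrt_mul (by positivity)]
    congr 1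
    field_simp
  rw [Finset.sum_congr rfl h1]
  refine (Real.sum_sqrt_mul_sqrt_le _ (fun n => by positivity) (fun n => div_nonneg (hx0 n) (abs_nonneg _))).trans ?_
  have h2 : ∑ n ∈ Finset.range R, 2 ^ n * |maj R (tau a N m) n| ≤ 28 := by
    calc ∑ n ∈ Finset.range R, 2 ^ n * |maj R (tau a N m) n|
        = ∑ n ∈ Finset.range R, 2 ^ n * maj R (tau a N m) n :=
          Finset.sum_congr rfl (fun n hn => by rw [abs_of_pos (hpos n (Finset.mem_range.1 hn).le)])
      _ ≤ ∑ n ∈ Finset.range (R+1), 2 ^ n * maj R (tau a N m) n := by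
          apply Finset.sum_le_sum_of_subset_of_nonneg
          · intro n hn; rw [Finset.mem_range] at hn ⊢; omega
          · intro n hn _
            have := hpos n (by rw [Finset.mem_range] at hn; omega)
            positivity
      _ ≤ 4 * ∑ n ∈ Finset.range (R+1), 2 ^ n * tau a N m n := maj_sum R _ hτ
      _ ≤ 28 := by linarith [tau_sum a N m R ha]
  have h3 : ∑ n ∈ Finset.range R, x n / |maj R (tau a N m) n| ≤ 6 * ∑ j ∈ J, ‖v j‖ ^ 2 := by
    have e : ∑ n ∈ Finset.range R, x n / |maj R (tau a N m) n| =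
        ∑ j ∈ J, ‖v j‖ ^ 2 * ∑ n ∈ Finset.range R, WW a N m n j / maj R (tau a N m) n := by
      simp only [Finset.mul_sum]
      rw [Finset.sum_comm]
      refine Finset.sum_congr rfl (fun n hn => ?_)
      rw [abs_of_pos (hpos n (Finset.mem_range.1 hn).le), hx, Finset.sum_div]
      exact Finset.sum_congr rfl (fun j _ => by ring)
    rw [e, Finset.mul_sum]
    apply Finset.sum_le_sum
    intro j _
    rw [mul_comm 6]
    exact mul_le_mul_of_nonneg_left (ratio_sum a N m R j ha) (sq_nonneg _)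
  have hv0 : 0 ≤ ∑ j ∈ J, ‖v j‖ ^ 2 := Finset.sum_nonneg (fun _ _ => sq_nonneg _)
  calc _ ≤ Real.sqrt 28 * Real.sqrt (6 * ∑ j ∈ J, ‖v j‖ ^ 2) :=
        mul_le_mul (Real.sqrt_le_sqrt h2) (Real.sqrt_le_sqrt h3) (Real.sqrt_nonneg _) (Real.sqrt_nonneg _)
    _ = Real.sqrt 168 * Real.sqrt (∑ j ∈ J, ‖v j‖ ^ 2) := by
        rw [← Real.sqrt_mul (by norm_num), ← Real.sqrt_mul (by norm_num)]; congr 1; ring
    _ ≤ 13 * Real.sqrt (∑ j ∈ J, ‖v j‖ ^ 2) := by
        apply mul_le_mul_of_nonneg_right _ (Real.sqrt_nonneg _)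
        rw [Real.sqrt_le_left (by norm_num)]; norm_num

/-! ### covering at the last level -/

lemma cover (a : ℕ → ℂ) (N m R : ℕ) (hR0 : 0 < R) (hRN : N ≤ 2 ^ R)
    (hsupp : ∀ k < N, a k ≠ 0 → 1 ≤ (8:ℝ) ^ R * ‖a k‖ ^ 2) (j : ℕ) :
    ∀ k ∈ blk N m j, k ∉ co a N m R j → a k = 0 := by
  intro k hk hnot
  by_contra hak
  apply hnot
  have hkN := (mem_blk.1 hk).1
  have hgrid : k ∈ KK a N R := by
    unfold KK
    rw [Finset.mem_filter, Finset.mem_range]
    refine ⟨hkN, ?_⟩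
    have h1 := hsupp k hkN hak
    have h2 : (8:ℝ) ^ R * cE a k + 1 ≤ (8:ℝ) ^ R * cE a (k+1) := by
      rw [cE_succ, mul_add]; linarith
    have h3 : ⌊(8:ℝ) ^ R * cE a k⌋₊ + 1 ≤ ⌊(8:ℝ) ^ R * cE a (k+1)⌋₊ := by
      rw [← Nat.floor_add_one (mul_nonneg (by positivity) (cE_nonneg _ _))]
      exact Nat.floor_mono h2
    omega
  have hmem : k ∈ KK a N R ∩ blk N m j := Finset.mem_inter.2 ⟨hgrid, hk⟩
  have hhull : k ∈ hull (KK a N R ∩ blk N m j) := subset_hull _ hmem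
  have hthr : thr a R (Qf a N R m) = 0 := by
    rcases thr_min a R (Qf a N R m) with h | h
    · exact h
    · exfalso
      have h1 : (Qf a N R m).card ≤ N - 1 := by
        rw [Qf_eq]
        refine Finset.card_image_le.trans ((Finset.card_filter_le _ _).trans ?_)
        rw [Nat.card_Ico]
      have h2 := Finset.card_filter_le (Qf a N R m) (fun S => thr a R (Qf a N R m) ≤ en a (hull S))
      omega
  unfold co cr
  rw [if_pos]
  · exact hhull
  · refine ⟨hR0, ?_⟩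
    rw [hthr]
    have h1 : ‖a k‖ ^ 2 ≤ en a (hull (KK a N R ∩ blk N m j)) :=
      Finset.single_le_sum (f := fun k => ‖a k‖ ^ 2) (fun _ _ => sq_nonneg _) hhull
    have h2 : 0 < ‖a k‖ ^ 2 := by positivity
    linarith

lemma exists_R (a : ℕ → ℂ) (N : ℕ) : ∃ R, 0 < R ∧ N ≤ 2 ^ R ∧
    ∀ k < N, a k ≠ 0 → 1 ≤ (8:ℝ) ^ R * ‖a k‖ ^ 2 := by
  have h1 : ∀ k, ∃ r : ℕ, a k ≠ 0 → 1 ≤ (8:ℝ) ^ r * ‖a k‖ ^ 2 := by
    intro k
    by_cases h : a k = 0
    · exact ⟨0, fun h' => absurd h h'⟩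
    · obtain ⟨r, hr⟩ := pow_unbounded_of_one_lt (‖a k‖ ^ 2)⁻¹ (by norm_num : (1:ℝ) < 8)
      refine ⟨r, fun _ => ?_⟩
      have h2 : 0 < ‖a k‖ ^ 2 := by positivity
      have := mul_lt_mul_of_pos_right hr h2
      rw [inv_mul_cancel₀ h2.ne'] at this
      exact this.le
  choose r hr using h1
  refine ⟨(∑ k ∈ Finset.range N, r k) + N + 1, by omega, ?_, ?_⟩
  · calc N ≤ 2 ^ N := Nat.lt_two_pow_self.le
      _ ≤ _ := Nat.pow_le_pow_right (by norm_num) (by omega)
  · intro k hk hak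
    have h2 : r k ≤ ∑ k ∈ Finset.range N, r k :=
      Finset.single_le_sum (f := r) (fun _ _ => Nat.zero_le _) (Finset.mem_range.2 hk)
    refine (hr k hak).trans ?_
    apply mul_le_mul_of_nonneg_right _ (sq_nonneg _)
    exact pow_le_pow_right₀ (by norm_num) (by omega)

lemma blk_card_sum (N m R : ℕ) (hRN : N ≤ 2 ^ R) :
    ∑ j ∈ Finset.Ico 1 N, ((blk N m j).card : ℝ) ≤ 2 ^ R := by
  have h1 : ∑ j ∈ Finset.Ico 1 N, (blk N m j).card ≤ N := by
    rw [← Finset.card_biUnion (fun i _ j _ hij => blk_disj hij)]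
    calc _ ≤ (Finset.range N).card := Finset.card_le_card (by
          intro k hk
          rw [Finset.mem_biUnion] at hk
          obtain ⟨j, _, hk⟩ := hk
          exact Finset.mem_range.2 (mem_blk.1 hk).1)
      _ = N := Finset.card_range N
  have h2 : ∑ j ∈ Finset.Ico 1 N, (blk N m j).card ≤ 2 ^ R := h1.trans hRN
  exact_mod_cast h2

section
variable {T : Type*} [AddCommGroup T] [MeasurableSpace T] [MeasurableAdd₂ T] [MeasurableNeg T]
  {χ : ℕ → T → ℂ}
variable (μ : Measure T) [IsProbabilityMeasure μ] [μ.IsAddLeftInvariant] [μ.IsNegInvariant]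

/-- The block estimate for a fixed sample. -/
theorem block_est (h : Ch χ) (a X : ℕ → ℂ) (hX : ∀ k, ‖X k‖ ≤ 1) (N m R : ℕ) (ha : cE a N ≤ 1)
    (hR0 : 0 < R) (hRN : N ≤ 2 ^ R) (hsupp : ∀ k < N, a k ≠ 0 → 1 ≤ (8:ℝ) ^ R * ‖a k‖ ^ 2)
    (A : ℝ) (φ : ℕ → T → ℝ) (c : ℕ → ℝ) (hφ : ∀ n, Dens μ (φ n) (2 ^ (2 ^ n))) (hc : ∀ n, 0 < c n)
    (hcost : ∀ j ∈ Finset.Ico 1 N, ∑ n ∈ Finset.range (R+1), Real.sqrt 2 ^ n *
      (c n + (c n)⁻¹ * PP μ χ a (φ n) (blk N m j)) ≤ A)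
    (hNe : (Finset.Ico 1 N).Nonempty) (Ξ : ℝ) (hΞ : 0 ≤ Ξ)
    (hΘ : ∀ n < R, Real.log (∫ p : T × T, Real.exp (GG χ a X N m n p.1 p.2 / 4) ∂(μ.prod μ)) ≤ 2 ^ n * Ξ)
    (x : T) :
    ∑ j ∈ Finset.Ico 1 N, ‖ff χ a X (blk N m j) x‖ ^ 2 ≤ (9 + 4 * Ξ) * (13 + 4 * A) ^ 2 := by
  have hPP0 : ∀ n j, 0 ≤ PP μ χ a (φ n) (blk N m j) := fun n j => PP_nonneg μ a (hφ n) _
  -- bounds on c
  have hcA : ∑ n ∈ Finset.range (R+1), Real.sqrt 2 ^ n * c n ≤ A := by
    obtain ⟨j, hj⟩ := hNe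
    refine le_trans (Finset.sum_le_sum (fun n _ => ?_)) (hcost j hj)
    apply mul_le_mul_of_nonneg_left _ (by positivity)
    have h1 := hPP0 n j
    have h2 := inv_pos.2 (hc n)
    have : 0 ≤ (c n)⁻¹ * PP μ χ a (φ n) (blk N m j) := by positivity
    linarith
  have hA0 : 0 ≤ A := le_trans (Finset.sum_nonneg (fun n _ => by have := hc n; positivity)) hcA
  have hPA : ∀ j ∈ Finset.Ico 1 N, ∑ n ∈ Finset.range (R+1), Real.sqrt 2 ^ n *
      ((c n)⁻¹ * PP μ χ a (φ n) (blk N m j)) ≤ A := by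
    intro j hj
    refine le_trans (Finset.sum_le_sum (fun n _ => ?_)) (hcost j hj)
    apply mul_le_mul_of_nonneg_left _ (by positivity)
    have := hc n
    linarith
  -- the linear estimate
  have hlin : ∀ v : ℕ → ℂ, ‖∑ j ∈ Finset.Ico 1 N, v j * ff χ a X (blk N m j) x‖ ≤
      Real.sqrt (9 + 4 * Ξ) * (13 + 4 * A) * Real.sqrt (∑ j ∈ Finset.Ico 1 N, ‖v j‖ ^ 2) := by
    intro v
    set V := ∑ j ∈ Finset.Ico 1 N, ‖v j‖ ^ 2 with hV
    have hV0 : 0 ≤ V := Finset.sum_nonneg (fun _ _ => sq_nonneg _)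
    have h1 := chain μ h a X hX (Finset.Ico 1 N) (fun j => blk N m j) R φ (fun n _ => hφ n)
      (fun n j => co a N m n j) (fun j => co_zero a N m j) (fun n j => co_sub a N m n j)
      (fun j => cover a N m R hR0 hRN hsupp j) (blk_card_sum N m R hRN) Ξ hΞ hΘ v x
    refine h1.trans ?_
    have h2 := core_sum a N m R ha (Finset.Ico 1 N) v
    have h3 : ∑ n ∈ Finset.range (R+1), Real.sqrt 2 ^ n * Real.sqrt (∑ j ∈ Finset.Ico 1 N, ‖v j‖ ^ 2 *
        PP μ χ a (φ n) (blk N m j)) ≤ A * Real.sqrt V := by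
      set y : ℕ → ℝ := fun n => ∑ j ∈ Finset.Ico 1 N, ‖v j‖ ^ 2 * PP μ χ a (φ n) (blk N m j) with hy
      have hy0 : ∀ n, 0 ≤ y n := fun n => Finset.sum_nonneg (fun j _ => mul_nonneg (sq_nonneg _) (hPP0 n j))
      have e1 : ∀ n ∈ Finset.range (R+1), Real.sqrt 2 ^ n * Real.sqrt (y n) =
          Real.sqrt (Real.sqrt 2 ^ n * c n) * Real.sqrt (Real.sqrt 2 ^ n * ((c n)⁻¹ * y n)) := by
        intro n _
        have hcn := hc n
        have h5 : (0:ℝ) < Real.sqrt 2 ^ n := by positivity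
        rw [← Real.sqrt_mul (by positivity)]
        have : Real.sqrt 2 ^ n * c n * (Real.sqrt 2 ^ n * ((c n)⁻¹ * y n)) = (Real.sqrt 2 ^ n) ^ 2 * y n := by
          field_simp
        rw [this, Real.sqrt_mul (by positivity), Real.sqrt_sq h5.le]
      rw [Finset.sum_congr rfl e1]
      refine (Real.sum_sqrt_mul_sqrt_le _ (fun n => by have := hc n; positivity) (fun n => by
        have := hc n; have := hy0 n; positivity)).trans ?_
      have h4 : ∑ n ∈ Finset.range (R+1), Real.sqrt 2 ^ n * ((c n)⁻¹ * y n) ≤ A * V := by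
        have e2 : ∑ n ∈ Finset.range (R+1), Real.sqrt 2 ^ n * ((c n)⁻¹ * y n) =
            ∑ j ∈ Finset.Ico 1 N, ‖v j‖ ^ 2 * ∑ n ∈ Finset.range (R+1), Real.sqrt 2 ^ n *
              ((c n)⁻¹ * PP μ χ a (φ n) (blk N m j)) := by
          simp only [hy, Finset.mul_sum]
          rw [Finset.sum_comm]
          exact Finset.sum_congr rfl (fun j _ => Finset.sum_congr rfl (fun n _ => by ring))
        rw [e2, hV, Finset.mul_sum]
        apply Finset.sum_le_sum
        intro j hj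
        rw [mul_comm A]
        exact mul_le_mul_of_nonneg_left (hPA j hj) (sq_nonneg _)
      calc _ ≤ Real.sqrt A * Real.sqrt (A * V) :=
            mul_le_mul (Real.sqrt_le_sqrt hcA) (Real.sqrt_le_sqrt h4) (Real.sqrt_nonneg _) (Real.sqrt_nonneg _)
        _ = A * Real.sqrt V := by
            rw [Real.sqrt_mul hA0, ← mul_assoc, Real.mul_self_sqrt hA0]
    have h6 : 0 ≤ Real.sqrt (9 + 4 * Ξ) := Real.sqrt_nonneg _
    calc _ ≤ Real.sqrt (9 + 4 * Ξ) * (13 * Real.sqrt V + 4 * (A * Real.sqrt V)) := by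
          apply mul_le_mul_of_nonneg_left _ h6
          apply add_le_add h2
          exact mul_le_mul_of_nonneg_left h3 (by norm_num)
      _ = _ := by ring
  -- duality
  set Z := ∑ j ∈ Finset.Ico 1 N, ‖ff χ a X (blk N m j) x‖ ^ 2 with hZ
  have hZ0 : 0 ≤ Z := Finset.sum_nonneg (fun _ _ => sq_nonneg _)
  have h1 := hlin (fun j => (starRingEnd ℂ) (ff χ a X (blk N m j) x))
  have e1 : ∑ j ∈ Finset.Ico 1 N, (starRingEnd ℂ) (ff χ a X (blk N m j) x) * ff χ a X (blk N m j) x =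
      ((Z : ℝ) : ℂ) := by
    rw [hZ]
    push_cast
    refine Finset.sum_congr rfl (fun j _ => ?_)
    rw [mul_comm, Complex.mul_conj, Complex.normSq_eq_norm_sq]
    push_cast; rfl
  rw [e1, Complex.norm_real, Real.norm_eq_abs, abs_of_nonneg hZ0] at h1
  have e2 : ∑ j ∈ Finset.Ico 1 N, ‖(starRingEnd ℂ) (ff χ a X (blk N m j) x)‖ ^ 2 = Z := by
    rw [hZ]
    exact Finset.sum_congr rfl (fun j _ => by rw [RCLike.norm_conj])
  rw [e2] at h1
  set G := Real.sqrt (9 + 4 * Ξ) * (13 + 4 * A) with hG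
  have hG0 : 0 ≤ G := by positivity
  have h2 : Real.sqrt Z ≤ G := by
    rcases (Real.sqrt_nonneg Z).eq_or_lt with h0 | h0
    · rw [← h0]; exact hG0
    · have h3 : Real.sqrt Z * Real.sqrt Z ≤ G * Real.sqrt Z := by rw [Real.mul_self_sqrt hZ0]; exact h1
      exact le_of_mul_le_mul_right h3 h0
  calc Z = Real.sqrt Z ^ 2 := (Real.sq_sqrt hZ0).symm
    _ ≤ G ^ 2 := pow_le_pow_left₀ (Real.sqrt_nonneg _) h2 2
    _ = _ := by rw [hG, mul_pow, Real.sq_sqrt (by positivity)]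

end

end H59.RB
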