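import Pool.Agent.H59.BMOA.Signs

/-! Contraction principle for finite sign averages. -/

namespace H59.RB

set_option linter.unusedSectionVars false

open Finset BigOperators

section
variable {κ : Type*} [Fintype κ] [DecidableEq κ]

/-- seminorm-like functions -/
structure SN (N : (κ → ℂ) → ℝ) : Prop where
  add : ∀ u v, N (u + v) ≤ N u + N v
  smul : ∀ (r : ℝ) u, 0 ≤ r → N (fun k => (r : ℂ) * u k) = r * N u

lemma SN.zero {N : (κ → ℂ) → ℝ} (h : SN N) : N 0 = 0 := by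
  have h1 := h.smul 0 0 le_rfl
  have h2 : (fun k : κ => ((0:ℝ) : ℂ) * (0 : κ → ℂ) k) = 0 := by funext k; simp
  rw [h2, zero_mul] at h1
  exact h1

/-- weights -/
noncomputable def wt (l : κ → ℝ) (ρ : κ → ℤˣ) : ℝ := ∏ k, (1 + sg (ρ k) * l k) / 2

lemma wt_nonneg (l : κ → ℝ) (hl : ∀ k, |l k| ≤ 1) (ρ : κ → ℤˣ) : 0 ≤ wt l ρ := by
  apply Finset.prod_nonneg
  intro k _
  have h1 := abs_le.1 (hl k)
  rcases sg_cases (ρ k) with h | h <;> rw [h] <;> linarith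

lemma sum_units (f : ℤˣ → ℝ) : ∑ e, f e = f 1 + f (-1) := by
  have h : (Finset.univ : Finset ℤˣ) = {1, -1} := rfl
  rw [h, Finset.sum_pair (by decide)]

lemma wt_sum (l : κ → ℝ) : ∑ ρ : κ → ℤˣ, wt l ρ = 1 := by
  unfold wt
  have h := Finset.prod_univ_sum (fun _ : κ => (Finset.univ : Finset ℤˣ)) (fun k e => (1 + sg e * l k) / 2)
  rw [Fintype.piFinset_univ] at h
  rw [← h]
  apply Finset.prod_eq_one
  intro k _
  rw [sum_units, sg_one, sg_neg_one]; ring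

lemma wt_sum_mul (l : κ → ℝ) (j : κ) : ∑ ρ : κ → ℤˣ, wt l ρ * sg (ρ j) = l j := by
  have h := Finset.prod_univ_sum (fun _ : κ => (Finset.univ : Finset ℤˣ))
    (fun k e => (1 + sg e * l k) / 2 * (if k = j then sg e else 1))
  rw [Fintype.piFinset_univ] at h
  have h1 : ∀ ρ : κ → ℤˣ, ∏ k, ((1 + sg (ρ k) * l k) / 2 * (if k = j then sg (ρ k) else 1)) =
      wt l ρ * sg (ρ j) := by
    intro ρ
    rw [Finset.prod_mul_distrib, Finset.prod_ite_eq' Finset.univ j (fun k => sg (ρ k))]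
    simp [wt]
  rw [← Finset.sum_congr rfl (fun ρ _ => h1 ρ), ← h]
  rw [Finset.prod_eq_single j]
  · rw [sum_units, sg_one, sg_neg_one, if_pos rfl, if_pos rfl]; ring
  · intro k _ hk
    rw [sum_units, sg_one, sg_neg_one, if_neg hk, if_neg hk]; ring
  · simp

/-- contraction principle -/
theorem contraction {N : (κ → ℂ) → ℝ} (hN : SN N) (b : κ → ℂ) (l : κ → ℝ) (hl : ∀ k, |l k| ≤ 1) :
    𝔼 τ : κ → ℤˣ, N (fun k => (sg (τ k) : ℂ) * ((l k : ℂ) * b k)) ≤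
      𝔼 τ : κ → ℤˣ, N (fun k => (sg (τ k) : ℂ) * b k) := by
  have h1 : ∀ τ : κ → ℤˣ, N (fun k => (sg (τ k) : ℂ) * ((l k : ℂ) * b k)) ≤
      ∑ ρ : κ → ℤˣ, wt l ρ * N (fun k => (sg ((ρ * τ) k) : ℂ) * b k) := by
    intro τ
    have h2 : (fun k => (sg (τ k) : ℂ) * ((l k : ℂ) * b k)) =
        ∑ ρ : κ → ℤˣ, (fun k => (wt l ρ : ℂ) * ((sg ((ρ * τ) k) : ℂ) * b k)) := by
      funext k
      rw [Finset.sum_apply]
      have h3 : ∀ ρ : κ → ℤˣ, (wt l ρ : ℂ) * ((sg ((ρ * τ) k) : ℂ) * b k) =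
          ((wt l ρ * sg (ρ k) : ℝ) : ℂ) * ((sg (τ k) : ℂ) * b k) := by
        intro ρ
        rw [Pi.mul_apply, sg_mul]; push_cast; ring
      simp only [h3]
      rw [← Finset.sum_mul, ← Complex.ofReal_sum, wt_sum_mul]
      ring
    rw [h2]
    refine (Finset.le_sum_of_subadditive N (le_of_eq hN.zero) hN.add _ _).trans (le_of_eq ?_)
    exact Finset.sum_congr rfl (fun ρ _ => hN.smul (wt l ρ) _ (wt_nonneg l hl ρ))
  calc 𝔼 τ : κ → ℤˣ, N (fun k => (sg (τ k) : ℂ) * ((l k : ℂ) * b k))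
      ≤ 𝔼 τ : κ → ℤˣ, ∑ ρ : κ → ℤˣ, wt l ρ * N (fun k => (sg ((ρ * τ) k) : ℂ) * b k) :=
        Finset.expect_le_expect (fun τ _ => h1 τ)
    _ = ∑ ρ : κ → ℤˣ, wt l ρ * 𝔼 τ : κ → ℤˣ, N (fun k => (sg (τ k) : ℂ) * b k) := by
        rw [Finset.expect_sum_comm]
        refine Finset.sum_congr rfl (fun ρ _ => ?_)
        rw [← Finset.mul_expect, expect_flip ρ (fun τ : κ → ℤˣ => N (fun k => (sg (τ k) : ℂ) * b k))]
    _ = _ := by rw [← Finset.sum_mul, wt_sum, one_mul]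

/-- contraction principle with bound `K` -/
theorem contraction_K {N : (κ → ℂ) → ℝ} (hN : SN N) (b : κ → ℂ) (K : ℝ) (hK : 0 < K)
    (l : κ → ℝ) (hl : ∀ k, |l k| ≤ K) :
    𝔼 τ : κ → ℤˣ, N (fun k => (sg (τ k) : ℂ) * ((l k : ℂ) * b k)) ≤
      K * 𝔼 τ : κ → ℤˣ, N (fun k => (sg (τ k) : ℂ) * b k) := by
  have h1 := contraction hN b (fun k => l k / K) (fun k => by
    rw [abs_div, abs_of_pos hK, div_le_one hK]; exact hl k)
  have h2 : ∀ τ : κ → ℤˣ, N (fun k => (sg (τ k) : ℂ) * ((l k : ℂ) * b k)) =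
      K * N (fun k => (sg (τ k) : ℂ) * (((l k / K : ℝ) : ℂ) * b k)) := by
    intro τ
    rw [← hN.smul K _ hK.le]
    congr 1
    funext k
    have : (K : ℂ) ≠ 0 := by exact_mod_cast hK.ne'
    push_cast
    field_simp
  simp only [h2]
  rw [← Finset.mul_expect]
  exact mul_le_mul_of_nonneg_left h1 hK.le

/-- Jensen for the square root -/
lemma expect_sqrt_le {Ω : Type*} [Fintype Ω] [Nonempty Ω] (Z : Ω → ℝ) (hZ : ∀ ω, 0 ≤ Z ω) :
    𝔼 ω, Real.sqrt (Z ω) ≤ Real.sqrt (𝔼 ω, Z ω) := by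
  apply Real.le_sqrt_of_sq_le
  rw [Fintype.expect_eq_sum_div_card, Fintype.expect_eq_sum_div_card, div_pow]
  have hc : (0:ℝ) < Fintype.card Ω := by exact_mod_cast Fintype.card_pos
  rw [div_le_div_iff₀ (by positivity) hc]
  have h1 := sq_sum_le_card_mul_sum_sq (s := (Finset.univ : Finset Ω)) (f := fun ω => Real.sqrt (Z ω))
  simp only [Real.sq_sqrt (hZ _), Finset.card_univ] at h1
  nlinarith

end

end H59.RB
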