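import Pool.Agent.H59.BMOA.Grid

/-! Cores of blocks and counting of configurations. -/

namespace H59.RB

set_option linter.unusedSectionVars false

open Finset BigOperators MeasureTheory

/-- traces on the grid of the blocks of scale `m` (index at least one) -/
noncomputable def Qf (a : ℕ → ℂ) (N n m : ℕ) : Finset (Finset ℕ) :=
  ((KK a N n).filter (fun k => 2 ^ m ≤ k)).image
    (fun k => (KK a N n).filter (fun k' => k' / 2 ^ m = k / 2 ^ m))

/-- threshold -/
noncomputable def thr (a : ℕ → ℂ) (n : ℕ) (Q : Finset (Finset ℕ)) : ℝ :=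
  Classical.choose (exists_thr Q (fun S => en a (hull S)) (fun _ _ => en_nonneg _ _) (2 ^ n))

lemma thr_nonneg (a : ℕ → ℂ) (n : ℕ) (Q : Finset (Finset ℕ)) : 0 ≤ thr a n Q :=
  (Classical.choose_spec (exists_thr Q (fun S => en a (hull S)) (fun _ _ => en_nonneg _ _) (2 ^ n))).1

lemma thr_card (a : ℕ → ℂ) (n : ℕ) (Q : Finset (Finset ℕ)) :
    (Q.filter (fun S => thr a n Q < en a (hull S))).card ≤ 2 ^ n :=
  (Classical.choose_spec (exists_thr Q (fun S => en a (hull S)) (fun _ _ => en_nonneg _ _) (2 ^ n))).2.1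

lemma thr_min (a : ℕ → ℂ) (n : ℕ) (Q : Finset (Finset ℕ)) :
    thr a n Q = 0 ∨ 2 ^ n ≤ (Q.filter (fun S => thr a n Q ≤ en a (hull S))).card :=
  (Classical.choose_spec (exists_thr Q (fun S => en a (hull S)) (fun _ _ => en_nonneg _ _) (2 ^ n))).2.2

/-- core attached to a trace -/
noncomputable def cr (a : ℕ → ℂ) (n : ℕ) (Q : Finset (Finset ℕ)) (S : Finset ℕ) : Finset ℕ :=
  if 0 < n ∧ thr a n Q < en a (hull S) then hull S else ∅

lemma cr_empty (a : ℕ → ℂ) (n : ℕ) (Q : Finset (Finset ℕ)) : cr a n Q ∅ = ∅ := by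
  unfold cr; rw [hull_empty]; split_ifs <;> rfl

/-- core of block `j` -/
noncomputable def co (a : ℕ → ℂ) (N m n j : ℕ) : Finset ℕ :=
  cr a n (Qf a N n m) (KK a N n ∩ blk N m j)

lemma co_sub (a : ℕ → ℂ) (N m n j : ℕ) : co a N m n j ⊆ blk N m j := by
  unfold co cr
  split_ifs
  · exact hull_blk N m j _
  · exact Finset.empty_subset _

lemma co_zero (a : ℕ → ℂ) (N m j : ℕ) : co a N m 0 j = ∅ := by
  unfold co cr; rw [if_neg]; simp

lemma KK_blk (a : ℕ → ℂ) (N n m j : ℕ) :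
    KK a N n ∩ blk N m j = (KK a N n).filter (fun k' => k' / 2 ^ m = j) := by
  ext k
  rw [Finset.mem_inter, mem_blk, Finset.mem_filter]
  constructor
  · rintro ⟨h1, _, h2⟩; exact ⟨h1, h2⟩
  · rintro ⟨h1, h2⟩
    exact ⟨h1, Finset.mem_range.1 (KK_sub_range a N n h1), h2⟩

lemma Qf_eq (a : ℕ → ℂ) (N n m : ℕ) : Qf a N n m =
    ((Finset.Ico 1 N).filter (fun j => (KK a N n ∩ blk N m j).Nonempty)).image
      (fun j => KK a N n ∩ blk N m j) := by
  have hp : 0 < 2 ^ m := by positivity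
  ext S
  unfold Qf
  simp only [Finset.mem_image, Finset.mem_filter, Finset.mem_Ico]
  constructor
  · rintro ⟨k, ⟨hk, hkm⟩, rfl⟩
    refine ⟨k / 2 ^ m, ⟨⟨?_, ?_⟩, ?_⟩, ?_⟩
    · exact (Nat.one_le_div_iff hp).2 hkm
    · exact lt_of_le_of_lt (Nat.div_le_self _ _) (Finset.mem_range.1 (KK_sub_range a N n hk))
    · rw [KK_blk]
      exact ⟨k, Finset.mem_filter.2 ⟨hk, rfl⟩⟩
    · rw [KK_blk]
  · rintro ⟨j, ⟨⟨hj1, hj2⟩, k, hk⟩, rfl⟩
    rw [Finset.mem_inter, mem_blk] at hk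
    refine ⟨k, ⟨hk.1, ?_⟩, ?_⟩
    · have : 1 ≤ k / 2 ^ m := by rw [hk.2.2]; exact hj1
      exact (Nat.one_le_div_iff hp).1 this
    · rw [KK_blk, hk.2.2]

lemma trace_inj (a : ℕ → ℂ) (N n m : ℕ) {i j : ℕ} (hi : (KK a N n ∩ blk N m i).Nonempty)
    (h : KK a N n ∩ blk N m i = KK a N n ∩ blk N m j) : i = j := by
  obtain ⟨k, hk⟩ := hi
  have hk' := hk
  rw [h] at hk'
  rw [Finset.mem_inter, mem_blk] at hk hk'
  rw [← hk.2.2, ← hk'.2.2]

lemma sum_trace (a : ℕ → ℂ) (N n m : ℕ) (F : Finset ℕ → ℝ) (hF : F ∅ = 0) :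
    ∑ j ∈ Finset.Ico 1 N, F (KK a N n ∩ blk N m j) = ∑ S ∈ Qf a N n m, F S := by
  rw [Qf_eq, Finset.sum_image, Finset.sum_filter]
  · refine Finset.sum_congr rfl (fun j _ => ?_)
    split_ifs with h
    · rfl
    · rw [Finset.not_nonempty_iff_eq_empty] at h
      rw [h, hF]
  · intro i hi j hj hij
    have hi' := Finset.mem_filter.1 (Finset.mem_coe.1 hi)
    exact trace_inj a N n m hi'.2 hij

lemma active_card (a : ℕ → ℂ) (N m n : ℕ) :
    ((Finset.Ico 1 N).filter (fun j => (co a N m n j).Nonempty)).card ≤ 2 ^ n := by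
  refine le_trans ?_ (thr_card a n (Qf a N n m))
  apply Finset.card_le_card_of_injOn (fun j => KK a N n ∩ blk N m j)
  · intro j hj
    have hj := Finset.mem_filter.1 (Finset.mem_coe.1 hj)
    have hact : 0 < n ∧ thr a n (Qf a N n m) < en a (hull (KK a N n ∩ blk N m j)) := by
      by_contra hc
      have h2 := hj.2
      unfold co cr at h2
      rw [if_neg hc] at h2
      simp at h2
    have hne : (KK a N n ∩ blk N m j).Nonempty := by
      by_contra hne
      rw [Finset.not_nonempty_iff_eq_empty] at hne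
      rw [hne, hull_empty, en_empty] at hact
      exact absurd (thr_nonneg a n (Qf a N n m)) (not_le.2 hact.2)
    rw [Finset.mem_coe, Finset.mem_filter]
    refine ⟨?_, hact.2⟩
    rw [Qf_eq]
    exact Finset.mem_image_of_mem _ (Finset.mem_filter.2 ⟨hj.1, hne⟩)
  · intro i hi j hj hij
    have hi' := Finset.mem_filter.1 (Finset.mem_coe.1 hi)
    have hne : (KK a N n ∩ blk N m i).Nonempty := by
      by_contra hne
      rw [Finset.not_nonempty_iff_eq_empty] at hne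
      have h2 := hi'.2
      unfold co at h2
      rw [hne, cr_empty] at h2
      simp at h2
    exact trace_inj a N n m hne hij

lemma thr_blk (a : ℕ → ℂ) (N m n : ℕ) : thr a n (Qf a N n m) = 0 ∨
    2 ^ n ≤ ((Finset.Ico 1 N).filter (fun j => thr a n (Qf a N n m) ≤ en a (blk N m j))).card := by
  rcases thr_min a n (Qf a N n m) with h | h
  · exact Or.inl h
  · right
    refine h.trans ?_
    set t := thr a n (Qf a N n m)
    have h1 : (Qf a N n m).filter (fun S => t ≤ en a (hull S)) ⊆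
        ((Finset.Ico 1 N).filter (fun j => t ≤ en a (blk N m j))).image (fun j => KK a N n ∩ blk N m j) := by
      intro S hS
      rw [Finset.mem_filter, Qf_eq, Finset.mem_image] at hS
      obtain ⟨⟨j, hj, rfl⟩, h2⟩ := hS
      rw [Finset.mem_filter] at hj
      refine Finset.mem_image_of_mem _ (Finset.mem_filter.2 ⟨hj.1, h2.trans ?_⟩)
      exact en_mono a (hull_blk N m j _)
    exact (Finset.card_le_card h1).trans Finset.card_image_le

lemma sum_blk_le (a : ℕ → ℂ) (N m : ℕ) : ∑ j ∈ Finset.Ico 1 N, en a (blk N m j) ≤ cE a N := by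
  have h1 : ∑ j ∈ Finset.Ico 1 N, en a (blk N m j) =
      en a ((Finset.Ico 1 N).biUnion (fun j => blk N m j)) := by
    unfold en
    rw [Finset.sum_biUnion]
    intro i _ j _ hij
    exact blk_disj hij
  rw [h1]
  unfold cE
  apply Finset.sum_le_sum_of_subset_of_nonneg
  · intro k hk
    rw [Finset.mem_biUnion] at hk
    obtain ⟨j, _, hk⟩ := hk
    exact Finset.mem_range.2 (mem_blk.1 hk).1
  · intro _ _ _; exact sq_nonneg _

lemma thr_sum (a : ℕ → ℂ) (N m R : ℕ) :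
    ∑ n ∈ Finset.range (R+1), 2 ^ n * thr a n (Qf a N n m) ≤ 2 * cE a N := by
  have := greedy (Finset.Ico 1 N) (fun j => en a (blk N m j)) (fun _ _ => en_nonneg _ _)
    (fun n => thr a n (Qf a N n m)) (fun n => thr_nonneg _ _ _) (fun n => thr_blk a N m n) R
  linarith [sum_blk_le a N m]

/-! ### counting configurations -/

/-- monotone key -/
def keyf (K : Finset ℕ) (m : ℕ) : ℕ :=
  ((K ×ˢ K).filter (fun p => p.1 / 2 ^ m = p.2 / 2 ^ m)).card + (K.filter (fun k => k < 2 ^ m)).card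

lemma keyf_le (K : Finset ℕ) (m : ℕ) : keyf K m ≤ K.card ^ 2 + K.card := by
  unfold keyf
  have h1 := Finset.card_filter_le (K ×ˢ K) (fun p => p.1 / 2 ^ m = p.2 / 2 ^ m)
  have h2 := Finset.card_filter_le K (fun k => k < 2 ^ m)
  rw [Finset.card_product] at h1
  nlinarith

lemma div_mono_eq {k k' m m' : ℕ} (hm : m ≤ m') (h : k / 2 ^ m = k' / 2 ^ m) :
    k / 2 ^ m' = k' / 2 ^ m' := by
  obtain ⟨d, rfl⟩ := Nat.exists_eq_add_of_le hm
  rw [pow_add, ← Nat.div_div_eq_div_mul, ← Nat.div_div_eq_div_mul, h]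

lemma keyf_eq (K : Finset ℕ) {m m' : ℕ} (hm : m ≤ m') (h : keyf K m = keyf K m') :
    (∀ k ∈ K, ∀ k' ∈ K, (k / 2 ^ m = k' / 2 ^ m ↔ k / 2 ^ m' = k' / 2 ^ m')) ∧
    (∀ k ∈ K, (2 ^ m ≤ k ↔ 2 ^ m' ≤ k)) := by
  have h1 : (K ×ˢ K).filter (fun p => p.1 / 2 ^ m = p.2 / 2 ^ m) ⊆
      (K ×ˢ K).filter (fun p => p.1 / 2 ^ m' = p.2 / 2 ^ m') := by
    intro p hp
    rw [Finset.mem_filter] at hp ⊢
    exact ⟨hp.1, div_mono_eq hm hp.2⟩
  have hpow : 2 ^ m ≤ 2 ^ m' := Nat.pow_le_pow_right (by norm_num) hm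
  have h2 : K.filter (fun k => k < 2 ^ m) ⊆ K.filter (fun k => k < 2 ^ m') := by
    intro p hp
    rw [Finset.mem_filter] at hp ⊢
    exact ⟨hp.1, lt_of_lt_of_le hp.2 hpow⟩
  have c1 := Finset.card_le_card h1
  have c2 := Finset.card_le_card h2
  unfold keyf at h
  have e1 := Finset.eq_of_subset_of_card_le h1 (by omega)
  have e2 := Finset.eq_of_subset_of_card_le h2 (by omega)
  constructor
  · intro k hk k' hk'
    constructor
    · exact div_mono_eq hm
    · intro h3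
      have : (k, k') ∈ (K ×ˢ K).filter (fun p => p.1 / 2 ^ m' = p.2 / 2 ^ m') :=
        Finset.mem_filter.2 ⟨Finset.mem_product.2 ⟨hk, hk'⟩, h3⟩
      rw [← e1] at this
      exact (Finset.mem_filter.1 this).2
  · intro k hk
    constructor
    · intro h3
      by_contra h4
      push Not at h4
      have : k ∈ K.filter (fun k => k < 2 ^ m') := Finset.mem_filter.2 ⟨hk, h4⟩
      rw [← e2] at this
      have := (Finset.mem_filter.1 this).2
      omega
    · intro h3; omega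

lemma exists_rep (K : Finset ℕ) : ∃ Rep : Finset ℕ, Rep.card ≤ K.card ^ 2 + K.card + 1 ∧
    ∀ m, ∃ m' ∈ Rep, (∀ k ∈ K, ∀ k' ∈ K, (k / 2 ^ m = k' / 2 ^ m ↔ k / 2 ^ m' = k' / 2 ^ m')) ∧
      (∀ k ∈ K, (2 ^ m ≤ k ↔ 2 ^ m' ≤ k)) := by
  classical
  refine ⟨(Finset.range (K.card ^ 2 + K.card + 1)).image
    (fun v => if h : ∃ m, keyf K m = v then h.choose else 0), ?_, ?_⟩
  · refine Finset.card_image_le.trans ?_
    rw [Finset.card_range]
  · intro m
    have hex : ∃ m', keyf K m' = keyf K m := ⟨m, rfl⟩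
    refine ⟨hex.choose, ?_, ?_⟩
    · rw [Finset.mem_image]
      refine ⟨keyf K m, Finset.mem_range.2 (by have := keyf_le K m; omega), ?_⟩
      rw [dif_pos hex]
    · have hs := hex.choose_spec
      rcases le_total m hex.choose with h | h
      · exact keyf_eq K h hs.symm
      · have := keyf_eq K h hs
        exact ⟨fun k hk k' hk' => (this.1 k hk k' hk').symm, fun k hk => (this.2 k hk).symm⟩

lemma Qf_congr (a : ℕ → ℂ) (N n : ℕ) {m m' : ℕ}
    (h1 : ∀ k ∈ KK a N n, ∀ k' ∈ KK a N n, (k / 2 ^ m = k' / 2 ^ m ↔ k / 2 ^ m' = k' / 2 ^ m'))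
    (h2 : ∀ k ∈ KK a N n, (2 ^ m ≤ k ↔ 2 ^ m' ≤ k)) : Qf a N n m = Qf a N n m' := by
  unfold Qf
  have e1 : (KK a N n).filter (fun k => 2 ^ m ≤ k) = (KK a N n).filter (fun k => 2 ^ m' ≤ k) :=
    Finset.filter_congr h2
  rw [e1]
  apply Finset.image_congr
  intro k hk
  have hk' := (Finset.mem_filter.1 (Finset.mem_coe.1 hk)).1
  simp only
  exact Finset.filter_congr (fun k' hk'' => h1 k' hk'' k hk')

section
variable {T : Type*} [AddCommGroup T] [MeasurableSpace T] {χ : ℕ → T → ℂ}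

/-- total exponent of level `n` -/
noncomputable def GG (χ : ℕ → T → ℂ) (a X : ℕ → ℂ) (N m n : ℕ) (y z : T) : ℝ :=
  ∑ j ∈ Finset.Ico 1 N, gg χ a X (co a N m (n+1) j) (co a N m n j) y z

lemma gg_empty (a X : ℕ → ℂ) (y z : T) : gg χ a X ∅ ∅ y z = 0 := by
  unfold gg ff; simp

lemma GG_eq (a X : ℕ → ℂ) (N m n : ℕ) (y z : T) : GG χ a X N m n y z =
    ∑ S ∈ Qf a N (n+1) m, gg χ a X (cr a (n+1) (Qf a N (n+1) m) S)
      (cr a n (Qf a N n m) (S ∩ KK a N n)) y z := by
  rw [← sum_trace a N (n+1) m (fun S => gg χ a X (cr a (n+1) (Qf a N (n+1) m) S)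
      (cr a n (Qf a N n m) (S ∩ KK a N n)) y z)]
  · unfold GG co
    refine Finset.sum_congr rfl (fun j _ => ?_)
    congr 2
    ext k
    have := @KK_mono a N n k
    simp only [Finset.mem_inter]
    tauto
  · simp only [Finset.empty_inter, cr_empty, gg_empty]

lemma GG_congr (a X : ℕ → ℂ) (N n : ℕ) {m m' : ℕ}
    (h1 : ∀ k ∈ KK a N (n+1), ∀ k' ∈ KK a N (n+1), (k / 2 ^ m = k' / 2 ^ m ↔ k / 2 ^ m' = k' / 2 ^ m'))
    (h2 : ∀ k ∈ KK a N (n+1), (2 ^ m ≤ k ↔ 2 ^ m' ≤ k)) (y z : T) :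
    GG χ a X N m n y z = GG χ a X N m' n y z := by
  rw [GG_eq, GG_eq, Qf_congr a N (n+1) h1 h2, Qf_congr a N n (fun k hk k' hk' =>
    h1 k (KK_mono a N n hk) k' (KK_mono a N n hk')) (fun k hk => h2 k (KK_mono a N n hk))]

end

/-! ### error terms -/

/-- energy of the change of core -/
noncomputable def WW (a : ℕ → ℂ) (N m n j : ℕ) : ℝ :=
  en a (co a N m (n+1) j \ co a N m n j) + en a (co a N m n j \ co a N m (n+1) j)

lemma WW_nonneg (a : ℕ → ℂ) (N m n j : ℕ) : 0 ≤ WW a N m n j :=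
  add_nonneg (en_nonneg _ _) (en_nonneg _ _)

lemma WW_le_blk (a : ℕ → ℂ) (N m n j : ℕ) : WW a N m n j ≤ en a (blk N m j) := by
  unfold WW
  have hd : Disjoint (co a N m (n+1) j \ co a N m n j) (co a N m n j \ co a N m (n+1) j) := by
    rw [Finset.disjoint_left]
    intro k h1 h2
    rw [Finset.mem_sdiff] at h1 h2
    exact h1.2 h2.1
  have e : en a (co a N m (n+1) j \ co a N m n j) + en a (co a N m n j \ co a N m (n+1) j) =
      en a ((co a N m (n+1) j \ co a N m n j) ∪ (co a N m n j \ co a N m (n+1) j)) := by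
    unfold en; rw [Finset.sum_union hd]
  rw [e]
  apply en_mono
  apply Finset.union_subset
  · exact Finset.sdiff_subset.trans (co_sub _ _ _ _ _)
  · exact Finset.sdiff_subset.trans (co_sub _ _ _ _ _)

/-- activity -/
def Act (a : ℕ → ℂ) (N m n j : ℕ) : Prop :=
  0 < n ∧ thr a n (Qf a N n m) < en a (hull (KK a N n ∩ blk N m j))

lemma WW_le_act (a : ℕ → ℂ) (N m n j : ℕ) (h1 : Act a N m n j) (h2 : Act a N m (n+1) j) :
    WW a N m n j ≤ 2 * (1/8) ^ n := by
  unfold Act at h1 h2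
  have e1 : co a N m n j = hull (KK a N n ∩ blk N m j) := by
    unfold co cr; rw [if_pos h1]
  have e2 : co a N m (n+1) j = hull (KK a N (n+1) ∩ blk N m j) := by
    unfold co cr; rw [if_pos h2]
  unfold WW
  rw [e1, e2]
  have hsub : hull (KK a N n ∩ blk N m j) ⊆ hull (KK a N (n+1) ∩ blk N m j) :=
    hull_mono (Finset.inter_subset_inter (KK_mono a N n) (Finset.Subset.refl _))
  rw [Finset.sdiff_eq_empty_iff_subset.2 hsub, en_empty, add_zero]
  refine le_trans (en_mono a ?_) (en_blk_rest a N n m j)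
  exact Finset.sdiff_subset_sdiff (hull_blk N m j _) (Finset.Subset.refl _)

/-- the energy thresholds -/
noncomputable def tau (a : ℕ → ℂ) (N m n : ℕ) : ℝ :=
  (if n = 0 then 1 else thr a n (Qf a N n m)) + 2 * (1/4) ^ n

lemma blk_le_tau (a : ℕ → ℂ) (N m n j : ℕ) (ha : cE a N ≤ 1) (h : ¬ Act a N m n j) :
    en a (blk N m j) ≤ tau a N m n := by
  unfold tau
  by_cases hn : n = 0
  · rw [if_pos hn, hn]
    have h1 : en a (blk N m j) ≤ cE a N := by
      unfold cE
      apply Finset.sum_le_sum_of_subset_of_nonneg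
      · intro k hk; exact Finset.mem_range.2 (mem_blk.1 hk).1
      · intro _ _ _; exact sq_nonneg _
    norm_num
    linarith
  · rw [if_neg hn]
    have h2 : en a (hull (KK a N n ∩ blk N m j)) ≤ thr a n (Qf a N n m) := by
      by_contra hc
      push Not at hc
      exact h ⟨Nat.pos_of_ne_zero hn, hc⟩
    have h3 := en_blk_rest a N n m j
    have h4 := en_sdiff_add a (hull_blk N m j (KK a N n))
    have h5 : ((1:ℝ)/8) ^ n ≤ (1/4) ^ n := pow_le_pow_left₀ (by norm_num) (by norm_num) n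
    linarith

lemma tau_ge (a : ℕ → ℂ) (N m n : ℕ) : 2 * (1/4) ^ n ≤ tau a N m n := by
  unfold tau
  have : 0 ≤ (if n = 0 then 1 else thr a n (Qf a N n m)) := by
    split_ifs
    · norm_num
    · exact thr_nonneg _ _ _
  linarith

lemma half_sum (m : ℕ) : ∑ n ∈ Finset.range m, ((1:ℝ)/2) ^ n ≤ 2 := by
  have : ∑ n ∈ Finset.range m, ((1:ℝ)/2) ^ n = 2 - 2 * (1/2) ^ m := by
    induction m with
    | zero => simp
    | succ m ih => rw [Finset.sum_range_succ, ih, pow_succ]; ring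
  rw [this]
  have : (0:ℝ) < (1/2) ^ m := by positivity
  linarith

lemma tau_sum (a : ℕ → ℂ) (N m R : ℕ) (ha : cE a N ≤ 1) :
    ∑ n ∈ Finset.range (R+1), 2 ^ n * tau a N m n ≤ 7 := by
  have h1 := thr_sum a N m R
  have h2 : ∀ n ∈ Finset.range (R+1), 2 ^ n * tau a N m n ≤
      (if n = 0 then 1 else 0) + 2 ^ n * thr a n (Qf a N n m) + 2 * (1/2) ^ n := by
    intro n _
    unfold tau
    have e : (2:ℝ) ^ n * (2 * (1/4) ^ n) = 2 * (1/2) ^ n := by
      have : ((1:ℝ)/2) ^ n = 2 ^ n * (1/4) ^ n := by rw [← mul_pow]; norm_num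
      rw [this]; ring
    have h3 := thr_nonneg a n (Qf a N n m)
    have h4 : (0:ℝ) < 2 ^ n := by positivity
    split_ifs with hn
    · rw [mul_add, e, hn]
      have h5 := thr_nonneg a 0 (Qf a N 0 m)
      norm_num
      linarith
    · rw [mul_add, e]; linarith
  have h3 : ∑ n ∈ Finset.range (R+1), ((1:ℝ)/2) ^ n ≤ 2 := by
    exact half_sum (R+1)
  have h4 : ∑ n ∈ Finset.range (R+1), (if n = 0 then (1:ℝ) else 0) = 1 := by
    rw [Finset.sum_ite_eq' (Finset.range (R+1)) 0 (fun _ => (1:ℝ))]; simp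
  calc _ ≤ ∑ n ∈ Finset.range (R+1), ((if n = 0 then (1:ℝ) else 0) + 2 ^ n * thr a n (Qf a N n m) + 2 * (1/2) ^ n) :=
        Finset.sum_le_sum h2
    _ ≤ 7 := by
        rw [Finset.sum_add_distrib, Finset.sum_add_distrib, h4, ← Finset.mul_sum]
        linarith

end H59.RB
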