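import Mathlib

/-! Definitions: power series in `BMOA`, and the entropy condition on a coefficient sequence. -/

namespace H59.RB

open MeasureTheory Filter Topology

/-- The power series `∑ c_k z^k`. -/
noncomputable def powSer (c : ℕ → ℂ) (z : ℂ) : ℂ := ∑' k, c k * z ^ k

/-- `G`, a function of the angle, is the boundary function of `∑ c_k z^k`: radial limits exist and
equal `G` at almost every angle. -/
def IsBoundary (c : ℕ → ℂ) (G : ℝ → ℂ) : Prop :=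
  ∀ᵐ t : ℝ, Tendsto (fun r : ℝ => powSer c (r * Complex.exp (t * Complex.I))) (𝓝[<] 1) (𝓝 (G t))

/-- Bounded mean oscillation over all arcs `{e^{it} : a < t < b}`, `a < b ≤ a + 2π`. -/
def BoundedMeanOsc (G : ℝ → ℂ) : Prop :=
  ∃ C : ℝ, ∀ a b : ℝ, a < b → b ≤ a + 2 * Real.pi → IntervalIntegrable G volume a b ∧
    (∫ t in a..b, ‖G t - (∫ s in a..b, G s) / (b - a)‖) / (b - a) ≤ C

/-- `∑ c_k z^k` belongs to `BMOA`: it is in `H²` and its boundary function has bounded mean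
oscillation. -/
def InBMOA (c : ℕ → ℂ) : Prop :=
  Summable (fun k => ‖c k‖ ^ 2) ∧ ∃ G : ℝ → ℂ, IsBoundary c G ∧ BoundedMeanOsc G

/-- The squared metric `ρ(t)² = ∑_{k ≥ 2^m} w_{⌊k/2^m⌋} |a_k|² |e^{ikt} - 1|²`: the dyadic block
`[j 2^m, (j+1) 2^m)` of frequencies carries the weight `w_j`, `j ≥ 1`. -/
noncomputable def rhoSq (a : ℕ → ℂ) (m : ℕ) (w : ℕ → ℝ) (t : ℝ) : ℝ :=
  ∑' k : ℕ, if 2 ^ m ≤ k then
    w (k / 2 ^ m) * ‖a k‖ ^ 2 * ‖Complex.exp (k * t * Complex.I) - 1‖ ^ 2 else 0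

/-- The `n`-th entropy number: the least `ε ≥ 0` such that `{t ∈ [0, 2π] : ρ(t) ≤ ε}` has
measure at least `2π · 2^{-2^n}`. -/
noncomputable def entNum (a : ℕ → ℂ) (m : ℕ) (w : ℕ → ℝ) (n : ℕ) : ℝ :=
  sInf {ε : ℝ | 0 ≤ ε ∧ 2 * Real.pi * (1 / 2) ^ (2 ^ n) ≤
    volume.real {t : ℝ | t ∈ Set.Icc 0 (2 * Real.pi) ∧ Real.sqrt (rhoSq a m w t) ≤ ε}}

/-- The entropy condition: `∑_n 2^{n/2} ε_n` is bounded uniformly over all scales `m` and all
sub-probability weights `w` on the blocks of scale `m`. -/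
def EntropyBounded (a : ℕ → ℂ) : Prop :=
  ∃ C : ℝ, ∀ (m : ℕ) (w : ℕ → ℝ), (∀ j, 0 ≤ w j) → Summable w → ∑' j, w j ≤ 1 →
    ∀ R : ℕ, ∑ n ∈ Finset.range R, Real.sqrt 2 ^ n * entNum a m w n ≤ C

end H59.RB
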