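import Pool.Agent.H59.BMOA.Def
import Pool.Agent.H59.BMOA.Osc

/-! Deterministic part of sufficiency: block square functions control membership in BMOA. -/

namespace H59.RB

set_option linter.unusedSectionVars false

open Finset BigOperators MeasureTheory Complex Filter Topology

/-- Abel: convergence of the Fourier series gives the radial limit. -/
lemma radial_of_conv (c : ℕ → ℂ) (t : ℝ) (l : ℂ)
    (h : Tendsto (fun n => ep c (Finset.range n) t) atTop (𝓝 l)) :
    Tendsto (fun r : ℝ => powSer c (r * Complex.exp (t * I))) (𝓝[<] 1) (𝓝 l) := by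
  have h1 := Complex.tendsto_tsum_powerSeries_nhdsWithin_lt (f := fun k => c k * Complex.exp ((k:ℂ) * t * I))
    (l := l) h
  rw [tendsto_map'_iff] at h1
  refine h1.congr (fun r => ?_)
  simp only [Function.comp_apply, powSer]
  refine tsum_congr (fun k => ?_)
  rw [mul_pow, ← Complex.exp_nat_mul]
  have : (k:ℂ) * (t * I) = (k:ℂ) * t * I := by ring
  rw [this]; ring

lemma blk_zero_eq (N m : ℕ) (h : 2 ^ m ≤ N) : blk N m 0 = Finset.range (2 ^ m) := by
  ext k
  rw [mem_blk, Finset.mem_range, Nat.div_eq_zero_iff]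
  have : 0 < 2 ^ m := by positivity
  constructor
  · rintro ⟨_, h2 | h2⟩ <;> omega
  · intro h2; exact ⟨by omega, Or.inr h2⟩

theorem bmo_of_blocks (c : ℕ → ℂ) (hc : Summable (fun k => ‖c k‖ ^ 2))
    (hconv : ∀ᵐ t : ℝ, ∃ l, Tendsto (fun n => ep c (Finset.range n) t) atTop (𝓝 l))
    (K : ℝ) (hK : 0 ≤ K)
    (hfreq : ∃ᶠ N in atTop, ∀ q α, ∑ j ∈ Finset.Ico 1 N, ‖ep c (blk N q j) α‖ ^ 2 ≤ K ^ 2) :
    InBMOA c := by
  classical
  refine ⟨hc, ?_⟩
  set G : ℝ → ℂ := fun t => if h : ∃ l, Tendsto (fun n => ep c (Finset.range n) t) atTop (𝓝 l) then h.choose else 0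
    with hG
  have hGlim : ∀ᵐ t : ℝ, Tendsto (fun n => ep c (Finset.range n) t) atTop (𝓝 (G t)) := by
    filter_upwards [hconv] with t ht
    simp only [hG]
    rw [dif_pos ht]
    exact ht.choose_spec
  have hGm : AEStronglyMeasurable G volume :=
    aestronglyMeasurable_of_tendsto_ae atTop
      (fun n => (ep_cont c (Finset.range n)).aestronglyMeasurable) hGlim
  refine ⟨G, ?_, ?_⟩
  · filter_upwards [hGlim] with t ht
    exact radial_of_conv c t (G t) ht
  -- bounded mean oscillation
  refine ⟨2 * (1 + 5000 * K ^ 2), ?_⟩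
  intro a b hab hb
  set ℓ := b - a with hℓ
  have hℓ0 : 0 < ℓ := by linarith
  obtain ⟨m, hm⟩ := osc_est a ℓ hℓ0 (by linarith)
  set κ := ep c (Finset.range (2 ^ m)) a with hκ
  -- Fatou
  have hfat : ∫⁻ t in Set.Ioc a b, ENNReal.ofReal (‖G t - κ‖ ^ 2) ≤ ENNReal.ofReal (5000 * K ^ 2 * ℓ) := by
    have h1 : ∀ᵐ t ∂(volume.restrict (Set.Ioc a b)), ENNReal.ofReal (‖G t - κ‖ ^ 2) =
        liminf (fun n => ENNReal.ofReal (‖ep c (Finset.range n) t - κ‖ ^ 2)) atTop := by
      filter_upwards [ae_restrict_of_ae hGlim] with t ht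
      have h2 : Tendsto (fun n => ENNReal.ofReal (‖ep c (Finset.range n) t - κ‖ ^ 2)) atTop
          (𝓝 (ENNReal.ofReal (‖G t - κ‖ ^ 2))) :=
        (ENNReal.continuous_ofReal.tendsto _).comp ((ht.sub_const κ).norm.pow 2)
      exact h2.liminf_eq.symm
    rw [lintegral_congr_ae h1]
    refine (lintegral_liminf_le (fun n => ?_)).trans ?_
    · exact ((((ep_cont c _).sub continuous_const).norm.pow 2).measurable).ennreal_ofReal
    · apply liminf_le_of_frequently_le'
      refine (hfreq.and_eventually (eventually_ge_atTop (2 ^ m))).mono ?_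
      rintro N ⟨hN, hNm⟩
      have h3 := hm c N K hK hN
      rw [blk_zero_eq N m hNm] at h3
      have h4 : ∫⁻ t in Set.Ioc a b, ENNReal.ofReal (‖ep c (Finset.range N) t - κ‖ ^ 2) =
          ENNReal.ofReal (∫ s in (0:ℝ)..ℓ, ‖ep c (Finset.range N) (a + s) - κ‖ ^ 2) := by
        have hcont : Continuous (fun t => ‖ep c (Finset.range N) t - κ‖ ^ 2) :=
          ((ep_cont c _).sub continuous_const).norm.pow 2
        have h5 : ∫ s in (0:ℝ)..ℓ, ‖ep c (Finset.range N) (a + s) - κ‖ ^ 2 =
            ∫ t in a..b, ‖ep c (Finset.range N) t - κ‖ ^ 2 := by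
          rw [intervalIntegral.integral_comp_add_left (fun t => ‖ep c (Finset.range N) t - κ‖ ^ 2) a]
          congr 1 <;> simp [hℓ]
        rw [h5, intervalIntegral.integral_of_le hab.le, ofReal_integral_eq_lintegral_ofReal]
        · exact (hcont.intervalIntegrable a b).1
        · exact Eventually.of_forall (fun t => by positivity)
      rw [h4]
      exact ENNReal.ofReal_le_ofReal h3
  -- integrability
  have hm1 : AEStronglyMeasurable (fun t => ‖G t - κ‖ ^ 2) (volume.restrict (Set.Ioc a b)) :=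
    ((hGm.restrict.sub aestronglyMeasurable_const).norm.pow 2)
  have hi2 : Integrable (fun t => ‖G t - κ‖ ^ 2) (volume.restrict (Set.Ioc a b)) := by
    refine ⟨hm1, ?_⟩
    rw [hasFiniteIntegral_iff_norm]
    have : ∀ t, ‖‖G t - κ‖ ^ 2‖ = ‖G t - κ‖ ^ 2 := fun t => by
      rw [Real.norm_eq_abs, abs_of_nonneg (sq_nonneg _)]
    simp only [this]
    exact lt_of_le_of_lt hfat ENNReal.ofReal_lt_top
  have hi2v : ∫ t in Set.Ioc a b, ‖G t - κ‖ ^ 2 ≤ 5000 * K ^ 2 * ℓ := by
    rw [integral_eq_lintegral_of_nonneg_ae (Eventually.of_forall (fun t => by positivity)) hm1]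
    exact ENNReal.toReal_le_of_le_ofReal (by positivity) hfat
  have hc1 : Integrable (fun _ : ℝ => (1:ℝ)) (volume.restrict (Set.Ioc a b)) := by
    apply integrable_const_iff.2
    right
    simp only [isFiniteMeasure_restrict]
    exact measure_Ioc_lt_top.ne
  have hi1 : Integrable (fun t => ‖G t - κ‖) (volume.restrict (Set.Ioc a b)) := by
    refine Integrable.mono' (hc1.add hi2) (hGm.restrict.sub aestronglyMeasurable_const).norm
      (Eventually.of_forall (fun t => ?_))
    simp only [Pi.add_apply, norm_norm]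
    nlinarith [sq_nonneg (‖G t - κ‖ - 1), norm_nonneg (G t - κ)]
  have hig : Integrable (fun t => G t - κ) (volume.restrict (Set.Ioc a b)) :=
    (integrable_norm_iff (hGm.restrict.sub aestronglyMeasurable_const)).1 hi1
  have hck : Integrable (fun _ : ℝ => κ) (volume.restrict (Set.Ioc a b)) := by
    apply integrable_const_iff.2
    right
    simp only [isFiniteMeasure_restrict]
    exact measure_Ioc_lt_top.ne
  have hiG : Integrable G (volume.restrict (Set.Ioc a b)) := by
    have := hig.add hck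
    refine this.congr (Eventually.of_forall (fun t => ?_))
    simp
  have hGint : IntervalIntegrable G volume a b := by
    rw [intervalIntegrable_iff_integrableOn_Ioc_of_le hab.le]
    exact hiG
  refine ⟨hGint, ?_⟩
  have hmean1 : ∫ t in a..b, ‖G t - κ‖ ≤ (1 + 5000 * K ^ 2) * ℓ := by
    rw [intervalIntegral.integral_of_le hab.le]
    calc ∫ t in Set.Ioc a b, ‖G t - κ‖ ≤ ∫ t in Set.Ioc a b, (1 + ‖G t - κ‖ ^ 2) := by
          apply integral_mono hi1 (hc1.add hi2)
          intro t
          simp only [Pi.add_apply]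
          nlinarith [sq_nonneg (‖G t - κ‖ - 1), norm_nonneg (G t - κ)]
      _ = ℓ + ∫ t in Set.Ioc a b, ‖G t - κ‖ ^ 2 := by
          rw [integral_add hc1 hi2]
          congr 1
          simp [hℓ, hab.le]
      _ ≤ _ := by linarith
  -- the mean
  set M := (∫ s in a..b, G s) / ((b:ℂ) - a) with hM
  have hba : ((b:ℂ) - a) = ((ℓ : ℝ) : ℂ) := by rw [hℓ]; push_cast; ring
  have hℓc : ((ℓ : ℝ) : ℂ) ≠ 0 := by exact_mod_cast hℓ0.ne'
  have hMκ : ‖κ - M‖ * ℓ ≤ (1 + 5000 * K ^ 2) * ℓ := by
    have h5 : κ - M = -((∫ t in a..b, (G t - κ)) / ((ℓ : ℝ) : ℂ)) := by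
      rw [intervalIntegral.integral_sub hGint (intervalIntegrable_const), intervalIntegral.integral_const,
        hM, hba]
      have : (b - a) • κ = ((ℓ : ℝ) : ℂ) * κ := by rw [← hℓ]; exact Complex.real_smul
      rw [this]
      field_simp
      ring
    rw [h5, norm_neg, norm_div, Complex.norm_real, Real.norm_eq_abs, abs_of_pos hℓ0, div_mul_cancel₀ _ hℓ0.ne']
    exact (intervalIntegral.norm_integral_le_integral_norm hab.le).trans hmean1
  have hfinal : ∫ t in a..b, ‖G t - M‖ ≤ 2 * (1 + 5000 * K ^ 2) * ℓ := by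
    calc ∫ t in a..b, ‖G t - M‖ ≤ ∫ t in a..b, (‖G t - κ‖ + ‖κ - M‖) := by
          apply intervalIntegral.integral_mono_on hab.le
          · exact (hGint.sub intervalIntegrable_const).norm
          · exact (hGint.sub intervalIntegrable_const).norm.add intervalIntegrable_const
          · intro t _
            have : G t - M = (G t - κ) + (κ - M) := by ring
            rw [this]; exact norm_add_le _ _
      _ = (∫ t in a..b, ‖G t - κ‖) + ℓ * ‖κ - M‖ := by
          rw [intervalIntegral.integral_add (hGint.sub intervalIntegrable_const).norm intervalIntegrable_const,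
            intervalIntegral.integral_const, smul_eq_mul]
      _ ≤ _ := by linarith
  have hre : (∫ t in a..b, ‖G t - (∫ s in a..b, G s) / ((b:ℂ) - a)‖) / (b - a) ≤ 2 * (1 + 5000 * K ^ 2) := by
    rw [div_le_iff₀ hℓ0]
    exact hfinal
  exact hre

end H59.RB
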