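import Pool.Agent.H59.BMOA.Lind

/-! Lower bound for the expected maximum of `N` independent normalised sign sums. -/

namespace H59.RB

set_option linter.unusedSectionVars false

open Finset BigOperators

/-- probability that a sign sum is at least `t` -/
noncomputable def gd (Λ : Type*) [Fintype Λ] [DecidableEq Λ] (t : ℝ) : ℝ :=
  𝔼 τ : Λ → ℤˣ, if t ≤ ∑ l, sg (τ l) then (1:ℝ) else 0

lemma gd_nonneg (Λ : Type*) [Fintype Λ] [DecidableEq Λ] (t : ℝ) : 0 ≤ gd Λ t := by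
  apply Finset.expect_nonneg
  intro τ _
  split_ifs <;> norm_num

lemma gd_le_one (Λ : Type*) [Fintype Λ] [DecidableEq Λ] (t : ℝ) : gd Λ t ≤ 1 := by
  have : gd Λ t ≤ 𝔼 τ : Λ → ℤˣ, (1:ℝ) := by
    apply Finset.expect_le_expect
    intro τ _
    split_ifs <;> norm_num
  simpa using this

lemma gd_anti (Λ : Type*) [Fintype Λ] [DecidableEq Λ] {s t : ℝ} (h : s ≤ t) : gd Λ t ≤ gd Λ s := by
  apply Finset.expect_le_expect
  intro τ _
  split_ifs with h1 h2
  · exact le_rfl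
  · exact absurd (h.trans h1) h2
  · norm_num
  · exact le_rfl

lemma gd_congr {Λ Λ' : Type*} [Fintype Λ] [DecidableEq Λ] [Fintype Λ'] [DecidableEq Λ']
    (e : Λ ≃ Λ') (t : ℝ) : gd Λ t = gd Λ' t := by
  unfold gd
  refine Fintype.expect_equiv (Equiv.arrowCongr e (Equiv.refl _)) _ _ ?_
  intro τ
  have : ∑ l, sg ((Equiv.arrowCongr e (Equiv.refl ℤˣ)) τ l) = ∑ l, sg (τ l) := by
    rw [← Equiv.sum_comp e]
    simp
  rw [this]

lemma gd_prod {q : ℕ} (Λ : Type*) [Fintype Λ] [DecidableEq Λ] (t : ℝ) :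
    gd Λ t ^ q ≤ gd (Fin q × Λ) (q * t) := by
  have h1 : gd Λ t ^ q = 𝔼 τ : Fin q → Λ → ℤˣ, ∏ b, (if t ≤ ∑ l, sg (τ b l) then (1:ℝ) else 0) := by
    rw [expect_pi_prod (fun (_ : Fin q) (τ : Λ → ℤˣ) => if t ≤ ∑ l, sg (τ l) then (1:ℝ) else 0)]
    simp [gd]
  rw [h1]
  unfold gd
  have h2 : 𝔼 τ : Fin q × Λ → ℤˣ, (if q * t ≤ ∑ l, sg (τ l) then (1:ℝ) else 0) =
      𝔼 τ : Fin q → Λ → ℤˣ, if q * t ≤ ∑ b, ∑ l, sg (τ b l) then (1:ℝ) else 0 := by
    refine Fintype.expect_equiv (Equiv.curry _ _ _) _ _ ?_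
    intro τ
    rw [Fintype.sum_prod_type]
    rfl
  rw [h2]
  apply Finset.expect_le_expect
  intro τ _
  by_cases h : ∀ b, t ≤ ∑ l, sg (τ b l)
  · have h3 : (q:ℝ) * t ≤ ∑ b, ∑ l, sg (τ b l) := by
      calc (q:ℝ) * t = ∑ b : Fin q, t := by simp
        _ ≤ _ := Finset.sum_le_sum (fun b _ => h b)
    rw [if_pos h3]
    exact Finset.prod_le_one (fun b _ => by split_ifs <;> norm_num) (fun b _ => by split_ifs <;> norm_num)
  · push Not at h
    obtain ⟨b, hb⟩ := h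
    rw [Finset.prod_eq_zero (Finset.mem_univ b) (if_neg (not_le.2 hb))]
    split_ifs <;> norm_num

lemma gd_sum (Λ Λ' : Type*) [Fintype Λ] [DecidableEq Λ] [Fintype Λ'] [DecidableEq Λ'] (s t : ℝ) :
    gd Λ s * gd Λ' t ≤ gd (Λ ⊕ Λ') (s + t) := by
  unfold gd
  rw [Fintype.expect_mul_expect]
  have h2 : 𝔼 τ : Λ ⊕ Λ' → ℤˣ, (if s + t ≤ ∑ l, sg (τ l) then (1:ℝ) else 0) =
      𝔼 p : (Λ → ℤˣ) × (Λ' → ℤˣ), (if s + t ≤ ∑ l, sg (p.1 l) + ∑ l, sg (p.2 l) then (1:ℝ) else 0) := by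
    refine Fintype.expect_equiv (Equiv.sumArrowEquivProdArrow _ _ _) _ _ ?_
    intro τ
    rw [Fintype.sum_sum_type]
    rfl
  rw [h2, ← Finset.univ_product_univ, Finset.expect_product]
  apply Finset.expect_le_expect
  intro a _
  apply Finset.expect_le_expect
  intro b _
  simp only []
  by_cases h1 : s ≤ ∑ l, sg (a l)
  · by_cases h3 : t ≤ ∑ l, sg (b l)
    · rw [if_pos h1, if_pos h3, if_pos (add_le_add h1 h3)]; norm_num
    · rw [if_neg h3]; split_ifs <;> norm_num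
  · rw [if_neg h1]; split_ifs <;> norm_num

lemma gd_symm (Λ : Type*) [Fintype Λ] [DecidableEq Λ] (t : ℝ) :
    gd Λ t = 𝔼 τ : Λ → ℤˣ, if ∑ l, sg (τ l) ≤ -t then (1:ℝ) else 0 := by
  unfold gd
  rw [← expect_flip (fun _ => -1) (fun τ : Λ → ℤˣ => if t ≤ ∑ l, sg (τ l) then (1:ℝ) else 0)]
  refine Finset.expect_congr rfl (fun τ _ => ?_)
  have : ∑ l, sg (((fun _ => -1) * τ : Λ → ℤˣ) l) = - ∑ l, sg (τ l) := by
    rw [← Finset.sum_neg_distrib]
    refine Finset.sum_congr rfl (fun l _ => ?_)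
    rw [Pi.mul_apply, sg_mul, sg_neg_one]; ring
  rw [this]
  congr 1
  rw [eq_iff_iff]
  constructor <;> intro h <;> linarith

lemma gd_zero (Λ : Type*) [Fintype Λ] [DecidableEq Λ] : 1/2 ≤ gd Λ 0 := by
  have h1 := gd_symm Λ 0
  have h2 : (1:ℝ) ≤ gd Λ 0 + gd Λ 0 := by
    nth_rewrite 2 [h1]
    unfold gd
    rw [← Finset.expect_add_distrib]
    have : 𝔼 τ : Λ → ℤˣ, (1:ℝ) ≤ 𝔼 τ : Λ → ℤˣ, ((if 0 ≤ ∑ l, sg (τ l) then (1:ℝ) else 0) +
        if ∑ l, sg (τ l) ≤ -0 then (1:ℝ) else 0) := by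
      apply Finset.expect_le_expect
      intro τ _
      rcases le_total 0 (∑ l, sg (τ l)) with h | h
      · rw [if_pos h]; split_ifs <;> norm_num
      · rw [if_pos (by simpa using h : ∑ l, sg (τ l) ≤ -0)]; split_ifs <;> norm_num
    simpa using this
  linarith

/-- Paley-Zygmund for sign sums. -/
lemma gd_pz (Λ : Type*) [Fintype Λ] [DecidableEq Λ] :
    0.007 ≤ gd Λ (Real.sqrt (Fintype.card Λ) / 2) := by
  rcases Nat.eq_zero_or_pos (Fintype.card Λ) with h0 | hpos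
  · rw [h0]
    have := gd_zero Λ
    simp only [Nat.cast_zero, Real.sqrt_zero, zero_div]
    linarith
  obtain ⟨M, hM⟩ : ∃ M : ℝ, M = (Fintype.card Λ : ℝ) := ⟨_, rfl⟩
  rw [← hM]
  have hMpos : 0 < M := by rw [hM]; exact_mod_cast hpos
  set c : Λ → ℝ := fun _ => (Real.sqrt M)⁻¹ with hc
  have hcs : ∑ l, c l ^ 2 = 1 := by
    simp only [hc, inv_pow, Real.sq_sqrt hMpos.le, Finset.sum_const, Finset.card_univ, nsmul_eq_mul]
    rw [← hM]; exact mul_inv_cancel₀ hMpos.ne'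
  have h2 := expect_sum_sq c
  have h4 := expect_fourth c hcs.le
  rw [hcs] at h2
  set Z : (Λ → ℤˣ) → ℝ := fun τ => (∑ l, c l * sg (τ l)) ^ 2 with hZ
  -- E[Z 1_{Z ≥ 1/4}] ≥ 3/4
  set A : (Λ → ℤˣ) → ℝ := fun τ => if 1/4 ≤ Z τ then (1:ℝ) else 0 with hA
  have hA2 : ∀ τ, A τ * A τ = A τ := by intro τ; simp only [hA]; split_ifs <;> norm_num
  have h5 : 3/4 ≤ 𝔼 τ, Z τ * A τ := by
    have h6 : 𝔼 τ, Z τ ≤ 𝔼 τ, (Z τ * A τ + 1/4) := by
      apply Finset.expect_le_expect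
      intro τ _
      simp only [hA]
      split_ifs with h
      · linarith
      · push Not at h; linarith
    rw [Finset.expect_add_distrib, Fintype.expect_const] at h6
    have h7 : 𝔼 τ, Z τ = 1 := h2
    linarith
  -- Cauchy-Schwarz: for all t : t^2 * E Z^2 - ... ; use  Z A ≤ (λ Z² + A/λ)/2
  have h8 : 𝔼 τ, Z τ * A τ ≤ 𝔼 τ, ((3/320) * Z τ ^ 2 + (80/3) * A τ) := by
    apply Finset.expect_le_expect
    intro τ _
    have := hA2 τ
    nlinarith [sq_nonneg (Z τ * (3/160) - A τ)]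
  rw [Finset.expect_add_distrib, ← Finset.mul_expect, ← Finset.mul_expect] at h8
  have h9 : 𝔼 τ, Z τ ^ 2 ≤ 40 := by
    have : ∀ τ, Z τ ^ 2 = (∑ l, c l * sg (τ l)) ^ 4 := fun τ => by simp only [hZ]; ring
    simp only [this]; exact h4
  have h10 : 0.014 ≤ 𝔼 τ, A τ := by
    have : 3/4 ≤ (3/320) * 40 + (80/3) * 𝔼 τ, A τ := by linarith
    linarith
  -- A ≤ indicator(≥) + indicator(≤)
  have h11 : 𝔼 τ, A τ ≤ gd Λ (Real.sqrt M / 2) + gd Λ (Real.sqrt M / 2) := by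
    nth_rewrite 2 [gd_symm]
    unfold gd
    rw [← Finset.expect_add_distrib]
    apply Finset.expect_le_expect
    intro τ _
    simp only [hA]
    have hsq : 0 < Real.sqrt M := Real.sqrt_pos.2 hMpos
    have e1 : ∑ l, c l * sg (τ l) = (∑ l, sg (τ l)) / Real.sqrt M := by
      simp only [hc, ← Finset.mul_sum]; rw [inv_mul_eq_div]
    by_cases hcase : 1/4 ≤ Z τ
    · rw [if_pos hcase]
      simp only [hZ, e1] at hcase
      have h12 : (1/2)^2 ≤ ((∑ l, sg (τ l)) / Real.sqrt M)^2 := by norm_num; linarith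
      rcases le_total 0 (∑ l, sg (τ l)) with h | h
      · have h13 : 1/2 ≤ (∑ l, sg (τ l)) / Real.sqrt M :=
          (abs_le_of_sq_le_sq' h12 (by positivity)).2
        rw [le_div_iff₀ hsq] at h13
        rw [if_pos (by linarith : Real.sqrt M / 2 ≤ ∑ l, sg (τ l))]
        split_ifs <;> norm_num
      · have h13 : 1/2 ≤ (-∑ l, sg (τ l)) / Real.sqrt M := by
          have h14 : (1/2)^2 ≤ ((-∑ l, sg (τ l)) / Real.sqrt M)^2 := by
            rw [neg_div, neg_sq]; exact h12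
          exact (abs_le_of_sq_le_sq' h14 (div_nonneg (by linarith) hsq.le)).2
        rw [le_div_iff₀ hsq] at h13
        rw [if_pos (by linarith : ∑ l, sg (τ l) ≤ -(Real.sqrt M / 2))]
        split_ifs <;> norm_num
    · rw [if_neg hcase]
      split_ifs <;> norm_num
  linarith

/-- lower tail bound with `q` blocks -/
lemma gd_tail (q L : ℕ) (hq : 1 ≤ q) (hL : 2 * q ≤ L) :
    (0.0035 : ℝ) ^ q ≤ gd (Fin L) (Real.sqrt L * (Real.sqrt q / 3)) := by
  set M := L / q with hM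
  set r := L % q with hr
  have hdiv : q * M + r = L := Nat.div_add_mod L q
  have hM2 : 2 ≤ M := (Nat.le_div_iff_mul_le (by omega)).2 (by omega)
  have hrq : r < q := Nat.mod_lt _ (by omega)
  have e : Fin L ≃ (Fin q × Fin M) ⊕ Fin r := by
    refine (finCongr hdiv.symm).trans ?_
    refine finSumFinEquiv.symm.trans ?_
    exact Equiv.sumCongr finProdFinEquiv.symm (Equiv.refl _)
  rw [gd_congr e]
  have h1 : gd (Fin q × Fin M) (q * (Real.sqrt M / 2)) * gd (Fin r) 0 ≤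
      gd ((Fin q × Fin M) ⊕ Fin r) (q * (Real.sqrt M / 2) + 0) := gd_sum _ _ _ _
  have h2 := gd_pz (Fin M)
  rw [Fintype.card_fin] at h2
  have h3 : (0.007:ℝ) ^ q ≤ gd (Fin q × Fin M) (q * (Real.sqrt M / 2)) :=
    (pow_le_pow_left₀ (by norm_num) h2 q).trans (gd_prod (Fin M) _)
  have h4 := gd_zero (Fin r)
  have h5 : (0.0035:ℝ) ^ q ≤ (0.007) ^ q * (1/2) := by
    have : (0.0035:ℝ) = 0.007 * (1/2) := by norm_num
    rw [this, mul_pow]
    apply mul_le_mul_of_nonneg_left _ (by positivity)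
    calc ((1:ℝ)/2) ^ q ≤ (1/2) ^ 1 := pow_le_pow_of_le_one (by norm_num) (by norm_num) hq
      _ = 1/2 := pow_one _
  have h6 : (0.0035:ℝ) ^ q ≤ gd ((Fin q × Fin M) ⊕ Fin r) (q * (Real.sqrt M / 2) + 0) := by
    refine le_trans (h5.trans ?_) h1
    exact mul_le_mul h3 h4 (by norm_num) (gd_nonneg _ _)
  refine h6.trans (gd_anti _ ?_)
  rw [add_zero]
  -- √L * √q / 3 ≤ q √M / 2
  have hqr : (1:ℝ) ≤ q := by exact_mod_cast hq
  have hMr : (2:ℝ) ≤ M := by exact_mod_cast hM2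
  have hLr : (L:ℝ) ≤ q * (M + 1) := by
    have : L ≤ q * (M + 1) := by rw [← hdiv]; nlinarith
    exact_mod_cast this
  have h7 : Real.sqrt L * Real.sqrt q ≤ (3/2) * (q * Real.sqrt M) := by
    rw [← Real.sqrt_mul (by positivity)]
    apply Real.sqrt_le_iff.2
    constructor
    · positivity
    · have : ((3/2) * (q * Real.sqrt M))^2 = (9/4) * q^2 * M := by
        rw [mul_pow, mul_pow, Real.sq_sqrt (by positivity)]; ring
      rw [this]
      calc (L:ℝ) * q ≤ q * (M + 1) * q := by gcongr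
        _ ≤ (9/4) * q^2 * M := by nlinarith [sq_nonneg (q:ℝ)]
  linarith

/-- The array for `N` independent sums. -/
def dl (N : ℕ) : Fin N → Fin N → ℝ := fun i j => if i = j then 1 else 0

/-- Expected maximum of `N+1` independent normalised sums. -/
lemma emax_indep (N : ℕ) : ∃ L₀ : ℕ, ∀ L ≥ L₀,
    (1/24) * Real.sqrt (Real.log (N+1 : ℕ)) - 1 ≤ emax (dl (N+1)) L := by
  -- choose q
  set ℓ : ℝ := Real.log (N+1 : ℕ) with hℓ
  have hℓ0 : 0 ≤ ℓ := Real.log_nonneg (by push_cast; linarith [(Nat.cast_nonneg N : (0:ℝ) ≤ N)])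
  set q : ℕ := ⌊ℓ / 6⌋₊ with hq
  -- pointwise lower bound through first moment
  have hX : ∀ L : ℕ, ∀ j : Fin (N+1), ∀ ω : Fin L → Fin (N+1) → ℤˣ,
      (Real.sqrt L)⁻¹ * ∑ l, proc (dl (N+1)) (ω l) j = (Real.sqrt L)⁻¹ * ∑ l, sg (ω l j) := by
    intro L j ω
    congr 1
    refine Finset.sum_congr rfl (fun l _ => ?_)
    simp [proc, dl]
  -- swap
  have hswap : ∀ L, emax (dl (N+1)) L = 𝔼 τ : Fin (N+1) → Fin L → ℤˣ,
      Finset.univ.sup' Finset.univ_nonempty (fun j => (Real.sqrt L)⁻¹ * ∑ l, sg (τ j l)) := by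
    intro L
    unfold emax
    refine Fintype.expect_equiv (Equiv.piComm _) _ _ ?_
    intro ω
    simp only [hX]
    rfl
  by_cases hq0 : q = 0
  · -- trivial case
    refine ⟨0, fun L _ => ?_⟩
    rw [hswap]
    have h1 : ℓ < 6 := by
      by_contra h
      push Not at h
      have : 1 ≤ q := Nat.le_floor (by rw [Nat.cast_one]; linarith)
      omega
    have h2 : Real.sqrt ℓ ≤ 3 := by
      rw [Real.sqrt_le_left (by norm_num)]; linarith
    have h3 : (0:ℝ) ≤ 𝔼 τ : Fin (N+1) → Fin L → ℤˣ,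
        Finset.univ.sup' Finset.univ_nonempty (fun j => (Real.sqrt L)⁻¹ * ∑ l, sg (τ j l)) := by
      have h4 : 𝔼 τ : Fin (N+1) → Fin L → ℤˣ, (Real.sqrt L)⁻¹ * ∑ l, sg (τ 0 l) ≤
          𝔼 τ : Fin (N+1) → Fin L → ℤˣ,
          Finset.univ.sup' Finset.univ_nonempty (fun j => (Real.sqrt L)⁻¹ * ∑ l, sg (τ j l)) :=
        Finset.expect_le_expect (fun τ _ =>
          Finset.le_sup' (fun j => (Real.sqrt L)⁻¹ * ∑ l, sg (τ j l)) (Finset.mem_univ 0))
      have h5 : 𝔼 τ : Fin (N+1) → Fin L → ℤˣ, (Real.sqrt L)⁻¹ * ∑ l, sg (τ 0 l) = 0 := by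
        rw [expect_marginal (0 : Fin (N+1)) (fun τ : Fin L → ℤˣ => (Real.sqrt L)⁻¹ * ∑ l, sg (τ l)),
          ← Finset.mul_expect, Finset.expect_sum_comm]
        simp only [expect_sg]
        simp
      linarith
    linarith
  · have hq1 : 1 ≤ q := Nat.one_le_iff_ne_zero.2 hq0
    refine ⟨2 * q, fun L hL => ?_⟩
    rw [hswap]
    have hLpos : (0:ℝ) < L := by
      have : 0 < L := by omega
      exact_mod_cast this
    have hsq : 0 < Real.sqrt L := Real.sqrt_pos.2 hLpos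
    set u : ℝ := Real.sqrt q / 3 with hu
    have hu0 : 0 ≤ u := by positivity
    set p : ℝ := gd (Fin L) (Real.sqrt L * u) with hp
    have hptail : (0.0035:ℝ) ^ q ≤ p := gd_tail q L hq1 hL
    -- indicator
    set I : (Fin L → ℤˣ) → ℝ := fun τ => 1 - (if Real.sqrt L * u ≤ ∑ l, sg (τ l) then (1:ℝ) else 0) with hI
    have hEI : 𝔼 τ, I τ = 1 - p := by
      simp only [hI, Finset.expect_sub_distrib, Fintype.expect_const]
      rfl
    have hpt : ∀ τ : Fin (N+1) → Fin L → ℤˣ,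
        u * (1 - ∏ j, I (τ j)) - (1 + ((Real.sqrt L)⁻¹ * ∑ l, sg (τ 0 l)) ^ 2) / 2 ≤
        Finset.univ.sup' Finset.univ_nonempty (fun j => (Real.sqrt L)⁻¹ * ∑ l, sg (τ j l)) := by
      intro τ
      by_cases h : ∃ j, Real.sqrt L * u ≤ ∑ l, sg (τ j l)
      · obtain ⟨j, hj⟩ := h
        have h1 : ∏ j, I (τ j) = 0 := Finset.prod_eq_zero (Finset.mem_univ j) (by
          simp only [hI]; rw [if_pos hj]; norm_num)
        have h2 : u ≤ (Real.sqrt L)⁻¹ * ∑ l, sg (τ j l) := by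
          rw [inv_mul_eq_div, le_div_iff₀ hsq]; linarith
        have h3 := Finset.le_sup' (fun j => (Real.sqrt L)⁻¹ * ∑ l, sg (τ j l)) (Finset.mem_univ j)
        rw [h1]
        have h4 : 0 ≤ (1 + ((Real.sqrt L)⁻¹ * ∑ l, sg (τ 0 l)) ^ 2) / 2 := by positivity
        linarith
      · push Not at h
        have h1 : ∏ j, I (τ j) = 1 := by
          apply Finset.prod_eq_one
          intro j _
          simp only [hI]; rw [if_neg (not_le.2 (h j))]; norm_num
        have h3 := Finset.le_sup' (fun j => (Real.sqrt L)⁻¹ * ∑ l, sg (τ j l)) (Finset.mem_univ 0)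
        rw [h1]
        nlinarith [sq_nonneg ((Real.sqrt L)⁻¹ * ∑ l, sg (τ 0 l) + 1)]
    have hE := Finset.expect_le_expect (s := (Finset.univ : Finset (Fin (N+1) → Fin L → ℤˣ)))
      (fun τ _ => hpt τ)
    rw [Finset.expect_sub_distrib, ← Finset.mul_expect, Finset.expect_sub_distrib,
      Fintype.expect_const, expect_pi_prod (fun (_ : Fin (N+1)) τ => I τ)] at hE
    simp only [hEI, Finset.prod_const, Finset.card_univ, Fintype.card_fin] at hE
    rw [expect_marginal (0 : Fin (N+1)) (fun τ : Fin L → ℤˣ =>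
      (1 + ((Real.sqrt L)⁻¹ * ∑ l, sg (τ l)) ^ 2) / 2)] at hE
    have h6 : 𝔼 τ : Fin L → ℤˣ, (1 + ((Real.sqrt L)⁻¹ * ∑ l, sg (τ l)) ^ 2) / 2 = 1 := by
      have h7 : ∀ τ : Fin L → ℤˣ, (1 + ((Real.sqrt L)⁻¹ * ∑ l, sg (τ l)) ^ 2) / 2 =
          1/2 + (1/2) * (∑ l, (Real.sqrt L)⁻¹ * sg (τ l)) ^ 2 := by
        intro τ
        rw [← Finset.mul_sum]; ring
      simp only [h7]
      rw [Finset.expect_add_distrib, Fintype.expect_const, ← Finset.mul_expect,
        expect_sum_sq (fun _ : Fin L => (Real.sqrt L)⁻¹)]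
      simp only [inv_pow, Real.sq_sqrt hLpos.le, Finset.sum_const, Finset.card_univ,
        Fintype.card_fin, nsmul_eq_mul]
      rw [mul_inv_cancel₀ hLpos.ne']; norm_num
    rw [h6] at hE
    -- (1-p)^(N+1) ≤ 1/2
    have hp1 : p ≤ 1 := gd_le_one _ _
    have h8 : (1 - p) ^ (N+1) ≤ 1/2 := by
      have h9 : 1 - p ≤ Real.exp (-p) := by
        have := Real.add_one_le_exp (-p); linarith
      have h10 : (1 - p) ^ (N+1) ≤ Real.exp (-p) ^ (N+1) :=
        pow_le_pow_left₀ (by linarith) h9 _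
      rw [← Real.exp_nat_mul] at h10
      have h11 : 1 ≤ (N+1 : ℕ) * p := by
        have h12 : (q:ℝ) ≤ ℓ / 6 := Nat.floor_le (by positivity)
        have h13 : Real.exp (-ℓ) ≤ (0.0035:ℝ) ^ q := by
          have h14 : Real.exp (-6) ≤ 0.0035 := by
            have h15 : Real.exp (-6) = (Real.exp 1 ^ 6)⁻¹ := by
              rw [← Real.exp_nat_mul, ← Real.exp_neg]; norm_num
            rw [h15]
            have h16 := Real.exp_one_gt_d9
            have h17 : (2.7182818283:ℝ) ^ 6 ≤ Real.exp 1 ^ 6 :=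
              pow_le_pow_left₀ (by norm_num) h16.le 6
            have h18 : (1/0.0035 : ℝ) ≤ Real.exp 1 ^ 6 := by
              refine le_trans ?_ h17; norm_num
            rw [inv_le_comm₀ (by positivity) (by norm_num)]
            refine le_trans ?_ h18; norm_num
          calc Real.exp (-ℓ) ≤ Real.exp ((q:ℕ) * (-6)) := Real.exp_le_exp.2 (by linarith)
            _ = Real.exp (-6) ^ q := Real.exp_nat_mul _ _
            _ ≤ (0.0035:ℝ) ^ q := pow_le_pow_left₀ (Real.exp_pos _).le h14 q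
        have h19 : Real.exp (-ℓ) = ((N+1:ℕ):ℝ)⁻¹ := by
          rw [Real.exp_neg, hℓ, Real.exp_log (by positivity)]
        rw [h19] at h13
        have h20 : ((N+1:ℕ):ℝ)⁻¹ ≤ p := h13.trans hptail
        have h21 : (0:ℝ) < (N+1:ℕ) := by positivity
        calc (1:ℝ) = (N+1:ℕ) * ((N+1:ℕ):ℝ)⁻¹ := (mul_inv_cancel₀ h21.ne').symm
          _ ≤ (N+1:ℕ) * p := mul_le_mul_of_nonneg_left h20 h21.le
      have h22 : Real.exp ((N+1:ℕ) * (-p)) ≤ Real.exp (-1) := Real.exp_le_exp.2 (by linarith)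
      have h23 : Real.exp (-1) ≤ 1/2 := by
        have h16 := Real.exp_one_gt_d9
        rw [Real.exp_neg, inv_le_comm₀ (Real.exp_pos _) (by norm_num)]
        norm_num; linarith
      linarith
    have h24 : u / 2 - 1 ≤ u * (1 - (1 - p) ^ (N+1)) - 1 := by nlinarith
    refine le_trans ?_ (h24.trans hE)
    -- √ℓ/24 ≤ √q/6
    have h25 : ℓ ≤ 12 * q := by
      have : ℓ / 6 < q + 1 := Nat.lt_floor_add_one _
      have : (1:ℝ) ≤ q := by exact_mod_cast hq1
      linarith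
    have h26 : Real.sqrt ℓ ≤ 4 * Real.sqrt q := by
      have : Real.sqrt ℓ ≤ Real.sqrt ((4:ℝ)^2 * q) := Real.sqrt_le_sqrt (by linarith [Nat.cast_nonneg (α := ℝ) q])
      refine this.trans (le_of_eq ?_)
      rw [Real.sqrt_mul (by norm_num), Real.sqrt_sq (by norm_num)]
    rw [hu]
    linarith

end H59.RB
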