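import Pool.Agent.H59.BMOA.Step

/-! Entropy lower bound. -/

namespace H59.RB

set_option linter.unusedSectionVars false

open Finset BigOperators MeasureTheory

section
variable {T S : Type} [AddCommGroup T] [Fintype S] [DecidableEq S]

/-- the metric -/
noncomputable def dd (c : T → S → ℝ) (x y : T) : ℝ := Real.sqrt (dsq c x y)

lemma dd_eq_dist (c : T → S → ℝ) (x y : T) :
    dd c x y = dist (WithLp.toLp 2 (c x)) (WithLp.toLp 2 (c y)) := by
  rw [EuclideanSpace.dist_eq]
  unfold dd dsq
  congr 1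
  refine Finset.sum_congr rfl (fun s _ => ?_)
  simp [Real.dist_eq, sq_abs]

lemma dd_triangle (c : T → S → ℝ) (x y z : T) : dd c x z ≤ dd c x y + dd c y z := by
  simp only [dd_eq_dist]; exact dist_triangle _ _ _

lemma dd_comm (c : T → S → ℝ) (x y : T) : dd c x y = dd c y x := by
  simp only [dd_eq_dist]; exact dist_comm _ _

lemma dd_nonneg (c : T → S → ℝ) (x y : T) : 0 ≤ dd c x y := Real.sqrt_nonneg _

lemma dd_inv (c : T → S → ℝ) (hinv : ∀ x y z, dsq c (z + x) (z + y) = dsq c x y) (x y z : T) :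
    dd c (z + x) (z + y) = dd c x y := by unfold dd; rw [hinv]

variable [MeasurableSpace T] (μ : Measure T) [IsProbabilityMeasure μ]

/-- volume of the ball of radius `r` -/
noncomputable def VV (c : T → S → ℝ) (r : ℝ) : ℝ := μ.real {x | dd c x 0 ≤ r}

lemma VV_nonneg (c : T → S → ℝ) (r : ℝ) : 0 ≤ VV μ c r := measureReal_nonneg

lemma VV_le_one (c : T → S → ℝ) (r : ℝ) : VV μ c r ≤ 1 := measureReal_le_one

lemma VV_mono (c : T → S → ℝ) {r s : ℝ} (h : r ≤ s) : VV μ c r ≤ VV μ c s :=
  measureReal_mono (fun _ hx => le_trans (by exact hx) h)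

variable [MeasurableAdd T] [μ.IsAddLeftInvariant]

lemma VV_translate (c : T → S → ℝ) (hinv : ∀ x y z, dsq c (z + x) (z + y) = dsq c x y)
    (r : ℝ) (t : T) : μ.real {x | dd c x t ≤ r} = VV μ c r := by
  unfold VV
  have h1 : {x | dd c x 0 ≤ r} = (fun x => t + x) ⁻¹' {x | dd c x t ≤ r} := by
    ext x
    simp only [Set.mem_ofPred_eq, Set.mem_preimage]
    have := dd_inv c hinv x 0 t
    rw [add_zero] at this
    rw [this]
  rw [h1, measureReal_def, measureReal_def, measure_preimage_add]

/-- existence of separated points -/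
lemma exists_sep (c : T → S → ℝ) (hinv : ∀ x y z, dsq c (z + x) (z + y) = dsq c x y)
    (R ρ : ℝ) (hρ : 0 ≤ ρ) (N : ℕ) (hN : N * VV μ c ρ < VV μ c R) :
    ∃ t : Fin (N+1) → T, (∀ j, dd c (t j) 0 ≤ R) ∧ ∀ j j', j ≠ j' → ρ < dd c (t j) (t j') := by
  have key : ∀ n ≤ N + 1, ∃ s : Finset T, s.card = n ∧ (∀ x ∈ s, dd c x 0 ≤ R) ∧
      ∀ x ∈ s, ∀ y ∈ s, x ≠ y → ρ < dd c x y := by
    classical
    intro n
    induction n with
    | zero => intro _; exact ⟨∅, by simp⟩
    | succ n ih =>
      intro hn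
      obtain ⟨s, hs1, hs2, hs3⟩ := ih (by omega)
      have h1 : ∃ x, dd c x 0 ≤ R ∧ ∀ y ∈ s, ρ < dd c x y := by
        by_contra hcon
        push Not at hcon
        have h2 : {x | dd c x 0 ≤ R} ⊆ ⋃ y ∈ s, {x | dd c x y ≤ ρ} := by
          intro x hx
          obtain ⟨y, hy, hy2⟩ := hcon x hx
          simp only [Set.mem_iUnion]
          exact ⟨y, hy, hy2⟩
        have h3 : VV μ c R ≤ ∑ y ∈ s, μ.real {x | dd c x y ≤ ρ} :=
          (measureReal_mono h2 (measure_ne_top _ _)).trans (measureReal_biUnion_finset_le s _)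
        simp only [VV_translate μ c hinv, Finset.sum_const, nsmul_eq_mul, hs1] at h3
        have h4 : (n:ℝ) * VV μ c ρ ≤ N * VV μ c ρ := by
          apply mul_le_mul_of_nonneg_right _ (VV_nonneg μ c ρ)
          have : n ≤ N := by omega
          exact_mod_cast this
        linarith
      obtain ⟨x, hx1, hx2⟩ := h1
      by_cases hmem : x ∈ s
      · exfalso
        have h5 := hx2 x hmem
        have h6 : dd c x x = 0 := by rw [dd_eq_dist, dist_self]
        rw [h6] at h5
        linarith
      · refine ⟨insert x s, ?_, ?_, ?_⟩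
        · rw [Finset.card_insert_of_notMem hmem, hs1]
        · intro y hy
          rcases Finset.mem_insert.1 hy with h | h
          · rw [h]; exact hx1
          · exact hs2 y h
        · intro y hy z hz hyz
          rcases Finset.mem_insert.1 hy with h | h
          · rcases Finset.mem_insert.1 hz with h' | h'
            · exact absurd (h.trans h'.symm) hyz
            · rw [h]; exact hx2 z h'
          · rcases Finset.mem_insert.1 hz with h' | h'
            · rw [h', dd_comm]; exact hx2 y h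
            · exact hs3 y h z h' hyz
  obtain ⟨s, hs1, hs2, hs3⟩ := key (N+1) le_rfl
  refine ⟨fun j => (s.equivFinOfCardEq hs1).symm j, fun j => hs2 _ (Subtype.coe_prop _), ?_⟩
  intro j j' hjj
  apply hs3 _ (Subtype.coe_prop _) _ (Subtype.coe_prop _)
  intro h
  exact hjj ((s.equivFinOfCardEq hs1).symm.injective (Subtype.ext h))

/-- the radii -/
noncomputable def rad (D : ℝ) (q : ℕ) : ℝ := D / 8 ^ q

lemma rad_pos {D : ℝ} (hD : 0 < D) (q : ℕ) : 0 < rad D q := by unfold rad; positivity

lemma rad_succ (D : ℝ) (q : ℕ) : rad D (q+1) = rad D q / 8 := by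
  unfold rad; rw [pow_succ]; field_simp

/-- gain at level `q` -/
noncomputable def gain (c : T → S → ℝ) (D : ℝ) (q : ℕ) : ℝ :=
  (rad D q / 32) * ((1/24) * Real.sqrt (Real.log (VV μ c (rad D q) / VV μ c (rad D (q+1)))) - 1)

lemma exists_family (c : T → S → ℝ) (hinv : ∀ x y z, dsq c (z + x) (z + y) = dsq c x y)
    (D : ℝ) (hD : 0 < D) (hV : ∀ r > 0, 0 < VV μ c r) (n : ℕ) : ∀ q : ℕ,
    ∃ (ι : Type) (_ : Fintype ι) (_ : Nonempty ι) (_ : DecidableEq ι) (x : ι → T),
      (∀ u, dd c (x u) 0 ≤ 2 * rad D q) ∧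
      LBd c x (∑ i ∈ Finset.range n, gain μ c D (q + 2 * i)) := by
  induction n with
  | zero =>
    intro q
    refine ⟨Unit, inferInstance, inferInstance, inferInstance, fun _ => 0, ?_, ?_⟩
    · intro u
      rw [dd_eq_dist, dist_self]
      have := rad_pos hD q
      positivity
    · simpa using LBd_unit c
  | succ n ih =>
    intro q
    obtain ⟨ι, i1, i2, i3, x, hx1, hx2⟩ := ih (q+2)
    have hrq := rad_pos hD q
    have hr1 := rad_pos hD (q+1)
    have hV1 := hV _ hr1
    have hVq := hV _ hrq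
    set y : ℝ := VV μ c (rad D q) / VV μ c (rad D (q+1)) with hy
    have hypos : 0 < y := div_pos hVq hV1
    -- number of points
    obtain ⟨N, hN1, hN2⟩ : ∃ N : ℕ, y ≤ (N+1 : ℕ) ∧ (N:ℝ) < y := by
      refine ⟨⌈y⌉₊ - 1, ?_, ?_⟩
      · have h1 : 1 ≤ ⌈y⌉₊ := Nat.one_le_ceil_iff.2 hypos
        rw [Nat.sub_add_cancel h1]
        exact Nat.le_ceil y
      · have h1 : 1 ≤ ⌈y⌉₊ := Nat.one_le_ceil_iff.2 hypos
        have h2 : (⌈y⌉₊ : ℝ) < y + 1 := Nat.ceil_lt_add_one hypos.le
        rw [Nat.cast_sub h1]; push_cast; linarith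
    have hN3 : N * VV μ c (rad D (q+1)) < VV μ c (rad D q) := by
      rwa [hy, lt_div_iff₀ hV1] at hN2
    obtain ⟨t, ht1, ht2⟩ := exists_sep μ c hinv (rad D q) (rad D (q+1)) hr1.le N hN3
    have e2 : rad D (q+2) = rad D q / 64 := by
      rw [show q + 2 = (q+1)+1 from rfl, rad_succ, rad_succ]; ring
    set r : ℝ := 2 * rad D (q+2) with hr
    have hr0 : 0 < r := by rw [hr]; linarith [rad_pos hD (q+2)]
    have hstep := LBd_step c hinv x _ hx2 r hr0.le (by
      intro u
      have := hx1 u
      unfold dd at this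
      exact (Real.sqrt_le_left hr0.le).1 this) N t (by
      intro j j' hjj u u'
      have h1 := ht2 j j' hjj
      -- dd (t j) (t j') ≤ dd (t j) (t j + x u) + dd (..) (..) + dd
      have h2 : dd c (t j) (t j + x u) ≤ r := by
        have := dd_inv c hinv 0 (x u) (t j)
        rw [add_zero] at this
        rw [this, dd_comm]; exact hx1 u
      have h3 : dd c (t j' + x u') (t j') ≤ r := by
        have := dd_inv c hinv (x u') 0 (t j')
        rw [add_zero] at this
        rw [this]; exact hx1 u'
      have h4 := dd_triangle c (t j) (t j + x u) (t j')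
      have h5 := dd_triangle c (t j + x u) (t j' + x u') (t j')
      have h6 : 2 * r ≤ dd c (t j + x u) (t j' + x u') := by
        have : rad D (q+1) = rad D q / 8 := rad_succ D q
        rw [hr, e2] at *
        linarith
      have h7 : (2 * r)^2 ≤ (dd c (t j + x u) (t j' + x u'))^2 :=
        pow_le_pow_left₀ (by positivity) h6 2
      unfold dd at h7
      rw [Real.sq_sqrt (dsq_nonneg _ _ _)] at h7
      linarith)
    refine ⟨Fin (N+1) × ι, inferInstance, inferInstance, inferInstance,
      fun p => t p.1 + x p.2, ?_, ?_⟩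
    · rintro ⟨j, u⟩
      have h1 := dd_triangle c (t j + x u) (t j) 0
      have h3 : dd c (t j + x u) (t j) ≤ r := by
        have := dd_inv c hinv (x u) 0 (t j)
        rw [add_zero] at this
        rw [this]; exact hx1 u
      have h4 := ht1 j
      simp only []
      rw [hr, e2] at h3
      linarith
    · intro ε hε
      obtain ⟨L₀, hL₀⟩ := hstep ε hε
      refine ⟨L₀, fun L hL => le_trans ?_ (hL₀ L hL)⟩
      have h1 : ∑ i ∈ Finset.range (n+1), gain μ c D (q + 2 * i) =
          ∑ i ∈ Finset.range n, gain μ c D (q + 2 + 2 * i) + gain μ c D q := by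
        rw [Finset.sum_range_succ']
        congr 1
        refine Finset.sum_congr rfl (fun i _ => ?_)
        congr 1; ring
      have h2 : gain μ c D q ≤ r * ((1/24) * Real.sqrt (Real.log (N+1 : ℕ)) - 1) := by
        unfold gain
        have : rad D q / 32 = r := by rw [hr, e2]; ring
        rw [this]
        apply mul_le_mul_of_nonneg_left _ hr0.le
        have h3 : Real.log y ≤ Real.log (N+1:ℕ) := Real.log_le_log hypos hN1
        have := Real.sqrt_le_sqrt h3
        linarith
      linarith

end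

end H59.RB
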