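import Pool.Agent.H59.BMOA.Scal

/-! Energy grids, hulls, cores and thresholds. -/

namespace H59.RB

set_option linter.unusedSectionVars false

open Finset BigOperators MeasureTheory

/-! ### energy grid -/

/-- cumulative energy -/
noncomputable def cE (a : ℕ → ℂ) (k : ℕ) : ℝ := ∑ i ∈ Finset.range k, ‖a i‖ ^ 2

lemma cE_succ (a : ℕ → ℂ) (k : ℕ) : cE a (k+1) = cE a k + ‖a k‖ ^ 2 := Finset.sum_range_succ _ _

lemma cE_nonneg (a : ℕ → ℂ) (k : ℕ) : 0 ≤ cE a k := Finset.sum_nonneg (fun _ _ => sq_nonneg _)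

lemma cE_mono (a : ℕ → ℂ) : Monotone (cE a) := by
  apply monotone_nat_of_le_succ
  intro k; rw [cE_succ]; have := sq_nonneg ‖a k‖; linarith

lemma en_Ico (a : ℕ → ℂ) {p q : ℕ} (h : p ≤ q) : en a (Finset.Ico p q) = cE a q - cE a p := by
  unfold en cE
  rw [Finset.sum_Ico_eq_sub _ h]

/-- grid of level `n` -/
noncomputable def KK (a : ℕ → ℂ) (N n : ℕ) : Finset ℕ :=
  (Finset.range N).filter (fun k => ⌊(8:ℝ) ^ n * cE a k⌋₊ < ⌊(8:ℝ) ^ n * cE a (k+1)⌋₊)

lemma KK_card (a : ℕ → ℂ) (N n : ℕ) : (KK a N n).card ≤ ⌊(8:ℝ) ^ n * cE a N⌋₊ := by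
  induction N with
  | zero => simp [KK]
  | succ N ih =>
    have h1 : KK a (N+1) n = if ⌊(8:ℝ) ^ n * cE a N⌋₊ < ⌊(8:ℝ) ^ n * cE a (N+1)⌋₊
        then insert N (KK a N n) else KK a N n := by
      unfold KK
      rw [Finset.range_add_one, Finset.filter_insert]
    have hmono : ⌊(8:ℝ) ^ n * cE a N⌋₊ ≤ ⌊(8:ℝ) ^ n * cE a (N+1)⌋₊ :=
      Nat.floor_mono (mul_le_mul_of_nonneg_left (cE_mono a (Nat.le_succ N)) (by positivity))
    rw [h1]
    split_ifs with h
    · have := Finset.card_insert_le N (KK a N n)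
      omega
    · omega

lemma KK_sub_range (a : ℕ → ℂ) (N n : ℕ) : KK a N n ⊆ Finset.range N := Finset.filter_subset _ _

lemma KK_mono (a : ℕ → ℂ) (N n : ℕ) : KK a N n ⊆ KK a N (n+1) := by
  intro k hk
  unfold KK at hk ⊢
  rw [Finset.mem_filter] at hk ⊢
  refine ⟨hk.1, ?_⟩
  obtain ⟨_, hk⟩ := hk
  have h0 : 0 ≤ (8:ℝ) ^ (n+1) * cE a (k+1) := mul_nonneg (by positivity) (cE_nonneg _ _)
  have h0' : 0 ≤ (8:ℝ) ^ n * cE a (k+1) := mul_nonneg (by positivity) (cE_nonneg _ _)
  set q := ⌊(8:ℝ) ^ n * cE a (k+1)⌋₊ with hq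
  have h1 : (q:ℝ) ≤ (8:ℝ) ^ n * cE a (k+1) := Nat.floor_le h0'
  have h2 : (8:ℝ) ^ n * cE a k < q := by
    exact (Nat.floor_lt (mul_nonneg (by positivity) (cE_nonneg _ _))).1 hk
  have h3 : 8 * q ≤ ⌊(8:ℝ) ^ (n+1) * cE a (k+1)⌋₊ := by
    apply Nat.le_floor
    push_cast
    rw [pow_succ]; nlinarith
  have h4 : ⌊(8:ℝ) ^ (n+1) * cE a k⌋₊ < 8 * q := by
    rw [Nat.floor_lt (mul_nonneg (by positivity) (cE_nonneg _ _))]
    push_cast
    rw [pow_succ]; nlinarith
  omega

lemma no_jump (a : ℕ → ℂ) (N n : ℕ) {p q : ℕ} (hpq : p ≤ q) (hq : q ≤ N)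
    (h : ∀ k ∈ Finset.Ico p q, k ∉ KK a N n) : cE a q - cE a p ≤ (1/8) ^ n := by
  have h1 : ⌊(8:ℝ) ^ n * cE a q⌋₊ = ⌊(8:ℝ) ^ n * cE a p⌋₊ := by
    induction q, hpq using Nat.le_induction with
    | base => rfl
    | succ q hpq ih =>
      have h2 := ih (by omega) (fun k hk => h k (by rw [Finset.mem_Ico] at hk ⊢; omega))
      have h3 := h q (by rw [Finset.mem_Ico]; omega)
      unfold KK at h3
      rw [Finset.mem_filter, not_and] at h3
      have h4 := h3 (by rw [Finset.mem_range]; omega)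
      have hmono : ⌊(8:ℝ) ^ n * cE a q⌋₊ ≤ ⌊(8:ℝ) ^ n * cE a (q+1)⌋₊ :=
        Nat.floor_mono (mul_le_mul_of_nonneg_left (cE_mono a (Nat.le_succ q)) (by positivity))
      omega
  have h2 : (8:ℝ) ^ n * cE a q < ⌊(8:ℝ) ^ n * cE a q⌋₊ + 1 := Nat.lt_floor_add_one _
  have h3 : (⌊(8:ℝ) ^ n * cE a p⌋₊ : ℝ) ≤ (8:ℝ) ^ n * cE a p :=
    Nat.floor_le (mul_nonneg (by positivity) (cE_nonneg _ _))
  rw [h1] at h2
  have h4 : (8:ℝ) ^ n * (cE a q - cE a p) < 1 := by linarith
  rw [one_div, inv_pow, ← one_div, le_div_iff₀ (by positivity)]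
  linarith

/-- interval hull -/
noncomputable def hull (S : Finset ℕ) : Finset ℕ :=
  if h : S.Nonempty then Finset.Icc (S.min' h) (S.max' h) else ∅

lemma hull_empty : hull ∅ = ∅ := by unfold hull; simp

lemma subset_hull (S : Finset ℕ) : S ⊆ hull S := by
  intro k hk
  unfold hull
  rw [dif_pos ⟨k, hk⟩, Finset.mem_Icc]
  exact ⟨S.min'_le k hk, S.le_max' k hk⟩

lemma hull_mono {S S' : Finset ℕ} (h : S ⊆ S') : hull S ⊆ hull S' := by
  unfold hull
  split_ifs with h1 h2
  · apply Finset.Icc_subset_Icc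
    · exact Finset.min'_subset h1 h
    · exact Finset.max'_subset h1 h
  · exact absurd (h1.mono h) h2
  · exact Finset.empty_subset _
  · exact Finset.empty_subset _

lemma hull_Ico {S : Finset ℕ} {p q : ℕ} (h : S ⊆ Finset.Ico p q) : hull S ⊆ Finset.Ico p q := by
  unfold hull
  split_ifs with h1
  · intro k hk
    have h2 := Finset.mem_Ico.1 (h (S.min'_mem h1))
    have h3 := Finset.mem_Ico.1 (h (S.max'_mem h1))
    rw [Finset.mem_Icc] at hk
    rw [Finset.mem_Ico]; omega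
  · exact Finset.empty_subset _

lemma en_empty (a : ℕ → ℂ) : en a (∅ : Finset ℕ) = 0 := by unfold en; simp

lemma en_union_le (a : ℕ → ℂ) (A C : Finset ℕ) : en a (A ∪ C) ≤ en a A + en a C := by
  unfold en
  rw [← Finset.sum_union_inter]
  have : 0 ≤ ∑ i ∈ A ∩ C, ‖a i‖ ^ 2 := Finset.sum_nonneg (fun _ _ => sq_nonneg _)
  linarith

lemma en_rest (a : ℕ → ℂ) (N n : ℕ) {p q : ℕ} (hpq : p ≤ q) (hq : q ≤ N) :
    en a (Finset.Ico p q \ hull (KK a N n ∩ Finset.Ico p q)) ≤ 2 * (1/8) ^ n := by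
  by_cases hS : (KK a N n ∩ Finset.Ico p q).Nonempty
  · have h1 : hull (KK a N n ∩ Finset.Ico p q) =
        Finset.Icc ((KK a N n ∩ Finset.Ico p q).min' hS) ((KK a N n ∩ Finset.Ico p q).max' hS) := by
      unfold hull; rw [dif_pos hS]
    set k1 := (KK a N n ∩ Finset.Ico p q).min' hS with hk1
    set k2 := (KK a N n ∩ Finset.Ico p q).max' hS with hk2
    have m1 := (KK a N n ∩ Finset.Ico p q).min'_mem hS
    have m2 := (KK a N n ∩ Finset.Ico p q).max'_mem hS
    rw [← hk1] at m1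
    rw [← hk2] at m2
    rw [Finset.mem_inter, Finset.mem_Ico] at m1 m2
    have hsub : Finset.Ico p q \ hull (KK a N n ∩ Finset.Ico p q) ⊆
        Finset.Ico p k1 ∪ Finset.Ico (k2+1) q := by
      intro k hk
      rw [h1, Finset.mem_sdiff, Finset.mem_Ico, Finset.mem_Icc] at hk
      rw [Finset.mem_union, Finset.mem_Ico, Finset.mem_Ico]
      omega
    have e1 : en a (Finset.Ico p k1) ≤ (1/8) ^ n := by
      rw [en_Ico a m1.2.1]
      apply no_jump a N n m1.2.1 (by omega)
      intro k hk hk'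
      rw [Finset.mem_Ico] at hk
      have := (KK a N n ∩ Finset.Ico p q).min'_le k (by
        rw [Finset.mem_inter, Finset.mem_Ico]; exact ⟨hk', by omega⟩)
      rw [← hk1] at this
      omega
    have e2 : en a (Finset.Ico (k2+1) q) ≤ (1/8) ^ n := by
      rw [en_Ico a (by omega)]
      apply no_jump a N n (by omega) hq
      intro k hk hk'
      rw [Finset.mem_Ico] at hk
      have := (KK a N n ∩ Finset.Ico p q).le_max' k (by
        rw [Finset.mem_inter, Finset.mem_Ico]; exact ⟨hk', by omega⟩)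
      rw [← hk2] at this
      omega
    calc _ ≤ en a (Finset.Ico p k1 ∪ Finset.Ico (k2+1) q) := en_mono a hsub
      _ ≤ _ := (en_union_le _ _ _).trans (by linarith)
  · rw [Finset.not_nonempty_iff_eq_empty] at hS
    rw [hS, hull_empty, Finset.sdiff_empty, en_Ico a hpq]
    have : cE a q - cE a p ≤ (1/8) ^ n := by
      apply no_jump a N n hpq hq
      intro k hk hk'
      have : k ∈ KK a N n ∩ Finset.Ico p q := Finset.mem_inter.2 ⟨hk', hk⟩
      rw [hS] at this
      simp at this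
    have h8 : (0:ℝ) < (1/8) ^ n := by positivity
    linarith

/-! ### blocks -/

/-- block `j` of scale `m` -/
def blk (N m j : ℕ) : Finset ℕ := (Finset.range N).filter (fun k => k / 2 ^ m = j)

lemma mem_blk {N m j k : ℕ} : k ∈ blk N m j ↔ k < N ∧ k / 2 ^ m = j := by
  unfold blk; rw [Finset.mem_filter, Finset.mem_range]

lemma blk_eq (N m j : ℕ) : blk N m j = Finset.Ico (min N (j * 2 ^ m)) (min N ((j+1) * 2 ^ m)) := by
  ext k
  rw [mem_blk, Finset.mem_Ico]
  have hp : 0 < 2 ^ m := by positivity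
  rw [Nat.div_eq_iff hp]
  have e : (j + 1) * 2 ^ m = j * 2 ^ m + 2 ^ m := by ring
  rw [e]
  constructor
  · rintro ⟨h1, h2, h3⟩
    have : j * 2 ^ m + 2 ^ m - 1 < j * 2 ^ m + 2 ^ m := by omega
    constructor
    · exact min_le_iff.2 (Or.inr h2)
    · exact lt_min h1 (by omega)
  · rintro ⟨h1, h2⟩
    rw [lt_min_iff] at h2
    rw [min_le_iff] at h1
    refine ⟨h2.1, ?_, by omega⟩
    rcases h1 with h | h
    · omega
    · exact h

lemma blk_disj {N m i j : ℕ} (h : i ≠ j) : Disjoint (blk N m i) (blk N m j) := by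
  rw [Finset.disjoint_left]
  intro k h1 h2
  rw [mem_blk] at h1 h2
  exact h (h1.2.symm.trans h2.2)

lemma hull_blk (N m j : ℕ) (S : Finset ℕ) : hull (S ∩ blk N m j) ⊆ blk N m j := by
  rw [blk_eq]
  exact hull_Ico Finset.inter_subset_right

lemma en_blk_rest (a : ℕ → ℂ) (N n m j : ℕ) :
    en a (blk N m j \ hull (KK a N n ∩ blk N m j)) ≤ 2 * (1/8) ^ n := by
  rw [blk_eq]
  apply en_rest
  · apply min_le_min le_rfl
    apply Nat.mul_le_mul_right; omega
  · exact min_le_left _ _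

lemma en_sdiff_add (a : ℕ → ℂ) {A B : Finset ℕ} (h : A ⊆ B) : en a (B \ A) + en a A = en a B :=
  Finset.sum_sdiff h

/-! ### thresholds -/

lemma exists_thr {σ : Type*} (Q : Finset σ) (E : σ → ℝ) (hE : ∀ S ∈ Q, 0 ≤ E S) (K : ℕ) :
    ∃ t : ℝ, 0 ≤ t ∧ (Q.filter (fun S => t < E S)).card ≤ K ∧
      (t = 0 ∨ K ≤ (Q.filter (fun S => t ≤ E S)).card) := by
  classical
  set C : Finset ℝ := insert 0 (Q.image E) with hC
  have hC0 : ∀ t ∈ C, 0 ≤ t := by
    intro t ht
    rw [hC, Finset.mem_insert, Finset.mem_image] at ht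
    rcases ht with h | ⟨S, hS, h⟩
    · rw [h]
    · rw [← h]; exact hE S hS
  set F : Finset ℝ := C.filter (fun t => (Q.filter (fun S => t < E S)).card ≤ K) with hF
  have hCne : C.Nonempty := ⟨0, by rw [hC]; exact Finset.mem_insert_self _ _⟩
  have hFne : F.Nonempty := by
    refine ⟨C.max' hCne, ?_⟩
    rw [hF, Finset.mem_filter]
    refine ⟨C.max'_mem _, ?_⟩
    rw [Finset.filter_eq_empty_iff.2]
    · simp
    · intro S hS
      rw [not_lt]
      exact C.le_max' _ (by rw [hC]; exact Finset.mem_insert_of_mem (Finset.mem_image_of_mem _ hS))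
  refine ⟨F.min' hFne, ?_, ?_, ?_⟩
  · exact hC0 _ (Finset.mem_of_mem_filter _ (F.min'_mem hFne))
  · exact (Finset.mem_filter.1 (F.min'_mem hFne)).2
  · by_cases h0 : F.min' hFne = 0
    · exact Or.inl h0
    · right
      set t := F.min' hFne with ht
      have ht0 : 0 < t := lt_of_le_of_ne (hC0 _ (Finset.mem_of_mem_filter _ (F.min'_mem hFne))) (Ne.symm h0)
      set C' := C.filter (fun s => s < t) with hC'
      have hC'ne : C'.Nonempty := ⟨0, by
        rw [hC', Finset.mem_filter]; exact ⟨by rw [hC]; exact Finset.mem_insert_self _ _, ht0⟩⟩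
      set t' := C'.max' hC'ne with ht'
      have h1 := C'.max'_mem hC'ne
      rw [← ht', hC', Finset.mem_filter] at h1
      have h2 : t' ∉ F := by
        intro h
        have := F.min'_le _ h
        rw [← ht] at this
        linarith [h1.2]
      rw [hF, Finset.mem_filter, not_and, not_le] at h2
      have h3 := h2 h1.1
      refine h3.le.trans (Finset.card_le_card ?_)
      intro S hS
      rw [Finset.mem_filter] at hS ⊢
      refine ⟨hS.1, ?_⟩
      by_contra h4
      push Not at h4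
      have : E S ∈ C' := by
        rw [hC', Finset.mem_filter]
        exact ⟨by rw [hC]; exact Finset.mem_insert_of_mem (Finset.mem_image_of_mem _ hS.1), h4⟩
      have := C'.le_max' _ this
      rw [← ht'] at this
      linarith [hS.2]

lemma greedy {ι : Type*} [DecidableEq ι] (J : Finset ι) (e : ι → ℝ) (he : ∀ j ∈ J, 0 ≤ e j) (t : ℕ → ℝ)
    (ht : ∀ n, 0 ≤ t n) (h : ∀ n, t n = 0 ∨ 2 ^ n ≤ (J.filter (fun j => t n ≤ e j)).card) (R : ℕ) :
    ∑ n ∈ Finset.range (R+1), 2 ^ n * t n ≤ 2 * ∑ j ∈ J, e j := by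
  have key : ∃ U ⊆ J, U.card ≤ 2 ^ R ∧ ∑ n ∈ Finset.range (R+1), 2 ^ n * t n ≤ 2 * ∑ j ∈ U, e j := by
    induction R with
    | zero =>
      rcases h 0 with h0 | h0
      · exact ⟨∅, Finset.empty_subset _, by simp, by simp [h0]⟩
      · have h1 : (J.filter (fun j => t 0 ≤ e j)).Nonempty := by
          rw [← Finset.card_pos]; simp at h0 ⊢; omega
        obtain ⟨j, hj⟩ := h1
        rw [Finset.mem_filter] at hj
        refine ⟨{j}, by simpa using hj.1, by simp, ?_⟩
        simp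
        have := ht 0
        linarith [hj.2]
    | succ R ih =>
      obtain ⟨U, hU, hUc, hUs⟩ := ih
      rcases h (R+1) with h0 | h0
      · refine ⟨U, hU, hUc.trans (Nat.pow_le_pow_right (by norm_num) (by omega)), ?_⟩
        rw [Finset.sum_range_succ, h0]; linarith
      · set G := J.filter (fun j => t (R+1) ≤ e j) with hG
        have h1 : 2 ^ R ≤ (G \ U).card := by
          have := Finset.le_card_sdiff U G
          rw [pow_succ] at h0
          omega
        obtain ⟨H, hH, hHc⟩ := Finset.exists_subset_card_eq h1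
        have hd : Disjoint U H := by
          rw [Finset.disjoint_right]
          intro x hx
          exact (Finset.mem_sdiff.1 (hH hx)).2
        have hHJ : H ⊆ J := fun x hx => (Finset.mem_filter.1 (Finset.mem_sdiff.1 (hH hx)).1).1
        refine ⟨U ∪ H, Finset.union_subset hU hHJ, ?_, ?_⟩
        · rw [Finset.card_union_of_disjoint hd, hHc, pow_succ]; omega
        · rw [Finset.sum_range_succ, Finset.sum_union hd]
          have h2 : (2:ℝ) ^ R * t (R+1) ≤ ∑ j ∈ H, e j := by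
            calc (2:ℝ) ^ R * t (R+1) = ∑ j ∈ H, t (R+1) := by
                  rw [Finset.sum_const, hHc, nsmul_eq_mul]; push_cast; ring
              _ ≤ _ := Finset.sum_le_sum (fun j hj =>
                (Finset.mem_filter.1 (Finset.mem_sdiff.1 (hH hj)).1).2)
          rw [pow_succ]; linarith
  obtain ⟨U, hU, -, hs⟩ := key
  refine hs.trans ?_
  have := Finset.sum_le_sum_of_subset_of_nonneg hU (fun j hj _ => he j hj)
  linarith

end H59.RB
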