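import Mathlib

/-! John-Nirenberg: from mean oscillation to mean square oscillation, Lipschitz functions. -/

namespace H59.RB

set_option linter.unusedSectionVars false

open MeasureTheory Complex

/-- mean over `[a, a+h]` -/
noncomputable def Mn (p : ℝ → ℂ) (a h : ℝ) : ℂ := ∫ s in (0:ℝ)..1, p (a + h * s)
/-- mean of `|p - c|` -/
noncomputable def A1 (p : ℝ → ℂ) (a h : ℝ) (c : ℂ) : ℝ := ∫ s in (0:ℝ)..1, ‖p (a + h * s) - c‖
/-- mean of `|p - c|²` -/
noncomputable def A2 (p : ℝ → ℂ) (a h : ℝ) (c : ℂ) : ℝ := ∫ s in (0:ℝ)..1, ‖p (a + h * s) - c‖ ^ 2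
/-- mean oscillation -/
noncomputable def O1 (p : ℝ → ℂ) (a h : ℝ) : ℝ := A1 p a h (Mn p a h)

lemma split_half {E : Type*} [NormedAddCommGroup E] [NormedSpace ℝ E] [CompleteSpace E]
    (F : ℝ → E) (hF : Continuous F) (a h : ℝ) :
    ∫ s in (0:ℝ)..1, F (a + h * s) =
      (1/2 : ℝ) • ((∫ s in (0:ℝ)..1, F (a + (h/2) * s)) + ∫ s in (0:ℝ)..1, F ((a + h/2) + (h/2) * s)) := by
  rcases eq_or_ne h 0 with h0 | h0
  · subst h0
    simp only [zero_div, zero_mul, add_zero]
    rw [intervalIntegral.integral_const, sub_zero, one_smul, ← two_smul ℝ (F a), smul_smul]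
    norm_num
  · have h2 : h / 2 ≠ 0 := div_ne_zero h0 (by norm_num)
    rw [intervalIntegral.integral_comp_add_mul _ h0, intervalIntegral.integral_comp_add_mul _ h2,
      intervalIntegral.integral_comp_add_mul _ h2, ← smul_add]
    have e1 : a + h / 2 * 1 = a + h / 2 + h / 2 * 0 := by ring
    have e2 : a + h / 2 + h / 2 * 1 = a + h * 1 := by ring
    have e3 : a + h / 2 * 0 = a + h * 0 := by ring
    rw [e1, e2, e3, intervalIntegral.integral_add_adjacent_intervals (hF.intervalIntegrable _ _)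
      (hF.intervalIntegrable _ _), smul_smul]
    congr 1
    field_simp

variable {p : ℝ → ℂ}

lemma Mn_half (hp : Continuous p) (a h : ℝ) : Mn p a h = (Mn p a (h/2) + Mn p (a + h/2) (h/2)) / 2 := by
  unfold Mn
  rw [split_half p hp, Complex.real_smul]
  push_cast; ring

lemma A1_half (hp : Continuous p) (a h : ℝ) (c : ℂ) :
    A1 p a h c = (A1 p a (h/2) c + A1 p (a + h/2) (h/2) c) / 2 := by
  unfold A1
  rw [split_half (fun x => ‖p x - c‖) (by fun_prop), smul_eq_mul]
  ring

lemma A2_half (hp : Continuous p) (a h : ℝ) (c : ℂ) :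
    A2 p a h c = (A2 p a (h/2) c + A2 p (a + h/2) (h/2) c) / 2 := by
  unfold A2
  rw [split_half (fun x => ‖p x - c‖ ^ 2) (by fun_prop), smul_eq_mul]
  ring

lemma A1_nonneg (p : ℝ → ℂ) (a h : ℝ) (c : ℂ) : 0 ≤ A1 p a h c :=
  intervalIntegral.integral_nonneg (by norm_num) (fun _ _ => norm_nonneg _)

lemma Mn_sub_le (hp : Continuous p) (a h : ℝ) (c : ℂ) : ‖Mn p a h - c‖ ≤ A1 p a h c := by
  have h1 : Mn p a h - c = ∫ s in (0:ℝ)..1, (p (a + h * s) - c) := by
    unfold Mn
    have hc : Continuous (fun s : ℝ => p (a + h * s)) := by fun_prop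
    rw [intervalIntegral.integral_sub (hc.intervalIntegrable _ _)
      (continuous_const.intervalIntegrable _ _), intervalIntegral.integral_const, sub_zero, one_smul]
  rw [h1]
  exact intervalIntegral.norm_integral_le_integral_norm (by norm_num)

/-- discretised mean square -/
noncomputable def Qd (p : ℝ → ℂ) : ℕ → ℝ → ℝ → ℂ → ℝ
  | 0, a, h, c => ‖Mn p a h - c‖ ^ 2
  | d+1, a, h, c => (Qd p d a (h/2) c + Qd p d (a + h/2) (h/2) c) / 2

lemma par_id (x y c : ℂ) : (‖x - c‖ ^ 2 + ‖y - c‖ ^ 2) / 2 =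
    (‖x - (x + y) / 2‖ ^ 2 + ‖y - (x + y) / 2‖ ^ 2) / 2 + ‖(x + y) / 2 - c‖ ^ 2 := by
  simp only [Complex.sq_norm, Complex.normSq_apply, Complex.sub_re, Complex.sub_im, Complex.div_re,
    Complex.div_im, Complex.add_re, Complex.add_im]
  norm_num
  ring

lemma Qd_center (hp : Continuous p) (d : ℕ) : ∀ a h c, Qd p d a h c =
    Qd p d a h (Mn p a h) + ‖Mn p a h - c‖ ^ 2 := by
  induction d with
  | zero => intro a h c; simp [Qd]
  | succ d ih =>
    intro a h c
    simp only [Qd]
    rw [ih a (h/2) c, ih (a + h/2) (h/2) c, ih a (h/2) (Mn p a h), ih (a + h/2) (h/2) (Mn p a h)]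
    have h1 := par_id (Mn p a (h/2)) (Mn p (a + h/2) (h/2)) c
    rw [← Mn_half hp a h] at h1
    linarith

lemma JN_disc (hp : Continuous p) (H B : ℝ) (hB : 0 < B) (hO : ∀ a h, 0 < h → h ≤ H → O1 p a h ≤ B)
    (d : ℕ) : (∀ a h c, 0 < h → h ≤ H → A1 p a h c ≤ 2 * B → Qd p d a h c ≤ 4 * B ^ 2 + 20 * B * A1 p a h c) := by
  induction d with
  | zero =>
    intro a h c h0 hH hA
    simp only [Qd]
    have h1 := Mn_sub_le hp a h c
    have h2 : ‖Mn p a h - c‖ ^ 2 ≤ (2 * B) ^ 2 := pow_le_pow_left₀ (norm_nonneg _) (h1.trans hA) 2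
    have h3 := A1_nonneg p a h c
    nlinarith
  | succ d ih =>
    intro a h c h0 hH hA
    have hC : ∀ a h, 0 < h → h ≤ H → Qd p d a h (Mn p a h) ≤ 24 * B ^ 2 := by
      intro a h h0 hH
      have h1 := hO a h h0 hH
      unfold O1 at h1
      have h2 := ih a h (Mn p a h) h0 hH (by linarith)
      nlinarith
    have hchild : ∀ a', A1 p a' (h/2) c ≤ 4 * B → Qd p d a' (h/2) c ≤ 4 * B ^ 2 + 20 * B * A1 p a' (h/2) c := by
      intro a' hA4
      by_cases hs : A1 p a' (h/2) c ≤ 2 * B
      · exact ih a' (h/2) c (by linarith) (by linarith) hs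
      · push Not at hs
        rw [Qd_center hp d]
        have h1 := hC a' (h/2) (by linarith) (by linarith)
        have h2 := Mn_sub_le hp a' (h/2) c
        have h3 : ‖Mn p a' (h/2) - c‖ ^ 2 ≤ (4 * B) ^ 2 := pow_le_pow_left₀ (norm_nonneg _) (h2.trans hA4) 2
        nlinarith
    have hh := A1_half hp a h c
    have n1 := A1_nonneg p a (h/2) c
    have n2 := A1_nonneg p (a + h/2) (h/2) c
    have c1 := hchild a (by linarith)
    have c2 := hchild (a + h/2) (by linarith)
    simp only [Qd]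
    rw [hh]
    linarith

lemma A2_center (hp : Continuous p) (a h : ℝ) (c : ℂ) :
    A2 p a h c = A2 p a h (Mn p a h) + ‖Mn p a h - c‖ ^ 2 := by
  set M := Mn p a h with hM
  have hc : Continuous (fun s : ℝ => p (a + h * s)) := hp.comp (by fun_prop)
  have h0 : ∫ s in (0:ℝ)..1, (p (a + h * s) - M) = 0 := by
    rw [intervalIntegral.integral_sub (hc.intervalIntegrable _ _) (continuous_const.intervalIntegrable _ _),
      intervalIntegral.integral_const, sub_zero, one_smul]
    change Mn p a h - M = 0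
    rw [← hM, sub_self]
  have h1 : ∀ s, ‖p (a + h * s) - c‖ ^ 2 = ‖p (a + h * s) - M‖ ^ 2 +
      (‖M - c‖ ^ 2 + 2 * ((p (a + h * s) - M) * (starRingEnd ℂ) (M - c)).re) := by
    intro s
    simp only [Complex.sq_norm, Complex.normSq_apply, Complex.sub_re, Complex.sub_im, Complex.mul_re,
      map_sub, Complex.conj_re, Complex.conj_im]
    ring
  have hc1 : Continuous (fun s : ℝ => ‖p (a + h * s) - M‖ ^ 2) := by fun_prop
  have hc2 : Continuous (fun s : ℝ => (p (a + h * s) - M) * (starRingEnd ℂ) (M - c)) := by fun_prop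
  have hc3 : Continuous (fun s : ℝ => 2 * ((p (a + h * s) - M) * (starRingEnd ℂ) (M - c)).re) :=
    continuous_const.mul (Complex.continuous_re.comp hc2)
  have h2 : ∫ s in (0:ℝ)..1, 2 * ((p (a + h * s) - M) * (starRingEnd ℂ) (M - c)).re = 0 := by
    rw [intervalIntegral.integral_const_mul]
    have h3 : ∫ s in (0:ℝ)..1, ((p (a + h * s) - M) * (starRingEnd ℂ) (M - c)).re =
        (∫ s in (0:ℝ)..1, (p (a + h * s) - M) * (starRingEnd ℂ) (M - c)).re := by
      have := Complex.reCLM.intervalIntegral_comp_comm (hc2.intervalIntegrable (μ := volume) 0 1)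
      simpa using this
    rw [h3, intervalIntegral.integral_mul_const, h0, zero_mul]
    simp
  unfold A2
  simp only [h1]
  have i1 : IntervalIntegrable (fun s : ℝ => ‖p (a + h * s) - M‖ ^ 2) volume 0 1 :=
    hc1.intervalIntegrable _ _
  have i2 : IntervalIntegrable (fun _ : ℝ => ‖M - c‖ ^ 2) volume 0 1 :=
    continuous_const.intervalIntegrable _ _
  have i3 : IntervalIntegrable (fun s : ℝ => 2 * ((p (a + h * s) - M) * (starRingEnd ℂ) (M - c)).re)
      volume 0 1 := hc3.intervalIntegrable _ _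
  rw [intervalIntegral.integral_add i1 (i2.add i3), intervalIntegral.integral_add i2 i3,
    h2, intervalIntegral.integral_const, sub_zero, one_smul, add_zero]

lemma A2_le_Qd (hp : Continuous p) (L : ℝ) (hL0 : 0 ≤ L) (hL : ∀ x y, ‖p x - p y‖ ≤ L * |x - y|) (d : ℕ) :
    ∀ a h c, 0 < h → A2 p a h c ≤ Qd p d a h c + (L * h / 2 ^ d) ^ 2 := by
  induction d with
  | zero =>
    intro a h c h0
    rw [A2_center hp]
    simp only [Qd, pow_zero, div_one]
    have h1 : A2 p a h (Mn p a h) ≤ (L * h) ^ 2 := by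
      have h2 : ∀ s ∈ Set.Icc (0:ℝ) 1, ‖p (a + h * s) - Mn p a h‖ ^ 2 ≤ (L * h) ^ 2 := by
        intro s hs
        apply pow_le_pow_left₀ (norm_nonneg _)
        rw [norm_sub_rev]
        refine (Mn_sub_le hp a h _).trans ?_
        unfold A1
        calc ∫ t in (0:ℝ)..1, ‖p (a + h * t) - p (a + h * s)‖ ≤ ∫ t in (0:ℝ)..1, L * h := by
              apply intervalIntegral.integral_mono_on (by norm_num)
              · exact Continuous.intervalIntegrable (by fun_prop) _ _
              · exact continuous_const.intervalIntegrable _ _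
              · intro t ht
                refine (hL _ _).trans ?_
                apply mul_le_mul_of_nonneg_left _ hL0
                have e : a + h * t - (a + h * s) = h * (t - s) := by ring
                rw [e, abs_mul, abs_of_pos h0]
                have : |t - s| ≤ 1 := by rw [abs_le]; constructor <;> linarith [hs.1, hs.2, ht.1, ht.2]
                nlinarith
          _ = L * h := by rw [intervalIntegral.integral_const, sub_zero, one_smul]
      unfold A2
      calc _ ≤ ∫ s in (0:ℝ)..1, (L * h) ^ 2 := by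
            apply intervalIntegral.integral_mono_on (by norm_num)
            · exact Continuous.intervalIntegrable (by fun_prop) _ _
            · exact continuous_const.intervalIntegrable _ _
            · exact h2
        _ = _ := by rw [intervalIntegral.integral_const, sub_zero, one_smul]
    linarith
  | succ d ih =>
    intro a h c h0
    rw [A2_half hp]
    simp only [Qd]
    have h1 := ih a (h/2) c (by linarith)
    have h2 := ih (a + h/2) (h/2) c (by linarith)
    have e : L * (h/2) / 2 ^ d = L * h / 2 ^ (d+1) := by rw [pow_succ]; field_simp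
    rw [e] at h1 h2
    linarith

/-- John-Nirenberg inequality in L². -/
theorem JN (hp : Continuous p) (L : ℝ) (hL0 : 0 ≤ L) (hL : ∀ x y, ‖p x - p y‖ ≤ L * |x - y|) (H B : ℝ)
    (hB : 0 < B) (hO : ∀ a h, 0 < h → h ≤ H → O1 p a h ≤ B) (a h : ℝ) (h0 : 0 < h) (hH : h ≤ H) :
    A2 p a h (Mn p a h) ≤ 24 * B ^ 2 := by
  have h1 : ∀ d : ℕ, A2 p a h (Mn p a h) ≤ 24 * B ^ 2 + (L * h / 2 ^ d) ^ 2 := by
    intro d
    refine (A2_le_Qd hp L hL0 hL d a h _ h0).trans ?_
    have h2 := hO a h h0 hH
    unfold O1 at h2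
    have h3 := JN_disc hp H B hB hO d a h (Mn p a h) h0 hH (by linarith)
    nlinarith
  have h2 : Filter.Tendsto (fun d : ℕ => 24 * B ^ 2 + (L * h / 2 ^ d) ^ 2) Filter.atTop
      (nhds (24 * B ^ 2 + 0 ^ 2)) := by
    apply Filter.Tendsto.const_add
    apply Filter.Tendsto.pow
    apply Filter.Tendsto.div_atTop tendsto_const_nhds
    exact tendsto_pow_atTop_atTop_of_one_lt (by norm_num)
  have h3 := ge_of_tendsto' h2 h1
  simpa using h3

end H59.RB
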