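import Pool.Agent.H59.BMOA.Contr

/-! Kahane's integrability for sign sums in a seminorm. -/

namespace H59.RB

set_option linter.unusedSectionVars false

open Finset BigOperators

section
variable {κ : Type*} [Fintype κ] [DecidableEq κ]

/-- mixing of two sign vectors -/
def mixs (D : Finset κ) (ε ε' : κ → ℤˣ) : κ → ℤˣ := fun k => if k ∈ D then ε k else ε' k

lemma indep_mix (D : Finset κ) (F G : (κ → ℤˣ) → ℝ) (hF : ∀ ε ε', F (mixs D ε ε') = F ε)
    (hG : ∀ ε ε', G (mixs D ε ε') = G ε') :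
    𝔼 ε, F ε * G ε = (𝔼 ε, F ε) * 𝔼 ε, G ε := by
  have hinv : Function.Involutive (fun p : (κ → ℤˣ) × (κ → ℤˣ) => (mixs D p.1 p.2, mixs D p.2 p.1)) := by
    intro p
    apply Prod.ext
    · funext k; simp only [mixs]; split_ifs <;> rfl
    · funext k; simp only [mixs]; split_ifs <;> rfl
  have h1 : 𝔼 p : (κ → ℤˣ) × (κ → ℤˣ), F p.1 * G p.2 = 𝔼 p : (κ → ℤˣ) × (κ → ℤˣ), F p.1 * G p.1 := by
    refine (Fintype.expect_equiv hinv.toPerm (fun p => F p.1 * G p.1) (fun p => F p.1 * G p.2) ?_).symm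
    intro p
    simp only [Function.Involutive.coe_toPerm]
    rw [hF, hG]
  have h2 : 𝔼 p : (κ → ℤˣ) × (κ → ℤˣ), F p.1 * G p.2 = (𝔼 ε, F ε) * 𝔼 ε, G ε := by
    rw [← Finset.univ_product_univ, Finset.expect_product]
    simp only
    rw [Finset.expect_mul]
    refine Finset.expect_congr rfl (fun ε _ => ?_)
    rw [Finset.mul_expect]
  have h3 : 𝔼 p : (κ → ℤˣ) × (κ → ℤˣ), F p.1 * G p.1 = 𝔼 ε, F ε * G ε := by
    rw [← Finset.univ_product_univ, Finset.expect_product]
    simp only
    refine Finset.expect_congr rfl (fun ε _ => ?_)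
    exact Fintype.expect_const _
  rw [← h3, ← h1, h2]

lemma expect_flip' (σ : κ → ℤˣ) (F : (κ → ℤˣ) → ℝ) : 𝔼 ε, F (ε * σ) = 𝔼 ε, F ε :=
  Fintype.expect_equiv (Equiv.mulRight σ) _ _ (fun _ => rfl)

variable {N : (κ → ℂ) → ℝ} (hN : SN N) (hneg : ∀ u, N (-u) = N u)

/-- tail probability -/
noncomputable def tp (N : (κ → ℂ) → ℝ) (b : κ → ℂ) (u : ℝ) : ℝ :=
  𝔼 ε : κ → ℤˣ, if u < N (fun k => (sg (ε k) : ℂ) * b k) then (1:ℝ) else 0

lemma tp_nonneg (b : κ → ℂ) (u : ℝ) : 0 ≤ tp N b u :=
  Finset.expect_nonneg (fun ε _ => by split_ifs <;> norm_num)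

lemma tp_anti (b : κ → ℂ) {u v : ℝ} (h : u ≤ v) : tp N b v ≤ tp N b u := by
  apply Finset.expect_le_expect
  intro ε _
  split_ifs with h1 h2 h2
  · exact le_rfl
  · exact absurd (lt_of_le_of_lt h h1) h2
  · norm_num
  · exact le_rfl

lemma tp_restrict (hN : SN N) (b : κ → ℂ) (D : Finset κ) (u : ℝ) :
    𝔼 ε : κ → ℤˣ, (if u < N (fun k => if k ∈ D then (sg (ε k) : ℂ) * b k else 0) then (1:ℝ) else 0) ≤
      2 * tp N b u := by
  set σ : κ → ℤˣ := fun k => if k ∈ D then 1 else -1 with hσ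
  have h1 : ∀ ε : κ → ℤˣ, (if u < N (fun k => if k ∈ D then (sg (ε k) : ℂ) * b k else 0) then (1:ℝ) else 0) ≤
      (if u < N (fun k => (sg (ε k) : ℂ) * b k) then (1:ℝ) else 0) +
      (if u < N (fun k => (sg ((ε * σ) k) : ℂ) * b k) then (1:ℝ) else 0) := by
    intro ε
    by_cases h : u < N (fun k => if k ∈ D then (sg (ε k) : ℂ) * b k else 0)
    · have h2 : (fun k => if k ∈ D then (sg (ε k) : ℂ) * b k else 0) =
          (fun k => (((1/2 : ℝ)) : ℂ) * (((fun k => (sg (ε k) : ℂ) * b k) + (fun k => (sg ((ε * σ) k) : ℂ) * b k)) k)) := by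
        funext k
        simp only [Pi.add_apply, Pi.mul_apply, hσ]
        split_ifs with hk
        · rw [mul_one]; push_cast; ring
        · have : sg (ε k * -1) = - sg (ε k) := by
            rw [sg_mul]; simp [sg]
          rw [this]; push_cast; ring
      have h3 : N (fun k => if k ∈ D then (sg (ε k) : ℂ) * b k else 0) ≤
          (1/2) * (N (fun k => (sg (ε k) : ℂ) * b k) + N (fun k => (sg ((ε * σ) k) : ℂ) * b k)) := by
        rw [h2, hN.smul _ _ (by norm_num)]
        exact mul_le_mul_of_nonneg_left (hN.add _ _) (by norm_num)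
      rw [if_pos h]
      by_cases h4 : u < N (fun k => (sg (ε k) : ℂ) * b k)
      · rw [if_pos h4]
        split_ifs <;> norm_num
      · have h5 : u < N (fun k => (sg ((ε * σ) k) : ℂ) * b k) := by
          push Not at h4
          by_contra h6
          push Not at h6
          linarith
        rw [if_pos h5]
        split_ifs
        norm_num
    · rw [if_neg h]
      split_ifs <;> norm_num
  calc _ ≤ 𝔼 ε : κ → ℤˣ, ((if u < N (fun k => (sg (ε k) : ℂ) * b k) then (1:ℝ) else 0) +
      (if u < N (fun k => (sg ((ε * σ) k) : ℂ) * b k) then (1:ℝ) else 0)) :=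
        Finset.expect_le_expect (fun ε _ => h1 ε)
    _ = 2 * tp N b u := by
        rw [Finset.expect_add_distrib,
          expect_flip' σ (fun ε => if u < N (fun k => (sg (ε k) : ℂ) * b k) then (1:ℝ) else 0)]
        unfold tp
        ring

lemma kah_step (hN : SN N) (hneg : ∀ u, N (-u) = N u) (b : κ → ℂ) (u s : ℝ) :
    tp N b (2 * u + s) * (1 - tp N b s) ≤ 4 * tp N b u ^ 2 := by
  classical
  -- complement
  have hcomp : 1 - tp N b s = 𝔼 ε : κ → ℤˣ, (if N (fun k => (sg (ε k) : ℂ) * b k) ≤ s then (1:ℝ) else 0) := by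
    have : (1:ℝ) = 𝔼 _ε : κ → ℤˣ, (1:ℝ) := (Fintype.expect_const _).symm
    unfold tp
    rw [this, ← Finset.expect_sub_distrib]
    refine Finset.expect_congr rfl (fun ε _ => ?_)
    split_ifs with h1 h2 h2
    · linarith
    · simp
    · simp
    · exact absurd (not_lt.1 h1) h2
  rw [hcomp]
  unfold tp
  rw [Finset.expect_mul]
  have h1 : ∀ ε : κ → ℤˣ, (if 2 * u + s < N (fun k => (sg (ε k) : ℂ) * b k) then (1:ℝ) else 0) *
      𝔼 ε' : κ → ℤˣ, (if N (fun k => (sg (ε' k) : ℂ) * b k) ≤ s then (1:ℝ) else 0) =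
      𝔼 η : κ → ℤˣ, (if 2 * u + s < N (fun k => (sg (ε k) : ℂ) * b k) then (1:ℝ) else 0) *
        (if N (fun k => (sg ((ε * η) k) : ℂ) * b k) ≤ s then (1:ℝ) else 0) := by
    intro ε
    rw [← Finset.mul_expect]
    congr 1
    exact (Fintype.expect_equiv (Equiv.mulLeft ε)
      (fun η => if N (fun k => (sg ((ε * η) k) : ℂ) * b k) ≤ s then (1:ℝ) else 0)
      (fun ε' => if N (fun k => (sg (ε' k) : ℂ) * b k) ≤ s then (1:ℝ) else 0) (fun _ => rfl)).symm
  simp only [h1]
  rw [Finset.expect_comm]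
  have h2 : ∀ η : κ → ℤˣ, 𝔼 ε : κ → ℤˣ, (if 2 * u + s < N (fun k => (sg (ε k) : ℂ) * b k) then (1:ℝ) else 0) *
        (if N (fun k => (sg ((ε * η) k) : ℂ) * b k) ≤ s then (1:ℝ) else 0) ≤ 4 * tp N b u ^ 2 := by
    intro η
    set D : Finset κ := Finset.univ.filter (fun k => η k = -1) with hD
    set F : (κ → ℤˣ) → ℝ := fun ε => if u < N (fun k => if k ∈ D then (sg (ε k) : ℂ) * b k else 0) then (1:ℝ) else 0 with hF
    set G : (κ → ℤˣ) → ℝ := fun ε => if u < N (fun k => if k ∈ Dᶜ then (sg (ε k) : ℂ) * b k else 0) then (1:ℝ) else 0 with hG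
    have hηval : ∀ k, k ∉ D → η k = 1 := by
      intro k hk
      rcases Int.units_eq_one_or (η k) with h | h
      · exact h
      · exact absurd (by rw [hD, Finset.mem_filter]; exact ⟨Finset.mem_univ _, h⟩) hk
    have hηval' : ∀ k, k ∈ D → η k = -1 := by
      intro k hk
      rw [hD, Finset.mem_filter] at hk; exact hk.2
    have h3 : ∀ ε : κ → ℤˣ, (if 2 * u + s < N (fun k => (sg (ε k) : ℂ) * b k) then (1:ℝ) else 0) *
        (if N (fun k => (sg ((ε * η) k) : ℂ) * b k) ≤ s then (1:ℝ) else 0) ≤ F ε * G ε := by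
      intro ε
      by_cases ha : 2 * u + s < N (fun k => (sg (ε k) : ℂ) * b k)
      · by_cases hb : N (fun k => (sg ((ε * η) k) : ℂ) * b k) ≤ s
        · have hU : N (fun k => (sg (ε k) : ℂ) * b k) ≤
              2 * N (fun k => if k ∈ D then (sg (ε k) : ℂ) * b k else 0) + N (fun k => (sg ((ε * η) k) : ℂ) * b k) := by
            have e : (fun k => (sg (ε k) : ℂ) * b k) =
                (fun k => ((2:ℝ) : ℂ) * (fun k => if k ∈ D then (sg (ε k) : ℂ) * b k else 0) k) +
                (fun k => (sg ((ε * η) k) : ℂ) * b k) := by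
              funext k
              simp only [Pi.add_apply, Pi.mul_apply]
              split_ifs with hk
              · rw [hηval' k hk]
                have : sg (ε k * -1) = - sg (ε k) := by rw [sg_mul]; simp [sg]
                rw [this]; push_cast; ring
              · rw [hηval k hk, mul_one]; ring
            have h4 := hN.add (fun k => ((2:ℝ) : ℂ) * (fun k => if k ∈ D then (sg (ε k) : ℂ) * b k else 0) k)
              (fun k => (sg ((ε * η) k) : ℂ) * b k)
            rw [← e, hN.smul _ _ (by norm_num)] at h4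
            exact h4
          have hV : N (fun k => (sg (ε k) : ℂ) * b k) ≤
              2 * N (fun k => if k ∈ Dᶜ then (sg (ε k) : ℂ) * b k else 0) + N (fun k => (sg ((ε * η) k) : ℂ) * b k) := by
            have e : (fun k => (sg (ε k) : ℂ) * b k) =
                (fun k => ((2:ℝ) : ℂ) * (fun k => if k ∈ Dᶜ then (sg (ε k) : ℂ) * b k else 0) k) +
                (-(fun k => (sg ((ε * η) k) : ℂ) * b k)) := by
              funext k
              simp only [Pi.add_apply, Pi.mul_apply, Pi.neg_apply, Finset.mem_compl]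
              by_cases hk : k ∈ D
              · rw [if_neg (not_not.2 hk), hηval' k hk]
                have : sg (ε k * -1) = - sg (ε k) := by rw [sg_mul]; simp [sg]
                rw [this]; push_cast; ring
              · rw [if_pos hk, hηval k hk, mul_one]; push_cast; ring
            have h4 := hN.add (fun k => ((2:ℝ) : ℂ) * (fun k => if k ∈ Dᶜ then (sg (ε k) : ℂ) * b k else 0) k)
              (-(fun k => (sg ((ε * η) k) : ℂ) * b k))
            rw [← e, hN.smul _ _ (by norm_num), hneg] at h4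
            exact h4
          have hU' : u < N (fun k => if k ∈ D then (sg (ε k) : ℂ) * b k else 0) := by linarith
          have hV' : u < N (fun k => if k ∈ Dᶜ then (sg (ε k) : ℂ) * b k else 0) := by linarith
          simp only [hF, hG]
          rw [if_pos ha, if_pos hb, if_pos hU', if_pos hV']
        · rw [if_neg hb, mul_zero]
          simp only [hF, hG]
          split_ifs <;> norm_num
      · rw [if_neg ha, zero_mul]
        simp only [hF, hG]
        split_ifs <;> norm_num
    have h5 : 𝔼 ε, F ε * G ε = (𝔼 ε, F ε) * 𝔼 ε, G ε := by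
      apply indep_mix D
      · intro ε ε'
        simp only [hF]
        have : (fun k => if k ∈ D then (sg (mixs D ε ε' k) : ℂ) * b k else 0) =
            (fun k => if k ∈ D then (sg (ε k) : ℂ) * b k else 0) := by
          funext k; unfold mixs; split_ifs <;> rfl
        rw [this]
      · intro ε ε'
        simp only [hG]
        have : (fun k => if k ∈ Dᶜ then (sg (mixs D ε ε' k) : ℂ) * b k else 0) =
            (fun k => if k ∈ Dᶜ then (sg (ε' k) : ℂ) * b k else 0) := by
          funext k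
          simp only [Finset.mem_compl, mixs]
          by_cases hk : k ∈ D
          · simp [hk]
          · simp [hk]
        rw [this]
    calc _ ≤ 𝔼 ε, F ε * G ε := Finset.expect_le_expect (fun ε _ => h3 ε)
      _ = (𝔼 ε, F ε) * 𝔼 ε, G ε := h5
      _ ≤ (2 * tp N b u) * (2 * tp N b u) := by
          apply mul_le_mul (tp_restrict hN b D u) (tp_restrict hN b Dᶜ u)
          · exact Finset.expect_nonneg (fun ε _ => by split_ifs <;> norm_num)
          · have := tp_nonneg (N := N) b u; positivity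
      _ = _ := by ring
  calc _ ≤ 𝔼 _η : κ → ℤˣ, 4 * tp N b u ^ 2 := Finset.expect_le_expect (fun η _ => h2 η)
    _ = 4 * tp N b u ^ 2 := Fintype.expect_const _
    _ = _ := by unfold tp; rfl

lemma layer (t0 : ℝ) (ht : 0 < t0) (J : ℕ) : ∀ y : ℝ, y ≤ 3 ^ J * t0 →
    y ≤ t0 + ∑ j ∈ Finset.range J, 3 ^ (j+1) * t0 * (if 3 ^ j * t0 < y then (1:ℝ) else 0) := by
  induction J with
  | zero => intro y hy; simpa using hy
  | succ J ih =>
    intro y hy
    rw [Finset.sum_range_succ]
    have hpos : 0 ≤ ∑ j ∈ Finset.range J, 3 ^ (j+1) * t0 * (if 3 ^ j * t0 < y then (1:ℝ) else 0) :=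
      Finset.sum_nonneg (fun j _ => by split_ifs <;> positivity)
    by_cases h : y ≤ 3 ^ J * t0
    · have h1 := ih y h
      have h2 : 0 ≤ 3 ^ (J+1) * t0 * (if 3 ^ J * t0 < y then (1:ℝ) else 0) := by
        split_ifs <;> positivity
      linarith
    · push Not at h
      rw [if_pos h, mul_one]
      linarith

/-- Kahane: a small tail controls the expectation. -/
theorem kahane (hN : SN N) (hneg : ∀ u, N (-u) = N u) (b : κ → ℂ) (t0 : ℝ) (ht : 0 < t0)
    (h : tp N b t0 ≤ 1 / 32) : 𝔼 ε : κ → ℤˣ, N (fun k => (sg (ε k) : ℂ) * b k) ≤ 2 * t0 := by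
  have hdec : ∀ j : ℕ, 5 * tp N b (3 ^ j * t0) ≤ (1/4) ^ (j+1) := by
    intro j
    induction j with
    | zero => simp only [pow_zero, one_mul, zero_add, pow_one]; linarith
    | succ j ih =>
      have h1 := kah_step hN hneg b (3 ^ j * t0) t0
      have h2 : tp N b (3 ^ (j+1) * t0) ≤ tp N b (2 * (3 ^ j * t0) + t0) := by
        apply tp_anti
        have : (1:ℝ) ≤ 3 ^ j := one_le_pow₀ (by norm_num)
        rw [pow_succ]; nlinarith
      have h3 := tp_nonneg (N := N) b (2 * (3 ^ j * t0) + t0)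
      have h4 := tp_nonneg (N := N) b (3 ^ j * t0)
      have h5 : tp N b (2 * (3 ^ j * t0) + t0) ≤ 5 * tp N b (3 ^ j * t0) ^ 2 := by nlinarith
      have h6 : (5 * tp N b (3 ^ j * t0)) ^ 2 ≤ ((1/4) ^ (j+1)) ^ 2 := pow_le_pow_left₀ (by positivity) ih 2
      have h7 : (((1:ℝ)/4) ^ (j+1)) ^ 2 ≤ (1/4) ^ (j+1+1) := by
        rw [← pow_mul]
        exact pow_le_pow_of_le_one (by norm_num) (by norm_num) (by omega)
      calc 5 * tp N b (3 ^ (j+1) * t0) ≤ 5 * (5 * tp N b (3 ^ j * t0) ^ 2) := by linarith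
        _ = (5 * tp N b (3 ^ j * t0)) ^ 2 := by ring
        _ ≤ _ := h6.trans h7
  -- finite maximum
  obtain ⟨J, hJ⟩ : ∃ J : ℕ, ∀ ε : κ → ℤˣ, N (fun k => (sg (ε k) : ℂ) * b k) ≤ 3 ^ J * t0 := by
    obtain ⟨ε₀, _, hε₀⟩ := Finset.exists_max_image Finset.univ
      (fun ε : κ → ℤˣ => N (fun k => (sg (ε k) : ℂ) * b k)) Finset.univ_nonempty
    obtain ⟨J, hJ⟩ := pow_unbounded_of_one_lt (N (fun k => (sg (ε₀ k) : ℂ) * b k) / t0)
      (by norm_num : (1:ℝ) < 3)
    refine ⟨J, fun ε => (hε₀ ε (Finset.mem_univ _)).trans ?_⟩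
    rw [div_lt_iff₀ ht] at hJ
    exact hJ.le
  calc 𝔼 ε : κ → ℤˣ, N (fun k => (sg (ε k) : ℂ) * b k)
      ≤ 𝔼 ε : κ → ℤˣ, (t0 + ∑ j ∈ Finset.range J, 3 ^ (j+1) * t0 *
        (if 3 ^ j * t0 < N (fun k => (sg (ε k) : ℂ) * b k) then (1:ℝ) else 0)) :=
        Finset.expect_le_expect (fun ε _ => layer t0 ht J _ (hJ ε))
    _ = t0 + ∑ j ∈ Finset.range J, 3 ^ (j+1) * t0 * tp N b (3 ^ j * t0) := by
        rw [Finset.expect_add_distrib, Fintype.expect_const, Finset.expect_sum_comm]
        congr 1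
        refine Finset.sum_congr rfl (fun j _ => ?_)
        rw [← Finset.mul_expect]
        rfl
    _ ≤ t0 + ∑ j ∈ Finset.range J, (3/20 * t0) * (3/4) ^ j := by
        apply add_le_add le_rfl
        apply Finset.sum_le_sum
        intro j _
        have h1 := hdec j
        have e : (3:ℝ)/20 * t0 * (3/4) ^ j = 3 ^ (j+1) * t0 * ((1/4) ^ (j+1) / 5) := by
          have : ((3:ℝ)/4) ^ j = 3 ^ j * (1/4) ^ j := by rw [← mul_pow]; norm_num
          rw [this, pow_succ, pow_succ]; ring
        rw [e]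
        apply mul_le_mul_of_nonneg_left _ (by positivity)
        linarith
    _ ≤ 2 * t0 := by
        rw [← Finset.mul_sum]
        have h2 : ∑ j ∈ Finset.range J, ((3:ℝ)/4) ^ j ≤ 4 := by
          have : ∑ j ∈ Finset.range J, ((3:ℝ)/4) ^ j = 4 - 4 * (3/4) ^ J := by
            induction J with
            | zero => simp
            | succ J ih => 
              rw [Finset.sum_range_succ, pow_succ]
              have ih' : ∑ j ∈ Finset.range J, ((3:ℝ)/4) ^ j = 4 - 4 * (3/4) ^ J := by
                rw [geom_sum_eq (by norm_num)]; ring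
              rw [ih']; ring
          rw [this]
          have : (0:ℝ) < (3/4) ^ J := by positivity
          linarith
        nlinarith

end

end H59.RB
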