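import Pool.Agent.H59.BMOA.Signs

/-! Lindeberg / Sudakov-Fernique comparison for normalised sign sums. -/

namespace H59.RB

set_option linter.unusedSectionVars false

open Finset BigOperators

/-- Third order expansion of the logarithm of an average of exponentials. -/
lemma log_avg_exp {ι : Type*} [Fintype ι] (p x : ι → ℝ) (hp : ∀ i, 0 ≤ p i) (hs : ∑ i, p i = 1)
    (e : ℝ) (he : e ≤ 1/4) (hx : ∀ i, |x i| ≤ e) :
    |Real.log (∑ i, p i * Real.exp (x i)) -
      (∑ i, p i * x i + (∑ i, p i * x i ^ 2) / 2 - (∑ i, p i * x i) ^ 2 / 2)| ≤ 6 * e ^ 3 := by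
  obtain ⟨i0⟩ : Nonempty ι := by
    by_contra h
    rw [not_nonempty_iff] at h
    simp at hs
  have he0 : 0 ≤ e := (abs_nonneg _).trans (hx i0)
  set m1 := ∑ i, p i * x i with hm1
  set m2 := ∑ i, p i * x i ^ 2 with hm2
  have hm1' : |m1| ≤ e := by
    calc |m1| ≤ ∑ i, |p i * x i| := Finset.abs_sum_le_sum_abs _ _
      _ ≤ ∑ i, p i * e := by
          apply Finset.sum_le_sum
          intro i _
          rw [abs_mul, abs_of_nonneg (hp i)]
          exact mul_le_mul_of_nonneg_left (hx i) (hp i)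
      _ = e := by rw [← Finset.sum_mul, hs, one_mul]
  have hm2' : m2 ≤ e ^ 2 := by
    calc m2 ≤ ∑ i, p i * e ^ 2 := by
          apply Finset.sum_le_sum
          intro i _
          apply mul_le_mul_of_nonneg_left _ (hp i)
          rw [← sq_abs (x i)]
          exact pow_le_pow_left₀ (abs_nonneg _) (hx i) 2
      _ = e ^ 2 := by rw [← Finset.sum_mul, hs, one_mul]
  have hm20 : 0 ≤ m2 := Finset.sum_nonneg (fun i _ => mul_nonneg (hp i) (sq_nonneg _))
  set y := ∑ i, p i * Real.exp (x i) - 1 with hy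
  have hr1 : |y - m1 - m2 / 2| ≤ e ^ 3 := by
    have h1 : y - m1 - m2 / 2 = ∑ i, p i * (Real.exp (x i) - 1 - x i - x i ^ 2 / 2) := by
      have h2 : ∀ i, p i * (Real.exp (x i) - 1 - x i - x i ^ 2 / 2) =
          p i * Real.exp (x i) - p i - p i * x i - (p i * x i ^ 2) / 2 := fun i => by ring
      simp only [h2, Finset.sum_sub_distrib, hs, ← Finset.sum_div]
      rw [hy, hm1, hm2]
    rw [h1]
    calc |∑ i, p i * (Real.exp (x i) - 1 - x i - x i ^ 2 / 2)|
        ≤ ∑ i, |p i * (Real.exp (x i) - 1 - x i - x i ^ 2 / 2)| := Finset.abs_sum_le_sum_abs _ _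
      _ ≤ ∑ i, p i * e ^ 3 := by
          apply Finset.sum_le_sum
          intro i _
          rw [abs_mul, abs_of_nonneg (hp i)]
          apply mul_le_mul_of_nonneg_left _ (hp i)
          have hxi : |x i| ≤ 1 := (hx i).trans (by linarith)
          have h2 := Real.exp_bound hxi (n := 3) (by norm_num)
          have h3 : ∑ m ∈ Finset.range 3, x i ^ m / m.factorial = 1 + x i + x i ^ 2 / 2 := by
            simp [Finset.sum_range_succ, Nat.factorial]
          rw [h3] at h2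
          have h4 : |Real.exp (x i) - 1 - x i - x i ^ 2 / 2| ≤ |x i| ^ 3 := by
            have : Real.exp (x i) - 1 - x i - x i ^ 2 / 2 = Real.exp (x i) - (1 + x i + x i ^ 2 / 2) := by
              ring
            rw [this]
            refine h2.trans ?_
            have h5 : ((Nat.succ 3 : ℕ) : ℝ) / ((Nat.factorial 3 : ℕ) * (3 : ℕ)) ≤ 1 := by
              norm_num [Nat.factorial]
            calc |x i| ^ 3 * (((Nat.succ 3 : ℕ) : ℝ) / ((Nat.factorial 3 : ℕ) * (3 : ℕ)))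
                ≤ |x i| ^ 3 * 1 := mul_le_mul_of_nonneg_left h5 (by positivity)
              _ = |x i| ^ 3 := mul_one _
          exact h4.trans (pow_le_pow_left₀ (abs_nonneg _) (hx i) 3)
      _ = e ^ 3 := by rw [← Finset.sum_mul, hs, one_mul]
  have he2 : e ^ 2 ≤ e / 4 := by nlinarith
  have he3 : e ^ 3 ≤ e ^ 2 / 4 := by
    have : 0 ≤ e ^ 2 := sq_nonneg _
    nlinarith
  have hyb : |y| ≤ 1.2 * e := by
    have h1 : y = (y - m1 - m2 / 2) + m1 + m2 / 2 := by ring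
    rw [h1]
    have h2 : |m2 / 2| ≤ e ^ 2 / 2 := by rw [abs_of_nonneg (by positivity)]; linarith
    calc |(y - m1 - m2 / 2) + m1 + m2 / 2| ≤ |y - m1 - m2 / 2| + |m1| + |m2 / 2| := by
          exact (abs_add_le _ _).trans (by gcongr; exact abs_add_le _ _)
      _ ≤ e ^ 3 + e + e ^ 2 / 2 := by gcongr
      _ ≤ 1.2 * e := by nlinarith
  have hy1 : |(-y)| < 1 := by rw [abs_neg]; linarith
  have hlog := Real.abs_log_sub_add_sum_range_le hy1 2
  have h3 : ∑ i ∈ Finset.range 2, (-y) ^ (i + 1) / ((i : ℝ) + 1) = -y + y ^ 2 / 2 := by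
    simp [Finset.sum_range_succ]; norm_num
  rw [h3] at hlog
  have h4 : (1 - -y) = ∑ i, p i * Real.exp (x i) := by rw [hy]; ring
  rw [h4, abs_neg] at hlog
  have h5 : |y| ^ (2 + 1) / (1 - |y|) ≤ 2.5 * e ^ 3 := by
    have h6 : (0.7 : ℝ) ≤ 1 - |y| := by linarith
    have h7 : |y| ^ 3 ≤ (1.2 * e) ^ 3 := pow_le_pow_left₀ (abs_nonneg _) hyb 3
    calc |y| ^ (2 + 1) / (1 - |y|) ≤ (1.2 * e) ^ 3 / 0.7 := by
          apply div_le_div₀ (by positivity) h7 (by norm_num) h6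
      _ ≤ 2.5 * e ^ 3 := by
          have : 0 ≤ e ^ 3 := by positivity
          rw [div_le_iff₀ (by norm_num)]
          nlinarith
  have h6 : |y ^ 2 - m1 ^ 2| ≤ 1.7 * e ^ 3 := by
    have h7 : y ^ 2 - m1 ^ 2 = (y - m1) * (y + m1) := by ring
    rw [h7, abs_mul]
    have h8 : |y - m1| ≤ 0.75 * e ^ 2 := by
      have : y - m1 = (y - m1 - m2 / 2) + m2 / 2 := by ring
      rw [this]
      have h2 : |m2 / 2| ≤ e ^ 2 / 2 := by rw [abs_of_nonneg (by positivity)]; linarith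
      calc |(y - m1 - m2 / 2) + m2 / 2| ≤ |y - m1 - m2 / 2| + |m2 / 2| := abs_add_le _ _
        _ ≤ e ^ 3 + e ^ 2 / 2 := by gcongr
        _ ≤ 0.75 * e ^ 2 := by linarith
    have h9 : |y + m1| ≤ 2.2 * e := by
      calc |y + m1| ≤ |y| + |m1| := abs_add_le _ _
        _ ≤ 1.2 * e + e := by gcongr
        _ = 2.2 * e := by ring
    calc |y - m1| * |y + m1| ≤ (0.75 * e ^ 2) * (2.2 * e) := by gcongr
      _ ≤ 1.7 * e ^ 3 := by nlinarith [pow_nonneg he0 3]
  have h7 : Real.log (∑ i, p i * Real.exp (x i)) - (m1 + m2 / 2 - m1 ^ 2 / 2) =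
      (-y + y ^ 2 / 2 + Real.log (∑ i, p i * Real.exp (x i))) + (y - m1 - m2 / 2)
        - (y ^ 2 - m1 ^ 2) / 2 := by ring
  rw [h7]
  have h8 : |(y ^ 2 - m1 ^ 2) / 2| ≤ 0.85 * e ^ 3 := by
    rw [abs_div, abs_of_pos (by norm_num : (0:ℝ) < 2)]
    linarith
  calc |(-y + y ^ 2 / 2 + Real.log (∑ i, p i * Real.exp (x i))) + (y - m1 - m2 / 2)
        - (y ^ 2 - m1 ^ 2) / 2|
      ≤ |(-y + y ^ 2 / 2 + Real.log (∑ i, p i * Real.exp (x i))) + (y - m1 - m2 / 2)|
        + |(y ^ 2 - m1 ^ 2) / 2| := abs_sub _ _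
    _ ≤ |(-y + y ^ 2 / 2 + Real.log (∑ i, p i * Real.exp (x i)))| + |(y - m1 - m2 / 2)|
        + |(y ^ 2 - m1 ^ 2) / 2| := by gcongr; exact abs_add_le _ _
    _ ≤ 2.5 * e ^ 3 + e ^ 3 + 0.85 * e ^ 3 := by
        gcongr
        exact hlog.trans h5
    _ ≤ 6 * e ^ 3 := by
        have : 0 ≤ e ^ 3 := by positivity
        nlinarith

variable {ι : Type*} [Fintype ι] [Nonempty ι]

/-- log-sum-exp -/
noncomputable def lse (β : ℝ) (u : ι → ℝ) : ℝ := (1 / β) * Real.log (∑ i, Real.exp (β * u i))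

lemma lse_pos (β : ℝ) (u : ι → ℝ) : 0 < ∑ i, Real.exp (β * u i) :=
  Finset.sum_pos (fun _ _ => Real.exp_pos _) Finset.univ_nonempty

lemma le_lse {β : ℝ} (hβ : 0 < β) (u : ι → ℝ) (i : ι) : u i ≤ lse β u := by
  unfold lse
  have h1 : Real.exp (β * u i) ≤ ∑ i, Real.exp (β * u i) :=
    Finset.single_le_sum (fun j _ => (Real.exp_pos (β * u j)).le) (Finset.mem_univ i)
  have h2 : β * u i ≤ Real.log (∑ i, Real.exp (β * u i)) := by
    rw [Real.le_log_iff_exp_le (lse_pos β u)]; exact h1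
  rw [one_div, ← div_eq_inv_mul, le_div_iff₀ hβ]
  linarith

lemma lse_le {β : ℝ} (hβ : 0 < β) (u : ι → ℝ) (B : ℝ) (hB : ∀ i, u i ≤ B) :
    lse β u ≤ B + Real.log (Fintype.card ι) / β := by
  unfold lse
  have h1 : ∑ i, Real.exp (β * u i) ≤ Fintype.card ι * Real.exp (β * B) := by
    calc ∑ i, Real.exp (β * u i) ≤ ∑ _i : ι, Real.exp (β * B) := by
          apply Finset.sum_le_sum
          intro i _
          exact Real.exp_le_exp.2 (mul_le_mul_of_nonneg_left (hB i) hβ.le)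
      _ = _ := by simp
  have hc : (0:ℝ) < Fintype.card ι := by exact_mod_cast Fintype.card_pos
  have h2 : Real.log (∑ i, Real.exp (β * u i)) ≤ Real.log (Fintype.card ι) + β * B := by
    calc _ ≤ Real.log (Fintype.card ι * Real.exp (β * B)) :=
          Real.log_le_log (lse_pos β u) h1
      _ = _ := by rw [Real.log_mul hc.ne' (Real.exp_pos _).ne', Real.log_exp]
  rw [one_div, ← div_eq_inv_mul, div_le_iff₀ hβ]
  have : (B + Real.log (Fintype.card ι) / β) * β = Real.log (Fintype.card ι) + β * B := by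
    field_simp; ring
  rw [this]; exact h2

/-- one-step expansion of `lse` -/
lemma lse_step {β : ℝ} (hβ : 0 < β) (u h : ι → ℝ) (s B : ℝ) (hs : 0 ≤ s) (hB : ∀ i, |h i| ≤ B)
    (hsmall : β * s * B ≤ 1/4) (p : ι → ℝ)
    (hp : ∀ i, p i = Real.exp (β * u i) / ∑ j, Real.exp (β * u j)) :
    |lse β (u + s • h) - lse β u - (s * ∑ i, p i * h i +
      (β * s ^ 2 / 2) * (∑ i, p i * h i ^ 2 - (∑ i, p i * h i) ^ 2))| ≤
      6 * β ^ 2 * s ^ 3 * B ^ 3 := by
  have hpos := lse_pos β u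
  have hp0 : ∀ i, 0 ≤ p i := by
    intro i; rw [hp]; positivity
  have hsum : ∑ i, p i = 1 := by
    simp only [hp]
    rw [← Finset.sum_div, div_self hpos.ne']
  have key := log_avg_exp p (fun i => β * s * h i) hp0 hsum (β * s * B) hsmall (by
    intro i
    rw [abs_mul, abs_of_nonneg (by positivity)]
    exact mul_le_mul_of_nonneg_left (hB i) (by positivity))
  have h1 : Real.log (∑ i, p i * Real.exp (β * s * h i)) =
      β * (lse β (u + s • h) - lse β u) := by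
    unfold lse
    have h2 : ∑ i, p i * Real.exp (β * s * h i) =
        (∑ i, Real.exp (β * (u + s • h) i)) / ∑ i, Real.exp (β * u i) := by
      rw [Finset.sum_div]
      refine Finset.sum_congr rfl (fun i _ => ?_)
      rw [hp]
      simp only [Pi.add_apply, Pi.smul_apply, smul_eq_mul]
      rw [mul_add, Real.exp_add, ← mul_assoc]
      ring
    rw [h2, Real.log_div (lse_pos β _).ne' hpos.ne']
    field_simp
  rw [h1] at key
  have e1 : ∑ i, p i * (β * s * h i) = β * s * ∑ i, p i * h i := by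
    rw [Finset.mul_sum]; exact Finset.sum_congr rfl (fun i _ => by ring)
  have e2 : ∑ i, p i * (β * s * h i) ^ 2 = β ^ 2 * s ^ 2 * ∑ i, p i * h i ^ 2 := by
    rw [Finset.mul_sum]; exact Finset.sum_congr rfl (fun i _ => by ring)
  rw [e1, e2] at key
  have h3 : lse β (u + s • h) - lse β u - (s * ∑ i, p i * h i +
      (β * s ^ 2 / 2) * (∑ i, p i * h i ^ 2 - (∑ i, p i * h i) ^ 2)) =
      (1 / β) * (β * (lse β (u + s • h) - lse β u) - (β * s * ∑ i, p i * h i +
        (β ^ 2 * s ^ 2 * ∑ i, p i * h i ^ 2) / 2 - (β * s * ∑ i, p i * h i) ^ 2 / 2)) := by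
    field_simp
    ring
  rw [h3, abs_mul, abs_of_pos (by positivity : (0:ℝ) < 1 / β)]
  calc 1 / β * _ ≤ 1 / β * (6 * (β * s * B) ^ 3) :=
        mul_le_mul_of_nonneg_left key (by positivity)
    _ = 6 * β ^ 2 * s ^ 3 * B ^ 3 := by field_simp

lemma var_formula (p h : ι → ℝ) (hs : ∑ i, p i = 1) :
    ∑ i, p i * h i ^ 2 - (∑ i, p i * h i) ^ 2 =
      (1/2) * ∑ i, ∑ j, p i * p j * (h i - h j) ^ 2 := by
  have h1 : ∀ i j, p i * p j * (h i - h j) ^ 2 =
      p i * h i ^ 2 * p j - 2 * ((p i * h i) * (p j * h j)) + p i * (p j * h j ^ 2) := by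
    intro i j; ring
  simp only [h1, Finset.sum_add_distrib, Finset.sum_sub_distrib]
  have e1 : ∑ i, ∑ j, p i * h i ^ 2 * p j = ∑ i, p i * h i ^ 2 := by
    simp only [← Finset.mul_sum, hs, mul_one]
  have e2 : ∑ i, ∑ j, 2 * ((p i * h i) * (p j * h j)) = 2 * (∑ i, p i * h i) ^ 2 := by
    simp only [← Finset.mul_sum]
    rw [pow_two, Finset.sum_mul]
  have e3 : ∑ i, ∑ j, p i * (p j * h j ^ 2) = ∑ i, p i * h i ^ 2 := by
    simp only [← Finset.mul_sum]
    rw [← Finset.sum_mul, hs, one_mul]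
  rw [e1, e2, e3]
  ring

variable {S S' : Type*} [Fintype S] [DecidableEq S] [Fintype S'] [DecidableEq S']

/-- the sign-linear process given by the array `c` -/
noncomputable def proc (c : ι → S → ℝ) (a : S → ℤˣ) : ι → ℝ := fun i => ∑ s, c i s * sg (a s)

/-- The averaging operator. -/
noncomputable def opr (c : ι → S → ℝ) (s : ℝ) (φ : (ι → ℝ) → ℝ) : (ι → ℝ) → ℝ :=
  fun u => 𝔼 a : S → ℤˣ, φ (u + s • proc c a)

lemma abs_proc_le (c : ι → S → ℝ) (a : S → ℤˣ) (i : ι) :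
    |proc c a i| ≤ ∑ i, ∑ s, |c i s| := by
  unfold proc
  calc |∑ s, c i s * sg (a s)| ≤ ∑ s, |c i s * sg (a s)| := Finset.abs_sum_le_sum_abs _ _
    _ = ∑ s, |c i s| := by simp [abs_mul, abs_sg]
    _ ≤ ∑ i, ∑ s, |c i s| :=
      Finset.single_le_sum (f := fun i => ∑ s, |c i s|)
        (fun j _ => Finset.sum_nonneg (fun _ _ => abs_nonneg _)) (Finset.mem_univ i)

lemma expect_proc_lin (c : ι → S → ℝ) (p : ι → ℝ) :
    𝔼 a : S → ℤˣ, ∑ i, p i * proc c a i = 0 := by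
  rw [Finset.expect_sum_comm]
  simp only [← Finset.mul_expect]
  have : ∀ i, 𝔼 a : S → ℤˣ, proc c a i = 0 := fun i => expect_sum_lin (c i)
  simp [this]

lemma expect_proc_var (c : ι → S → ℝ) (p : ι → ℝ) (hs : ∑ i, p i = 1) :
    𝔼 a : S → ℤˣ, (∑ i, p i * proc c a i ^ 2 - (∑ i, p i * proc c a i) ^ 2) =
      (1/2) * ∑ i, ∑ j, p i * p j * ∑ s, (c i s - c j s) ^ 2 := by
  simp only [var_formula p _ hs]
  rw [← Finset.mul_expect, Finset.expect_sum_comm]
  congr 1
  refine Finset.sum_congr rfl (fun i _ => ?_)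
  rw [Finset.expect_sum_comm]
  refine Finset.sum_congr rfl (fun j _ => ?_)
  rw [← Finset.mul_expect]
  congr 1
  have : ∀ a : S → ℤˣ, proc c a i - proc c a j = ∑ s, (c i s - c j s) * sg (a s) := by
    intro a
    unfold proc
    rw [← Finset.sum_sub_distrib]
    exact Finset.sum_congr rfl (fun s _ => by ring)
  simp only [this]
  exact expect_sum_sq _

/-- one-step comparison -/
lemma opr_step {β : ℝ} (hβ : 0 < β) (c : ι → S → ℝ) (d : ι → S' → ℝ)
    (hcd : ∀ i j, ∑ s, (d i s - d j s) ^ 2 ≤ ∑ s, (c i s - c j s) ^ 2)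
    (B : ℝ) (hB1 : ∑ i, ∑ s, |c i s| ≤ B) (hB2 : ∑ i, ∑ s, |d i s| ≤ B)
    (s : ℝ) (hs : 0 ≤ s) (hsmall : β * s * B ≤ 1/4) (u : ι → ℝ) :
    opr d s (lse β) u - 12 * β ^ 2 * s ^ 3 * B ^ 3 ≤ opr c s (lse β) u := by
  set p : ι → ℝ := fun i => Real.exp (β * u i) / ∑ j, Real.exp (β * u j) with hp
  have hpos := lse_pos β u
  have hp0 : ∀ i, 0 ≤ p i := fun i => by rw [hp]; positivity
  have hsum : ∑ i, p i = 1 := by
    simp only [hp]
    rw [← Finset.sum_div, div_self hpos.ne']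
  have key1 : lse β u + (β * s ^ 2 / 2) * ((1/2) * ∑ i, ∑ j, p i * p j * ∑ s, (c i s - c j s) ^ 2)
      - 6 * β ^ 2 * s ^ 3 * B ^ 3 ≤ opr c s (lse β) u := by
    have h1 : ∀ a : S → ℤˣ, lse β u + (s * ∑ i, p i * proc c a i +
        (β * s ^ 2 / 2) * (∑ i, p i * proc c a i ^ 2 - (∑ i, p i * proc c a i) ^ 2)) -
        6 * β ^ 2 * s ^ 3 * B ^ 3 ≤ lse β (u + s • proc c a) := by
      intro a
      have := lse_step hβ u (proc c a) s B hs (fun i => (abs_proc_le c a i).trans hB1) hsmall p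
        (fun i => rfl)
      rw [abs_le] at this
      linarith [this.1]
    have h2 := Finset.expect_le_expect (s := (Finset.univ : Finset (S → ℤˣ))) (fun a _ => h1 a)
    rw [Finset.expect_sub_distrib, Finset.expect_add_distrib, Finset.expect_add_distrib,
      Fintype.expect_const, Fintype.expect_const, ← Finset.mul_expect, ← Finset.mul_expect,
      expect_proc_lin, expect_proc_var c p hsum] at h2
    simpa [opr] using h2
  have key2 : opr d s (lse β) u ≤
      lse β u + (β * s ^ 2 / 2) * ((1/2) * ∑ i, ∑ j, p i * p j * ∑ s, (d i s - d j s) ^ 2)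
      + 6 * β ^ 2 * s ^ 3 * B ^ 3 := by
    have h1 : ∀ a : S' → ℤˣ, lse β (u + s • proc d a) ≤ lse β u + (s * ∑ i, p i * proc d a i +
        (β * s ^ 2 / 2) * (∑ i, p i * proc d a i ^ 2 - (∑ i, p i * proc d a i) ^ 2)) +
        6 * β ^ 2 * s ^ 3 * B ^ 3 := by
      intro a
      have := lse_step hβ u (proc d a) s B hs (fun i => (abs_proc_le d a i).trans hB2) hsmall p
        (fun i => rfl)
      rw [abs_le] at this
      linarith [this.2]
    have h2 := Finset.expect_le_expect (s := (Finset.univ : Finset (S' → ℤˣ))) (fun a _ => h1 a)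
    rw [Finset.expect_add_distrib, Finset.expect_add_distrib, Finset.expect_add_distrib,
      Fintype.expect_const, Fintype.expect_const, ← Finset.mul_expect, ← Finset.mul_expect,
      expect_proc_lin, expect_proc_var d p hsum] at h2
    simpa [opr] using h2
  have key3 : (β * s ^ 2 / 2) * ((1/2) * ∑ i, ∑ j, p i * p j * ∑ s, (d i s - d j s) ^ 2) ≤
      (β * s ^ 2 / 2) * ((1/2) * ∑ i, ∑ j, p i * p j * ∑ s, (c i s - c j s) ^ 2) := by
    have hpp : ∀ i j, 0 ≤ p i * p j := fun i j => mul_nonneg (hp0 i) (hp0 j)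
    apply mul_le_mul_of_nonneg_left _ (by positivity)
    apply mul_le_mul_of_nonneg_left _ (by norm_num)
    exact Finset.sum_le_sum (fun i _ => Finset.sum_le_sum (fun j _ =>
      mul_le_mul_of_nonneg_left (hcd i j) (hpp i j)))
  linarith

lemma opr_mono (c : ι → S → ℝ) (s : ℝ) {φ ψ : (ι → ℝ) → ℝ} (h : ∀ u, φ u ≤ ψ u) (u : ι → ℝ) :
    opr c s φ u ≤ opr c s ψ u :=
  Finset.expect_le_expect (fun _ _ => h _)

lemma opr_comm (c : ι → S → ℝ) (d : ι → S' → ℝ) (s : ℝ) (φ : (ι → ℝ) → ℝ) :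
    opr c s (opr d s φ) = opr d s (opr c s φ) := by
  funext u
  unfold opr
  rw [Finset.expect_comm]
  refine Finset.expect_congr rfl (fun a _ => Finset.expect_congr rfl (fun b _ => ?_))
  congr 1
  rw [add_assoc, add_assoc, add_comm (s • proc c b)]

lemma opr_sub_const (c : ι → S → ℝ) (s : ℝ) (φ : (ι → ℝ) → ℝ) (K : ℝ) :
    opr c s (fun u => φ u - K) = fun u => opr c s φ u - K := by
  funext u
  unfold opr
  rw [Finset.expect_sub_distrib, Fintype.expect_const]

lemma opr_iter_mono (c : ι → S → ℝ) (s : ℝ) (n : ℕ) {φ ψ : (ι → ℝ) → ℝ} (h : ∀ u, φ u ≤ ψ u)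
    (u : ι → ℝ) : (opr c s)^[n] φ u ≤ (opr c s)^[n] ψ u := by
  induction n generalizing φ ψ with
  | zero => simpa using h u
  | succ n ih =>
    rw [Function.iterate_succ_apply, Function.iterate_succ_apply]
    exact ih (fun u => opr_mono c s h u)

lemma opr_iter_sub_const (c : ι → S → ℝ) (s : ℝ) (n : ℕ) (φ : (ι → ℝ) → ℝ) (K : ℝ) :
    (opr c s)^[n] (fun u => φ u - K) = fun u => (opr c s)^[n] φ u - K := by
  induction n generalizing φ with
  | zero => rfl
  | succ n ih =>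
    rw [Function.iterate_succ_apply, Function.iterate_succ_apply, opr_sub_const, ih]

lemma opr_iter_comm (c : ι → S → ℝ) (d : ι → S' → ℝ) (s : ℝ) (n : ℕ) (φ : (ι → ℝ) → ℝ) :
    opr c s ((opr d s)^[n] φ) = (opr d s)^[n] (opr c s φ) := by
  have : Function.Commute (opr c s) (opr d s) := fun φ => opr_comm c d s φ
  exact (this.iterate_right n) φ

lemma opr_iter_compare {β : ℝ} (hβ : 0 < β) (c : ι → S → ℝ) (d : ι → S' → ℝ)
    (hcd : ∀ i j, ∑ s, (d i s - d j s) ^ 2 ≤ ∑ s, (c i s - c j s) ^ 2)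
    (B : ℝ) (hB1 : ∑ i, ∑ s, |c i s| ≤ B) (hB2 : ∑ i, ∑ s, |d i s| ≤ B)
    (s : ℝ) (hs : 0 ≤ s) (hsmall : β * s * B ≤ 1/4) (n : ℕ) (u : ι → ℝ) :
    (opr d s)^[n] (lse β) u - n * (12 * β ^ 2 * s ^ 3 * B ^ 3) ≤ (opr c s)^[n] (lse β) u := by
  induction n generalizing u with
  | zero => simp
  | succ n ih =>
    set K := 12 * β ^ 2 * s ^ 3 * B ^ 3 with hK
    rw [Function.iterate_succ_apply' (opr c s)]
    have h1 : opr c s (fun u => (opr d s)^[n] (lse β) u - n * K) u ≤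
        opr c s ((opr c s)^[n] (lse β)) u := opr_mono c s ih u
    rw [opr_sub_const] at h1
    simp only [] at h1
    rw [opr_iter_comm c d s n (lse β)] at h1
    have h2 : (opr d s)^[n] (fun u => opr d s (lse β) u - K) u ≤ (opr d s)^[n] (opr c s (lse β)) u :=
      opr_iter_mono d s n (fun u => opr_step hβ c d hcd B hB1 hB2 s hs hsmall u) u
    rw [opr_iter_sub_const] at h2
    simp only [] at h2
    rw [Function.iterate_succ_apply (opr d s)]
    push_cast
    have e : (fun u => opr d s (lse β) u) = opr d s (lse β) := rfl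
    linarith [h1, h2]

/-- expectation of the maximum of the normalised sum of `L` copies -/
noncomputable def emax (c : ι → S → ℝ) (L : ℕ) : ℝ :=
  𝔼 ω : Fin L → S → ℤˣ, Finset.univ.sup' Finset.univ_nonempty
    (fun i => (Real.sqrt L)⁻¹ * ∑ l, proc c (ω l) i)

lemma opr_iter_eq (c : ι → S → ℝ) (s : ℝ) (n : ℕ) (φ : (ι → ℝ) → ℝ) (u : ι → ℝ) :
    (opr c s)^[n] φ u = 𝔼 ω : Fin n → S → ℤˣ, φ (u + s • ∑ l, proc c (ω l)) := by
  induction n generalizing u with
  | zero => simp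
  | succ n ih =>
    rw [Function.iterate_succ_apply']
    show 𝔼 a : S → ℤˣ, (opr c s)^[n] φ (u + s • proc c a) = _
    have h1 : ∀ v, (opr c s)^[n] φ v = 𝔼 ω : Fin n → S → ℤˣ, φ (v + s • ∑ l, proc c (ω l)) := ih
    have h2 : 𝔼 a : S → ℤˣ, (opr c s)^[n] φ (u + s • proc c a) =
        𝔼 a : S → ℤˣ, 𝔼 ω : Fin n → S → ℤˣ, φ ((u + s • proc c a) + s • ∑ l, proc c (ω l)) := by
      exact Finset.expect_congr rfl (fun a _ => h1 _)
    refine h2.trans ?_
    rw [← Finset.expect_product' Finset.univ Finset.univ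
      (fun (a : S → ℤˣ) (ω : Fin n → S → ℤˣ) => φ ((u + s • proc c a) + s • ∑ l, proc c (ω l)))]
    rw [Finset.univ_product_univ]
    refine Fintype.expect_equiv (Fin.consEquiv (fun _ => S → ℤˣ)) _ _ ?_
    rintro ⟨a, ω⟩
    simp only [Fin.consEquiv_apply, Fin.sum_univ_succ, Fin.cons_zero, Fin.cons_succ]
    congr 1
    rw [smul_add, add_assoc]

/-- Comparison theorem (Sudakov-Fernique for normalised sign sums). -/
theorem emax_compare (c : ι → S → ℝ) (d : ι → S' → ℝ)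
    (hcd : ∀ i j, ∑ s, (d i s - d j s) ^ 2 ≤ ∑ s, (c i s - c j s) ^ 2)
    (ε : ℝ) (hε : 0 < ε) :
    ∃ L₀ : ℕ, ∀ L ≥ L₀, emax d L - ε ≤ emax c L := by
  -- choose β
  obtain ⟨β, hβ, hβ2⟩ : ∃ β : ℝ, 0 < β ∧ Real.log (Fintype.card ι) / β ≤ ε / 2 := by
    have h0 : 0 ≤ Real.log (Fintype.card ι) := Real.log_nonneg (by exact_mod_cast Fintype.card_pos)
    refine ⟨2 * (Real.log (Fintype.card ι) + 1) / ε, by positivity, ?_⟩
    rw [div_le_iff₀ (by positivity)]
    field_simp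
    linarith
  set B : ℝ := (∑ i, ∑ s, |c i s|) + (∑ i, ∑ s, |d i s|) + 1 with hB
  have hc0 : 0 ≤ ∑ i, ∑ s, |c i s| := Finset.sum_nonneg (fun _ _ => Finset.sum_nonneg (fun _ _ => abs_nonneg _))
  have hd0 : 0 ≤ ∑ i, ∑ s, |d i s| := Finset.sum_nonneg (fun _ _ => Finset.sum_nonneg (fun _ _ => abs_nonneg _))
  have hBpos : 0 < B := by rw [hB]; linarith
  -- choose L₀
  obtain ⟨L₀, hL0⟩ := exists_nat_ge (max (max 1 ((4 * β * B) ^ 2)) ((2 * 12 * β ^ 2 * B ^ 3 / ε) ^ 2))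
  refine ⟨L₀, fun L hL => ?_⟩
  have hLr : (L₀ : ℝ) ≤ L := by exact_mod_cast hL
  have hL1 : (1:ℝ) ≤ L := le_trans (le_trans (le_max_left _ _) (le_max_left _ _)) (hL0.trans hLr)
  have hL2 : (4 * β * B) ^ 2 ≤ L := le_trans (le_trans (le_max_right _ _) (le_max_left _ _)) (hL0.trans hLr)
  have hL3 : (2 * 12 * β ^ 2 * B ^ 3 / ε) ^ 2 ≤ L := le_trans (le_max_right _ _) (hL0.trans hLr)
  have hsq : 0 < Real.sqrt L := Real.sqrt_pos.2 (by linarith)
  set s : ℝ := (Real.sqrt L)⁻¹ with hs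
  have hs0 : 0 < s := inv_pos.2 hsq
  have hss : s ^ 2 * L = 1 := by
    rw [hs, inv_pow, Real.sq_sqrt (by linarith), inv_mul_cancel₀ (by linarith)]
  have hsmall : β * s * B ≤ 1/4 := by
    have : 4 * β * B ≤ Real.sqrt L := Real.le_sqrt_of_sq_le hL2
    rw [hs]
    have h5 : β * (Real.sqrt L)⁻¹ * B = (β * B) / Real.sqrt L := by field_simp
    rw [h5, div_le_iff₀ hsq]
    linarith
  have key := opr_iter_compare hβ c d hcd B (by rw [hB]; linarith) (by rw [hB]; linarith) s hs0.le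
    hsmall L 0
  have herr : (L:ℝ) * (12 * β ^ 2 * s ^ 3 * B ^ 3) ≤ ε / 2 := by
    have h6 : (L:ℝ) * (12 * β ^ 2 * s ^ 3 * B ^ 3) = 12 * β ^ 2 * B ^ 3 * s := by
      have : (L:ℝ) * (12 * β ^ 2 * s ^ 3 * B ^ 3) = 12 * β ^ 2 * B ^ 3 * s * (s ^ 2 * L) := by ring
      rw [this, hss, mul_one]
    rw [h6]
    have h7 : 2 * 12 * β ^ 2 * B ^ 3 / ε ≤ Real.sqrt L := Real.le_sqrt_of_sq_le hL3
    rw [div_le_iff₀ hε] at h7
    rw [hs, ← div_eq_mul_inv, div_le_iff₀ hsq]
    linarith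
  -- lower bound emax c by lse
  have hlow : (opr c s)^[L] (lse β) 0 - ε / 2 ≤ emax c L := by
    rw [opr_iter_eq]
    unfold emax
    have h8 : 𝔼 ω : Fin L → S → ℤˣ, (lse β (0 + s • ∑ l, proc c (ω l)) - ε / 2) ≤
        𝔼 ω : Fin L → S → ℤˣ, Finset.univ.sup' Finset.univ_nonempty
          (fun i => (Real.sqrt L)⁻¹ * ∑ l, proc c (ω l) i) := by
      apply Finset.expect_le_expect
      intro ω _
      have h9 := lse_le hβ (0 + s • ∑ l, proc c (ω l)) (Finset.univ.sup' Finset.univ_nonempty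
          (fun i => (Real.sqrt L)⁻¹ * ∑ l, proc c (ω l) i)) (by
        intro i
        have h10 : (0 + s • ∑ l, proc c (ω l)) i = (Real.sqrt L)⁻¹ * ∑ l, proc c (ω l) i := by
          simp [hs, Finset.sum_apply]
        rw [h10]
        exact Finset.le_sup' (fun i => (Real.sqrt L)⁻¹ * ∑ l, proc c (ω l) i) (Finset.mem_univ i))
      linarith
    rw [Finset.expect_sub_distrib, Fintype.expect_const] at h8
    exact h8
  have hup : emax d L ≤ (opr d s)^[L] (lse β) 0 := by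
    rw [opr_iter_eq]
    unfold emax
    apply Finset.expect_le_expect
    intro ω _
    apply Finset.sup'_le
    intro i _
    have h10 : (0 + s • ∑ l, proc d (ω l)) i = (Real.sqrt L)⁻¹ * ∑ l, proc d (ω l) i := by
      simp [hs, Finset.sum_apply]
    have h9 := le_lse hβ (0 + s • ∑ l, proc d (ω l)) i
    rw [h10] at h9
    exact h9
  linarith

end H59.RB
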