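import Pool.Agent.H59.BMOA.Scal
import Pool.Agent.H59.BMOA.Contr

/-! The Marcus-Pisier lower bound for Rademacher series. -/

namespace H59.RB

set_option linter.unusedSectionVars false

open Finset BigOperators MeasureTheory

section
variable {κ : Type} [Fintype κ] [DecidableEq κ]
variable {T : Type} [AddCommGroup T] [MeasurableSpace T] {χ : κ → T → ℂ}

/-- real coordinates of the process -/
noncomputable def cc (χ : κ → T → ℂ) (b : κ → ℂ) (x : T) : κ ⊕ κ → ℝ :=
  Sum.elim (fun k => (b k * χ k x).re) (fun k => -(b k * χ k x).im)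

lemma dsq_cc (b : κ → ℂ) (x y : T) :
    dsq (cc χ b) x y = ∑ k, ‖b k‖ ^ 2 * ‖χ k x - χ k y‖ ^ 2 := by
  unfold dsq
  rw [Fintype.sum_sum_type, ← Finset.sum_add_distrib]
  refine Finset.sum_congr rfl (fun k _ => ?_)
  simp only [cc, Sum.elim_inl, Sum.elim_inr]
  rw [← mul_pow, ← norm_mul, mul_sub, Complex.sq_norm, Complex.normSq_apply, Complex.sub_re,
    Complex.sub_im]
  ring

lemma dsq_cc_inv (h : Ch χ) (b : κ → ℂ) (x y z : T) :
    dsq (cc χ b) (z + x) (z + y) = dsq (cc χ b) x y := by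
  rw [dsq_cc, dsq_cc]
  refine Finset.sum_congr rfl (fun k _ => ?_)
  rw [h.map_add, h.map_add, ← mul_sub, norm_mul, h.norm_eq, one_mul]

lemma dd_cc_zero (h : Ch χ) (b : κ → ℂ) (x : T) :
    dd (cc χ b) x 0 = Real.sqrt (dm χ b Finset.univ x) := by
  unfold dd
  rw [dsq_cc]
  unfold dm
  simp only [h.map_zero]

/-- maximum over finitely many points -/
noncomputable def Nm (χ : κ → T → ℂ) {ι : Type} [Fintype ι] [Nonempty ι] (x : ι → T) (u : κ → ℂ) : ℝ :=
  Finset.univ.sup' Finset.univ_nonempty (fun i => ‖∑ k, u k * χ k (x i)‖)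

lemma Nm_SN {ι : Type} [Fintype ι] [Nonempty ι] (x : ι → T) : SN (Nm χ x) := by
  constructor
  · intro u v
    unfold Nm
    apply Finset.sup'_le
    intro i _
    have h1 : ∑ k, (u + v) k * χ k (x i) = ∑ k, u k * χ k (x i) + ∑ k, v k * χ k (x i) := by
      rw [← Finset.sum_add_distrib]
      exact Finset.sum_congr rfl (fun k _ => by rw [Pi.add_apply]; ring)
    rw [h1]
    refine (norm_add_le _ _).trans (add_le_add ?_ ?_)
    · exact Finset.le_sup' (fun i => ‖∑ k, u k * χ k (x i)‖) (Finset.mem_univ i)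
    · exact Finset.le_sup' (fun i => ‖∑ k, v k * χ k (x i)‖) (Finset.mem_univ i)
  · intro r u hr
    have h1 : ∀ i, ‖∑ k, (r : ℂ) * u k * χ k (x i)‖ = r * ‖∑ k, u k * χ k (x i)‖ := by
      intro i
      have : ∑ k, (r : ℂ) * u k * χ k (x i) = (r : ℂ) * ∑ k, u k * χ k (x i) := by
        rw [Finset.mul_sum]; exact Finset.sum_congr rfl (fun k _ => by ring)
      rw [this, norm_mul, Complex.norm_real, Real.norm_eq_abs, abs_of_nonneg hr]
    unfold Nm
    simp only [h1]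
    apply le_antisymm
    · apply Finset.sup'_le
      intro i _
      exact mul_le_mul_of_nonneg_left
        (Finset.le_sup' (fun i => ‖∑ k, u k * χ k (x i)‖) (Finset.mem_univ i)) hr
    · obtain ⟨i, _, hi⟩ := Finset.exists_mem_eq_sup' Finset.univ_nonempty
        (fun i => ‖∑ k, u k * χ k (x i)‖)
      rw [hi]
      exact Finset.le_sup' (fun i => r * ‖∑ k, u k * χ k (x i)‖) (Finset.mem_univ i)

lemma Nm_nonneg {ι : Type} [Fintype ι] [Nonempty ι] (x : ι → T) (u : κ → ℂ) : 0 ≤ Nm χ x u := by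
  unfold Nm
  obtain ⟨i⟩ := (inferInstance : Nonempty ι)
  exact (norm_nonneg _).trans (Finset.le_sup' (fun i => ‖∑ k, u k * χ k (x i)‖) (Finset.mem_univ i))

/-- normalised sums -/
noncomputable def eta (L : ℕ) (ω : Fin L → κ → ℤˣ) (k : κ) : ℝ := (Real.sqrt L)⁻¹ * ∑ l, sg (ω l k)

lemma eta_flip (L : ℕ) (τ : κ → ℤˣ) (ω : Fin L → κ → ℤˣ) (k : κ) :
    eta L (fun l => τ * ω l) k = sg (τ k) * eta L ω k := by
  unfold eta
  simp only [Pi.mul_apply, sg_mul, ← Finset.mul_sum]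
  ring

lemma expect_flip_all (L : ℕ) (τ : κ → ℤˣ) (F : (Fin L → κ → ℤˣ) → ℝ) :
    𝔼 ω : Fin L → κ → ℤˣ, F (fun l => τ * ω l) = 𝔼 ω : Fin L → κ → ℤˣ, F ω :=
  Fintype.expect_equiv (Equiv.mulLeft (fun _ : Fin L => τ)) _ _ (fun _ => rfl)

/-- splitting of the sign arrays -/
def splitS (L : ℕ) (κ : Type) : (Fin L → (κ ⊕ κ) → ℤˣ) ≃ (Fin L → κ → ℤˣ) × (Fin L → κ → ℤˣ) where
  toFun := fun ω => (fun l k => ω l (Sum.inl k), fun l k => ω l (Sum.inr k))
  invFun := fun p l => Sum.elim (p.1 l) (p.2 l)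
  left_inv := by
    intro ω; funext l s; rcases s with s | s <;> rfl
  right_inv := by intro p; rfl

lemma marg_inl (L : ℕ) (F : (Fin L → κ → ℤˣ) → ℝ) :
    𝔼 ω : Fin L → (κ ⊕ κ) → ℤˣ, F (fun l k => ω l (Sum.inl k)) = 𝔼 ω : Fin L → κ → ℤˣ, F ω := by
  have : 𝔼 ω : Fin L → (κ ⊕ κ) → ℤˣ, F (fun l k => ω l (Sum.inl k)) =
      𝔼 p : (Fin L → κ → ℤˣ) × (Fin L → κ → ℤˣ), F p.1 :=
    Fintype.expect_equiv (splitS L κ) _ _ (fun _ => rfl)
  rw [this, ← Finset.univ_product_univ, Finset.expect_product]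
  simp

lemma marg_inr (L : ℕ) (F : (Fin L → κ → ℤˣ) → ℝ) :
    𝔼 ω : Fin L → (κ ⊕ κ) → ℤˣ, F (fun l k => ω l (Sum.inr k)) = 𝔼 ω : Fin L → κ → ℤˣ, F ω := by
  have : 𝔼 ω : Fin L → (κ ⊕ κ) → ℤˣ, F (fun l k => ω l (Sum.inr k)) =
      𝔼 p : (Fin L → κ → ℤˣ) × (Fin L → κ → ℤˣ), F p.2 :=
    Fintype.expect_equiv (splitS L κ) _ _ (fun _ => rfl)
  rw [this, ← Finset.univ_product_univ, Finset.expect_product]
  simp

lemma emax_le_eta (b : κ → ℂ) {ι : Type} [Fintype ι] [Nonempty ι] (x : ι → T) (L : ℕ) :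
    emax (fun i => cc χ b (x i)) L ≤
      2 * 𝔼 ω : Fin L → κ → ℤˣ, Nm χ x (fun k => (eta L ω k : ℂ) * b k) := by
  -- pointwise bound
  have h1 : ∀ ω : Fin L → (κ ⊕ κ) → ℤˣ, Finset.univ.sup' Finset.univ_nonempty
      (fun i => (Real.sqrt L)⁻¹ * ∑ l, proc (fun i => cc χ b (x i)) (ω l) i) ≤
      Nm χ x (fun k => (eta L (fun l k => ω l (Sum.inl k)) k : ℂ) * b k) +
      Nm χ x (fun k => (eta L (fun l k => ω l (Sum.inr k)) k : ℂ) * b k) := by
    intro ω
    apply Finset.sup'_le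
    intro i _
    have h2 : (Real.sqrt L)⁻¹ * ∑ l, proc (fun i => cc χ b (x i)) (ω l) i =
        (∑ k, (eta L (fun l k => ω l (Sum.inl k)) k : ℂ) * b k * χ k (x i)).re -
        (∑ k, (eta L (fun l k => ω l (Sum.inr k)) k : ℂ) * b k * χ k (x i)).im := by
      rw [Complex.re_sum, Complex.im_sum, ← Finset.sum_sub_distrib]
      have h3 : ∀ l, proc (fun i => cc χ b (x i)) (ω l) i = ∑ k, ((b k * χ k (x i)).re * sg (ω l (Sum.inl k))
          - (b k * χ k (x i)).im * sg (ω l (Sum.inr k))) := by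
        intro l
        unfold proc
        rw [Fintype.sum_sum_type, ← Finset.sum_add_distrib]
        refine Finset.sum_congr rfl (fun k _ => ?_)
        simp only [cc, Sum.elim_inl, Sum.elim_inr]
        ring
      simp only [h3]
      rw [Finset.sum_comm, Finset.mul_sum]
      refine Finset.sum_congr rfl (fun k _ => ?_)
      rw [mul_assoc, mul_assoc, Complex.re_ofReal_mul, Complex.im_ofReal_mul]
      unfold eta
      rw [Finset.sum_sub_distrib, ← Finset.mul_sum, ← Finset.mul_sum]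
      ring
    rw [h2]
    have h4 : (∑ k, (eta L (fun l k => ω l (Sum.inl k)) k : ℂ) * b k * χ k (x i)).re ≤
        Nm χ x (fun k => (eta L (fun l k => ω l (Sum.inl k)) k : ℂ) * b k) :=
      (Complex.re_le_norm _).trans (Finset.le_sup'
        (fun i => ‖∑ k, (eta L (fun l k => ω l (Sum.inl k)) k : ℂ) * b k * χ k (x i)‖) (Finset.mem_univ i))
    have h5 : -(∑ k, (eta L (fun l k => ω l (Sum.inr k)) k : ℂ) * b k * χ k (x i)).im ≤
        Nm χ x (fun k => (eta L (fun l k => ω l (Sum.inr k)) k : ℂ) * b k) :=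
      ((neg_le_abs _).trans (Complex.abs_im_le_norm _)).trans (Finset.le_sup'
        (fun i => ‖∑ k, (eta L (fun l k => ω l (Sum.inr k)) k : ℂ) * b k * χ k (x i)‖) (Finset.mem_univ i))
    linarith
  have h6 := Finset.expect_le_expect (s := (Finset.univ : Finset (Fin L → (κ ⊕ κ) → ℤˣ)))
    (fun ω _ => h1 ω)
  unfold emax
  refine h6.trans (le_of_eq ?_)
  rw [Finset.expect_add_distrib]
  rw [marg_inl L (fun ω => Nm χ x (fun k => (eta L ω k : ℂ) * b k)),
    marg_inr L (fun ω => Nm χ x (fun k => (eta L ω k : ℂ) * b k))]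
  ring

/-- truncation -/
noncomputable def tr (K y : ℝ) : ℝ := if |y| ≤ K then y else 0

lemma tr_odd (K : ℝ) (e : ℤˣ) (y : ℝ) : tr K (sg e * y) = sg e * tr K y := by
  unfold tr
  rw [abs_mul, abs_sg, one_mul]
  split_ifs <;> simp

lemma abs_tr_le (K y : ℝ) (hK : 0 ≤ K) : |tr K y| ≤ K := by
  unfold tr
  split_ifs with h
  · exact h
  · simpa using hK

lemma tail_sq_le (K y : ℝ) (hK : 0 < K) : (y - tr K y) ^ 2 ≤ y ^ 4 / K ^ 2 := by
  unfold tr
  split_ifs with h
  · simp; positivity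
  · push Not at h
    rw [sub_zero, le_div_iff₀ (by positivity)]
    have h1 : K ^ 2 ≤ y ^ 2 := by
      rw [← sq_abs y]; exact pow_le_pow_left₀ hK.le h.le 2
    nlinarith [sq_nonneg y]

lemma expect_eta_fourth (L : ℕ) (hL : 1 ≤ L) (k : κ) :
    𝔼 ω : Fin L → κ → ℤˣ, eta L ω k ^ 4 ≤ 40 := by
  -- swap to function of k
  have h1 : 𝔼 ω : Fin L → κ → ℤˣ, eta L ω k ^ 4 =
      𝔼 τ : κ → Fin L → ℤˣ, (∑ l, (Real.sqrt L)⁻¹ * sg (τ k l)) ^ 4 := by
    refine Fintype.expect_equiv (Equiv.piComm _) _ _ ?_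
    intro ω
    unfold eta
    rw [← Finset.mul_sum]
    rfl
  rw [h1, expect_marginal k (fun τ : Fin L → ℤˣ => (∑ l, (Real.sqrt L)⁻¹ * sg (τ l)) ^ 4)]
  apply expect_fourth (fun _ : Fin L => (Real.sqrt L)⁻¹)
  have hLpos : (0:ℝ) < L := by exact_mod_cast hL
  simp only [inv_pow, Real.sq_sqrt hLpos.le, Finset.sum_const, Finset.card_univ,
    Fintype.card_fin, nsmul_eq_mul]
  rw [mul_inv_cancel₀ hLpos.ne']

section MPthm
variable [MeasurableAdd₂ T] [MeasurableNeg T]
variable (μ : Measure T) [IsProbabilityMeasure μ] [μ.IsAddLeftInvariant] [μ.IsNegInvariant]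

/-- volume of balls for the metric of `b` -/
noncomputable def VB (χ : κ → T → ℂ) (b : κ → ℂ) (r : ℝ) : ℝ :=
  μ.real {x | Real.sqrt (dm χ b Finset.univ x) ≤ r}

lemma VV_cc (h : Ch χ) (b : κ → ℂ) (r : ℝ) : VV μ (cc χ b) r = VB μ χ b r := by
  unfold VV VB
  simp only [dd_cc_zero h]

/-- normalised indicator of a ball -/
noncomputable def phib (χ : κ → T → ℂ) (b : κ → ℂ) (r : ℝ) (x : T) : ℝ :=
  Set.indicator {x | Real.sqrt (dm χ b Finset.univ x) ≤ r} (fun _ => (VB μ χ b r)⁻¹) x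

lemma meas_ball (h : Ch χ) (b : κ → ℂ) (r : ℝ) :
    MeasurableSet {x : T | Real.sqrt (dm χ b Finset.univ x) ≤ r} :=
  measurableSet_le (measurable_dm h b Finset.univ).sqrt measurable_const

lemma dens_phib (h : Ch χ) (b : κ → ℂ) (r : ℝ) (M : ℝ) (hM : 0 < M) (hV : M⁻¹ ≤ VB μ χ b r) :
    Dens μ (phib μ χ b r) M := by
  have hVpos : 0 < VB μ χ b r := lt_of_lt_of_le (inv_pos.2 hM) hV
  refine ⟨measurable_const.indicator (meas_ball h b r), ?_, ?_, ?_⟩
  · intro s
    unfold phib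
    exact Set.indicator_nonneg (fun _ _ => (inv_pos.2 hVpos).le) _
  · intro s
    unfold phib
    apply Set.indicator_le' (fun _ _ => ?_) (fun _ _ => hM.le)
    rw [inv_le_comm₀ hVpos hM]
    exact hV
  · unfold phib
    rw [integral_indicator (meas_ball h b r), setIntegral_const, smul_eq_mul]
    exact mul_inv_cancel₀ hVpos.ne'

lemma PP_eq_sum (h : Ch χ) (a : κ → ℂ) {φ : T → ℝ} {M : ℝ} (hφ : Dens μ φ M) (B : Finset κ) :
    PP μ χ a φ B = ∑ k ∈ B, ‖a k‖ ^ 2 * ∫ s, φ s * ‖χ k s - 1‖ ^ 2 ∂μ := by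
  unfold PP dm
  have h1 : ∀ s, φ s * ∑ k ∈ B, ‖a k‖ ^ 2 * ‖χ k s - 1‖ ^ 2 =
      ∑ k ∈ B, ‖a k‖ ^ 2 * (φ s * ‖χ k s - 1‖ ^ 2) := by
    intro s
    rw [Finset.mul_sum]
    exact Finset.sum_congr rfl (fun k _ => by ring)
  simp only [h1]
  rw [integral_finsetSum]
  · exact Finset.sum_congr rfl (fun k _ => integral_const_mul _ _)
  · intro k _
    apply Integrable.const_mul
    apply integrable_mul_bdd_real μ hφ _ (((h.meas k).sub_const 1).norm.pow_const 2) (2 ^ 2)
    intro s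
    rw [abs_of_nonneg (by positivity)]
    apply pow_le_pow_left₀ (norm_nonneg _)
    calc ‖χ k s - 1‖ ≤ ‖χ k s‖ + ‖(1:ℂ)‖ := norm_sub_le _ _
      _ = 2 := by rw [h.norm_eq]; simp; norm_num

lemma PP_phib_le (h : Ch χ) (b : κ → ℂ) (r : ℝ) (hr : 0 ≤ r) (M : ℝ) (hM : 0 < M)
    (hV : M⁻¹ ≤ VB μ χ b r) : PP μ χ b (phib μ χ b r) Finset.univ ≤ r ^ 2 := by
  have hd := dens_phib μ h b r M hM hV
  unfold PP
  calc ∫ s, phib μ χ b r s * dm χ b Finset.univ s ∂μ ≤ ∫ s, phib μ χ b r s * r ^ 2 ∂μ := by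
        apply integral_mono
        · apply integrable_mul_bdd_real μ hd _ (measurable_dm h b _) (4 * en b Finset.univ)
          intro s
          rw [abs_of_nonneg (dm_nonneg _ _ _)]
          exact dm_le h b _ s
        · exact (hd.integrable μ).mul_const _
        · intro s
          simp only []
          by_cases hs : Real.sqrt (dm χ b Finset.univ s) ≤ r
          · apply mul_le_mul_of_nonneg_left _ (hd.nonneg s)
            rw [Real.sqrt_le_left hr] at hs
            exact hs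
          · unfold phib
            rw [Set.indicator_of_notMem (by exact hs)]
            simp
    _ = r ^ 2 := by rw [integral_mul_const, hd.one, one_mul]

lemma scalar_Nm (h : Ch χ) (β : κ → ℂ) (R : ℕ) (φ : ℕ → T → ℝ)
    (hφ : ∀ n ≤ R, Dens μ (φ n) (2 ^ (2 ^ n))) (hcard : (Fintype.card κ : ℝ) ≤ 2 ^ R) (hR : 1 ≤ R)
    {ι : Type} [Fintype ι] [Nonempty ι] (x : ι → T) :
    𝔼 τ : κ → ℤˣ, Nm χ x (fun k => (sg (τ k) : ℂ) * β k) ≤
      13 * (Real.sqrt (en β Finset.univ) + 4 * ∑ n ∈ Finset.range (R+1), Real.sqrt 2 ^ n *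
        Real.sqrt (PP μ χ β (φ n) Finset.univ)) := by
  obtain ⟨Ξ, hΞ1, hΞ0, hΞ⟩ := scalar_upper μ h β Finset.univ R φ hφ (by simpa using hcard) hR
  set K := Real.sqrt (en β Finset.univ) + 4 * ∑ n ∈ Finset.range (R+1), Real.sqrt 2 ^ n *
        Real.sqrt (PP μ χ β (φ n) Finset.univ) with hK
  have hK0 : 0 ≤ K := by
    rw [hK]
    have : 0 ≤ ∑ n ∈ Finset.range (R+1), Real.sqrt 2 ^ n *
        Real.sqrt (PP μ χ β (φ n) Finset.univ) := Finset.sum_nonneg (fun n _ => by positivity)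
    positivity
  calc 𝔼 τ : κ → ℤˣ, Nm χ x (fun k => (sg (τ k) : ℂ) * β k) ≤ 𝔼 τ : κ → ℤˣ, Ξ τ * K := by
        apply Finset.expect_le_expect
        intro τ _
        unfold Nm
        apply Finset.sup'_le
        intro i _
        have h1 := hΞ τ (x i)
        have h2 : ∑ k, (sg (τ k) : ℂ) * β k * χ k (x i) = ∑ k, β k * (sg (τ k) : ℂ) * χ k (x i) :=
          Finset.sum_congr rfl (fun k _ => by ring)
        rw [h2]
        exact h1
    _ = (𝔼 τ, Ξ τ) * K := by rw [Finset.expect_mul]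
    _ ≤ 13 * K := mul_le_mul_of_nonneg_right hΞ1 hK0

/-- Marcus-Pisier lower bound. -/
theorem MP_lower (h : Ch χ) (b : κ → ℂ) (hV : ∀ r > 0, 0 < VB μ χ b r) (e : ℕ → ℝ)
    (he0 : ∀ n, 0 ≤ e n) (he1 : ∀ n, (1/2 : ℝ) ^ (2 ^ n) ≤ VB μ χ b (e n))
    (he2 : ∀ n r, r < e n → VB μ χ b r < (1/2) ^ (2 ^ n)) (E0 : ℝ)
    (hE0 : ∀ (ι : Type) [Fintype ι] [Nonempty ι] (x : ι → T),
      𝔼 τ : κ → ℤˣ, Nm χ x (fun k => (sg (τ k) : ℂ) * b k) ≤ E0) (R : ℕ) :
    ∑ n ∈ Finset.range (R+1), Real.sqrt 2 ^ n * e n ≤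
      10 ^ 12 * (E0 + Real.sqrt (en b Finset.univ)) := by
  set s := Real.sqrt (en b Finset.univ) with hs
  have hs0 : 0 ≤ s := Real.sqrt_nonneg _
  have hE00 : 0 ≤ E0 := by
    refine le_trans ?_ (hE0 Unit (fun _ => 0))
    exact Finset.expect_nonneg (fun τ _ => Nm_nonneg _ _)
  -- the diameter
  have hdiam : ∀ x, Real.sqrt (dm χ b Finset.univ x) ≤ 2 * s := by
    intro x
    have h1 := dm_le h b Finset.univ x
    have h2 : 2 * s = Real.sqrt (4 * en b Finset.univ) := by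
      rw [hs, Real.sqrt_mul (by norm_num)]
      congr 1
      rw [show (4:ℝ) = 2 ^ 2 by norm_num, Real.sqrt_sq (by norm_num)]
    rw [h2]
    exact Real.sqrt_le_sqrt h1
  have hVD : ∀ D, 2 * s ≤ D → VB μ χ b D = 1 := by
    intro D hD
    unfold VB
    have : {x | Real.sqrt (dm χ b Finset.univ x) ≤ D} = Set.univ := by
      ext x
      simp only [Set.mem_ofPred_eq, Set.mem_univ, iff_true]
      exact (hdiam x).trans hD
    rw [this]; simp
  have heD : ∀ n, e n ≤ 2 * s := by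
    intro n
    by_contra hcon
    push Not at hcon
    have h1 := he2 n (2 * s) hcon
    rw [hVD _ le_rfl] at h1
    have h2 : ((1:ℝ)/2) ^ (2 ^ n) ≤ 1 := pow_le_one₀ (by norm_num) (by norm_num)
    linarith
  rcases hs0.eq_or_lt with hsz | hspos
  · -- trivial case
    have : ∀ n, e n = 0 := fun n => le_antisymm (by have := heD n; rw [← hsz] at this; simpa using this) (he0 n)
    simp only [this, mul_zero, Finset.sum_const_zero]
    positivity
  -- choose R'
  obtain ⟨R', hR1, hR2, hR3⟩ : ∃ R' : ℕ, R ≤ R' ∧ 1 ≤ R' ∧ (Fintype.card κ : ℝ) ≤ 2 ^ R' := by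
    refine ⟨R + 1 + Fintype.card κ, by omega, by omega, ?_⟩
    have h1 : Fintype.card κ ≤ 2 ^ (R + 1 + Fintype.card κ) :=
      (Nat.lt_two_pow_self).le.trans (Nat.pow_le_pow_right (by norm_num) (by omega))
    exact_mod_cast h1
  set S := ∑ n ∈ Finset.range (R'+1), Real.sqrt 2 ^ n * e n with hS
  have hSR : ∑ n ∈ Finset.range (R+1), Real.sqrt 2 ^ n * e n ≤ S :=
    Finset.sum_le_sum_of_subset_of_nonneg (Finset.range_mono (by omega))
      (fun n _ _ => mul_nonneg (by positivity) (he0 n))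
  refine hSR.trans ?_
  obtain ⟨ι, i1, i2, x, L₀, hL₀⟩ := ent_lower μ (cc χ b) (dsq_cc_inv h b) (2 * s) (by positivity)
    (fun x => by rw [dd_cc_zero h]; exact hdiam x) (fun r hr => by rw [VV_cc μ h]; exact hV r hr) e R'
    (fun n _ => heD n) (fun n _ r hr => by rw [VV_cc μ h]; exact he2 n r hr)
  set L := max L₀ 1 with hL
  have hL1 : 1 ≤ L := le_max_right _ _
  have key := hL₀ L (le_max_left _ _)
  have key2 := emax_le_eta b x L (χ := χ)
  -- densities
  set φ : ℕ → T → ℝ := fun n => phib μ χ b (e n) with hφ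
  have hinv : ∀ n : ℕ, ((2:ℝ) ^ (2 ^ n))⁻¹ ≤ VB μ χ b (e n) := by
    intro n
    have := he1 n
    rwa [one_div, inv_pow] at this
  have hdens : ∀ n, Dens μ (φ n) (2 ^ (2 ^ n)) := fun n =>
    dens_phib μ h b (e n) (2 ^ (2 ^ n)) (by positivity) (hinv n)
  have hPPle : ∀ n, PP μ χ b (φ n) Finset.univ ≤ e n ^ 2 := fun n =>
    PP_phib_le μ h b (e n) (he0 n) (2 ^ (2 ^ n)) (by positivity) (hinv n)
  -- truncation
  set K : ℝ := 2 * 10 ^ 7 with hK
  have hKpos : 0 < K := by rw [hK]; norm_num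
  set δ : ℝ := 40 / K ^ 2 with hδ
  have hδ0 : 0 ≤ δ := by positivity
  set g : (Fin L → κ → ℤˣ) → κ → ℝ := fun ω k => eta L ω k - tr K (eta L ω k) with hg
  have hgsq : ∀ k, 𝔼 ω, g ω k ^ 2 ≤ δ := by
    intro k
    calc 𝔼 ω, g ω k ^ 2 ≤ 𝔼 ω : Fin L → κ → ℤˣ, eta L ω k ^ 4 / K ^ 2 :=
          Finset.expect_le_expect (fun ω _ => tail_sq_le K _ hKpos)
      _ = (𝔼 ω : Fin L → κ → ℤˣ, eta L ω k ^ 4) / K ^ 2 := by rw [← Finset.expect_div]
      _ ≤ 40 / K ^ 2 := by
          apply div_le_div_of_nonneg_right (expect_eta_fourth L hL1 k) (by positivity)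
  have hSN := Nm_SN (χ := χ) x
  have h1 : 𝔼 ω : Fin L → κ → ℤˣ, Nm χ x (fun k => (eta L ω k : ℂ) * b k) ≤
      K * E0 + 13 * Real.sqrt δ * (s + 4 * S) := by
    have h2 : ∀ ω : Fin L → κ → ℤˣ, Nm χ x (fun k => (eta L ω k : ℂ) * b k) ≤
        Nm χ x (fun k => (tr K (eta L ω k) : ℂ) * b k) + Nm χ x (fun k => (g ω k : ℂ) * b k) := by
      intro ω
      refine le_trans (le_of_eq ?_) (hSN.add _ _)
      congr 1
      funext k
      simp only [hg, Pi.add_apply]
      push_cast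
      ring
    -- first part
    have h3 : 𝔼 ω : Fin L → κ → ℤˣ, Nm χ x (fun k => (tr K (eta L ω k) : ℂ) * b k) ≤ K * E0 := by
      have h4 : 𝔼 ω : Fin L → κ → ℤˣ, Nm χ x (fun k => (tr K (eta L ω k) : ℂ) * b k) =
          𝔼 τ : κ → ℤˣ, 𝔼 ω : Fin L → κ → ℤˣ,
            Nm χ x (fun k => (sg (τ k) : ℂ) * ((tr K (eta L ω k) : ℂ) * b k)) := by
        have h5 : ∀ τ : κ → ℤˣ, 𝔼 ω : Fin L → κ → ℤˣ,
            Nm χ x (fun k => (sg (τ k) : ℂ) * ((tr K (eta L ω k) : ℂ) * b k)) =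
            𝔼 ω : Fin L → κ → ℤˣ, Nm χ x (fun k => (tr K (eta L ω k) : ℂ) * b k) := by
          intro τ
          rw [← expect_flip_all L τ (fun ω => Nm χ x (fun k => (tr K (eta L ω k) : ℂ) * b k))]
          refine Finset.expect_congr rfl (fun ω _ => ?_)
          congr 1
          funext k
          rw [eta_flip, tr_odd]
          push_cast; ring
        simp only [h5]
        rw [Fintype.expect_const]
      rw [h4, Finset.expect_comm]
      calc _ ≤ 𝔼 ω : Fin L → κ → ℤˣ, K * E0 := by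
            apply Finset.expect_le_expect
            intro ω _
            exact (contraction_K hSN b K hKpos (fun k => tr K (eta L ω k))
              (fun k => abs_tr_le K _ hKpos.le)).trans (mul_le_mul_of_nonneg_left (hE0 ι x) hKpos.le)
        _ = K * E0 := Fintype.expect_const _
    -- second part
    have h6 : 𝔼 ω : Fin L → κ → ℤˣ, Nm χ x (fun k => (g ω k : ℂ) * b k) ≤
        13 * Real.sqrt δ * (s + 4 * S) := by
      have h4 : 𝔼 ω : Fin L → κ → ℤˣ, Nm χ x (fun k => (g ω k : ℂ) * b k) =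
          𝔼 τ : κ → ℤˣ, 𝔼 ω : Fin L → κ → ℤˣ,
            Nm χ x (fun k => (sg (τ k) : ℂ) * ((g ω k : ℂ) * b k)) := by
        have h5 : ∀ τ : κ → ℤˣ, 𝔼 ω : Fin L → κ → ℤˣ,
            Nm χ x (fun k => (sg (τ k) : ℂ) * ((g ω k : ℂ) * b k)) =
            𝔼 ω : Fin L → κ → ℤˣ, Nm χ x (fun k => (g ω k : ℂ) * b k) := by
          intro τ
          rw [← expect_flip_all L τ (fun ω => Nm χ x (fun k => (g ω k : ℂ) * b k))]
          refine Finset.expect_congr rfl (fun ω _ => ?_)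
          congr 1
          funext k
          simp only [hg]
          rw [eta_flip, tr_odd]
          push_cast; ring
        simp only [h5]
        rw [Fintype.expect_const]
      rw [h4, Finset.expect_comm]
      have h7 : ∀ ω : Fin L → κ → ℤˣ, 𝔼 τ : κ → ℤˣ, Nm χ x (fun k => (sg (τ k) : ℂ) * ((g ω k : ℂ) * b k)) ≤
          13 * (Real.sqrt (en (fun k => (g ω k : ℂ) * b k) Finset.univ) +
            4 * ∑ n ∈ Finset.range (R'+1), Real.sqrt 2 ^ n *
            Real.sqrt (PP μ χ (fun k => (g ω k : ℂ) * b k) (φ n) Finset.univ)) := fun ω =>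
        scalar_Nm μ h (fun k => (g ω k : ℂ) * b k) R' φ (fun n _ => hdens n) hR3 hR2 x
      refine (Finset.expect_le_expect (fun ω _ => h7 ω)).trans ?_
      have h8 : 𝔼 ω : Fin L → κ → ℤˣ, Real.sqrt (en (fun k => (g ω k : ℂ) * b k) Finset.univ) ≤
          Real.sqrt δ * s := by
        refine (expect_sqrt_le _ (fun ω => en_nonneg _ _)).trans ?_
        rw [hs, ← Real.sqrt_mul hδ0]
        apply Real.sqrt_le_sqrt
        unfold en
        rw [Finset.expect_sum_comm, Finset.mul_sum]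
        apply Finset.sum_le_sum
        intro k _
        have : ∀ ω, ‖(g ω k : ℂ) * b k‖ ^ 2 = g ω k ^ 2 * ‖b k‖ ^ 2 := by
          intro ω
          rw [norm_mul, mul_pow, Complex.norm_real, Real.norm_eq_abs, sq_abs]
        simp only [this]
        rw [← Finset.expect_mul]
        exact mul_le_mul_of_nonneg_right (hgsq k) (sq_nonneg _)
      have h9 : ∀ n, 𝔼 ω : Fin L → κ → ℤˣ, Real.sqrt (PP μ χ (fun k => (g ω k : ℂ) * b k) (φ n) Finset.univ) ≤
          Real.sqrt δ * e n := by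
        intro n
        refine (expect_sqrt_le _ (fun ω => PP_nonneg μ _ (hdens n) _)).trans ?_
        have h10 : 𝔼 ω : Fin L → κ → ℤˣ, PP μ χ (fun k => (g ω k : ℂ) * b k) (φ n) Finset.univ ≤
            δ * e n ^ 2 := by
          calc 𝔼 ω : Fin L → κ → ℤˣ, PP μ χ (fun k => (g ω k : ℂ) * b k) (φ n) Finset.univ
              ≤ δ * PP μ χ b (φ n) Finset.univ := by
                simp only [PP_eq_sum μ h _ (hdens n)]
                rw [Finset.expect_sum_comm, Finset.mul_sum]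
                apply Finset.sum_le_sum
                intro k _
                have : ∀ ω, ‖(g ω k : ℂ) * b k‖ ^ 2 * ∫ s, φ n s * ‖χ k s - 1‖ ^ 2 ∂μ =
                    g ω k ^ 2 * (‖b k‖ ^ 2 * ∫ s, φ n s * ‖χ k s - 1‖ ^ 2 ∂μ) := by
                  intro ω
                  rw [norm_mul, mul_pow, Complex.norm_real, Real.norm_eq_abs, sq_abs]; ring
                simp only [this]
                rw [← Finset.expect_mul]
                apply mul_le_mul_of_nonneg_right (hgsq k)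
                apply mul_nonneg (sq_nonneg _)
                exact integral_nonneg (fun s => mul_nonneg ((hdens n).nonneg s) (sq_nonneg _))
            _ ≤ δ * e n ^ 2 := mul_le_mul_of_nonneg_left (hPPle n) hδ0
        refine (Real.sqrt_le_sqrt h10).trans (le_of_eq ?_)
        rw [Real.sqrt_mul hδ0, Real.sqrt_sq (he0 n)]
      rw [← Finset.mul_expect, Finset.expect_add_distrib, ← Finset.mul_expect, Finset.expect_sum_comm]
      simp only [← Finset.mul_expect]
      have h11 : ∑ n ∈ Finset.range (R'+1), Real.sqrt 2 ^ n * 𝔼 ω : Fin L → κ → ℤˣ,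
          Real.sqrt (PP μ χ (fun k => (g ω k : ℂ) * b k) (φ n) Finset.univ) ≤ Real.sqrt δ * S := by
        rw [hS, Finset.mul_sum]
        apply Finset.sum_le_sum
        intro n _
        calc _ ≤ Real.sqrt 2 ^ n * (Real.sqrt δ * e n) :=
              mul_le_mul_of_nonneg_left (h9 n) (by positivity)
          _ = _ := by ring
      linarith
    calc 𝔼 ω : Fin L → κ → ℤˣ, Nm χ x (fun k => (eta L ω k : ℂ) * b k)
        ≤ 𝔼 ω : Fin L → κ → ℤˣ, (Nm χ x (fun k => (tr K (eta L ω k) : ℂ) * b k) +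
          Nm χ x (fun k => (g ω k : ℂ) * b k)) := Finset.expect_le_expect (fun ω _ => h2 ω)
      _ ≤ _ := by rw [Finset.expect_add_distrib]; exact add_le_add h3 h6
  -- numerical conclusion
  have hsd : Real.sqrt δ ≤ 6.4 / K := by
    rw [Real.sqrt_le_left (by positivity), hδ, div_pow]
    apply div_le_div_of_nonneg_right _ (by positivity)
    norm_num
  have hS0 : 0 ≤ S := Finset.sum_nonneg (fun n _ => mul_nonneg (by positivity) (he0 n))
  have h12 : 13 * Real.sqrt δ * (s + 4 * S) ≤ 13 * (6.4 / K) * (s + 4 * S) := by gcongr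
  have h13 : S ≤ 8000 * (2 * (K * E0 + 13 * (6.4 / K) * (s + 4 * S))) + 10000 * (2 * s) := by
    have : (∑ n ∈ Finset.range (R'+1), Real.sqrt 2 ^ n * e n) ≤
      8000 * emax (fun i => cc χ b (x i)) L + 10000 * (2 * s) := key
    rw [← hS] at this
    have h14 : emax (fun i => cc χ b (x i)) L ≤ 2 * (K * E0 + 13 * (6.4 / K) * (s + 4 * S)) :=
      key2.trans (mul_le_mul_of_nonneg_left (h1.trans (add_le_add le_rfl h12)) (by norm_num))
    linarith
  have h15 : 13 * (6.4 / K) * (s + 4 * S) = 0.00000416 * s + 0.00001664 * S := by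
    rw [hK]; ring
  rw [h15, hK] at h13
  norm_num at h13 ⊢
  linarith

end MPthm

end

end H59.RB
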