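import Pool.Agent.H59.BMOA.Osc
import Pool.Agent.H59.BMOA.JN

/-! Testing against molecules. -/

namespace H59.RB

set_option linter.unusedSectionVars false

open Finset BigOperators MeasureTheory Complex

/-- elementary average -/
noncomputable def Ia (θ : ℝ) : ℂ := ∫ s in (0:ℝ)..1, Complex.exp ((θ:ℂ) * s * I)

lemma Ia_lower (θ : ℝ) (h1 : |θ| ≤ Real.pi) : 1 / 2 ≤ ‖Ia θ‖ := by
  unfold Ia
  rcases eq_or_ne θ 0 with h0 | h0
  · rw [h0]
    simp
    norm_num
  · have hc : (θ:ℂ) * I ≠ 0 := mul_ne_zero (by exact_mod_cast h0) I_ne_zero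
    have e : ∀ s : ℝ, Complex.exp ((θ:ℂ) * s * I) = Complex.exp (((θ:ℂ) * I) * s) := by
      intro s; congr 1; ring
    simp only [e]
    rw [integral_exp_mul_complex hc]
    simp only [ofReal_one, mul_one, ofReal_zero, mul_zero, Complex.exp_zero]
    rw [norm_div, norm_mul, Complex.norm_I, mul_one, Complex.norm_real]
    have e2 : Complex.exp ((θ:ℂ) * I) = Complex.exp (I * θ) := by rw [mul_comm]
    rw [e2, Complex.norm_exp_I_mul_ofReal_sub_one, norm_mul, Real.norm_eq_abs, Real.norm_eq_abs, Real.norm_eq_abs]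
    have hθ : 0 < |θ| := abs_pos.2 h0
    rw [le_div_iff₀ hθ]
    have h2 : |Real.sin (θ/2)| = Real.sin (|θ|/2) := by
      rcases le_total 0 θ with h | h
      · rw [abs_of_nonneg h, abs_of_nonneg]
        apply Real.sin_nonneg_of_nonneg_of_le_pi
        · linarith
        · rw [abs_of_nonneg h] at h1; linarith [Real.pi_pos]
      · rw [abs_of_nonpos h, neg_div, Real.sin_neg, abs_of_nonpos]
        apply Real.sin_nonpos_of_nonpos_of_neg_pi_le
        · linarith
        · rw [abs_of_nonpos h] at h1; linarith [Real.pi_pos]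
    have h3 := Real.mul_le_sin (x := |θ|/2) (by positivity) (by linarith)
    rw [h2, abs_of_pos (by norm_num : (0:ℝ) < 2)]
    have h4 : 1 / 4 ≤ 2 / Real.pi / 2 := by
      rw [div_div, div_le_div_iff₀ (by norm_num) (by positivity)]
      have := Real.pi_lt_d2
      linarith
    have h5 : 2 / Real.pi * (|θ| / 2) = (2 / Real.pi / 2) * |θ| := by ring
    rw [h5] at h3
    nlinarith

/-- weights of the molecule -/
noncomputable def Hk (m : ℕ) (J : Finset ℕ) (u : ℕ → ℝ) (k : ℕ) : ℝ :=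
  ∑ j ∈ J, u j * ‖Ia ((k:ℝ) * (2 * Real.pi / 2 ^ m) - 2 * Real.pi * j)‖ ^ 2

lemma double_int (θ : ℝ) : ∫ t in (0:ℝ)..1, ∫ s in (0:ℝ)..1, Complex.exp ((θ:ℂ) * (s - t) * I) =
    ((‖Ia θ‖ ^ 2 : ℝ) : ℂ) := by
  have h1 : ∀ t s : ℝ, Complex.exp ((θ:ℂ) * (s - t) * I) =
      Complex.exp ((θ:ℂ) * s * I) * (starRingEnd ℂ) (Complex.exp ((θ:ℂ) * t * I)) := by
    intro t s
    rw [← Complex.exp_conj, ← Complex.exp_add]
    congr 1
    simp only [map_mul, Complex.conj_I, Complex.conj_ofReal]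
    ring
  simp only [h1]
  simp only [intervalIntegral.integral_mul_const, intervalIntegral.integral_const_mul]
  have h2 : ∫ t in (0:ℝ)..1, (starRingEnd ℂ) (Complex.exp ((θ:ℂ) * t * I)) = (starRingEnd ℂ) (Ia θ) := by
    unfold Ia
    exact intervalIntegral.intervalIntegral_conj
  rw [h2]
  change Ia θ * (starRingEnd ℂ) (Ia θ) = _
  rw [Complex.mul_conj, Complex.normSq_eq_norm_sq]

/-- Testing a polynomial of bounded mean square oscillation against a molecule. -/
theorem mol (c : ℕ → ℂ) (S : Finset ℕ) (m : ℕ) (B U : ℝ) (hB : 0 < B) (hU : 0 < U)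
    (h2 : ∀ a, A2 (ep c S) a (2 * Real.pi / 2 ^ m) (Mn (ep c S) a (2 * Real.pi / 2 ^ m)) ≤ B ^ 2)
    (J : Finset ℕ) (hJ : ∀ j ∈ J, 1 ≤ j) (u : ℕ → ℝ) (hu : ∑ j ∈ J, u j ^ 2 ≤ U ^ 2) (x : ℝ) :
    ‖∑ k ∈ S, c k * Complex.exp ((k:ℂ) * x * I) * (Hk m J u k : ℂ)‖ ≤ B * U := by
  set ℓ := 2 * Real.pi / 2 ^ m with hℓ
  set p := ep c S with hp
  have hpc : Continuous p := ep_cont c S
  set g : ℝ → ℂ := fun y => ∑ j ∈ J, Complex.exp ((j:ℂ) * (2 * Real.pi : ℝ) * y * I) * (u j : ℂ) with hg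
  have hgc : Continuous g := by simp only [hg]; fun_prop
  -- the double integral
  set Φ : ℂ := ∫ t in (0:ℝ)..1, ∫ s in (0:ℝ)..1, p (x + ℓ * (s - t)) * (starRingEnd ℂ) (g (s - t)) with hΦ
  have hΦ1 : Φ = ∑ k ∈ S, c k * Complex.exp ((k:ℂ) * x * I) * (Hk m J u k : ℂ) := by
    have e1 : ∀ t s : ℝ, p (x + ℓ * (s - t)) * (starRingEnd ℂ) (g (s - t)) =
        ∑ k ∈ S, ∑ j ∈ J, (c k * Complex.exp ((k:ℂ) * x * I) * (u j : ℂ)) *
          Complex.exp ((((k:ℝ) * ℓ - 2 * Real.pi * j : ℝ) : ℂ) * (s - t) * I) := by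
      intro t s
      simp only [hp, ep, hg, map_sum]
      rw [Finset.sum_mul_sum]
      refine Finset.sum_congr rfl (fun k _ => Finset.sum_congr rfl (fun j _ => ?_))
      rw [map_mul, ← Complex.exp_conj]
      simp only [map_mul, map_sub, Complex.conj_I, Complex.conj_ofReal, map_natCast]
      have e2 : Complex.exp ((k:ℂ) * ((x + ℓ * (s - t) : ℝ) : ℂ) * I) *
          Complex.exp ((j:ℂ) * ((2 * Real.pi : ℝ) : ℂ) * ((s - t : ℝ) : ℂ) * -I) =
          Complex.exp ((k:ℂ) * x * I) *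
          Complex.exp ((((k:ℝ) * ℓ - 2 * Real.pi * j : ℝ) : ℂ) * (s - t) * I) := by
        rw [← Complex.exp_add, ← Complex.exp_add]
        congr 1
        push_cast
        ring
      calc _ = c k * (u j : ℂ) * (Complex.exp ((k:ℂ) * ((x + ℓ * (s - t) : ℝ) : ℂ) * I) *
          Complex.exp ((j:ℂ) * ((2 * Real.pi : ℝ) : ℂ) * ((s - t : ℝ) : ℂ) * -I)) := by ring
        _ = _ := by rw [e2]; ring
    have hcs : ∀ (k j : ℕ) (t : ℝ), Continuous (fun s : ℝ => (c k * Complex.exp ((k:ℂ) * x * I) * (u j : ℂ)) *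
          Complex.exp ((((k:ℝ) * ℓ - 2 * Real.pi * j : ℝ) : ℂ) * (s - t) * I)) := by
      intro k j t; fun_prop
    have hct : ∀ (k j : ℕ), Continuous (fun t : ℝ => ∫ s in (0:ℝ)..1, (c k * Complex.exp ((k:ℂ) * x * I) * (u j : ℂ)) *
          Complex.exp ((((k:ℝ) * ℓ - 2 * Real.pi * j : ℝ) : ℂ) * (s - t) * I)) := by
      intro k j
      apply intervalIntegral.continuous_parametric_intervalIntegral_of_continuous'
      simp only [Function.uncurry_def]
      fun_prop
    rw [hΦ]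
    simp only [e1]
    have e3 : ∀ t : ℝ, ∫ s in (0:ℝ)..1, ∑ k ∈ S, ∑ j ∈ J, (c k * Complex.exp ((k:ℂ) * x * I) * (u j : ℂ)) *
          Complex.exp ((((k:ℝ) * ℓ - 2 * Real.pi * j : ℝ) : ℂ) * (s - t) * I) =
        ∑ k ∈ S, ∑ j ∈ J, ∫ s in (0:ℝ)..1, (c k * Complex.exp ((k:ℂ) * x * I) * (u j : ℂ)) *
          Complex.exp ((((k:ℝ) * ℓ - 2 * Real.pi * j : ℝ) : ℂ) * (s - t) * I) := by
      intro t
      rw [intervalIntegral.integral_finsetSum (fun k _ =>
        (continuous_finsetSum _ (fun j _ => hcs k j t)).intervalIntegrable _ _)]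
      refine Finset.sum_congr rfl (fun k _ => ?_)
      rw [intervalIntegral.integral_finsetSum (fun j _ => (hcs k j t).intervalIntegrable _ _)]
    simp only [e3]
    rw [intervalIntegral.integral_finsetSum (fun k _ =>
        (continuous_finsetSum _ (fun j _ => hct k j)).intervalIntegrable _ _)]
    refine Finset.sum_congr rfl (fun k _ => ?_)
    rw [intervalIntegral.integral_finsetSum (fun j _ => (hct k j).intervalIntegrable _ _)]
    unfold Hk
    push_cast
    rw [Finset.mul_sum]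
    refine Finset.sum_congr rfl (fun j _ => ?_)
    simp only [intervalIntegral.integral_const_mul]
    have e4 := double_int ((k:ℝ) * ℓ - 2 * Real.pi * j)
    push_cast at e4
    rw [e4]
    rw [hℓ]
    push_cast
    ring
  -- the bound
  have hgs : ∀ t : ℝ, ∫ s in (0:ℝ)..1, ‖g (s - t)‖ ^ 2 = ∑ j ∈ J, u j ^ 2 := by
    intro t
    have h3 := ortho J (fun j => Complex.exp (-((j:ℂ) * (2 * Real.pi : ℝ) * t * I)) * (u j : ℂ)) (2 * Real.pi) (by positivity)
    rw [div_self (by positivity), one_mul] at h3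
    have h4 : ∀ s : ℝ, g (s - t) = ∑ j ∈ J, Complex.exp ((j:ℂ) * (2 * Real.pi : ℝ) * s * I) *
        (Complex.exp (-((j:ℂ) * (2 * Real.pi : ℝ) * t * I)) * (u j : ℂ)) := by
      intro s
      simp only [hg]
      refine Finset.sum_congr rfl (fun j _ => ?_)
      rw [← mul_assoc, ← Complex.exp_add]
      congr 2
      push_cast; ring
    simp only [h4]
    rw [h3]
    refine Finset.sum_congr rfl (fun j _ => ?_)
    have e : -((j:ℂ) * (2 * Real.pi : ℝ) * t * I) = ((-(j * (2 * Real.pi) * t) : ℝ) : ℂ) * I := by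
      push_cast; ring
    rw [e, norm_mul, Complex.norm_exp_ofReal_mul_I, one_mul, Complex.norm_real, Real.norm_eq_abs, sq_abs]
  have hg0 : ∀ t : ℝ, ∫ s in (0:ℝ)..1, (starRingEnd ℂ) (g (s - t)) = 0 := by
    intro t
    rw [intervalIntegral.intervalIntegral_conj]
    have h3 : ∀ s : ℝ, g (s - t) = ∑ j ∈ J, Complex.exp ((((j:ℤ)):ℂ) * (2 * Real.pi : ℝ) * s * I) *
        (Complex.exp (-((j:ℂ) * (2 * Real.pi : ℝ) * t * I)) * (u j : ℂ)) := by
      intro s
      simp only [hg]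
      refine Finset.sum_congr rfl (fun j _ => ?_)
      rw [← mul_assoc, ← Complex.exp_add]
      congr 2
      push_cast; ring
    simp only [h3]
    rw [intervalIntegral.integral_finsetSum (fun j _ => Continuous.intervalIntegrable (by fun_prop) _ _)]
    have h4 : ∀ j ∈ J, ∫ s in (0:ℝ)..1, Complex.exp ((((j:ℤ)):ℂ) * (2 * Real.pi : ℝ) * s * I) *
        (Complex.exp (-((j:ℂ) * (2 * Real.pi : ℝ) * t * I)) * (u j : ℂ)) = 0 := by
      intro j hj
      rw [intervalIntegral.integral_mul_const]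
      have h5 := int_exp_zero (2 * Real.pi) (by positivity) (j:ℤ) (by have := hJ j hj; omega)
      rw [div_self (by positivity)] at h5
      rw [h5, zero_mul]
    rw [Finset.sum_eq_zero h4, map_zero]
  have hinner : ∀ t : ℝ, ‖∫ s in (0:ℝ)..1, p (x + ℓ * (s - t)) * (starRingEnd ℂ) (g (s - t))‖ ≤ B * U := by
    intro t
    set a := x - ℓ * t with ha
    set M := Mn p a ℓ with hM
    have e1 : ∀ s : ℝ, x + ℓ * (s - t) = a + ℓ * s := by intro s; rw [ha]; ring
    simp only [e1]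
    have hc1 : Continuous (fun s : ℝ => (p (a + ℓ * s) - M) * (starRingEnd ℂ) (g (s - t))) := by
      apply Continuous.mul
      · fun_prop
      · exact Complex.continuous_conj.comp (hgc.comp (continuous_id.sub continuous_const))
    have hc2 : Continuous (fun s : ℝ => M * (starRingEnd ℂ) (g (s - t))) :=
      continuous_const.mul (Complex.continuous_conj.comp (hgc.comp (continuous_id.sub continuous_const)))
    have e2 : ∫ s in (0:ℝ)..1, p (a + ℓ * s) * (starRingEnd ℂ) (g (s - t)) =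
        ∫ s in (0:ℝ)..1, (p (a + ℓ * s) - M) * (starRingEnd ℂ) (g (s - t)) := by
      have e3 : ∀ s : ℝ, p (a + ℓ * s) * (starRingEnd ℂ) (g (s - t)) =
          (p (a + ℓ * s) - M) * (starRingEnd ℂ) (g (s - t)) + M * (starRingEnd ℂ) (g (s - t)) := by
        intro s; ring
      simp only [e3]
      rw [intervalIntegral.integral_add (hc1.intervalIntegrable _ _) (hc2.intervalIntegrable _ _),
        intervalIntegral.integral_const_mul, hg0, mul_zero, add_zero]
    rw [e2]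
    have hc3 : Continuous (fun s : ℝ => ‖p (a + ℓ * s) - M‖ ^ 2) := by fun_prop
    have hc4 : Continuous (fun s : ℝ => ‖g (s - t)‖ ^ 2) :=
      ((hgc.comp (continuous_id.sub continuous_const)).norm.pow 2)
    have i1 : IntervalIntegrable (fun s : ℝ => (U / B / 2) * ‖p (a + ℓ * s) - M‖ ^ 2) volume 0 1 :=
      (continuous_const.mul hc3).intervalIntegrable _ _
    have i2 : IntervalIntegrable (fun s : ℝ => (B / U / 2) * ‖g (s - t)‖ ^ 2) volume 0 1 :=
      (continuous_const.mul hc4).intervalIntegrable _ _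
    calc ‖∫ s in (0:ℝ)..1, (p (a + ℓ * s) - M) * (starRingEnd ℂ) (g (s - t))‖
        ≤ ∫ s in (0:ℝ)..1, ‖(p (a + ℓ * s) - M) * (starRingEnd ℂ) (g (s - t))‖ :=
          intervalIntegral.norm_integral_le_integral_norm (by norm_num)
      _ ≤ ∫ s in (0:ℝ)..1, ((U / B / 2) * ‖p (a + ℓ * s) - M‖ ^ 2 + (B / U / 2) * ‖g (s - t)‖ ^ 2) := by
          apply intervalIntegral.integral_mono_on (by norm_num) (hc1.norm.intervalIntegrable _ _) (i1.add i2)
          intro s _
          rw [norm_mul, RCLike.norm_conj]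
          set X := ‖p (a + ℓ * s) - M‖
          set Y := ‖g (s - t)‖
          have h5 : 0 ≤ (U * X - B * Y) ^ 2 / (2 * B * U) := by positivity
          have h6 : (U * X - B * Y) ^ 2 / (2 * B * U) = U / B / 2 * X ^ 2 + B / U / 2 * Y ^ 2 - X * Y := by
            field_simp
            ring
          linarith
      _ = (U / B / 2) * A2 p a ℓ M + (B / U / 2) * ∑ j ∈ J, u j ^ 2 := by
          rw [intervalIntegral.integral_add i1 i2, intervalIntegral.integral_const_mul,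
            intervalIntegral.integral_const_mul, hgs]
          rfl
      _ ≤ (U / B / 2) * B ^ 2 + (B / U / 2) * U ^ 2 := by
          apply add_le_add
          · exact mul_le_mul_of_nonneg_left (h2 a) (by positivity)
          · exact mul_le_mul_of_nonneg_left hu (by positivity)
      _ = B * U := by field_simp; ring
  rw [← hΦ1, hΦ]
  have h7 := intervalIntegral.norm_integral_le_of_norm_le_const (a := (0:ℝ)) (b := 1) (C := B * U)
    (f := fun t => ∫ s in (0:ℝ)..1, p (x + ℓ * (s - t)) * (starRingEnd ℂ) (g (s - t)))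
    (fun t _ => hinner t)
  simpa using h7

/-- lower bound of the weights -/
lemma Hk_lower (m N : ℕ) (w : ℕ → ℝ) (hw : ∀ j, 0 ≤ w j) (k : ℕ) (hk : k < N) (hkm : 2 ^ m ≤ k) :
    Real.sqrt (w (k / 2 ^ m)) / 4 ≤
      Hk m (Finset.Ico 1 (N+1)) (fun j => Real.sqrt (w j) + Real.sqrt (w (j-1))) k := by
  have hp : 0 < 2 ^ m := by positivity
  set j := k / 2 ^ m with hj
  have hj1 : 1 ≤ j := (Nat.one_le_div_iff hp).2 hkm
  have hjN : j < N := lt_of_le_of_lt (Nat.div_le_self _ _) hk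
  set r := k % 2 ^ m with hr
  have hkr : k = 2 ^ m * j + r := (Nat.div_add_mod k (2 ^ m)).symm
  have hrlt : r < 2 ^ m := Nat.mod_lt _ hp
  have hpi := Real.pi_pos
  set F : ℕ → ℝ := fun i => (Real.sqrt (w i) + Real.sqrt (w (i-1))) *
    ‖Ia ((k:ℝ) * (2 * Real.pi / 2 ^ m) - 2 * Real.pi * i)‖ ^ 2 with hF
  have hF0 : ∀ i ∈ Finset.Ico 1 (N+1), 0 ≤ F i := fun i _ => by simp only [hF]; positivity
  have h2m : (0:ℝ) < 2 ^ m := by positivity
  by_cases hcase : 2 * r ≤ 2 ^ m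
  · have h1 : F j ≤ Hk m (Finset.Ico 1 (N+1)) (fun j => Real.sqrt (w j) + Real.sqrt (w (j-1))) k :=
      Finset.single_le_sum (f := F) hF0 (Finset.mem_Ico.2 ⟨hj1, by omega⟩)
    refine le_trans ?_ h1
    have h2 : (k:ℝ) * (2 * Real.pi / 2 ^ m) - 2 * Real.pi * j = 2 * Real.pi * (r / 2 ^ m) := by
      rw [hkr]; push_cast; field_simp; ring
    have h3 : |2 * Real.pi * ((r:ℝ) / 2 ^ m)| ≤ Real.pi := by
      rw [abs_of_nonneg (by positivity)]
      have : (r:ℝ) / 2 ^ m ≤ 1 / 2 := by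
        rw [div_le_div_iff₀ h2m (by norm_num)]
        have : ((2 * r : ℕ) : ℝ) ≤ ((2 ^ m : ℕ) : ℝ) := by exact_mod_cast hcase
        push_cast at this
        linarith
      nlinarith
    have h4 := Ia_lower _ h3
    simp only [hF]
    rw [h2]
    have h5 : (1/2:ℝ) ^ 2 ≤ ‖Ia (2 * Real.pi * (r / 2 ^ m))‖ ^ 2 := pow_le_pow_left₀ (by norm_num) h4 2
    have h6 := Real.sqrt_nonneg (w j)
    have h7 := Real.sqrt_nonneg (w (j-1))
    nlinarith
  · push Not at hcase
    have h1 : F (j+1) ≤ Hk m (Finset.Ico 1 (N+1)) (fun j => Real.sqrt (w j) + Real.sqrt (w (j-1))) k :=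
      Finset.single_le_sum (f := F) hF0 (Finset.mem_Ico.2 ⟨by omega, by omega⟩)
    refine le_trans ?_ h1
    have h2 : (k:ℝ) * (2 * Real.pi / 2 ^ m) - 2 * Real.pi * ((j+1 : ℕ) : ℝ) = -(2 * Real.pi * (1 - r / 2 ^ m)) := by
      rw [hkr]; push_cast; field_simp; ring
    have h3 : |-(2 * Real.pi * (1 - (r:ℝ) / 2 ^ m))| ≤ Real.pi := by
      have h8 : (r:ℝ) / 2 ^ m ≤ 1 := by
        rw [div_le_one h2m]
        have : ((r : ℕ) : ℝ) ≤ ((2 ^ m : ℕ) : ℝ) := by exact_mod_cast hrlt.le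
        push_cast at this
        exact this
      have h9 : 1 / 2 ≤ (r:ℝ) / 2 ^ m := by
        rw [div_le_div_iff₀ (by norm_num) h2m]
        have : ((2 ^ m : ℕ) : ℝ) ≤ ((2 * r : ℕ) : ℝ) := by exact_mod_cast hcase.le
        push_cast at this
        linarith
      rw [abs_neg, abs_of_nonneg (mul_nonneg (by positivity) (by linarith))]
      nlinarith
    have h4 := Ia_lower _ h3
    simp only [hF]
    rw [h2]
    have h5 : (1/2:ℝ) ^ 2 ≤ ‖Ia (-(2 * Real.pi * (1 - r / 2 ^ m)))‖ ^ 2 := pow_le_pow_left₀ (by norm_num) h4 2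
    have h6 := Real.sqrt_nonneg (w j)
    have h7 := Real.sqrt_nonneg (w (j+1))
    rw [Nat.add_sub_cancel]
    nlinarith

lemma u_sum (N : ℕ) (w : ℕ → ℝ) (hw : ∀ j, 0 ≤ w j) (hw1 : ∑ j ∈ Finset.range (N+1), w j ≤ 1) :
    ∑ j ∈ Finset.Ico 1 (N+1), (Real.sqrt (w j) + Real.sqrt (w (j-1))) ^ 2 ≤ 2 ^ 2 := by
  have h1 : ∀ j ∈ Finset.Ico 1 (N+1), (Real.sqrt (w j) + Real.sqrt (w (j-1))) ^ 2 ≤ 2 * w j + 2 * w (j-1) := by
    intro j _
    have h2 := Real.sq_sqrt (hw j)
    have h3 := Real.sq_sqrt (hw (j-1))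
    nlinarith [sq_nonneg (Real.sqrt (w j) - Real.sqrt (w (j-1)))]
  have h4 : ∑ j ∈ Finset.Ico 1 (N+1), w j ≤ 1 := by
    refine le_trans (Finset.sum_le_sum_of_subset_of_nonneg ?_ (fun j _ _ => hw j)) hw1
    intro j hj; rw [Finset.mem_Ico] at hj; rw [Finset.mem_range]; omega
  have h5 : ∑ j ∈ Finset.Ico 1 (N+1), w (j-1) ≤ 1 := by
    have : ∑ j ∈ Finset.Ico 1 (N+1), w (j-1) = ∑ j ∈ Finset.range N, w j := by
      rw [Finset.sum_Ico_eq_sum_range]
      refine Finset.sum_congr (by simp) (fun j _ => ?_)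
      congr 1; omega
    rw [this]
    refine le_trans (Finset.sum_le_sum_of_subset_of_nonneg ?_ (fun j _ _ => hw j)) hw1
    intro j hj; rw [Finset.mem_range] at hj ⊢; omega
  refine (Finset.sum_le_sum h1).trans ?_
  rw [Finset.sum_add_distrib, ← Finset.mul_sum, ← Finset.mul_sum]
  linarith

end H59.RB
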