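import Pool.Agent.H59.BMOA.Mol
import Pool.Agent.H59.BMOA.Kah
import Pool.Agent.H59.BMOA.MP

/-! Necessity, finite level. -/

namespace H59.RB

set_option linter.unusedSectionVars false

open Finset BigOperators MeasureTheory Complex

lemma O1_smul (p : ℝ → ℂ) (c : ℂ) (a h : ℝ) : O1 (fun x => c * p x) a h = ‖c‖ * O1 p a h := by
  have e : Mn (fun x => c * p x) a h = c * Mn p a h := by
    unfold Mn
    exact intervalIntegral.integral_const_mul _ _
  unfold O1 A1
  rw [e]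
  have e2 : ∀ s : ℝ, ‖c * p (a + h * s) - c * Mn p a h‖ = ‖c‖ * ‖p (a + h * s) - Mn p a h‖ := by
    intro s; rw [← mul_sub, norm_mul]
  simp only [e2]
  exact intervalIntegral.integral_const_mul _ _

lemma O1_add {p q : ℝ → ℂ} (hp : Continuous p) (hq : Continuous q) (a h : ℝ) :
    O1 (fun x => p x + q x) a h ≤ O1 p a h + O1 q a h := by
  unfold O1 A1
  have hpc : Continuous (fun s : ℝ => p (a + h * s)) := by fun_prop
  have hqc : Continuous (fun s : ℝ => q (a + h * s)) := by fun_prop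
  have e : Mn (fun x => p x + q x) a h = Mn p a h + Mn q a h := by
    unfold Mn
    rw [intervalIntegral.integral_add (hpc.intervalIntegrable _ _) (hqc.intervalIntegrable _ _)]
  rw [e]
  have i1 : IntervalIntegrable (fun s => ‖p (a + h * s) - Mn p a h‖) volume 0 1 :=
    (hpc.sub continuous_const).norm.intervalIntegrable _ _
  have i2 : IntervalIntegrable (fun s => ‖q (a + h * s) - Mn q a h‖) volume 0 1 :=
    (hqc.sub continuous_const).norm.intervalIntegrable _ _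
  rw [← intervalIntegral.integral_add i1 i2]
  apply intervalIntegral.integral_mono_on (by norm_num) _ (i1.add i2)
  · intro s _
    calc _ = ‖(p (a + h * s) - Mn p a h) + (q (a + h * s) - Mn q a h)‖ := by congr 1; ring
      _ ≤ _ := norm_add_le _ _
  · exact (((hpc.add hqc).sub continuous_const).norm).intervalIntegrable _ _

lemma O1_nonneg (p : ℝ → ℂ) (a h : ℝ) : 0 ≤ O1 p a h := A1_nonneg _ _ _ _

lemma O1_le_sup {p : ℝ → ℂ} (hp : Continuous p) (C : ℝ) (hC : ∀ x, ‖p x‖ ≤ C) (a h : ℝ) :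
    O1 p a h ≤ 2 * C := by
  have hM : ‖Mn p a h‖ ≤ C := by
    unfold Mn
    have := intervalIntegral.norm_integral_le_of_norm_le_const (a := (0:ℝ)) (b := 1) (C := C)
      (f := fun s => p (a + h * s)) (fun s _ => hC _)
    simpa using this
  unfold O1 A1
  calc _ ≤ ∫ s in (0:ℝ)..1, 2 * C := by
        apply intervalIntegral.integral_mono_on (by norm_num)
        · exact Continuous.intervalIntegrable (by fun_prop) _ _
        · exact continuous_const.intervalIntegrable _ _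
        · intro s _
          refine (norm_sub_le _ _).trans ?_
          linarith [hC (a + h * s)]
    _ = _ := by rw [intervalIntegral.integral_const, sub_zero, one_smul]

/-- trigonometric polynomial with coefficients indexed by `Fin N` -/
noncomputable def pF {N : ℕ} (u : Fin N → ℂ) (x : ℝ) : ℂ := ∑ k, u k * Complex.exp (((k : ℕ) : ℂ) * x * I)

lemma pF_cont {N : ℕ} (u : Fin N → ℂ) : Continuous (pF u) := by unfold pF; fun_prop

lemma norm_exp_nat (k : ℕ) (x : ℝ) : ‖Complex.exp ((k:ℂ) * x * I)‖ = 1 := by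
  have e : (k:ℂ) * x * I = ((k * x : ℝ) : ℂ) * I := by push_cast; ring
  rw [e, Complex.norm_exp_ofReal_mul_I]

lemma pF_le {N : ℕ} (u : Fin N → ℂ) (x : ℝ) : ‖pF u x‖ ≤ ∑ k, ‖u k‖ := by
  unfold pF
  refine (norm_sum_le _ _).trans (le_of_eq (Finset.sum_congr rfl (fun k _ => ?_)))
  rw [norm_mul, norm_exp_nat, mul_one]

lemma pF_ep {N : ℕ} (u : Fin N → ℂ) (c : ℕ → ℂ) (h : ∀ k : Fin N, c k = u k) :
    pF u = ep c (Finset.range N) := by
  funext x
  unfold pF ep
  rw [← Fin.sum_univ_eq_sum_range (fun k => c k * Complex.exp ((k:ℂ) * x * I)) N]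
  exact Finset.sum_congr rfl (fun k _ => by rw [h k])

/-- the BMO seminorm of a polynomial -/
noncomputable def NO {N : ℕ} (u : Fin N → ℂ) : ℝ :=
  ⨆ q : {q : ℝ × ℝ // 0 < q.2 ∧ q.2 ≤ 2 * Real.pi}, O1 (pF u) q.1.1 q.1.2

lemma NO_bdd {N : ℕ} (u : Fin N → ℂ) : BddAbove (Set.range
    (fun q : {q : ℝ × ℝ // 0 < q.2 ∧ q.2 ≤ 2 * Real.pi} => O1 (pF u) q.1.1 q.1.2)) := by
  refine ⟨2 * ∑ k, ‖u k‖, ?_⟩
  rintro _ ⟨q, rfl⟩
  exact O1_le_sup (pF_cont u) _ (pF_le u) _ _

lemma O1_le_NO {N : ℕ} (u : Fin N → ℂ) (a h : ℝ) (h0 : 0 < h) (h1 : h ≤ 2 * Real.pi) :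
    O1 (pF u) a h ≤ NO u :=
  le_ciSup (NO_bdd u) ⟨(a, h), h0, h1⟩

instance : Nonempty {q : ℝ × ℝ // 0 < q.2 ∧ q.2 ≤ 2 * Real.pi} :=
  ⟨⟨(0, 2 * Real.pi), by simp [Real.pi_pos], le_rfl⟩⟩

lemma NO_le {N : ℕ} (u : Fin N → ℂ) (C : ℝ) (h : ∀ a h, 0 < h → h ≤ 2 * Real.pi → O1 (pF u) a h ≤ C) :
    NO u ≤ C := ciSup_le (fun q => h q.1.1 q.1.2 q.2.1 q.2.2)

lemma pF_add {N : ℕ} (u v : Fin N → ℂ) : pF (u + v) = fun x => pF u x + pF v x := by
  funext x; unfold pF
  rw [← Finset.sum_add_distrib]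
  exact Finset.sum_congr rfl (fun k _ => by rw [Pi.add_apply]; ring)

lemma pF_smul {N : ℕ} (c : ℂ) (u : Fin N → ℂ) : pF (fun k => c * u k) = fun x => c * pF u x := by
  funext x; unfold pF
  rw [Finset.mul_sum]
  exact Finset.sum_congr rfl (fun k _ => by ring)

lemma NO_smul {N : ℕ} (c : ℂ) (u : Fin N → ℂ) : NO (fun k => c * u k) = ‖c‖ * NO u := by
  unfold NO
  rw [pF_smul, Real.mul_iSup_of_nonneg (norm_nonneg _)]
  simp only [O1_smul]

lemma NO_SN (N : ℕ) : SN (NO (N := N)) := by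
  constructor
  · intro u v
    apply NO_le
    intro a h h0 h1
    rw [pF_add]
    exact (O1_add (pF_cont u) (pF_cont v) a h).trans
      (add_le_add (O1_le_NO u a h h0 h1) (O1_le_NO v a h h0 h1))
  · intro r u hr
    rw [NO_smul, Complex.norm_real, Real.norm_eq_abs, abs_of_nonneg hr]

lemma NO_neg {N : ℕ} (u : Fin N → ℂ) : NO (-u) = NO u := by
  have : -u = fun k => (-1 : ℂ) * u k := by funext k; simp
  rw [this, NO_smul]; simp

lemma NO_nonneg {N : ℕ} (u : Fin N → ℂ) : 0 ≤ NO u :=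
  (O1_nonneg (pF u) 0 (2 * Real.pi)).trans (O1_le_NO u 0 (2 * Real.pi) (by positivity) le_rfl)

lemma pF_lip {N : ℕ} (u : Fin N → ℂ) (x y : ℝ) : ‖pF u x - pF u y‖ ≤ (∑ k : Fin N, (k:ℕ) * ‖u k‖) * |x - y| := by
  unfold pF
  rw [← Finset.sum_sub_distrib, Finset.sum_mul]
  refine (norm_sum_le _ _).trans (Finset.sum_le_sum (fun k _ => ?_))
  rw [← mul_sub, norm_mul]
  have h1 : ‖Complex.exp (((k:ℕ):ℂ) * x * I) - Complex.exp (((k:ℕ):ℂ) * y * I)‖ ≤ (k:ℕ) * |x - y| := by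
    have e : Complex.exp (((k:ℕ):ℂ) * x * I) - Complex.exp (((k:ℕ):ℂ) * y * I) =
        Complex.exp (((k:ℕ):ℂ) * y * I) * (Complex.exp (I * (((k:ℕ) * (x - y) : ℝ) : ℂ)) - 1) := by
      rw [mul_sub, ← Complex.exp_add, mul_one]
      congr 2
      push_cast; ring
    rw [e, norm_mul, norm_exp_nat, one_mul]
    refine Real.norm_exp_I_mul_ofReal_sub_one_le.trans ?_
    rw [Real.norm_eq_abs, abs_mul, abs_of_nonneg (Nat.cast_nonneg _)]
  calc _ ≤ ‖u k‖ * ((k:ℕ) * |x - y|) := mul_le_mul_of_nonneg_left h1 (norm_nonneg _)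
    _ = _ := by ring

/-- testing against molecules, sup version -/
theorem mol_NO {N : ℕ} (u : Fin N → ℂ) (m : ℕ) (w : ℕ → ℝ) (hw : ∀ j, 0 ≤ w j)
    (hw1 : ∑ j ∈ Finset.range (N+1), w j ≤ 1) (x : ℝ) :
    ‖pF (fun k => u k * (Hk m (Finset.Ico 1 (N+1)) (fun j => Real.sqrt (w j) + Real.sqrt (w (j-1))) k : ℂ)) x‖ ≤
      10 * NO u := by
  have key : ∀ δ : ℝ, 0 < δ → ‖pF (fun k => u k * (Hk m (Finset.Ico 1 (N+1)) (fun j => Real.sqrt (w j) +
      Real.sqrt (w (j-1))) k : ℂ)) x‖ ≤ 10 * (NO u + δ) := by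
    intro δ hδ
    set B := NO u + δ with hB
    have hB0 : 0 < B := by have := NO_nonneg u; linarith
    set c : ℕ → ℂ := fun k => if h : k < N then u ⟨k, h⟩ else 0 with hc
    have hcu : ∀ k : Fin N, c k = u k := by
      intro k; simp only [hc]; rw [dif_pos k.2]
    have hep : ep c (Finset.range N) = pF u := (pF_ep u c hcu).symm
    have h1 := mol c (Finset.range N) m (5 * B) 2 (by positivity) (by norm_num) (by
      intro a
      rw [hep]
      have hpos : 0 < 2 * Real.pi / 2 ^ m := by positivity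
      have hle : 2 * Real.pi / 2 ^ m ≤ 2 * Real.pi := by
        apply div_le_self (by positivity)
        exact one_le_pow₀ (by norm_num)
      have h2 := JN (pF_cont u) (∑ k : Fin N, (k:ℕ) * ‖u k‖)
        (Finset.sum_nonneg (fun k _ => by positivity)) (pF_lip u) (2 * Real.pi) B hB0
        (fun a h h0 h1 => (O1_le_NO u a h h0 h1).trans (by linarith)) a (2 * Real.pi / 2 ^ m) hpos hle
      refine h2.trans ?_
      nlinarith [sq_nonneg B])
      (Finset.Ico 1 (N+1)) (fun j hj => (Finset.mem_Ico.1 hj).1)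
      (fun j => Real.sqrt (w j) + Real.sqrt (w (j-1))) (u_sum N w hw hw1) x
    have e : pF (fun k => u k * (Hk m (Finset.Ico 1 (N+1)) (fun j => Real.sqrt (w j) +
        Real.sqrt (w (j-1))) k : ℂ)) x = ∑ k ∈ Finset.range N, c k * Complex.exp ((k:ℂ) * x * I) *
        (Hk m (Finset.Ico 1 (N+1)) (fun j => Real.sqrt (w j) + Real.sqrt (w (j-1))) k : ℂ) := by
      unfold pF
      rw [← Fin.sum_univ_eq_sum_range (fun k => c k * Complex.exp ((k:ℂ) * x * I) *
        (Hk m (Finset.Ico 1 (N+1)) (fun j => Real.sqrt (w j) + Real.sqrt (w (j-1))) k : ℂ)) N]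
      refine Finset.sum_congr rfl (fun k _ => ?_)
      rw [hcu k]; ring
    rw [e]
    refine h1.trans (le_of_eq ?_)
    ring
  by_contra hcon
  push Not at hcon
  have := key ((‖pF (fun k => u k * (Hk m (Finset.Ico 1 (N+1)) (fun j => Real.sqrt (w j) +
      Real.sqrt (w (j-1))) k : ℂ)) x‖ - 10 * NO u) / 20) (by linarith)
  linarith

section
variable {T : Type} [AddCommGroup T] [MeasurableSpace T] [MeasurableAdd₂ T] [MeasurableNeg T]
variable (μ : Measure T) [IsProbabilityMeasure μ] [μ.IsAddLeftInvariant] [μ.IsNegInvariant]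

/-- weights times coefficients -/
noncomputable def bw (z : ℕ → ℂ) (N m : ℕ) (w : ℕ → ℝ) (k : Fin N) : ℂ :=
  if 2 ^ m ≤ (k:ℕ) then (Real.sqrt (w ((k:ℕ) / 2 ^ m)) : ℂ) * z k else 0

/-- Necessity for polynomials. -/
theorem nec_fin (χ : ℕ → T → ℂ) (hχ : Ch χ)
    (hrep : ∀ x : T, ∃ y : ℝ, ∀ k, χ k x = Complex.exp ((k:ℂ) * y * I))
    (N m : ℕ) (z : ℕ → ℂ) (w : ℕ → ℝ) (hw : ∀ j, 0 ≤ w j) (hw1 : ∑ j ∈ Finset.range (N+1), w j ≤ 1)
    (hV : ∀ r > 0, 0 < VB μ (fun (k : Fin N) => χ k) (bw z N m w) r) (t0 : ℝ) (ht : 0 < t0)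
    (htail : tp (NO (N := N)) (fun k => z k) t0 ≤ 1 / 32)
    (e : ℕ → ℝ) (he0 : ∀ n, 0 ≤ e n)
    (he1 : ∀ n, (1/2 : ℝ) ^ (2 ^ n) ≤ VB μ (fun (k : Fin N) => χ k) (bw z N m w) (e n))
    (he2 : ∀ n r, r < e n → VB μ (fun (k : Fin N) => χ k) (bw z N m w) r < (1/2) ^ (2 ^ n)) (R : ℕ) :
    ∑ n ∈ Finset.range (R+1), Real.sqrt 2 ^ n * e n ≤
      10 ^ 12 * (80 * t0 + Real.sqrt (∑ k : Fin N, ‖z k‖ ^ 2)) := by
  have hCh : Ch (fun (k : Fin N) => χ k) := ⟨fun k => hχ.meas k, fun k => hχ.norm_eq k, fun k => hχ.map_add k⟩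
  have hkah := kahane (NO_SN N) (fun u => NO_neg u) (fun k : Fin N => z k) t0 ht htail
  have h1 := MP_lower μ hCh (bw z N m w) hV e he0 he1 he2 (80 * t0) (by
    intro ι _ _ x
    -- contraction
    set H : Fin N → ℝ := fun k => Hk m (Finset.Ico 1 (N+1)) (fun j => Real.sqrt (w j) + Real.sqrt (w (j-1))) k with hH
    set l : Fin N → ℝ := fun k => if 2 ^ m ≤ (k:ℕ) then Real.sqrt (w ((k:ℕ) / 2 ^ m)) / (4 * H k) else 0 with hl
    have hHlow : ∀ k : Fin N, 2 ^ m ≤ (k:ℕ) → Real.sqrt (w ((k:ℕ) / 2 ^ m)) ≤ 4 * H k := by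
      intro k hk
      have := Hk_lower m N w hw k k.2 hk
      simp only [hH]; linarith
    have hl1 : ∀ k, |l k| ≤ 1 := by
      intro k
      simp only [hl]
      split_ifs with hk
      · have h2 := hHlow k hk
        have h3 := Real.sqrt_nonneg (w ((k:ℕ) / 2 ^ m))
        rw [abs_of_nonneg (div_nonneg h3 (h3.trans h2))]
        exact div_le_one_of_le₀ h2 (h3.trans h2)
      · simp
    have hb : ∀ k, bw z N m w k = (l k : ℂ) * ((4 * H k : ℝ) * z k) := by
      intro k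
      simp only [hl, bw]
      split_ifs with hk
      · have h2 := hHlow k hk
        have h3 := Real.sqrt_nonneg (w ((k:ℕ) / 2 ^ m))
        rcases (h3.trans h2).eq_or_lt with h4 | h4
        · have h5 : Real.sqrt (w ((k:ℕ) / 2 ^ m)) = 0 := le_antisymm (by rw [h4]; exact h2) h3
          rw [h5]; simp
        · have h6 : ((4 * H k : ℝ) : ℂ) ≠ 0 := by exact_mod_cast h4.ne'
          rw [← mul_assoc]
          congr 1
          rw [← Complex.ofReal_mul, div_mul_cancel₀ _ h4.ne']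
      · simp
    have h2 := contraction (Nm_SN (χ := fun (k : Fin N) => χ k) x) (fun k => ((4 * H k : ℝ) : ℂ) * z k) l hl1
    have h3 : 𝔼 τ : Fin N → ℤˣ, Nm (fun (k : Fin N) => χ k) x (fun k => (sg (τ k) : ℂ) * bw z N m w k) ≤
        𝔼 τ : Fin N → ℤˣ, Nm (fun (k : Fin N) => χ k) x (fun k => (sg (τ k) : ℂ) * (((4 * H k : ℝ) : ℂ) * z k)) := by
      refine le_trans (le_of_eq ?_) h2
      refine Finset.expect_congr rfl (fun τ _ => ?_)
      congr 1
      funext k
      rw [hb k]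
    refine h3.trans ?_
    have h4 : ∀ τ : Fin N → ℤˣ, Nm (fun (k : Fin N) => χ k) x (fun k => (sg (τ k) : ℂ) * (((4 * H k : ℝ) : ℂ) * z k)) ≤
        40 * NO (fun k : Fin N => (sg (τ k) : ℂ) * z k) := by
      intro τ
      unfold Nm
      apply Finset.sup'_le
      intro i _
      obtain ⟨y, hy⟩ := hrep (x i)
      have h5 := mol_NO (fun k : Fin N => (sg (τ k) : ℂ) * z k) m w hw hw1 y
      have h6 : ∑ k : Fin N, (sg (τ k) : ℂ) * (((4 * H k : ℝ) : ℂ) * z k) * χ k (x i) =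
          4 * pF (fun k : Fin N => (sg (τ k) : ℂ) * z k * (Hk m (Finset.Ico 1 (N+1))
            (fun j => Real.sqrt (w j) + Real.sqrt (w (j-1))) k : ℂ)) y := by
        unfold pF
        rw [Finset.mul_sum]
        refine Finset.sum_congr rfl (fun k _ => ?_)
        rw [hy k]
        simp only [hH]
        push_cast
        ring
      rw [h6, norm_mul]
      simp only [Complex.norm_ofNat]
      linarith
    calc _ ≤ 𝔼 τ : Fin N → ℤˣ, 40 * NO (fun k : Fin N => (sg (τ k) : ℂ) * z k) :=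
          Finset.expect_le_expect (fun τ _ => h4 τ)
      _ = 40 * 𝔼 τ : Fin N → ℤˣ, NO (fun k : Fin N => (sg (τ k) : ℂ) * z k) := by
          rw [Finset.mul_expect]
      _ ≤ 80 * t0 := by linarith) R
  refine h1.trans ?_
  have h2 : en (bw z N m w) Finset.univ ≤ ∑ k : Fin N, ‖z k‖ ^ 2 := by
    unfold en
    apply Finset.sum_le_sum
    intro k _
    unfold bw
    split_ifs with hk
    · rw [norm_mul, mul_pow, Complex.norm_real, Real.norm_eq_abs, sq_abs, Real.sq_sqrt (hw _)]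
      have h3 : w ((k:ℕ) / 2 ^ m) ≤ 1 := by
        refine le_trans ?_ hw1
        apply Finset.single_le_sum (f := w) (fun j _ => hw j)
        rw [Finset.mem_range]
        have := Nat.div_le_self (k:ℕ) (2 ^ m)
        have := k.2
        omega
      have := sq_nonneg ‖z k‖
      nlinarith [hw ((k:ℕ) / 2 ^ m)]
    · simp
  have h3 := Real.sqrt_le_sqrt h2
  linarith

end

end H59.RB
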