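import Pool.Agent.H59.BMOA.Circ

/-! Independent Steinhaus variables. -/

namespace H59.RB

set_option linter.unusedSectionVars false

open Finset BigOperators MeasureTheory ProbabilityTheory Complex AddCircle

/-! ### a.s. convergence of real series -/

theorem conv_real {Ω : Type*} [MeasurableSpace Ω] {P : Measure Ω} [IsProbabilityMeasure P]
    (Y : ℕ → Ω → ℝ) (hm : ∀ k, Measurable (Y k)) (hi : iIndepFun Y P) (h0 : ∀ k, ∫ ω, Y k ω ∂P = 0)
    (b : ℕ → ℝ) (hb : ∀ k ω, |Y k ω| ≤ b k) (hs : Summable (fun k => b k ^ 2)) :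
    ∀ᵐ ω ∂P, ∃ l, Filter.Tendsto (fun n => ∑ k ∈ Finset.range n, Y k ω) Filter.atTop (nhds l) := by
  set ℱ := Filtration.natural Y (fun k => (hm k).stronglyMeasurable) with hℱ
  set f : ℕ → Ω → ℝ := fun n ω => ∑ k ∈ Finset.range (n+1), Y k ω with hf
  have hY2 : ∀ k, MemLp (Y k) 2 P := fun k =>
    MemLp.of_bound (hm k).aestronglyMeasurable (b k) (Filter.Eventually.of_forall (fun ω => hb k ω))
  have hYi : ∀ k, Integrable (Y k) P := fun k => (hY2 k).integrable (by norm_num)
  have hfi : ∀ n, Integrable (f n) P := fun n => integrable_finsetSum _ (fun k _ => hYi k)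
  have hmart : Martingale f ℱ P := by
    apply martingale_nat
    · intro n
      have hYn : ∀ k ≤ n, StronglyMeasurable[ℱ n] (Y k) := by
        intro k hk
        exact (Filtration.stronglyAdapted_natural (fun k => (hm k).stronglyMeasurable) k).mono (ℱ.mono hk)
      have : f n = ∑ k ∈ Finset.range (n+1), Y k := by
        ext ω; simp [hf]
      rw [this]
      exact Finset.stronglyMeasurable_sum _ (fun k hk => hYn k (by rw [Finset.mem_range] at hk; omega))
    · exact hfi
    · intro n
      have e : f (n+1) = f n + Y (n+1) := by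
        ext ω; simp only [hf, Pi.add_apply]; rw [Finset.sum_range_succ]
      rw [e]
      have h1 := condExp_add (hfi n) (hYi (n+1)) (ℱ n)
      have hYn : ∀ k ≤ n, StronglyMeasurable[ℱ n] (Y k) := by
        intro k hk
        exact (Filtration.stronglyAdapted_natural (fun k => (hm k).stronglyMeasurable) k).mono (ℱ.mono hk)
      have h2 : P[f n | ℱ n] = f n := by
        apply condExp_of_stronglyMeasurable (ℱ.le n) _ (hfi n)
        have : f n = ∑ k ∈ Finset.range (n+1), Y k := by
          ext ω; simp [hf]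
        rw [this]
        exact Finset.stronglyMeasurable_sum _ (fun k hk => hYn k (by rw [Finset.mem_range] at hk; omega))
      have h3 := iIndepFun.condExp_natural_ae_eq_of_lt (fun k => (hm k).stronglyMeasurable) hi
        (Nat.lt_succ_self n)
      filter_upwards [h1, h3] with ω h4 h5
      rw [h4, Pi.add_apply, h2]
      have h6 : (P[Y (n+1) | ℱ n]) ω = 0 := by rw [h5, h0]
      rw [h6, add_zero]
  have hbdd : ∀ n, eLpNorm (f n) 1 P ≤ ((1 + ∑' k, b k ^ 2).toNNReal : ENNReal) := by
    intro n
    have hvar : ∫ ω, f n ω ^ 2 ∂P ≤ ∑' k, b k ^ 2 := by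
      have hfs : f n = ∑ k ∈ Finset.range (n+1), Y k := by
        ext ω; simp [hf]
      have h1 : Var[f n; P] = ∑ k ∈ Finset.range (n+1), Var[Y k; P] := by
        rw [hfs]
        apply IndepFun.variance_sum (fun k _ => hY2 k)
        intro i _ j _ hij
        exact hi.indepFun hij
      have h2 : Var[f n; P] = ∫ ω, f n ω ^ 2 ∂P := by
        rw [variance_of_integral_eq_zero (hfi n).aemeasurable]
        · simp only [hf]
          rw [integral_finsetSum _ (fun k _ => hYi k)]
          exact Finset.sum_eq_zero (fun k _ => h0 k)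
      rw [← h2, h1]
      refine le_trans (Finset.sum_le_sum (fun k _ => ?_)) (hs.sum_le_tsum (Finset.range (n+1)) (fun k _ => sq_nonneg _))
      rw [variance_of_integral_eq_zero (hYi k).aemeasurable (h0 k)]
      calc ∫ ω, Y k ω ^ 2 ∂P ≤ ∫ _ω, b k ^ 2 ∂P := by
            apply integral_mono ((hY2 k).integrable_sq) (integrable_const _)
            intro ω
            simp only
            rw [← sq_abs]
            exact pow_le_pow_left₀ (abs_nonneg _) (hb k ω) 2
        _ = b k ^ 2 := by simp
    have hf2 : Integrable (fun ω => f n ω ^ 2) P := by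
      have : MemLp (f n) 2 P := by
        have hfs : f n = fun ω => ∑ k ∈ Finset.range (n+1), Y k ω := rfl
        rw [hfs]
        exact memLp_finsetSum _ (fun k _ => hY2 k)
      exact this.integrable_sq
    rw [eLpNorm_one_eq_lintegral_enorm]
    have h1 : ∫⁻ ω, ‖f n ω‖ₑ ∂P = ENNReal.ofReal (∫ ω, ‖f n ω‖ ∂P) :=
      (ofReal_integral_norm_eq_lintegral_enorm (hfi n)).symm
    rw [h1]
    change _ ≤ ENNReal.ofReal (1 + ∑' k, b k ^ 2)
    apply ENNReal.ofReal_le_ofReal
    calc ∫ ω, ‖f n ω‖ ∂P ≤ ∫ ω, (1 + f n ω ^ 2) ∂P := by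
          apply integral_mono (hfi n).norm ((integrable_const _).add hf2)
          intro ω
          simp only [Pi.add_apply]
          rw [Real.norm_eq_abs]
          nlinarith [sq_nonneg (|f n ω| - 1), sq_abs (f n ω)]
      _ = 1 + ∫ ω, f n ω ^ 2 ∂P := by
          rw [integral_add (integrable_const _) hf2]; simp
      _ ≤ _ := by linarith
  filter_upwards [hmart.submartingale.exists_ae_tendsto_of_bdd hbdd] with ω hω
  obtain ⟨l, hl⟩ := hω
  refine ⟨l, ?_⟩
  exact (Filter.tendsto_add_atTop_iff_nat (f := fun n => ∑ k ∈ Finset.range n, Y k ω) 1).1 hl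

/-! ### the circle law -/

/-- uniform law on the unit circle -/
noncomputable def cl : Measure ℂ := mc.map (chc 1)

instance : IsProbabilityMeasure cl :=
  Measure.isProbabilityMeasure_map (chc_Ch.meas 1).aemeasurable

lemma chc_pi (x : TC) : chc 1 (x + ((Real.pi : ℝ) : TC)) = - chc 1 x := by
  rw [chc_Ch.map_add, chc_coe]
  simp

lemma cl_neg : cl.map (fun z => -z) = cl := by
  unfold cl
  rw [Measure.map_map measurable_neg (chc_Ch.meas 1)]
  have h1 : (fun z : ℂ => -z) ∘ chc 1 = chc 1 ∘ (fun x => x + ((Real.pi : ℝ) : TC)) := by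
    funext x; simp only [Function.comp_apply]; rw [chc_pi]
  rw [h1, ← Measure.map_map (chc_Ch.meas 1) (measurable_add_const _), map_add_right_eq_self]

lemma map_coe_unif : (ProbabilityTheory.cond (volume : Measure ℝ) (Set.Icc 0 (2 * Real.pi))).map
    (fun t : ℝ => (t : TC)) = mc := by
  have hpi := Real.two_pi_pos
  have h1 := (AddCircle.measurePreserving_mk (2 * Real.pi) 0)
  unfold ProbabilityTheory.cond
  rw [Measure.map_smul, ← restrict_Ioc_eq_restrict_Icc]
  have h2 : (volume.restrict (Set.Ioc (0:ℝ) (2 * Real.pi))).map (fun t : ℝ => (t : TC)) =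
      (volume : Measure TC) := by
    have := h1.map_eq
    rw [zero_add] at this
    exact this
  rw [h2, volume_eq_smul_haarAddCircle, smul_smul, Real.volume_Icc, sub_zero,
    ENNReal.inv_mul_cancel (by positivity) ENNReal.ofReal_ne_top, one_smul]

lemma map_exp_unif : (ProbabilityTheory.cond (volume : Measure ℝ) (Set.Icc 0 (2 * Real.pi))).map
    (fun t : ℝ => Complex.exp (t * I)) = cl := by
  unfold cl
  rw [← map_coe_unif, Measure.map_map (chc_Ch.meas 1) (AddCircle.measurable_mk')]
  congr 1
  funext t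
  simp only [Function.comp_apply]
  rw [chc_coe]; simp

/-- independent variables uniform on the unit circle -/
structure Stein {Ω : Type*} [MeasurableSpace Ω] (P : Measure Ω) (X : ℕ → Ω → ℂ) : Prop where
  meas : ∀ k, Measurable (X k)
  norm_eq : ∀ k ω, ‖X k ω‖ = 1
  indep : iIndepFun X P
  law : ∀ k, P.map (X k) = cl

section
variable {Ω : Type*} [MeasurableSpace Ω] {P : Measure Ω} [IsProbabilityMeasure P]

lemma stein_of_unif (α : ℕ → Ω → ℝ) (hm : ∀ k, Measurable (α k)) (hi : iIndepFun α P)
    (hu : ∀ k, P.map (α k) = ProbabilityTheory.cond (volume : Measure ℝ) (Set.Icc 0 (2 * Real.pi))) :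
    Stein P (fun k ω => Complex.exp (α k ω * I)) := by
  have hg : Measurable (fun t : ℝ => Complex.exp (t * I)) := by fun_prop
  refine ⟨fun k => hg.comp (hm k), fun k ω => Complex.norm_exp_ofReal_mul_I _, ?_, fun k => ?_⟩
  · exact hi.comp (fun _ t => Complex.exp (t * I)) (fun _ => hg)
  · have : (fun ω => Complex.exp (α k ω * I)) = (fun t : ℝ => Complex.exp (t * I)) ∘ (α k) := rfl
    rw [this, ← Measure.map_map hg (hm k), hu k, map_exp_unif]

variable {X : ℕ → Ω → ℂ}

lemma Stein.mean (h : Stein P X) (k : ℕ) (u : ℂ) : ∫ ω, (u * X k ω).re ∂P = 0 := by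
  have hf : Measurable (fun z : ℂ => (u * z).re) := by fun_prop
  have h1 : ∫ ω, (u * X k ω).re ∂P = ∫ z, (u * z).re ∂cl := by
    rw [← h.law k, integral_map (h.meas k).aemeasurable hf.aestronglyMeasurable]
  have h2 : ∫ z, (u * z).re ∂cl = ∫ z, -(u * z).re ∂cl := by
    conv_lhs => rw [← cl_neg, integral_map measurable_neg.aemeasurable hf.aestronglyMeasurable]
    simp
  rw [integral_neg] at h2
  rw [h1]; linarith

lemma Stein.indep_re (h : Stein P X) (u : ℕ → ℂ) : iIndepFun (fun k ω => (u k * X k ω).re) P :=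
  h.indep.comp (fun k z => (u k * z).re) (fun k => by fun_prop)

lemma Stein.subG (h : Stein P X) : SubG P X := by
  refine ⟨h.meas, fun s u => ?_⟩
  have hsg : ∀ k ∈ s, HasSubgaussianMGF (fun ω => (u k * X k ω).re) (‖u k‖₊ ^ 2) P := by
    intro k _
    have hm : Measurable (fun ω => (u k * X k ω).re) := Complex.measurable_re.comp ((h.meas k).const_mul _)
    have h1 := hasSubgaussianMGF_of_mem_Icc_of_integral_eq_zero (X := fun ω => (u k * X k ω).re) (μ := P)
      (a := -‖u k‖) (b := ‖u k‖) hm.aemeasurable (Filter.Eventually.of_forall (fun ω => by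
        have h2 : |(u k * X k ω).re| ≤ ‖u k‖ := by
          refine (Complex.abs_re_le_norm _).trans ?_
          rw [norm_mul, h.norm_eq, mul_one]
        rw [Set.mem_Icc]
        exact ⟨(abs_le.1 h2).1, (abs_le.1 h2).2⟩)) (h.mean k (u k))
    have e : (‖‖u k‖ - -‖u k‖‖₊ / 2) ^ 2 = ‖u k‖₊ ^ 2 := by
      congr 1
      ext
      push_cast
      rw [Real.norm_eq_abs, sub_neg_eq_add, ← two_mul, abs_of_nonneg (by positivity)]
      ring
    rw [e] at h1
    exact h1
  have h3 := HasSubgaussianMGF.sum_of_iIndepFun (h.indep_re u) (s := s) (c := fun k => ‖u k‖₊ ^ 2) hsg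
  have h4 := h3.mgf_le 1
  have h5 := h3.integrable_exp_mul 1
  simp only [one_mul] at h5
  rw [← ofReal_integral_eq_lintegral_ofReal h5 (Filter.Eventually.of_forall (fun ω => (Real.exp_pos _).le))]
  apply ENNReal.ofReal_le_ofReal
  unfold mgf at h4
  simp only [one_mul, one_pow, mul_one] at h4
  refine h4.trans (le_of_eq ?_)
  push_cast
  rfl

/-- a.s. convergence of the series at a fixed point -/
lemma Stein.conv (h : Stein P X) (a : ℕ → ℂ) (ha : Summable (fun k => ‖a k‖ ^ 2)) (t : ℝ) :
    ∀ᵐ ω ∂P, ∃ l, Filter.Tendsto (fun n => ep (fun k => a k * X k ω) (Finset.range n) t) Filter.atTop (nhds l) := by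
  have hnorm : ∀ k, ‖a k * Complex.exp ((k:ℂ) * t * I)‖ = ‖a k‖ := by
    intro k
    have e : (k:ℂ) * t * I = ((k * t : ℝ) : ℂ) * I := by push_cast; ring
    rw [norm_mul, e, Complex.norm_exp_ofReal_mul_I, mul_one]
  have hre : ∀ v : ℂ, ‖v‖ = 1 → ∀ᵐ ω ∂P, ∃ l, Filter.Tendsto (fun n => ∑ k ∈ Finset.range n,
      ((v * (a k * Complex.exp ((k:ℂ) * t * I))) * X k ω).re) Filter.atTop (nhds l) := by
    intro v hv
    apply conv_real (fun k ω => ((v * (a k * Complex.exp ((k:ℂ) * t * I))) * X k ω).re)
      (fun k => Complex.measurable_re.comp ((h.meas k).const_mul _)) (h.indep_re _)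
      (fun k => h.mean k _) (fun k => ‖a k‖) _ ha
    intro k ω
    refine (Complex.abs_re_le_norm _).trans ?_
    rw [norm_mul, h.norm_eq, mul_one, norm_mul, hv, one_mul, hnorm]
  filter_upwards [hre 1 (by simp), hre (-I) (by simp)] with ω h1 h2
  obtain ⟨l1, hl1⟩ := h1
  obtain ⟨l2, hl2⟩ := h2
  refine ⟨(l1 : ℂ) + l2 * I, ?_⟩
  have h3 := ((Complex.continuous_ofReal.tendsto l1).comp hl1).add
    (((Complex.continuous_ofReal.tendsto l2).comp hl2).mul_const I)
  refine h3.congr (fun n => ?_)
  simp only [Function.comp_apply]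
  unfold ep
  have e1 : ∀ k, ((1:ℂ) * (a k * Complex.exp ((k:ℂ) * t * I)) * X k ω).re =
      (a k * X k ω * Complex.exp ((k:ℂ) * t * I)).re := by
    intro k; congr 1; ring
  have e2 : ∀ k, (-I * (a k * Complex.exp ((k:ℂ) * t * I)) * X k ω).re =
      (a k * X k ω * Complex.exp ((k:ℂ) * t * I)).im := by
    intro k
    have e : -I * (a k * Complex.exp ((k:ℂ) * t * I)) * X k ω =
        -I * (a k * X k ω * Complex.exp ((k:ℂ) * t * I)) := by ring
    rw [e]
    generalize a k * X k ω * Complex.exp ((k:ℂ) * t * I) = z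
    simp
  simp only [e1, e2]
  rw [Complex.ofReal_sum, Complex.ofReal_sum, Finset.sum_mul, ← Finset.sum_add_distrib]
  exact Finset.sum_congr rfl (fun k _ => Complex.re_add_im _)

/-- for almost every sample the series converges at almost every angle -/
theorem Stein.conv_ae (h : Stein P X) (a : ℕ → ℂ) (ha : Summable (fun k => ‖a k‖ ^ 2)) :
    ∀ᵐ ω ∂P, ∀ᵐ t : ℝ, ∃ l, Filter.Tendsto (fun n => ep (fun k => a k * X k ω) (Finset.range n) t)
      Filter.atTop (nhds l) := by
  rw [Measure.ae_ae_comm (p := fun ω (t : ℝ) => ∃ l, Filter.Tendsto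
    (fun n => ep (fun k => a k * X k ω) (Finset.range n) t) Filter.atTop (nhds l))]
  · exact Filter.Eventually.of_forall (fun t => h.conv a ha t)
  · apply measurableSet_exists_tendsto
    intro n
    unfold ep
    apply Finset.measurable_sum
    intro k _
    apply Measurable.mul
    · exact ((h.meas k).comp measurable_fst).const_mul _
    · have : Measurable (fun t : ℝ => Complex.exp ((k:ℂ) * t * I)) := by fun_prop
      exact this.comp measurable_snd

/-- sign changes do not change the law of the sequence -/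
theorem Stein.flip (h : Stein P X) (σ : ℕ → ℂ) (hσ : ∀ k, σ k = 1 ∨ σ k = -1) (E : Set (ℕ → ℂ))
    (hE : MeasurableSet E) : P {ω | (fun k => σ k * X k ω) ∈ E} = P {ω | (fun k => X k ω) ∈ E} := by
  have hm1 : Measurable (fun ω k => X k ω) := measurable_pi_iff.2 h.meas
  have hm2k : ∀ k, Measurable (fun ω => σ k * X k ω) := fun k => (h.meas k).const_mul _
  have hm2 : Measurable (fun ω k => σ k * X k ω) := measurable_pi_iff.2 hm2k
  have hi2 : iIndepFun (fun k ω => σ k * X k ω) P :=
    h.indep.comp (fun k z => σ k * z) (fun k => by fun_prop)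
  have hlaw : ∀ k, P.map (fun ω => σ k * X k ω) = P.map (X k) := by
    intro k
    rcases hσ k with h1 | h1
    · simp [h1]
    · have e : (fun ω => σ k * X k ω) = (fun z : ℂ => -z) ∘ (X k) := by
        funext ω; simp [h1]
      rw [e, ← Measure.map_map measurable_neg (h.meas k), h.law k, cl_neg]
  have h1 := h.indep.map_fun_eq_infinitePi_map h.meas
  have h2 := hi2.map_fun_eq_infinitePi_map hm2k
  have h3 : P.map (fun ω k => σ k * X k ω) = P.map (fun ω k => X k ω) := by
    rw [h1, h2]
    congr 1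
    funext k
    exact hlaw k
  have e1 : P {ω | (fun k => σ k * X k ω) ∈ E} = (P.map (fun ω k => σ k * X k ω)) E :=
    (Measure.map_apply hm2 hE).symm
  have e2 : P {ω | (fun k => X k ω) ∈ E} = (P.map (fun ω k => X k ω)) E :=
    (Measure.map_apply hm1 hE).symm
  rw [e1, e2, h3]

end

end H59.RB
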