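import Pool.Agent.H59.BMOA.Det
import Pool.Agent.H59.BMOA.Prob
import Pool.Agent.H59.BMOA.Nec1

/-! Necessity: the almost sure seminorm of the partial sums. -/

namespace H59.RB

set_option linter.unusedSectionVars false

open Finset BigOperators MeasureTheory Complex Filter Topology

/-! ### mean square convergence of the partial sums -/

lemma ep_sub_range (c : ℕ → ℂ) {N M : ℕ} (h : N ≤ M) (t : ℝ) :
    ep c (Finset.range M) t - ep c (Finset.range N) t = ep c (Finset.Ico N M) t := by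
  unfold ep
  rw [Finset.sum_Ico_eq_sub _ h]

lemma int_block (c : ℕ → ℂ) (N M : ℕ) (a : ℝ) :
    ∫ t in a..(a + 2 * Real.pi), ‖ep c (Finset.Ico N M) t‖ ^ 2 =
      2 * Real.pi * ∑ k ∈ Finset.Ico N M, ‖c k‖ ^ 2 := by
  have h1 := ortho (Finset.Ico N M) (fun k => Complex.exp ((k:ℂ) * a * I) * c k) 1 (by norm_num)
  rw [div_one] at h1
  have h2 : ∫ t in a..(a + 2 * Real.pi), ‖ep c (Finset.Ico N M) t‖ ^ 2 =
      ∫ s in (0:ℝ)..(2 * Real.pi), ‖ep c (Finset.Ico N M) (a + s)‖ ^ 2 := by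
    rw [intervalIntegral.integral_comp_add_left (fun t => ‖ep c (Finset.Ico N M) t‖ ^ 2) a]
    simp
  rw [h2]
  have h3 : ∀ s : ℝ, ep c (Finset.Ico N M) (a + s) = ∑ j ∈ Finset.Ico N M,
      Complex.exp ((j:ℂ) * ((1:ℝ):ℂ) * s * I) * (Complex.exp ((j:ℂ) * a * I) * c j) := by
    intro s
    unfold ep
    refine Finset.sum_congr rfl (fun k _ => ?_)
    rw [← mul_assoc, ← Complex.exp_add, mul_comm (c k)]
    congr 2
    push_cast; ring
  simp only [h3]
  rw [h1]
  congr 1
  refine Finset.sum_congr rfl (fun k _ => ?_)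
  rw [norm_mul, norm_exp_nat, one_mul]

/-- tail energy bound for the distance of the partial sum to the limit -/
lemma l2_tail (c : ℕ → ℂ) (hc : Summable (fun k => ‖c k‖ ^ 2)) (G : ℝ → ℂ)
    (hG : ∀ᵐ t : ℝ, Tendsto (fun n => ep c (Finset.range n) t) atTop (𝓝 (G t))) (N : ℕ) (a : ℝ) :
    ∫⁻ t in Set.Ioc a (a + 2 * Real.pi), ENNReal.ofReal (‖G t - ep c (Finset.range N) t‖ ^ 2) ≤
      ENNReal.ofReal (2 * Real.pi * (∑' k, ‖c k‖ ^ 2 - ∑ k ∈ Finset.range N, ‖c k‖ ^ 2)) := by
  have hpi := Real.two_pi_pos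
  have h1 : ∀ᵐ t ∂(volume.restrict (Set.Ioc a (a + 2 * Real.pi))),
      ENNReal.ofReal (‖G t - ep c (Finset.range N) t‖ ^ 2) =
      liminf (fun M => ENNReal.ofReal (‖ep c (Finset.range M) t - ep c (Finset.range N) t‖ ^ 2)) atTop := by
    filter_upwards [ae_restrict_of_ae hG] with t ht
    have h2 : Tendsto (fun M => ENNReal.ofReal (‖ep c (Finset.range M) t - ep c (Finset.range N) t‖ ^ 2)) atTop
        (𝓝 (ENNReal.ofReal (‖G t - ep c (Finset.range N) t‖ ^ 2))) :=
      (ENNReal.continuous_ofReal.tendsto _).comp ((ht.sub_const _).norm.pow 2)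
    exact h2.liminf_eq.symm
  rw [lintegral_congr_ae h1]
  refine (lintegral_liminf_le (fun M => ?_)).trans ?_
  · exact ((((ep_cont c _).sub (ep_cont c _)).norm.pow 2).measurable).ennreal_ofReal
  · apply liminf_le_of_frequently_le'
    refine ((eventually_ge_atTop N).mono (fun M hM => ?_)).frequently
    have hcont : Continuous (fun t => ‖ep c (Finset.Ico N M) t‖ ^ 2) := (ep_cont c _).norm.pow 2
    simp only [ep_sub_range c hM]
    rw [← ofReal_integral_eq_lintegral_ofReal (hcont.intervalIntegrable a (a + 2 * Real.pi)).1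
      (Eventually.of_forall (fun t => by positivity)), ← intervalIntegral.integral_of_le (by linarith),
      int_block]
    apply ENNReal.ofReal_le_ofReal
    apply mul_le_mul_of_nonneg_left _ hpi.le
    rw [Finset.sum_Ico_eq_sub _ hM]
    have := hc.sum_le_tsum (Finset.range M) (fun k _ => sq_nonneg _)
    linarith

lemma O1_eq (p : ℝ → ℂ) (a h : ℝ) (h0 : 0 < h) :
    O1 p a h = h⁻¹ * ∫ t in a..(a + h), ‖p t - ((h⁻¹ : ℝ) : ℂ) * ∫ s in a..(a + h), p s‖ := by
  unfold O1 A1 Mn
  rw [intervalIntegral.integral_comp_add_mul (fun t => ‖p t - _‖) h0.ne',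
    intervalIntegral.integral_comp_add_mul p h0.ne']
  simp only [mul_zero, add_zero, mul_one, smul_eq_mul, Complex.real_smul]

/-- mean oscillation of the partial sums, for large index -/
theorem O1_of_bmo (c : ℕ → ℂ) (hB : InBMOA c)
    (hconv : ∀ᵐ t : ℝ, ∃ l, Tendsto (fun n => ep c (Finset.range n) t) atTop (𝓝 l)) :
    ∃ C : ℝ, ∀ a h, 0 < h → h ≤ 2 * Real.pi → ∃ N0, ∀ N ≥ N0, O1 (ep c (Finset.range N)) a h ≤ C := by
  have hpi := Real.two_pi_pos
  obtain ⟨hc, G, hbd, C, hC⟩ := hB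
  have hGlim : ∀ᵐ t : ℝ, Tendsto (fun n => ep c (Finset.range n) t) atTop (𝓝 (G t)) := by
    filter_upwards [hconv, hbd] with t ht hb
    obtain ⟨l, hl⟩ := ht
    have h1 := radial_of_conv c t l hl
    have h2 := tendsto_nhds_unique h1 hb
    rw [← h2]; exact hl
  refine ⟨C + 1, fun a h h0 h1 => ?_⟩
  obtain ⟨hGi, hGo⟩ := hC a (a + h) (by linarith) (by linarith)
  -- tail energies
  have htail : Tendsto (fun N => 2 * Real.pi * (∑' k, ‖c k‖ ^ 2 - ∑ k ∈ Finset.range N, ‖c k‖ ^ 2)) atTop (𝓝 0) := by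
    have h2 := hc.hasSum.tendsto_sum_nat
    have h3 := (h2.const_sub (∑' k, ‖c k‖ ^ 2)).const_mul (2 * Real.pi)
    rw [sub_self, mul_zero] at h3
    exact h3
  obtain ⟨N0, hN0⟩ := (htail.eventually (gt_mem_nhds (by positivity : (0:ℝ) < h / 4))).exists_forall_of_atTop
  refine ⟨N0, fun N hN => ?_⟩
  set p := ep c (Finset.range N) with hp
  have hpc : Continuous p := ep_cont c _
  have hpi' : IntervalIntegrable p volume a (a + h) := hpc.intervalIntegrable _ _
  have hle : a ≤ a + h := by linarith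
  -- the L² distance
  have hgm : AEStronglyMeasurable (fun t => G t - p t) (volume.restrict (Set.Ioc a (a + h))) :=
    hGi.1.aestronglyMeasurable.sub hpc.aestronglyMeasurable
  have hl2 : ∫⁻ t in Set.Ioc a (a + h), ENNReal.ofReal (‖G t - p t‖ ^ 2) ≤ ENNReal.ofReal (h / 4) := by
    calc _ ≤ ∫⁻ t in Set.Ioc a (a + 2 * Real.pi), ENNReal.ofReal (‖G t - p t‖ ^ 2) := by
          apply lintegral_mono_set
          exact Set.Ioc_subset_Ioc_right (by linarith)
      _ ≤ _ := l2_tail c hc G hGlim N a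
      _ ≤ _ := ENNReal.ofReal_le_ofReal (hN0 N hN).le
  have hi2 : Integrable (fun t => ‖G t - p t‖ ^ 2) (volume.restrict (Set.Ioc a (a + h))) := by
    refine ⟨hgm.norm.pow 2, ?_⟩
    rw [hasFiniteIntegral_iff_norm]
    have : ∀ t, ‖‖G t - p t‖ ^ 2‖ = ‖G t - p t‖ ^ 2 := fun t => by
      rw [Real.norm_eq_abs, abs_of_nonneg (sq_nonneg _)]
    simp only [this]
    exact lt_of_le_of_lt hl2 ENNReal.ofReal_lt_top
  have hm2 : AEStronglyMeasurable (fun t => ‖G t - p t‖ ^ 2) (volume.restrict (Set.Ioc a (a + h))) :=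
    hgm.norm.pow 2
  have hi2v : ∫ t in Set.Ioc a (a + h), ‖G t - p t‖ ^ 2 ≤ h / 4 := by
    rw [integral_eq_lintegral_of_nonneg_ae (Eventually.of_forall (fun t => by positivity)) hm2]
    exact ENNReal.toReal_le_of_le_ofReal (by positivity) hl2
  have hi1 : ∫ t in a..(a + h), ‖G t - p t‖ ≤ h / 2 := by
    have i1 : Integrable (fun t => ‖G t - p t‖) (volume.restrict (Set.Ioc a (a + h))) :=
      (hGi.sub hpi').norm.1
    have i0 : Integrable (fun _ : ℝ => (1/4:ℝ)) (volume.restrict (Set.Ioc a (a + h))) := by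
      apply integrable_const_iff.2
      right
      simp only [isFiniteMeasure_restrict]
      exact measure_Ioc_lt_top.ne
    rw [intervalIntegral.integral_of_le hle]
    calc _ ≤ ∫ t in Set.Ioc a (a + h), (1/4 + ‖G t - p t‖ ^ 2) := by
          apply integral_mono i1 (i0.add hi2)
          intro t
          simp only [Pi.add_apply]
          nlinarith [sq_nonneg (‖G t - p t‖ - 1/2)]
      _ = h / 4 + ∫ t in Set.Ioc a (a + h), ‖G t - p t‖ ^ 2 := by
          rw [integral_add i0 hi2]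
          congr 1
          simp [h0.le]
          ring
      _ ≤ _ := by linarith
  -- compare
  rw [O1_eq p a h h0]
  set M1 := ((h⁻¹ : ℝ) : ℂ) * ∫ s in a..(a + h), p s with hM1
  set M2 := (∫ s in a..(a + h), G s) / (((a + h : ℝ) : ℂ) - a) with hM2
  have hhc : ((h : ℝ) : ℂ) ≠ 0 := by exact_mod_cast h0.ne'
  have hM2' : M2 = ((h⁻¹ : ℝ) : ℂ) * ∫ s in a..(a + h), G s := by
    have e : (((a + h : ℝ) : ℂ) - a) = ((h : ℝ) : ℂ) := by push_cast; ring
    rw [hM2, e, div_eq_inv_mul]; push_cast; rfl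
  have hMM : h * ‖M2 - M1‖ ≤ h / 2 := by
    rw [hM2', hM1, ← mul_sub, ← intervalIntegral.integral_sub hGi hpi', norm_mul, Complex.norm_real,
      Real.norm_eq_abs, abs_of_pos (inv_pos.2 h0), ← mul_assoc, mul_inv_cancel₀ h0.ne', one_mul]
    exact (intervalIntegral.norm_integral_le_integral_norm hle).trans hi1
  have hGo' : ∫ t in a..(a + h), ‖G t - M2‖ ≤ C * h := by
    have e : a + h - a = h := by ring
    rw [e, div_le_iff₀ h0] at hGo
    exact hGo
  have hmain : ∫ t in a..(a + h), ‖p t - M1‖ ≤ (C + 1) * h := by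
    have i1 : IntervalIntegrable (fun t => ‖G t - p t‖) volume a (a + h) := (hGi.sub hpi').norm
    have i2 : IntervalIntegrable (fun t => ‖G t - M2‖) volume a (a + h) :=
      (hGi.sub intervalIntegrable_const).norm
    have i3 : IntervalIntegrable (fun _ : ℝ => ‖M2 - M1‖) volume a (a + h) := intervalIntegrable_const
    calc ∫ t in a..(a + h), ‖p t - M1‖ ≤ ∫ t in a..(a + h), (‖G t - p t‖ + ‖G t - M2‖ + ‖M2 - M1‖) := by
          apply intervalIntegral.integral_mono_on hle
          · exact (hpi'.sub intervalIntegrable_const).norm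
          · exact (i1.add i2).add i3
          · intro t _
            have e : p t - M1 = -(G t - p t) + (G t - M2) + (M2 - M1) := by ring
            rw [e]
            refine (norm_add_le _ _).trans (add_le_add ((norm_add_le _ _).trans ?_) le_rfl)
            rw [norm_neg]
      _ = (∫ t in a..(a + h), ‖G t - p t‖) + (∫ t in a..(a + h), ‖G t - M2‖) + h * ‖M2 - M1‖ := by
          rw [intervalIntegral.integral_add (i1.add i2) i3, intervalIntegral.integral_add i1 i2,
            intervalIntegral.integral_const, smul_eq_mul]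
          congr 2; ring
      _ ≤ _ := by linarith
  rw [inv_mul_le_iff₀ h0]
  linarith

/-! ### continuity of the mean oscillation -/

lemma ep_mul_cont (a : ℕ → ℂ) (N : ℕ) {X : Type*} [TopologicalSpace X] (x : X → ℕ → ℂ) (t : X → ℝ)
    (hx : Continuous x) (ht : Continuous t) :
    Continuous (fun q => ep (fun k => a k * x q k) (Finset.range N) (t q)) := by
  unfold ep
  apply continuous_finsetSum
  intro k _
  have h1 : Continuous (fun q => x q k) := (continuous_apply k).comp hx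
  fun_prop

lemma Mn_cont (a : ℕ → ℂ) (N : ℕ) {X : Type*} [TopologicalSpace X] [FirstCountableTopology X]
    (x : X → ℕ → ℂ) (s t : X → ℝ) (hx : Continuous x) (hs : Continuous s) (ht : Continuous t) :
    Continuous (fun q => Mn (ep (fun k => a k * x q k) (Finset.range N)) (s q) (t q)) := by
  unfold Mn
  apply intervalIntegral.continuous_parametric_intervalIntegral_of_continuous'
  simp only [Function.uncurry_def]
  exact ep_mul_cont a N (fun q : X × ℝ => x q.1) (fun q => s q.1 + t q.1 * q.2)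
    (hx.comp continuous_fst) (by fun_prop)

lemma O1_cont (a : ℕ → ℂ) (N : ℕ) {X : Type*} [TopologicalSpace X] [FirstCountableTopology X]
    (x : X → ℕ → ℂ) (s t : X → ℝ) (hx : Continuous x) (hs : Continuous s) (ht : Continuous t) :
    Continuous (fun q => O1 (ep (fun k => a k * x q k) (Finset.range N)) (s q) (t q)) := by
  unfold O1 A1
  apply intervalIntegral.continuous_parametric_intervalIntegral_of_continuous'
  simp only [Function.uncurry_def]
  apply Continuous.norm
  apply Continuous.sub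
  · exact ep_mul_cont a N (fun q : X × ℝ => x q.1) (fun q => s q.1 + t q.1 * q.2)
      (hx.comp continuous_fst) (by fun_prop)
  · exact (Mn_cont a N x s t hx hs ht).comp continuous_fst

/-- the good event: mean oscillations of the partial sums are eventually at most `t` -/
def Ev (a : ℕ → ℂ) (t : ℝ) : Set (ℕ → ℂ) :=
  {x | ∀ q : ℚ × ℚ, 0 < (q.2 : ℝ) → (q.2 : ℝ) < 2 * Real.pi → ∃ N0 : ℕ, ∀ N ≥ N0,
    O1 (ep (fun k => a k * x k) (Finset.range N)) q.1 q.2 ≤ t}

lemma Ev_meas (a : ℕ → ℂ) (t : ℝ) : MeasurableSet (Ev a t) := by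
  have : Ev a t = ⋂ q : ℚ × ℚ, {x | 0 < (q.2 : ℝ) → (q.2 : ℝ) < 2 * Real.pi → ∃ N0 : ℕ, ∀ N ≥ N0,
    O1 (ep (fun k => a k * x k) (Finset.range N)) q.1 q.2 ≤ t} := by
    ext x; simp [Ev]
  rw [this]
  apply MeasurableSet.iInter
  intro q
  have hc : ∀ N, Continuous (fun x : ℕ → ℂ => O1 (ep (fun k => a k * x k) (Finset.range N)) q.1 q.2) :=
    fun N => O1_cont a N (fun x : ℕ → ℂ => x) (fun _ => (q.1 : ℝ)) (fun _ => (q.2 : ℝ)) continuous_id
      continuous_const continuous_const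
  have hm : ∀ N, MeasurableSet {x : ℕ → ℂ | O1 (ep (fun k => a k * x k) (Finset.range N)) q.1 q.2 ≤ t} :=
    fun N => (isClosed_le (hc N) continuous_const).measurableSet
  generalize hF : (fun (N : ℕ) (x : ℕ → ℂ) => O1 (ep (fun k => a k * x k) (Finset.range N)) q.1 q.2) = F at hm
  have hF' : ∀ N x, O1 (ep (fun k => a k * x k) (Finset.range N)) q.1 q.2 = F N x := by
    intro N x; rw [← hF]
  simp only [hF'] at hm ⊢
  by_cases h1 : 0 < (q.2 : ℝ)
  · by_cases h2 : (q.2 : ℝ) < 2 * Real.pi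
    · have : {x : ℕ → ℂ | 0 < (q.2 : ℝ) → (q.2 : ℝ) < 2 * Real.pi → ∃ N0 : ℕ, ∀ N ≥ N0, F N x ≤ t} =
          ⋃ N0 : ℕ, ⋂ N : ℕ, ⋂ (_ : N ≥ N0), {x | F N x ≤ t} := by
        ext x
        simp only [Set.mem_ofPred_eq, Set.mem_iUnion, Set.mem_iInter]
        exact ⟨fun h => h h1 h2, fun h _ _ => h⟩
      rw [this]
      exact MeasurableSet.iUnion (fun N0 => MeasurableSet.iInter (fun N => MeasurableSet.iInter (fun _ => hm N)))
    · have : {x : ℕ → ℂ | 0 < (q.2 : ℝ) → (q.2 : ℝ) < 2 * Real.pi → ∃ N0 : ℕ, ∀ N ≥ N0, F N x ≤ t} =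
          Set.univ := by
        ext x
        simp only [Set.mem_ofPred_eq, Set.mem_univ, iff_true]
        exact fun _ h => absurd h h2
      rw [this]; exact MeasurableSet.univ
  · have : {x : ℕ → ℂ | 0 < (q.2 : ℝ) → (q.2 : ℝ) < 2 * Real.pi → ∃ N0 : ℕ, ∀ N ≥ N0, F N x ≤ t} =
        Set.univ := by
      ext x
      simp only [Set.mem_ofPred_eq, Set.mem_univ, iff_true]
      exact fun h => absurd h h1
    rw [this]; exact MeasurableSet.univ

lemma Ev_mono (a : ℕ → ℂ) {s t : ℝ} (h : s ≤ t) : Ev a s ⊆ Ev a t := by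
  intro x hx q h1 h2
  obtain ⟨N0, hN⟩ := hx q h1 h2
  exact ⟨N0, fun N hN' => (hN N hN').trans h⟩

/-- from rational to real intervals -/
lemma NO_of_rat {N : ℕ} (z : ℕ → ℂ) (t : ℝ)
    (h : ∀ q : ℚ × ℚ, 0 < (q.2 : ℝ) → (q.2 : ℝ) < 2 * Real.pi → O1 (ep z (Finset.range N)) q.1 q.2 ≤ t) :
    NO (fun k : Fin N => z k) ≤ t := by
  apply NO_le
  intro a0 h0 hp1 hp2
  rw [pF_ep (fun k : Fin N => z k) z (fun _ => rfl)]
  have hcont : Continuous (fun q : ℝ × ℝ => O1 (ep z (Finset.range N)) q.1 q.2) := by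
    have := O1_cont z N (fun _ : ℝ × ℝ => (fun _ => 1 : ℕ → ℂ)) (fun q => q.1) (fun q => q.2)
      continuous_const continuous_fst continuous_snd
    simpa only [mul_one] using this
  generalize hF : (fun q : ℝ × ℝ => O1 (ep z (Finset.range N)) q.1 q.2) = F at hcont
  have hF' : ∀ a b, O1 (ep z (Finset.range N)) a b = F (a, b) := by
    intro a b; rw [← hF]
  simp only [hF'] at h ⊢
  have hclosed : IsClosed {q : ℝ × ℝ | F q ≤ t} := isClosed_le hcont continuous_const
  set U : Set (ℝ × ℝ) := Set.univ ×ˢ Set.Ioo 0 (2 * Real.pi) with hU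
  have hUo : IsOpen U := isOpen_univ.prod isOpen_Ioo
  have hdense : DenseRange (fun q : ℚ × ℚ => ((q.1 : ℝ), (q.2 : ℝ))) :=
    Rat.denseRange_cast.prodMap Rat.denseRange_cast
  have h1 : U ⊆ {q : ℝ × ℝ | F q ≤ t} := by
    refine (Dense.open_subset_closure_inter hdense hUo).trans ?_
    refine closure_minimal ?_ hclosed
    rintro x ⟨hx, ⟨q, rfl⟩⟩
    exact h q hx.2.1 hx.2.2
  have h2 : closure U ⊆ {q : ℝ × ℝ | F q ≤ t} := closure_minimal h1 hclosed
  have h3 : (a0, h0) ∈ closure U := by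
    rw [hU, closure_prod_eq, closure_univ, closure_Ioo (by positivity)]
    exact ⟨Set.mem_univ _, hp1.le, hp2⟩
  exact h2 h3

end H59.RB
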