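import Pool.Agent.H59.BMOA.Det
import Pool.Agent.H59.BMOA.Prob

/-! Sufficiency of the entropy condition. -/

namespace H59.RB

set_option linter.unusedSectionVars false

open Finset BigOperators MeasureTheory Complex Filter Topology AddCircle

lemma ff_coe (a X : ℕ → ℂ) (S : Finset ℕ) (t : ℝ) :
    ff chc a X S (t : TC) = ep (fun k => a k * X k) S t := by
  unfold ff ep
  refine Finset.sum_congr rfl (fun k _ => ?_)
  rw [chc_coe]

lemma dm_coe (a : ℕ → ℂ) (S : Finset ℕ) (t : ℝ) :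
    dm chc a S (t : TC) = ∑ k ∈ S, ‖a k‖ ^ 2 * ‖Complex.exp ((k:ℂ) * t * I) - 1‖ ^ 2 := by
  unfold dm
  refine Finset.sum_congr rfl (fun k _ => ?_)
  rw [chc_coe]

/-- the mixture of block metrics is the truncated metric -/
lemma mix_eq (a : ℕ → ℂ) (N m : ℕ) (w : ℕ → ℝ) (t : ℝ) :
    ∑ j ∈ Finset.Ico 1 N, w j * dm chc a (blk N m j) (t : TC) = rhoN a N m w t := by
  have hp : 0 < 2 ^ m := by positivity
  unfold rhoN
  have h1 : ∀ k ∈ (Finset.range N).filter (fun k => 2 ^ m ≤ k), k / 2 ^ m ∈ Finset.Ico 1 N := by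
    intro k hk
    rw [Finset.mem_filter, Finset.mem_range] at hk
    rw [Finset.mem_Ico]
    exact ⟨(Nat.one_le_div_iff hp).2 hk.2, lt_of_le_of_lt (Nat.div_le_self _ _) hk.1⟩
  rw [← Finset.sum_filter, ← Finset.sum_fiberwise_of_maps_to h1]
  refine Finset.sum_congr rfl (fun j hj => ?_)
  rw [dm_coe, Finset.mul_sum]
  have h2 : ((Finset.range N).filter (fun k => 2 ^ m ≤ k)).filter (fun k => k / 2 ^ m = j) = blk N m j := by
    ext k
    rw [Finset.mem_filter, Finset.mem_filter, mem_blk, Finset.mem_range]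
    constructor
    · rintro ⟨⟨h3, _⟩, h4⟩; exact ⟨h3, h4⟩
    · rintro ⟨h3, h4⟩
      refine ⟨⟨h3, ?_⟩, h4⟩
      rw [Finset.mem_Ico] at hj
      have : 1 ≤ k / 2 ^ m := by rw [h4]; exact hj.1
      exact (Nat.one_le_div_iff hp).1 this
  rw [h2]
  refine Finset.sum_congr rfl (fun k hk => ?_)
  rw [(mem_blk.1 hk).2]; ring

lemma pos_v (n : ℕ) : (0:ℝ) < 2 * Real.pi * (1/2) ^ (2 ^ n) := by
  have := Real.pi_pos; positivity

lemma v_le (n : ℕ) : 2 * Real.pi * (1/2 : ℝ) ^ (2 ^ n) ≤ 2 * Real.pi := by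
  have := Real.pi_pos
  have h1 : (1/2 : ℝ) ^ (2 ^ n) ≤ 1 := pow_le_one₀ (by norm_num) (by norm_num)
  nlinarith

lemma rhoSq_le (a : ℕ → ℂ) (ha : Summable (fun k => ‖a k‖ ^ 2)) (m : ℕ) (w : ℕ → ℝ)
    (hw : ∀ j, 0 ≤ w j) (hw1 : ∀ j, w j ≤ 1) (t : ℝ) : rhoSq a m w t ≤ 4 * ∑' k, ‖a k‖ ^ 2 := by
  unfold rhoSq
  rw [← tsum_mul_left]
  exact (term_summable a ha m w hw hw1 t).tsum_le_tsum (fun k => term_le a m w hw hw1 t k) (ha.mul_left 4)

lemma w_le_one (w : ℕ → ℝ) (hw : ∀ j, 0 ≤ w j) (hs : Summable w) (h1 : ∑' j, w j ≤ 1) (j : ℕ) : w j ≤ 1 :=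
  (hs.le_tsum j (fun i _ => hw i)).trans h1

section
variable {Ω : Type*} [MeasurableSpace Ω] {P : Measure Ω} [IsProbabilityMeasure P] {X : ℕ → Ω → ℂ}

/-- truncated estimate for a general square summable sequence -/
theorem trunc_general (h : Stein P X) (a : ℕ → ℂ) (ha : Summable (fun k => ‖a k‖ ^ 2))
    (hE : EntropyBounded a) :
    ∃ C : ℝ, 0 ≤ C ∧ ∀ N : ℕ, ∃ Ξ : Ω → ℝ, Measurable Ξ ∧ (∀ ω, 0 ≤ Ξ ω) ∧
      ∫⁻ ω, ENNReal.ofReal (Ξ ω) ∂P ≤ 11 ∧
      ∀ ω m (x : ℝ), ∑ j ∈ Finset.Ico 1 N, ‖ep (fun k => a k * X k ω) (blk N m j) x‖ ^ 2 ≤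
        (9 + 4 * Ξ ω) * C := by
  obtain ⟨C0, hC0⟩ := hE
  set s : ℝ := Real.sqrt (∑' k, ‖a k‖ ^ 2) + 1 with hs
  have htot : 0 ≤ ∑' k, ‖a k‖ ^ 2 := tsum_nonneg (fun k => sq_nonneg _)
  have hs1 : 1 ≤ s := by have := Real.sqrt_nonneg (∑' k, ‖a k‖ ^ 2); linarith
  have hs0 : 0 < s := by linarith
  have hssq : ∑' k, ‖a k‖ ^ 2 ≤ s ^ 2 := by
    have h1 := Real.sq_sqrt htot
    have h2 := Real.sqrt_nonneg (∑' k, ‖a k‖ ^ 2)
    rw [hs]; nlinarith
  set a' : ℕ → ℂ := fun k => ((s⁻¹ : ℝ) : ℂ) * a k with ha'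
  have hna : ∀ k, ‖a' k‖ ^ 2 = s⁻¹ ^ 2 * ‖a k‖ ^ 2 := by
    intro k
    simp only [ha']
    rw [norm_mul, mul_pow, Complex.norm_real, Real.norm_eq_abs, sq_abs]
  refine ⟨s ^ 2 * (13 + 4 * (2 * (C0 / s) + 1)) ^ 2, by positivity, fun N => ?_⟩
  have hcE : cE a' N ≤ 1 := by
    unfold cE
    simp only [hna]
    rw [← Finset.mul_sum]
    have h1 : ∑ k ∈ Finset.range N, ‖a k‖ ^ 2 ≤ s ^ 2 := (ha.sum_le_tsum _ (fun k _ => sq_nonneg _)).trans hssq
    calc s⁻¹ ^ 2 * ∑ k ∈ Finset.range N, ‖a k‖ ^ 2 ≤ s⁻¹ ^ 2 * s ^ 2 :=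
          mul_le_mul_of_nonneg_left h1 (by positivity)
      _ = 1 := by field_simp
  obtain ⟨Ξ, hΞm, hΞ0, hΞE, hΞ⟩ := suff_trunc mc P chc_Ch a' h.subG (fun k ω => (h.norm_eq k ω).le) N hcE
    (C0 / s) (by
      intro m R w hw0 hw1
      set w' : ℕ → ℝ := fun j => if j ∈ Finset.Ico 1 N then w j else 0 with hw'
      have hw'0 : ∀ j, 0 ≤ w' j := by
        intro j; simp only [hw']; split_ifs
        · exact hw0 j
        · exact le_rfl
      have hw's : HasSum w' 1 := by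
        have h1 : ∀ j ∉ Finset.Ico 1 N, w' j = 0 := by
          intro j hj; simp only [hw']; rw [if_neg hj]
        have h2 : HasSum w' (∑ j ∈ Finset.Ico 1 N, w' j) := hasSum_sum_of_ne_finset_zero h1
        have h3 : ∑ j ∈ Finset.Ico 1 N, w' j = 1 := by
          rw [← hw1]
          refine Finset.sum_congr rfl (fun j hj => ?_)
          simp only [hw']; rw [if_pos hj]
        rwa [h3] at h2
      have hw'1 := w_le_one w' hw'0 hw's.summable hw's.tsum_eq.le
      refine ⟨fun n => s⁻¹ * entNum a m w' n, fun n => ?_, fun n => ?_, ?_⟩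
      · exact mul_nonneg (inv_nonneg.2 hs0.le) (eN_nonneg (rhoSq a m w') (2 * Real.pi * (1/2) ^ (2 ^ n)))
      · have hmeas : MeasurableSet {x : TC | Real.sqrt (∑ j ∈ Finset.Ico 1 N, w j * dm chc a' (blk N m j) x) ≤
            s⁻¹ * entNum a m w' n} := by
          apply measurableSet_le _ measurable_const
          exact (Finset.measurable_sum _ (fun j _ => (measurable_dm chc_Ch a' _).const_mul _)).sqrt
        rw [mc_real _ hmeas]
        rw [le_div_iff₀ Real.two_pi_pos]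
        have h4 := eN_spec (rhoSq_meas a ha m w' hw'0 hw'1) (2 * Real.pi * (1/2) ^ (2 ^ n))
          (4 * ∑' k, ‖a k‖ ^ 2) (v_le n) (by positivity) (rhoSq_le a ha m w' hw'0 hw'1)
        have h5 : (1/2:ℝ) ^ (2 ^ n) * (2 * Real.pi) = 2 * Real.pi * (1/2) ^ (2 ^ n) := by ring
        rw [h5]
        refine h4.trans ?_
        unfold Vr
        apply measureReal_mono
        · intro t ht
          refine ⟨ht.1, ?_⟩
          rw [Set.mem_ofPred_eq]
          have e1 : ∑ j ∈ Finset.Ico 1 N, w j * dm chc a' (blk N m j) (t : TC) = s⁻¹ ^ 2 * rhoN a N m w' t := by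
            rw [← mix_eq, Finset.mul_sum]
            refine Finset.sum_congr rfl (fun j hj => ?_)
            have e2 : dm chc a' (blk N m j) (t : TC) = s⁻¹ ^ 2 * dm chc a (blk N m j) (t : TC) := by
              unfold dm
              rw [Finset.mul_sum]
              exact Finset.sum_congr rfl (fun k _ => by rw [hna]; ring)
            rw [e2]
            simp only [hw']
            rw [if_pos hj]; ring
          rw [e1, Real.sqrt_mul (by positivity), Real.sqrt_sq (by positivity)]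
          apply mul_le_mul_of_nonneg_left _ (by positivity)
          exact (Real.sqrt_le_sqrt (rhoN_le a ha N m w' hw'0 hw'1 t)).trans ht.2
        · refine ne_top_of_le_ne_top (measure_Icc_lt_top (a := (0:ℝ)) (b := 2 * Real.pi)).ne (measure_mono ?_)
          intro t ht; exact ht.1
      · have h6 := hC0 m w' hw'0 hw's.summable hw's.tsum_eq.le (R+1)
        have e : ∑ n ∈ Finset.range (R+1), Real.sqrt 2 ^ n * (s⁻¹ * entNum a m w' n) =
            s⁻¹ * ∑ n ∈ Finset.range (R+1), Real.sqrt 2 ^ n * entNum a m w' n := by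
          rw [Finset.mul_sum]; exact Finset.sum_congr rfl (fun n _ => by ring)
        rw [e, div_eq_inv_mul]
        exact mul_le_mul_of_nonneg_left h6 (by positivity))
  refine ⟨Ξ, hΞm, hΞ0, hΞE, fun ω m x => ?_⟩
  have h7 := hΞ ω m (x : TC)
  have e : ∀ j, ‖ep (fun k => a k * X k ω) (blk N m j) x‖ ^ 2 =
      s ^ 2 * ‖ff chc a' (fun k => X k ω) (blk N m j) (x : TC)‖ ^ 2 := by
    intro j
    have e1 : ff chc a' (fun k => X k ω) (blk N m j) (x : TC) =
        ((s⁻¹ : ℝ) : ℂ) * ep (fun k => a k * X k ω) (blk N m j) x := by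
      rw [ff_coe]
      unfold ep
      rw [Finset.mul_sum]
      refine Finset.sum_congr rfl (fun k _ => ?_)
      simp only [ha']; ring
    rw [e1, norm_mul, mul_pow, Complex.norm_real, Real.norm_eq_abs, sq_abs, ← mul_assoc]
    have : s ^ 2 * s⁻¹ ^ 2 = 1 := by field_simp
    rw [this, one_mul]
  simp only [e]
  rw [← Finset.mul_sum]
  calc _ ≤ s ^ 2 * ((9 + 4 * Ξ ω) * (13 + 4 * (2 * (C0 / s) + 1)) ^ 2) :=
        mul_le_mul_of_nonneg_left h7 (by positivity)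
    _ = _ := by ring

/-- Sufficiency. -/
theorem sufficiency (h : Stein P X) (a : ℕ → ℂ) (ha : Summable (fun k => ‖a k‖ ^ 2))
    (hE : EntropyBounded a) : ∀ᵐ ω ∂P, InBMOA (fun k => a k * X k ω) := by
  obtain ⟨C, hC0, hC⟩ := trunc_general h a ha hE
  choose Ξ hΞm hΞ0 hΞE hΞ using hC
  have hlim : ∫⁻ ω, liminf (fun N => ENNReal.ofReal (Ξ N ω)) atTop ∂P ≤ 11 := by
    refine (lintegral_liminf_le (fun N => (hΞm N).ennreal_ofReal)).trans ?_
    exact liminf_le_of_frequently_le' (Frequently.of_forall hΞE)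
  have hae : ∀ᵐ ω ∂P, liminf (fun N => ENNReal.ofReal (Ξ N ω)) atTop < ⊤ := by
    apply ae_lt_top
    · exact Measurable.liminf (fun N => (hΞm N).ennreal_ofReal)
    · exact ne_top_of_le_ne_top (by norm_num) hlim
  filter_upwards [hae, h.conv_ae a ha] with ω hω hconv
  have hc : Summable (fun k => ‖a k * X k ω‖ ^ 2) := by
    refine ha.congr (fun k => ?_)
    rw [norm_mul, h.norm_eq, mul_one]
  -- a finite bound, frequently
  obtain ⟨B, hB1, hB2⟩ := ENNReal.lt_iff_exists_nnreal_btwn.1 hω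
  have hfr : ∃ᶠ N in atTop, ENNReal.ofReal (Ξ N ω) < (B : ENNReal) :=
    frequently_lt_of_liminf_lt (by isBoundedDefault) hB1
  apply bmo_of_blocks _ hc hconv (Real.sqrt ((9 + 4 * B) * C)) (Real.sqrt_nonneg _)
  refine hfr.mono (fun N hN q α => ?_)
  refine (hΞ N ω q α).trans ?_
  rw [Real.sq_sqrt (by positivity)]
  apply mul_le_mul_of_nonneg_right _ hC0
  have h1 : Ξ N ω < B := by
    have := hN
    rw [← ENNReal.ofReal_coe_nnreal] at this
    exact (ENNReal.ofReal_lt_ofReal_iff_of_nonneg (hΞ0 N ω)).1 this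
  linarith

end

end H59.RB
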