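import Pool.Agent.H59.BMOA.Nec2
import Pool.Agent.H59.BMOA.Suff

/-! Necessity of the entropy condition. -/

namespace H59.RB

set_option linter.unusedSectionVars false

open Finset BigOperators MeasureTheory Complex Filter Topology

section
variable {Ω : Type*} [MeasurableSpace Ω] {P : Measure Ω} [IsProbabilityMeasure P] {X : ℕ → Ω → ℂ}

/-- a level with small exceptional probability -/
lemma exists_level (h : Stein P X) (a : ℕ → ℂ) (ha : Summable (fun k => ‖a k‖ ^ 2))
    (hB : ∀ᵐ ω ∂P, InBMOA (fun k => a k * X k ω)) :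
    ∃ t0 : ℝ, 0 < t0 ∧ P {ω | (fun k => X k ω) ∈ (Ev a t0)ᶜ} ≤ ENNReal.ofReal (1/64) := by
  have hm : Measurable (fun ω k => X k ω) := measurable_pi_iff.2 h.meas
  set S : ℕ → Set Ω := fun n => {ω | (fun k => X k ω) ∈ (Ev a ((n:ℝ) + 1))ᶜ} with hS
  have hSm : ∀ n, MeasurableSet (S n) := fun n => hm (Ev_meas a ((n:ℝ) + 1)).compl
  have hanti : Antitone S := by
    intro n n' hnn' ω hω
    simp only [hS, Set.mem_ofPred_eq, Set.mem_compl_iff] at hω ⊢
    intro h1
    apply hω
    apply Ev_mono a _ h1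
    have : (n:ℝ) ≤ n' := by exact_mod_cast hnn'
    linarith
  have hnull : P (⋂ n, S n) = 0 := by
    have h1 : ∀ᵐ ω ∂P, ω ∉ ⋂ n, S n := by
      filter_upwards [hB, h.conv_ae a ha] with ω h1 h2
      obtain ⟨C, hC⟩ := O1_of_bmo _ h1 h2
      obtain ⟨n, hn⟩ := exists_nat_ge C
      rw [Set.mem_iInter]
      intro h3
      apply h3 n
      intro q hq1 hq2
      obtain ⟨N0, hN0⟩ := hC q.1 q.2 hq1 hq2.le
      exact ⟨N0, fun N hN => (hN0 N hN).trans (by linarith)⟩
    have h2 := ae_iff.1 h1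
    have e : {ω | ¬ ω ∉ ⋂ n, S n} = ⋂ n, S n := by
      ext ω; simp only [Set.mem_ofPred_eq, not_not]
    rwa [e] at h2
  have hlim := tendsto_measure_iInter_atTop (μ := P) (fun n => (hSm n).nullMeasurableSet) hanti
    ⟨0, measure_ne_top _ _⟩
  rw [hnull] at hlim
  have hev := hlim.eventually (gt_mem_nhds (by simp : (0:ENNReal) < ENNReal.ofReal (1/64)))
  obtain ⟨n, hn⟩ := hev.exists
  exact ⟨(n:ℝ) + 1, by positivity, hn.le⟩

/-- averaging over signs: a good sample -/
lemma exists_sample (h : Stein P X) (a : ℕ → ℂ) (t0 : ℝ)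
    (hP : P {ω | (fun k => X k ω) ∈ (Ev a t0)ᶜ} ≤ ENNReal.ofReal (1/64)) (N : ℕ) :
    ∃ ω, tp (NO (N := N)) (fun k : Fin N => a k * X k ω) t0 ≤ 1 / 32 := by
  classical
  have hm : Measurable (fun ω k => X k ω) := measurable_pi_iff.2 h.meas
  -- sign sequences
  set σp : (Fin N → ℤˣ) → ℕ → ℂ := fun τ k => if hk : k < N then (sg (τ ⟨k, hk⟩) : ℂ) else 1 with hσp
  set σm : (Fin N → ℤˣ) → ℕ → ℂ := fun τ k => if hk : k < N then (sg (τ ⟨k, hk⟩) : ℂ) else -1 with hσm
  have hsg : ∀ e : ℤˣ, (sg e : ℂ) = 1 ∨ (sg e : ℂ) = -1 := by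
    intro e
    rcases sg_cases e with h1 | h1
    · left; rw [h1]; simp
    · right; rw [h1]; simp
  have hσp1 : ∀ τ k, σp τ k = 1 ∨ σp τ k = -1 := by
    intro τ k; simp only [hσp]; split_ifs
    · exact hsg _
    · exact Or.inl rfl
  have hσm1 : ∀ τ k, σm τ k = 1 ∨ σm τ k = -1 := by
    intro τ k; simp only [hσm]; split_ifs
    · exact hsg _
    · exact Or.inr rfl
  set Bp : (Fin N → ℤˣ) → Set Ω := fun τ => {ω | (fun k => σp τ k * X k ω) ∈ (Ev a t0)ᶜ} with hBp
  set Bm : (Fin N → ℤˣ) → Set Ω := fun τ => {ω | (fun k => σm τ k * X k ω) ∈ (Ev a t0)ᶜ} with hBm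
  have hE := (Ev_meas a t0).compl
  have hBpm : ∀ τ, MeasurableSet (Bp τ) := fun τ =>
    (measurable_pi_iff.2 (fun k => (h.meas k).const_mul (σp τ k))) hE
  have hBmm : ∀ τ, MeasurableSet (Bm τ) := fun τ =>
    (measurable_pi_iff.2 (fun k => (h.meas k).const_mul (σm τ k))) hE
  have hPp : ∀ τ, P (Bp τ) ≤ ENNReal.ofReal (1/64) := fun τ => by
    rw [hBp]; simp only; rw [h.flip (σp τ) (hσp1 τ) _ hE]; exact hP
  have hPm : ∀ τ, P (Bm τ) ≤ ENNReal.ofReal (1/64) := fun τ => by
    rw [hBm]; simp only; rw [h.flip (σm τ) (hσm1 τ) _ hE]; exact hP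
  -- counting function
  set F : Ω → ENNReal := fun ω => ∑ τ : Fin N → ℤˣ, (Bp τ ∪ Bm τ).indicator (fun _ => (1:ENNReal)) ω with hF
  have hFm : Measurable F := Finset.measurable_sum _
    (fun τ _ => measurable_const.indicator ((hBpm τ).union (hBmm τ)))
  have hFint : ∫⁻ ω, F ω ∂P ≤ (Fintype.card (Fin N → ℤˣ) : ENNReal) * ENNReal.ofReal (1/32) := by
    rw [hF, lintegral_finsetSum _ (fun τ _ => measurable_const.indicator ((hBpm τ).union (hBmm τ)))]
    calc ∑ τ : Fin N → ℤˣ, ∫⁻ ω, (Bp τ ∪ Bm τ).indicator (fun _ => (1:ENNReal)) ω ∂P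
        ≤ ∑ _τ : Fin N → ℤˣ, ENNReal.ofReal (1/32) := by
          apply Finset.sum_le_sum
          intro τ _
          rw [lintegral_indicator_const ((hBpm τ).union (hBmm τ)), one_mul]
          refine (measure_union_le _ _).trans ((add_le_add (hPp τ) (hPm τ)).trans ?_)
          rw [← ENNReal.ofReal_add (by norm_num) (by norm_num)]
          apply ENNReal.ofReal_le_ofReal; norm_num
      _ = _ := by rw [Finset.sum_const, Finset.card_univ, nsmul_eq_mul]
  obtain ⟨ω, hω⟩ := exists_le_lintegral (μ := P) (f := F) hFm.aemeasurable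
  refine ⟨ω, ?_⟩
  have hFω := hω.trans hFint
  -- pointwise comparison
  have hpt : ∀ τ : Fin N → ℤˣ, (if t0 < NO (fun k : Fin N => (sg (τ k) : ℂ) * (a k * X k ω)) then (1:ℝ) else 0) ≤
      (Bp τ ∪ Bm τ).indicator (fun _ => (1:ℝ)) ω := by
    intro τ
    by_cases hb : ω ∈ Bp τ ∪ Bm τ
    · rw [Set.indicator_of_mem hb]; split_ifs <;> norm_num
    · rw [Set.indicator_of_notMem hb]
      rw [if_neg]
      rw [not_lt]
      have hbp : (fun k => σp τ k * X k ω) ∈ Ev a t0 := by
        by_contra hc; exact hb (Or.inl hc)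
      have hbm : (fun k => σm τ k * X k ω) ∈ Ev a t0 := by
        by_contra hc; exact hb (Or.inr hc)
      set z : ℕ → ℂ := fun k => if hk : k < N then (sg (τ ⟨k, hk⟩) : ℂ) * (a k * X k ω) else 0 with hz
      have hzN : (fun k : Fin N => (sg (τ k) : ℂ) * (a k * X k ω)) = fun k : Fin N => z k := by
        funext k; simp only [hz]; rw [dif_pos k.2]
      rw [hzN]
      apply NO_of_rat z t0
      intro q hq1 hq2
      obtain ⟨N1, hN1⟩ := hbp q hq1 hq2
      obtain ⟨N2, hN2⟩ := hbm q hq1 hq2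
      set M := max N (max N1 N2) with hM
      have e1 := hN1 M ((le_max_left _ _).trans (le_max_right _ _))
      have e2 := hN2 M ((le_max_right _ _).trans (le_max_right _ _))
      have hNM : N ≤ M := le_max_left _ _
      have hsum : ep z (Finset.range N) = fun x => (1/2 : ℂ) *
          (ep (fun k => a k * (σp τ k * X k ω)) (Finset.range M) x +
           ep (fun k => a k * (σm τ k * X k ω)) (Finset.range M) x) := by
        funext x
        unfold ep
        rw [← Finset.sum_add_distrib, Finset.mul_sum]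
        have h3 : ∑ k ∈ Finset.range N, z k * Complex.exp ((k:ℂ) * x * I) =
            ∑ k ∈ Finset.range M, z k * Complex.exp ((k:ℂ) * x * I) := by
          apply Finset.sum_subset (Finset.range_subset_range.2 hNM)
          intro k _ hk
          rw [Finset.mem_range] at hk
          simp only [hz]; rw [dif_neg hk, zero_mul]
        rw [h3]
        refine Finset.sum_congr rfl (fun k _ => ?_)
        simp only [hz, hσp, hσm]
        split_ifs with hk
        · ring
        · ring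
      rw [hsum]
      have h4 := O1_smul (fun x => ep (fun k => a k * (σp τ k * X k ω)) (Finset.range M) x +
           ep (fun k => a k * (σm τ k * X k ω)) (Finset.range M) x) (1/2 : ℂ) q.1 q.2
      have h5 := O1_add (ep_cont (fun k => a k * (σp τ k * X k ω)) (Finset.range M))
        (ep_cont (fun k => a k * (σm τ k * X k ω)) (Finset.range M)) q.1 q.2
      rw [h4]
      have h6 : ‖(1/2 : ℂ)‖ = 1/2 := by norm_num
      rw [h6]
      linarith
  -- conclusion
  unfold tp
  rw [Fintype.expect_eq_sum_div_card]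
  have hcard : (0:ℝ) < Fintype.card (Fin N → ℤˣ) := by exact_mod_cast Fintype.card_pos
  rw [div_le_iff₀ hcard]
  have h7 : (∑ τ : Fin N → ℤˣ, (Bp τ ∪ Bm τ).indicator (fun _ => (1:ℝ)) ω) ≤
      (Fintype.card (Fin N → ℤˣ) : ℝ) * (1/32) := by
    have h8 : F ω = ENNReal.ofReal (∑ τ : Fin N → ℤˣ, (Bp τ ∪ Bm τ).indicator (fun _ => (1:ℝ)) ω) := by
      rw [hF, ENNReal.ofReal_sum_of_nonneg (fun τ _ => Set.indicator_nonneg (fun _ _ => by norm_num) _)]
      refine Finset.sum_congr rfl (fun τ _ => ?_)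
      by_cases hb : ω ∈ Bp τ ∪ Bm τ
      · rw [Set.indicator_of_mem hb, Set.indicator_of_mem hb]; simp
      · rw [Set.indicator_of_notMem hb, Set.indicator_of_notMem hb]; simp
    rw [h8] at hFω
    have h9 : (Fintype.card (Fin N → ℤˣ) : ENNReal) * ENNReal.ofReal (1/32) =
        ENNReal.ofReal ((Fintype.card (Fin N → ℤˣ) : ℝ) * (1/32)) := by
      rw [ENNReal.ofReal_mul (Nat.cast_nonneg _), ENNReal.ofReal_natCast]
    rw [h9] at hFω
    exact (ENNReal.ofReal_le_ofReal_iff (by positivity)).1 hFω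
  calc _ ≤ ∑ τ : Fin N → ℤˣ, (Bp τ ∪ Bm τ).indicator (fun _ => (1:ℝ)) ω :=
        Finset.sum_le_sum (fun τ _ => hpt τ)
    _ ≤ _ := by linarith

/-- the metric of the weighted coefficients -/
lemma VB_eq (z : ℕ → ℂ) (a : ℕ → ℂ) (hz : ∀ k, ‖z k‖ = ‖a k‖) (N m : ℕ) (w : ℕ → ℝ) (hw : ∀ j, 0 ≤ w j)
    (r : ℝ) : VB mc (fun (k : Fin N) => chc k) (bw z N m w) r = Vr (rhoN a N m w) r / (2 * Real.pi) := by
  have hdm : ∀ t : ℝ, dm (fun (k : Fin N) => chc k) (bw z N m w) Finset.univ (t : TC) = rhoN a N m w t := by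
    intro t
    unfold dm rhoN
    rw [← Fin.sum_univ_eq_sum_range (fun k => if 2 ^ m ≤ k then
      w (k / 2 ^ m) * ‖a k‖ ^ 2 * ‖Complex.exp (k * t * Complex.I) - 1‖ ^ 2 else 0) N]
    refine Finset.sum_congr rfl (fun k _ => ?_)
    unfold bw
    simp only [chc_coe]
    split_ifs with hk
    · rw [norm_mul, mul_pow, Complex.norm_real, Real.norm_eq_abs, sq_abs, Real.sq_sqrt (hw _), hz]
    · simp
  unfold VB
  have hCh : Ch (fun (k : Fin N) => chc k) :=
    ⟨fun k => chc_Ch.meas k, fun k => chc_Ch.norm_eq k, fun k => chc_Ch.map_add k⟩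
  rw [mc_real _ (measurableSet_le (measurable_dm hCh _ _).sqrt measurable_const)]
  congr 1
  unfold Vr
  congr 1
  ext t
  simp only [Set.mem_ofPred_eq]
  rw [hdm]

lemma VB_pos (z : ℕ → ℂ) (N m : ℕ) (w : ℕ → ℝ) (r : ℝ) (hr : 0 < r) :
    0 < VB mc (fun (k : Fin N) => chc k) (bw z N m w) r := by
  have hc : Continuous (fun x : TC => Real.sqrt (dm (fun (k : Fin N) => chc k) (bw z N m w) Finset.univ x)) := by
    unfold dm
    apply Continuous.sqrt
    apply continuous_finsetSum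
    intro k _
    apply Continuous.mul continuous_const
    apply Continuous.pow
    apply Continuous.norm
    exact (fourier ((k:ℕ):ℤ)).continuous.sub continuous_const
  have hopen : IsOpen {x : TC | Real.sqrt (dm (fun (k : Fin N) => chc k) (bw z N m w) Finset.univ x) < r} :=
    isOpen_lt hc continuous_const
  have hne : {x : TC | Real.sqrt (dm (fun (k : Fin N) => chc k) (bw z N m w) Finset.univ x) < r}.Nonempty := by
    refine ⟨0, ?_⟩
    rw [Set.mem_ofPred_eq]
    have : dm (fun (k : Fin N) => chc k) (bw z N m w) Finset.univ (0 : TC) = 0 := by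
      unfold dm
      apply Finset.sum_eq_zero
      intro k _
      simp only [chc_Ch.map_zero, sub_self, norm_zero]
      ring
    rw [this, Real.sqrt_zero]; exact hr
  have h1 := hopen.measure_pos mc hne
  unfold VB
  rw [measureReal_def, ENNReal.toReal_pos_iff]
  refine ⟨lt_of_lt_of_le h1 (measure_mono (fun x hx => ?_)), measure_lt_top _ _⟩
  rw [Set.mem_ofPred_eq] at hx ⊢
  exact hx.le

/-- Necessity. -/
theorem necessity (h : Stein P X) (a : ℕ → ℂ) (ha : Summable (fun k => ‖a k‖ ^ 2))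
    (hB : ∀ᵐ ω ∂P, InBMOA (fun k => a k * X k ω)) : EntropyBounded a := by
  obtain ⟨t0, ht0, hP⟩ := exists_level h a ha hB
  have htot : 0 ≤ ∑' k, ‖a k‖ ^ 2 := tsum_nonneg (fun k => sq_nonneg _)
  set C : ℝ := 10 ^ 12 * (80 * t0 + Real.sqrt (∑' k, ‖a k‖ ^ 2)) with hC
  refine ⟨C, fun m w hw hws hw1 R => ?_⟩
  have hwle := w_le_one w hw hws hw1
  set v : ℕ → ℝ := fun n => 2 * Real.pi * (1/2) ^ (2 ^ n) with hv
  -- bound for truncations
  have hfin : ∀ N, ∑ n ∈ Finset.range (R+1), Real.sqrt 2 ^ n * eN (rhoN a N m w) (v n) ≤ C := by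
    intro N
    obtain ⟨ω, hω⟩ := exists_sample h a t0 hP N
    set z : ℕ → ℂ := fun k => a k * X k ω with hz
    have hza : ∀ k, ‖z k‖ = ‖a k‖ := by
      intro k; simp only [hz]; rw [norm_mul, h.norm_eq, mul_one]
    have hsp : ∀ n, v n ≤ Vr (rhoN a N m w) (eN (rhoN a N m w) (v n)) := fun n =>
      eN_spec (rhoN_cont a N m w).measurable (v n) (4 * ∑' k, ‖a k‖ ^ 2) (v_le n) (by positivity)
        (fun t => (rhoN_le a ha N m w hw hwle t).trans (rhoSq_le a ha m w hw hwle t))
    have h1 := nec_fin mc chc chc_Ch chc_rep N m z w hw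
      ((hws.sum_le_tsum _ (fun j _ => hw j)).trans hw1) (fun r hr => VB_pos z N m w r hr) t0 ht0 hω
      (fun n => eN (rhoN a N m w) (v n)) (fun n => eN_nonneg _ _) (fun n => by
        rw [VB_eq z a hza N m w hw, le_div_iff₀ Real.two_pi_pos]
        have := hsp n
        simp only [hv] at this ⊢
        linarith) (fun n r hr => by
        rw [VB_eq z a hza N m w hw, div_lt_iff₀ Real.two_pi_pos]
        have := eN_lt (rhoN a N m w) (v n) r (pos_v n) hr
        simp only [hv] at this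
        linarith) R
    refine h1.trans ?_
    rw [hC]
    have h2 : ∑ k : Fin N, ‖z k‖ ^ 2 ≤ ∑' k, ‖a k‖ ^ 2 := by
      simp only [hza]
      rw [Fin.sum_univ_eq_sum_range (fun k => ‖a k‖ ^ 2) N]
      exact ha.sum_le_tsum _ (fun k _ => sq_nonneg _)
    have h3 := Real.sqrt_le_sqrt h2
    linarith
  -- limits of the truncated entropy numbers
  have hmonoN : ∀ n, Monotone (fun N => eN (rhoN a N m w) (v n)) := by
    intro n N N' hNN'
    apply eN_le _ _ _ (eN_nonneg _ _)
    have h1 := eN_spec (rhoN_cont a N' m w).measurable (v n) (4 * ∑' k, ‖a k‖ ^ 2) (v_le n) (by positivity)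
        (fun t => (rhoN_le a ha N' m w hw hwle t).trans (rhoSq_le a ha m w hw hwle t))
    refine h1.trans ?_
    unfold Vr
    apply measureReal_mono
    · intro t ht
      exact ⟨ht.1, (Real.sqrt_le_sqrt (rhoN_mono a m w hw t hNN')).trans ht.2⟩
    · exact Vr_set_fin _ _
  have hC0 : 0 ≤ C := by rw [hC]; positivity
  have hbd : ∀ n ∈ Finset.range (R+1), BddAbove (Set.range (fun N => eN (rhoN a N m w) (v n))) := by
    intro n hn
    refine ⟨C, ?_⟩
    rintro _ ⟨N, rfl⟩
    have h1 : Real.sqrt 2 ^ n * eN (rhoN a N m w) (v n) ≤ C := by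
      refine le_trans ?_ (hfin N)
      exact Finset.single_le_sum (f := fun n => Real.sqrt 2 ^ n * eN (rhoN a N m w) (v n))
        (fun n _ => mul_nonneg (by positivity) (eN_nonneg _ _)) hn
    have h2 : (1:ℝ) ≤ Real.sqrt 2 ^ n := one_le_pow₀ (by linarith [sqrt2_bounds.1])
    have h3 := eN_nonneg (rhoN a N m w) (v n)
    simp only
    nlinarith
  have hlim : ∀ n ∈ Finset.range (R+1), Tendsto (fun N => eN (rhoN a N m w) (v n)) atTop
      (𝓝 (⨆ N, eN (rhoN a N m w) (v n))) := fun n hn => tendsto_atTop_ciSup (hmonoN n) (hbd n hn)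
  have hsum : ∑ n ∈ Finset.range (R+1), Real.sqrt 2 ^ n * (⨆ N, eN (rhoN a N m w) (v n)) ≤ C := by
    have h1 : Tendsto (fun N => ∑ n ∈ Finset.range (R+1), Real.sqrt 2 ^ n * eN (rhoN a N m w) (v n)) atTop
        (𝓝 (∑ n ∈ Finset.range (R+1), Real.sqrt 2 ^ n * (⨆ N, eN (rhoN a N m w) (v n)))) :=
      tendsto_finsetSum _ (fun n hn => (hlim n hn).const_mul _)
    exact le_of_tendsto' h1 hfin
  have hle : ∀ n ∈ Finset.range (R+1), entNum a m w n ≤ ⨆ N, eN (rhoN a N m w) (v n) := by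
    intro n hn
    set L := ⨆ N, eN (rhoN a N m w) (v n) with hL
    have hLN : ∀ N, eN (rhoN a N m w) (v n) ≤ L := fun N => le_ciSup (hbd n hn) N
    have hL0 : 0 ≤ L := (eN_nonneg _ _).trans (hLN 0)
    rw [entNum_eq]
    apply eN_le _ _ _ hL0
    apply Vr_limit (fun N => rhoN a N m w) L (fun _ => L) (v n) (fun N => (rhoN_cont a N m w).measurable)
    · intro N N' hNN' t ht
      exact ⟨ht.1, (Real.sqrt_le_sqrt (rhoN_mono a m w hw t hNN')).trans ht.2⟩
    · intro t ht
      rw [Set.mem_iInter] at ht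
      refine ⟨(ht 0).1, ?_⟩
      have h1 : Tendsto (fun N => Real.sqrt (rhoN a N m w t)) atTop (𝓝 (Real.sqrt (rhoSq a m w t))) :=
        (Real.continuous_sqrt.tendsto _).comp (rhoN_tendsto a ha m w hw hwle t)
      exact le_of_tendsto' h1 (fun N => (ht N).2)
    · intro N
      have h1 := eN_spec (rhoN_cont a N m w).measurable (v n) (4 * ∑' k, ‖a k‖ ^ 2) (v_le n) (by positivity)
        (fun t => (rhoN_le a ha N m w hw hwle t).trans (rhoSq_le a ha m w hw hwle t))
      exact h1.trans (Vr_mono _ (hLN N))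
  calc ∑ n ∈ Finset.range R, Real.sqrt 2 ^ n * entNum a m w n
      ≤ ∑ n ∈ Finset.range (R+1), Real.sqrt 2 ^ n * entNum a m w n := by
        apply Finset.sum_le_sum_of_subset_of_nonneg
        · intro n hn; rw [Finset.mem_range] at hn ⊢; omega
        · intro n _ _
          exact mul_nonneg (by positivity) (eN_nonneg (rhoSq a m w) (2 * Real.pi * (1/2) ^ (2 ^ n)))
    _ ≤ ∑ n ∈ Finset.range (R+1), Real.sqrt 2 ^ n * (⨆ N, eN (rhoN a N m w) (v n)) :=
        Finset.sum_le_sum (fun n hn => mul_le_mul_of_nonneg_left (hle n hn) (by positivity))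
    _ ≤ C := hsum

end

end H59.RB
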