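import Pool.Agent.H59.BMOA.Chain3

/-! Exponential moments of `gg`, and the scalar upper bound for sign sums. -/

namespace H59.RB

set_option linter.unusedSectionVars false

open Finset BigOperators MeasureTheory

section
variable {T κ : Type*} [AddCommGroup T] [MeasurableSpace T] [DecidableEq κ] {χ : κ → T → ℂ}

lemma expgg {Ω : Type*} [MeasurableSpace Ω] {P : Measure Ω} [SFinite P] {X : κ → Ω → ℂ}
    (hX : SubG P X) (a : κ → ℂ) {ι : Type*} [DecidableEq ι] (J : Finset ι) (c c' : ι → Finset κ)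
    (hdisj : ∀ i ∈ J, ∀ j ∈ J, i ≠ j → Disjoint (c i ∪ c' i) (c j ∪ c' j)) (y z : T) :
    ∫⁻ ω, ENNReal.ofReal (Real.exp ((∑ j ∈ J, gg χ a (fun k => X k ω) (c j) (c' j) y z) / 4)) ∂P ≤
      2 ^ J.card := by
  have key := expsq hX (fun j => c j ∪ c' j) (fun j k => (a k * ((if k ∈ c j then χ k y else 0) -
    (if k ∈ c' j then χ k z else 0))) / Real.sqrt (Dsq χ a (c j) (c' j) y z)) J hdisj (by
      intro j _
      have h1 : ∑ k ∈ c j ∪ c' j, ‖(a k * ((if k ∈ c j then χ k y else 0) -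
          (if k ∈ c' j then χ k z else 0))) / Real.sqrt (Dsq χ a (c j) (c' j) y z)‖ ^ 2 =
          Dsq χ a (c j) (c' j) y z / Dsq χ a (c j) (c' j) y z := by
        conv_rhs => rw [Dsq, Finset.sum_div]
        refine Finset.sum_congr rfl (fun k _ => ?_)
        rw [norm_div, norm_mul, div_pow, mul_pow, Complex.norm_real, Real.norm_eq_abs, sq_abs,
          Real.sq_sqrt (Dsq_nonneg _ _ _ _ _)]
        rfl
      rw [h1]
      exact div_self_le_one _)
  refine le_trans (le_of_eq ?_) key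
  refine lintegral_congr (fun ω => ?_)
  congr 3
  refine Finset.sum_congr rfl (fun j _ => ?_)
  unfold gg
  rw [ff_sub]
  have h2 : ∑ k ∈ c j ∪ c' j, (a k * ((if k ∈ c j then χ k y else 0) -
      (if k ∈ c' j then χ k z else 0))) / (Real.sqrt (Dsq χ a (c j) (c' j) y z) : ℂ) * X k ω =
      (∑ k ∈ c j ∪ c' j, (a k * ((if k ∈ c j then χ k y else 0) -
      (if k ∈ c' j then χ k z else 0))) * X k ω) / (Real.sqrt (Dsq χ a (c j) (c' j) y z) : ℂ) := by
    rw [Finset.sum_div]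
    exact Finset.sum_congr rfl (fun k _ => by ring)
  rw [h2, norm_div, div_pow, Complex.norm_real, Real.norm_eq_abs, sq_abs,
    Real.sq_sqrt (Dsq_nonneg _ _ _ _ _)]

end

/-- uniform probability on a finite type (discrete σ-algebra) -/
noncomputable def unif (Ω : Type*) [Fintype Ω] : @Measure Ω ⊤ :=
  ((Fintype.card Ω : ENNReal)⁻¹) • @Measure.count Ω ⊤

lemma lintegral_unif {Ω : Type*} [Fintype Ω] [Nonempty Ω] (f : Ω → ℝ) (hf : ∀ ω, 0 ≤ f ω) :
    @lintegral Ω ⊤ (unif Ω) (fun ω => ENNReal.ofReal (f ω)) = ENNReal.ofReal (𝔼 ω, f ω) := by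
  letI : MeasurableSpace Ω := ⊤
  unfold unif
  rw [lintegral_smul_measure, lintegral_count, tsum_fintype,
    Fintype.expect_eq_sum_div_card, ENNReal.ofReal_div_of_pos (by exact_mod_cast Fintype.card_pos),
    ENNReal.ofReal_sum_of_nonneg (fun i _ => hf i), ENNReal.ofReal_natCast, smul_eq_mul,
    ENNReal.div_eq_inv_mul]

section
variable {κ : Type*} [Fintype κ] [DecidableEq κ]

lemma subG_signs : @SubG (κ → ℤˣ) κ ⊤ (unif (κ → ℤˣ)) (fun k τ => (sg (τ k) : ℂ)) := by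
  letI : MeasurableSpace (κ → ℤˣ) := ⊤
  refine ⟨fun k => measurable_from_top, ?_⟩
  intro s u
  rw [lintegral_unif _ (fun τ => (Real.exp_pos _).le)]
  apply ENNReal.ofReal_le_ofReal
  have h1 : ∀ τ : κ → ℤˣ, ∑ k ∈ s, (u k * (sg (τ k) : ℂ)).re =
      ∑ k, (if k ∈ s then (u k).re else 0) * sg (τ k) := by
    intro τ
    simp only [ite_mul, zero_mul, Finset.sum_ite_mem, Finset.univ_inter]
    exact Finset.sum_congr rfl (fun k _ => by rw [Complex.re_mul_ofReal])
  simp only [h1]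
  refine (expect_exp_le _).trans (Real.exp_le_exp.2 ?_)
  have h2 : ∑ k, (if k ∈ s then (u k).re else 0) ^ 2 = ∑ k ∈ s, (u k).re ^ 2 := by
    simp only [ite_pow, ne_eq, OfNat.ofNat_ne_zero, not_false_eq_true, zero_pow,
      Finset.sum_ite_mem, Finset.univ_inter]
  rw [h2]
  have h3 : ∑ k ∈ s, (u k).re ^ 2 ≤ ∑ k ∈ s, ‖u k‖ ^ 2 := by
    apply Finset.sum_le_sum
    intro k _
    rw [← sq_abs (u k).re]
    exact pow_le_pow_left₀ (abs_nonneg _) (Complex.abs_re_le_norm _) 2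
  linarith

variable {T : Type*} [AddCommGroup T] [MeasurableSpace T] [MeasurableAdd₂ T] [MeasurableNeg T]
  {χ : κ → T → ℂ}
variable (μ : Measure T) [IsProbabilityMeasure μ] [μ.IsAddLeftInvariant] [μ.IsNegInvariant]

instance : SFinite (@unif (κ → ℤˣ) _) := by
  unfold unif
  infer_instance

lemma expect_exp_gg (a : κ → ℂ) (c c' : Finset κ) (y z : T) :
    𝔼 τ : κ → ℤˣ, Real.exp (gg χ a (fun k => (sg (τ k) : ℂ)) c c' y z / 4) ≤ 2 := by
  letI : MeasurableSpace (κ → ℤˣ) := ⊤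
  haveI : SFinite (unif (κ → ℤˣ)) := by
    unfold unif
    infer_instance
  have key := expgg (χ := χ) (subG_signs (κ := κ)) a ({()} : Finset Unit) (fun _ => c) (fun _ => c')
    (fun i _ j _ hij => absurd (Subsingleton.elim i j) hij) y z
  simp only [Finset.sum_singleton, Finset.card_singleton, pow_one] at key
  rw [lintegral_unif _ (fun τ => (Real.exp_pos _).le)] at key
  rw [← ENNReal.ofReal_le_ofReal_iff (by norm_num)]
  simpa using key

/-- Scalar upper bound. -/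
theorem scalar_upper (h : Ch χ) (a : κ → ℂ) (B : Finset κ) (R : ℕ) (φ : ℕ → T → ℝ)
    (hφ : ∀ n ≤ R, Dens μ (φ n) (2 ^ (2 ^ n))) (hcard : (B.card : ℝ) ≤ 2 ^ R) (hR : 1 ≤ R) :
    ∃ Ξ : (κ → ℤˣ) → ℝ, (𝔼 τ, Ξ τ ≤ 13) ∧ (∀ τ, 0 ≤ Ξ τ) ∧ ∀ τ x,
      ‖∑ k ∈ B, a k * (sg (τ k) : ℂ) * χ k x‖ ≤ Ξ τ * (Real.sqrt (en a B) +
        4 * ∑ n ∈ Finset.range (R+1), Real.sqrt 2 ^ n * Real.sqrt (PP μ χ a (φ n) B)) := by
  set c : ℕ → Unit → Finset κ := fun n _ => if n = 0 then ∅ else B with hc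
  set Θ : ℕ → (κ → ℤˣ) → ℝ := fun n τ => ∫ p : T × T, Real.exp
    (gg χ a (fun k => (sg (τ k) : ℂ)) (c (n+1) ()) (c n ()) p.1 p.2 / 4) ∂(μ.prod μ) with hΘ
  have hbd : ∀ (n : ℕ) (τ : κ → ℤˣ), Integrable (fun p : T × T => Real.exp
    (gg χ a (fun k => (sg (τ k) : ℂ)) (c (n+1) ()) (c n ()) p.1 p.2 / 4)) (μ.prod μ) := by
    intro n τ
    apply bdd_int _ (Real.measurable_exp.comp ((measurable_gg h a _ _ _).div_const 4))
      (Real.exp (((c (n+1) () ∪ c n ()).card : ℝ) / 4))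
    intro p
    show ‖Real.exp (gg χ a (fun k => (sg (τ k) : ℂ)) (c (n+1) ()) (c n ()) p.1 p.2 / 4)‖ ≤ _
    rw [Real.norm_eq_abs, abs_of_pos (Real.exp_pos _)]
    apply Real.exp_le_exp.2
    have := gg_le (χ := χ) a (fun k => (sg (τ k) : ℂ)) (fun k => by
      rw [Complex.norm_real, Real.norm_eq_abs, abs_sg]) (c (n+1) ()) (c n ()) p.1 p.2
    linarith
  have hΘE : ∀ n, 𝔼 τ, Θ n τ ≤ 2 := by
    intro n
    have h1 : 𝔼 τ, Θ n τ = ∫ p : T × T, 𝔼 τ : κ → ℤˣ, Real.exp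
      (gg χ a (fun k => (sg (τ k) : ℂ)) (c (n+1) ()) (c n ()) p.1 p.2 / 4) ∂(μ.prod μ) := by
      simp only [hΘ, Fintype.expect_eq_sum_div_card]
      rw [integral_div, integral_finsetSum _ (fun τ _ => hbd n τ)]
    rw [h1]
    calc _ ≤ ∫ p : T × T, (2:ℝ) ∂(μ.prod μ) := by
          apply integral_mono _ (integrable_const _) (fun p => expect_exp_gg a _ _ _ _)
          simp only [Fintype.expect_eq_sum_div_card]
          exact (integrable_finsetSum _ (fun τ _ => hbd n τ)).div_const _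
      _ = 2 := by simp
  have hΘ1 : ∀ n τ, 1 ≤ Θ n τ := by
    intro n τ
    have : (1:ℝ) = ∫ p : T × T, (1:ℝ) ∂(μ.prod μ) := by simp
    rw [this]
    exact integral_mono (integrable_const _) (hbd n τ) (fun p => Real.one_le_exp (by
      have := gg_nonneg (χ := χ) a (fun k => (sg (τ k) : ℂ)) (c (n+1) ()) (c n ()) p.1 p.2
      positivity))
  set Ξ₀ : (κ → ℤˣ) → ℝ := fun τ => ∑ n ∈ Finset.range R, (1/2) ^ n * Θ n τ with hΞ₀
  have hΞ₀0 : ∀ τ, 0 ≤ Ξ₀ τ := fun τ => Finset.sum_nonneg (fun n _ =>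
    mul_nonneg (by positivity) (by linarith [hΘ1 n τ]))
  refine ⟨fun τ => Real.sqrt (9 + 4 * Ξ₀ τ), ?_, fun τ => Real.sqrt_nonneg _, ?_⟩
  · have h1 : 𝔼 τ, Ξ₀ τ ≤ 4 := by
      simp only [hΞ₀]
      rw [Finset.expect_sum_comm]
      simp only [← Finset.mul_expect]
      calc ∑ n ∈ Finset.range R, (1/2 : ℝ) ^ n * 𝔼 τ, Θ n τ
          ≤ ∑ n ∈ Finset.range R, (1/2 : ℝ) ^ n * 2 :=
            Finset.sum_le_sum (fun n _ => mul_le_mul_of_nonneg_left (hΘE n) (by positivity))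
        _ = 2 * ∑ n ∈ Finset.range R, (1/2 : ℝ) ^ n := by rw [← Finset.sum_mul]; ring
        _ ≤ 2 * 2 := by
            apply mul_le_mul_of_nonneg_left _ (by norm_num)
            rw [geom_sum_eq (by norm_num)]
            have : (0:ℝ) ≤ (1/2) ^ R := by positivity
            rw [div_le_iff_of_neg (by norm_num)]
            linarith
        _ = 4 := by norm_num
    have h2 : ∀ τ, Real.sqrt (9 + 4 * Ξ₀ τ) ≤ (10 + 4 * Ξ₀ τ) / 2 := by
      intro τ
      have h3 := hΞ₀0 τ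
      rw [Real.sqrt_le_left (by linarith)]
      nlinarith [sq_nonneg (9 + 4 * Ξ₀ τ - 1)]
    calc 𝔼 τ, Real.sqrt (9 + 4 * Ξ₀ τ) ≤ 𝔼 τ, (10 + 4 * Ξ₀ τ) / 2 :=
          Finset.expect_le_expect (fun τ _ => h2 τ)
      _ = (10 + 4 * 𝔼 τ, Ξ₀ τ) / 2 := by
          rw [← Finset.expect_div, Finset.expect_add_distrib, Fintype.expect_const, ← Finset.mul_expect]
      _ ≤ 13 := by linarith
  · intro τ x
    have key := chain μ h a (fun k => (sg (τ k) : ℂ)) (fun k => by
      rw [Complex.norm_real, Real.norm_eq_abs, abs_sg]) ({()} : Finset Unit) (fun _ => B) R φ hφ c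
      (fun j => by simp [hc]) (fun n j => by simp only [hc]; split_ifs <;> simp)
      (fun j k hk hkc => by
        exfalso
        simp only [hc] at hkc
        rw [if_neg (by omega)] at hkc
        exact hkc hk) (by simpa using hcard) (Ξ₀ τ) (hΞ₀0 τ) (by
        intro n hn
        simp only [Finset.sum_singleton]
        have h1 : Real.log (Θ n τ) ≤ Θ n τ := (Real.log_le_sub_one_of_pos (by linarith [hΘ1 n τ])).trans (by linarith)
        refine h1.trans ?_
        have h2 : (1/2) ^ n * Θ n τ ≤ Ξ₀ τ :=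
          Finset.single_le_sum (f := fun n => (1/2 : ℝ) ^ n * Θ n τ)
            (fun m _ => mul_nonneg (by positivity) (by linarith [hΘ1 m τ])) (Finset.mem_range.2 hn)
        have h3 : (2:ℝ) ^ n * ((1/2) ^ n * Θ n τ) = Θ n τ := by
          rw [← mul_assoc, ← mul_pow]; norm_num
        calc Θ n τ = (2:ℝ) ^ n * ((1/2) ^ n * Θ n τ) := h3.symm
          _ ≤ _ := mul_le_mul_of_nonneg_left h2 (by positivity)) (fun _ => 1) x
    simp only [Finset.sum_singleton, one_mul, norm_one, one_pow] at key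
    have e1 : ∑ n ∈ Finset.range R, Real.sqrt 2 ^ n * Real.sqrt
        (en a (c (n+1) () \ c n ()) + en a (c n () \ c (n+1) ())) = Real.sqrt (en a B) := by
      obtain ⟨R', rfl⟩ : ∃ R', R = R' + 1 := ⟨R - 1, by omega⟩
      rw [Finset.sum_range_succ']
      have : ∀ n ∈ Finset.range R', Real.sqrt 2 ^ (n+1) * Real.sqrt
        (en a (c (n+1+1) () \ c (n+1) ()) + en a (c (n+1) () \ c (n+1+1) ())) = 0 := by
        intro n _
        simp [hc, en]
      rw [Finset.sum_eq_zero this]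
      simp [hc, en]
    rw [e1] at key
    exact key

end

end H59.RB
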