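import Mathlib

/-! Finite sign averages. -/

namespace H59.RB

open Finset BigOperators

/-- real value of a sign -/
noncomputable def sg (e : ℤˣ) : ℝ := ((e : ℤ) : ℝ)

lemma sg_one : sg 1 = 1 := by simp [sg]
lemma sg_neg_one : sg (-1) = -1 := by simp [sg]
lemma sg_mul (a b : ℤˣ) : sg (a * b) = sg a * sg b := by simp [sg]
lemma sg_cases (e : ℤˣ) : sg e = 1 ∨ sg e = -1 := by
  rcases Int.units_eq_one_or e with h | h
  · left; rw [h, sg_one]
  · right; rw [h, sg_neg_one]
lemma sg_sq (e : ℤˣ) : sg e * sg e = 1 := by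
  rcases sg_cases e with h | h <;> rw [h] <;> norm_num
lemma abs_sg (e : ℤˣ) : |sg e| = 1 := by
  rcases sg_cases e with h | h <;> rw [h] <;> norm_num

lemma expect_units (f : ℤˣ → ℝ) : 𝔼 e, f e = (f 1 + f (-1)) / 2 := by
  rw [Fintype.expect_eq_sum_div_card]
  have h : (Finset.univ : Finset ℤˣ) = {1, -1} := rfl
  rw [h, Finset.sum_pair (by decide)]
  have : Fintype.card ℤˣ = 2 := rfl
  rw [this]; norm_num

/-- product formula for averages over function types -/
lemma expect_pi_prod {κ α : Type*} [Fintype κ] [DecidableEq κ] [Fintype α]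
    (g : κ → α → ℝ) :
    𝔼 ε : κ → α, ∏ k, g k (ε k) = ∏ k, 𝔼 a, g k a := by
  simp only [Fintype.expect_eq_sum_div_card]
  rw [Finset.prod_div_distrib, Finset.prod_univ_sum]
  simp [Fintype.card_pi, Fintype.piFinset_univ]

/-- marginal of a product average -/
lemma expect_marginal {κ α : Type*} [Fintype κ] [DecidableEq κ] [Fintype α] [Nonempty α]
    (j : κ) (F : α → ℝ) :
    𝔼 τ : κ → α, F (τ j) = 𝔼 a, F a := by
  have h := expect_pi_prod (κ := κ) (α := α) (fun k a => if k = j then F a else 1)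
  have h1 : ∀ τ : κ → α, ∏ k, (if k = j then F (τ k) else 1) = F (τ j) := by
    intro τ
    rw [Finset.prod_ite_eq' Finset.univ j (fun k => F (τ k))]
    simp
  have h2 : ∏ k, 𝔼 a : α, (if k = j then F a else (1:ℝ)) = 𝔼 a, F a := by
    have : ∀ k, 𝔼 a : α, (if k = j then F a else (1:ℝ)) = if k = j then 𝔼 a, F a else 1 := by
      intro k
      split_ifs with hk
      · rfl
      · simp
    simp only [this]
    rw [Finset.prod_ite_eq' Finset.univ j]
    simp
  simp only [h1] at h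
  rw [h, h2]

variable {κ : Type*} [Fintype κ] [DecidableEq κ]

lemma expect_exp_le (c : κ → ℝ) :
    𝔼 ε : κ → ℤˣ, Real.exp (∑ k, c k * sg (ε k)) ≤ Real.exp ((∑ k, c k ^ 2) / 2) := by
  have h1 : ∀ ε : κ → ℤˣ, Real.exp (∑ k, c k * sg (ε k)) =
      ∏ k, Real.exp (c k * sg (ε k)) := fun ε => Real.exp_sum _ _
  simp only [h1]
  rw [expect_pi_prod (fun k e => Real.exp (c k * sg e))]
  rw [Finset.sum_div, Real.exp_sum]
  apply Finset.prod_le_prod
  · intro k _
    exact Finset.expect_nonneg (fun _ _ => (Real.exp_pos _).le)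
  · intro k _
    rw [expect_units, sg_one, sg_neg_one]
    have := Real.cosh_le_exp_half_sq (c k)
    rw [Real.cosh_eq] at this
    simpa [mul_comm] using this

/-- flipping signs by `τ` does not change averages -/
lemma expect_flip {M : Type*} [AddCommMonoid M] [Module ℚ≥0 M] (τ : κ → ℤˣ) (F : (κ → ℤˣ) → M) :
    𝔼 ε : κ → ℤˣ, F (τ * ε) = 𝔼 ε : κ → ℤˣ, F ε :=
  Fintype.expect_equiv (Equiv.mulLeft τ) _ _ (fun _ => rfl)

lemma expect_sg (k : κ) : 𝔼 ε : κ → ℤˣ, sg (ε k) = 0 := by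
  rw [expect_marginal k (fun e => sg e), expect_units, sg_one, sg_neg_one]; norm_num

lemma expect_sg_mul (k l : κ) : 𝔼 ε : κ → ℤˣ, sg (ε k) * sg (ε l) = if k = l then 1 else 0 := by
  split_ifs with h
  · subst h
    simp [sg_sq]
  · have h1 := expect_flip (Function.update (1 : κ → ℤˣ) k (-1))
      (fun ε : κ → ℤˣ => sg (ε k) * sg (ε l))
    have h2 : ∀ ε : κ → ℤˣ, sg ((Function.update (1 : κ → ℤˣ) k (-1) * ε) k) *
        sg ((Function.update (1 : κ → ℤˣ) k (-1) * ε) l) = - (sg (ε k) * sg (ε l)) := by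
      intro ε
      simp only [Pi.mul_apply, Function.update_self, Function.update_of_ne (Ne.symm h),
        Pi.one_apply, one_mul, sg_mul, sg_neg_one]
      ring
    simp only [h2] at h1
    rw [Finset.expect_neg_distrib] at h1
    linarith

lemma expect_sum_mul (c d : κ → ℝ) :
    𝔼 ε : κ → ℤˣ, (∑ k, c k * sg (ε k)) * (∑ k, d k * sg (ε k)) = ∑ k, c k * d k := by
  have h1 : ∀ ε : κ → ℤˣ, (∑ k, c k * sg (ε k)) * (∑ k, d k * sg (ε k)) =
      ∑ k, ∑ l, (c k * d l) * (sg (ε k) * sg (ε l)) := by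
    intro ε
    rw [Finset.sum_mul_sum]
    refine Finset.sum_congr rfl (fun k _ => Finset.sum_congr rfl (fun l _ => by ring))
  simp only [h1]
  rw [Finset.expect_sum_comm]
  refine Finset.sum_congr rfl (fun k _ => ?_)
  rw [Finset.expect_sum_comm]
  simp only [← Finset.mul_expect, expect_sg_mul]
  simp

lemma expect_sum_sq (c : κ → ℝ) :
    𝔼 ε : κ → ℤˣ, (∑ k, c k * sg (ε k)) ^ 2 = ∑ k, c k ^ 2 := by
  simp only [pow_two]
  exact expect_sum_mul c c

lemma expect_sum_lin (c : κ → ℝ) :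
    𝔼 ε : κ → ℤˣ, (∑ k, c k * sg (ε k)) = 0 := by
  rw [Finset.expect_sum_comm]
  simp only [← Finset.mul_expect, expect_sg]
  simp

/-- fourth moment bound -/
lemma expect_fourth (c : κ → ℝ) (hc : ∑ k, c k ^ 2 ≤ 1) :
    𝔼 ε : κ → ℤˣ, (∑ k, c k * sg (ε k)) ^ 4 ≤ 40 := by
  have h1 := expect_exp_le c
  have h2 := expect_exp_le (fun k => - c k)
  have h3 : ∀ x : ℝ, x ^ 4 ≤ 12 * (Real.exp x + Real.exp (-x)) := by
    intro x
    have h4 : ∀ y : ℝ, 0 ≤ y → y ^ 4 / 24 ≤ Real.exp y := by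
      intro y hy
      have := Real.pow_div_factorial_le_exp y hy 4
      simpa [Nat.factorial] using this
    have h5 : ∀ y : ℝ, 0 ≤ y → y ^ 4 ≤ 12 * (Real.exp y + Real.exp (-y)) := by
      intro y hy
      have h6 := Real.cosh_eq y
      -- cosh y ≥ 1 + y^2/2 + y^4/24
      have h7 : y ^ 4 / 24 ≤ Real.cosh y := by
        have hs := Real.hasSum_cosh y
        have := hs.summable.sum_le_tsum {2} (fun n _ => by positivity)
        rw [hs.tsum_eq] at this
        simpa [Nat.factorial] using this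
      rw [h6] at h7
      linarith
    rcases le_total 0 x with hx | hx
    · exact h5 x hx
    · have := h5 (-x) (by linarith)
      simp only [neg_neg] at this
      have e : (-x) ^ 4 = x ^ 4 := by ring
      rw [e] at this
      linarith
  have h8 : 𝔼 ε : κ → ℤˣ, (∑ k, c k * sg (ε k)) ^ 4 ≤
      𝔼 ε : κ → ℤˣ, 12 * (Real.exp (∑ k, c k * sg (ε k)) + Real.exp (∑ k, (-c k) * sg (ε k))) := by
    apply Finset.expect_le_expect
    intro ε _
    have := h3 (∑ k, c k * sg (ε k))
    simpa [Finset.sum_neg_distrib] using this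
  rw [← Finset.mul_expect, Finset.expect_add_distrib] at h8
  have h9 : Real.exp ((∑ k, c k ^ 2) / 2) ≤ 1.65 := by
    have : Real.exp ((∑ k, c k ^ 2) / 2) ≤ Real.exp (1/2) := Real.exp_le_exp.2 (by linarith)
    have h10 : Real.exp (1/2) ^ 2 = Real.exp 1 := by
      rw [← Real.exp_nat_mul]; norm_num
    have h11 := Real.exp_one_lt_d9
    have h12 : Real.exp (1/2) ≤ 1.65 := by
      nlinarith [Real.exp_pos (1/2)]
    linarith
  have h13 : Real.exp ((∑ k, (-c k) ^ 2) / 2) ≤ 1.65 := by simpa using h9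
  linarith

end H59.RB
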