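import Pool.Agent.H59.BMOA.Emax

/-! One level of the lower bound for stationary processes. -/

namespace H59.RB

set_option linter.unusedSectionVars false

open Finset BigOperators

section
variable {T S ι : Type*} [AddCommGroup T] [Fintype S] [DecidableEq S]
  [Fintype ι] [Nonempty ι] [DecidableEq ι]

/-- squared distance -/
noncomputable def dsq (c : T → S → ℝ) (x y : T) : ℝ := ∑ s, (c x s - c y s) ^ 2

lemma dsq_nonneg (c : T → S → ℝ) (x y : T) : 0 ≤ dsq c x y :=
  Finset.sum_nonneg (fun _ _ => sq_nonneg _)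

/-- asymptotic lower bound for the expected maximum -/
def LBd (c : T → S → ℝ) (x : ι → T) (K : ℝ) : Prop :=
  ∀ ε > 0, ∃ L₀ : ℕ, ∀ L ≥ L₀, K - ε ≤ emax (fun i => c (x i)) L

/-- comparison array -/
noncomputable def cmp (c : T → S → ℝ) (x : ι → T) (r : ℝ) (N : ℕ) :
    Fin (N+1) × ι → (Fin (N+1) ⊕ (Fin (N+1) × S)) → ℝ :=
  fun p => Sum.elim (fun l => if p.1 = l then r else 0)
    (fun q => if p.1 = q.1 then c (x p.2) q.2 - c 0 q.2 else 0)

lemma cmp_dist (c : T → S → ℝ) (x : ι → T) (r : ℝ) (N : ℕ) (p p' : Fin (N+1) × ι) :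
    ∑ s, (cmp c x r N p s - cmp c x r N p' s) ^ 2 =
      if p.1 = p'.1 then dsq c (x p.2) (x p'.2)
      else 2 * r ^ 2 + dsq c (x p.2) 0 + dsq c (x p'.2) 0 := by
  rw [Fintype.sum_sum_type]
  simp only [cmp, Sum.elim_inl, Sum.elim_inr]
  rw [Fintype.sum_prod_type]
  split_ifs with h
  · rw [h]
    simp only [sub_self, ne_eq, OfNat.ofNat_ne_zero, not_false_eq_true, zero_pow,
      Finset.sum_const_zero, zero_add]
    rw [Finset.sum_eq_single p'.1]
    · simp only [if_true]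
      unfold dsq
      refine Finset.sum_congr rfl (fun s _ => by ring)
    · intro l _ hl
      simp [Ne.symm hl]
    · simp
  · have h1 : ∑ l, ((if p.1 = l then r else 0) - (if p'.1 = l then r else 0)) ^ 2 = 2 * r ^ 2 := by
      have : ∀ l, ((if p.1 = l then r else 0) - (if p'.1 = l then r else 0)) ^ 2 =
          (if p.1 = l then r ^ 2 else 0) + (if p'.1 = l then r ^ 2 else 0) := by
        intro l
        by_cases h1 : p.1 = l
        · have h2 : p'.1 ≠ l := fun h3 => h (h1.trans h3.symm)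
          simp [h1, h2]
        · simp [h1]
      simp only [this, Finset.sum_add_distrib, Finset.sum_ite_eq, Finset.mem_univ, if_true]
      ring
    have h2 : ∑ l, ∑ s, ((if p.1 = l then c (x p.2) s - c 0 s else 0) -
        (if p'.1 = l then c (x p'.2) s - c 0 s else 0)) ^ 2 =
        dsq c (x p.2) 0 + dsq c (x p'.2) 0 := by
      have : ∀ l, ∑ s, ((if p.1 = l then c (x p.2) s - c 0 s else 0) -
        (if p'.1 = l then c (x p'.2) s - c 0 s else 0)) ^ 2 =
          (if p.1 = l then dsq c (x p.2) 0 else 0) + (if p'.1 = l then dsq c (x p'.2) 0 else 0) := by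
        intro l
        by_cases h1 : p.1 = l
        · have h2 : p'.1 ≠ l := fun h3 => h (h1.trans h3.symm)
          simp [h1, h2, dsq]
        · by_cases h2 : p'.1 = l
          · simp only [h1, h2, if_false, if_true, dsq, zero_add]
            exact Finset.sum_congr rfl (fun s _ => by ring)
          · simp [h1, h2, dsq]
      simp only [this, Finset.sum_add_distrib, Finset.sum_ite_eq, Finset.mem_univ, if_true]
    rw [h1, h2]; ring

/-- splitting of the sample space -/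
def splitE (N L : ℕ) (S : Type*) :
    (Fin L → (Fin (N+1) ⊕ (Fin (N+1) × S)) → ℤˣ) ≃
      (Fin L → Fin (N+1) → ℤˣ) × (Fin (N+1) → Fin L → S → ℤˣ) where
  toFun ω := (fun l j => ω l (Sum.inl j), fun j l s => ω l (Sum.inr (j, s)))
  invFun p := fun l => Sum.elim (fun j => p.1 l j) (fun q => p.2 q.1 l q.2)
  left_inv ω := by
    funext l a
    rcases a with a | ⟨j, s⟩ <;> rfl
  right_inv p := rfl

lemma emax_cmp (c : T → S → ℝ) (x : ι → T) (r : ℝ) (hr : 0 ≤ r) (N L : ℕ) :
    r * emax (dl (N+1)) L + emax (fun i => c (x i)) L ≤ emax (cmp c x r N) L := by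
  -- value of the process
  have hval : ∀ (ω : Fin L → (Fin (N+1) ⊕ (Fin (N+1) × S)) → ℤˣ) (p : Fin (N+1) × ι),
      (Real.sqrt L)⁻¹ * ∑ l, proc (cmp c x r N) (ω l) p =
      r * ((Real.sqrt L)⁻¹ * ∑ l, proc (dl (N+1)) ((splitE N L S ω).1 l) p.1) +
      ((Real.sqrt L)⁻¹ * ∑ l, proc (fun i => c (x i)) ((splitE N L S ω).2 p.1 l) p.2 -
       (Real.sqrt L)⁻¹ * ∑ l, ∑ s, c 0 s * sg ((splitE N L S ω).2 p.1 l s)) := by
    intro ω p
    have h1 : ∀ l, proc (cmp c x r N) (ω l) p =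
        r * proc (dl (N+1)) ((splitE N L S ω).1 l) p.1 +
        (proc (fun i => c (x i)) ((splitE N L S ω).2 p.1 l) p.2 -
          ∑ s, c 0 s * sg ((splitE N L S ω).2 p.1 l s)) := by
      intro l
      unfold proc
      rw [Fintype.sum_sum_type]
      simp only [cmp, Sum.elim_inl, Sum.elim_inr]
      rw [Fintype.sum_prod_type, Finset.sum_eq_single p.1 (f := fun a => ∑ y,
        (if p.1 = a then c (x p.2) y - c 0 y else 0) * sg (ω l (Sum.inr (a, y))))]
      · simp only [if_true, dl, ite_mul, zero_mul, one_mul, Finset.sum_ite_eq, Finset.mem_univ]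
        rw [← Finset.sum_sub_distrib]
        congr 1
        refine Finset.sum_congr rfl (fun s _ => ?_)
        show (c (x p.2) s - c 0 s) * sg (ω l (Sum.inr (p.1, s))) =
          c (x p.2) s * sg (ω l (Sum.inr (p.1, s))) - c 0 s * sg (ω l (Sum.inr (p.1, s)))
        ring
      · intro l' _ hl'
        simp [Ne.symm hl']
      · simp
    simp only [h1, Finset.sum_add_distrib, Finset.sum_sub_distrib, ← Finset.mul_sum]
    ring
  -- rewrite emax of cmp
  have h2 : emax (cmp c x r N) L =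
      𝔼 p : (Fin L → Fin (N+1) → ℤˣ) × (Fin (N+1) → Fin L → S → ℤˣ),
        Finset.univ.sup' Finset.univ_nonempty (fun q : Fin (N+1) × ι =>
          r * ((Real.sqrt L)⁻¹ * ∑ l, proc (dl (N+1)) (p.1 l) q.1) +
          ((Real.sqrt L)⁻¹ * ∑ l, proc (fun i => c (x i)) (p.2 q.1 l) q.2 -
          (Real.sqrt L)⁻¹ * ∑ l, ∑ s, c 0 s * sg (p.2 q.1 l s))) := by
    unfold emax
    refine Fintype.expect_equiv (splitE N L S) _ _ ?_
    intro ω
    simp only [hval]
  rw [h2, ← Finset.univ_product_univ, Finset.expect_product]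
  -- lower bound pointwise in σ
  have h3 : ∀ σ : Fin L → Fin (N+1) → ℤˣ,
      r * Finset.univ.sup' Finset.univ_nonempty (fun j => (Real.sqrt L)⁻¹ * ∑ l, proc (dl (N+1)) (σ l) j)
        + emax (fun i => c (x i)) L ≤
      𝔼 τ : Fin (N+1) → Fin L → S → ℤˣ,
        Finset.univ.sup' Finset.univ_nonempty (fun q : Fin (N+1) × ι =>
          r * ((Real.sqrt L)⁻¹ * ∑ l, proc (dl (N+1)) (σ l) q.1) +
          ((Real.sqrt L)⁻¹ * ∑ l, proc (fun i => c (x i)) (τ q.1 l) q.2 -
          (Real.sqrt L)⁻¹ * ∑ l, ∑ s, c 0 s * sg (τ q.1 l s))) := by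
    intro σ
    obtain ⟨j, _, hj⟩ := Finset.exists_mem_eq_sup' Finset.univ_nonempty
      (fun j => (Real.sqrt L)⁻¹ * ∑ l, proc (dl (N+1)) (σ l) j)
    rw [hj]
    have h4 : ∀ τ : Fin (N+1) → Fin L → S → ℤˣ,
        r * ((Real.sqrt L)⁻¹ * ∑ l, proc (dl (N+1)) (σ l) j) +
        (Finset.univ.sup' Finset.univ_nonempty
          (fun i => (Real.sqrt L)⁻¹ * ∑ l, proc (fun i => c (x i)) (τ j l) i) -
          (Real.sqrt L)⁻¹ * ∑ l, ∑ s, c 0 s * sg (τ j l s)) ≤
        Finset.univ.sup' Finset.univ_nonempty (fun q : Fin (N+1) × ι =>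
          r * ((Real.sqrt L)⁻¹ * ∑ l, proc (dl (N+1)) (σ l) q.1) +
          ((Real.sqrt L)⁻¹ * ∑ l, proc (fun i => c (x i)) (τ q.1 l) q.2 -
          (Real.sqrt L)⁻¹ * ∑ l, ∑ s, c 0 s * sg (τ q.1 l s))) := by
      intro τ
      obtain ⟨i, _, hi⟩ := Finset.exists_mem_eq_sup' Finset.univ_nonempty
        (fun i => (Real.sqrt L)⁻¹ * ∑ l, proc (fun i => c (x i)) (τ j l) i)
      rw [hi]
      exact Finset.le_sup' (fun q : Fin (N+1) × ι =>
          r * ((Real.sqrt L)⁻¹ * ∑ l, proc (dl (N+1)) (σ l) q.1) +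
          ((Real.sqrt L)⁻¹ * ∑ l, proc (fun i => c (x i)) (τ q.1 l) q.2 -
          (Real.sqrt L)⁻¹ * ∑ l, ∑ s, c 0 s * sg (τ q.1 l s))) (Finset.mem_univ (j, i))
    refine le_trans (le_of_eq ?_) (Finset.expect_le_expect (fun τ _ => h4 τ))
    rw [Finset.expect_add_distrib, Finset.expect_sub_distrib, Fintype.expect_const]
    rw [expect_marginal j (fun τ : Fin L → S → ℤˣ => Finset.univ.sup' Finset.univ_nonempty
          (fun i => (Real.sqrt L)⁻¹ * ∑ l, proc (fun i => c (x i)) (τ l) i)),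
        expect_marginal j (fun τ : Fin L → S → ℤˣ => (Real.sqrt L)⁻¹ * ∑ l, ∑ s, c 0 s * sg (τ l s))]
    have h5 : 𝔼 τ : Fin L → S → ℤˣ, (Real.sqrt L)⁻¹ * ∑ l, ∑ s, c 0 s * sg (τ l s) = 0 := by
      rw [← Finset.mul_expect, Finset.expect_sum_comm]
      have : ∀ l : Fin L, 𝔼 τ : Fin L → S → ℤˣ, ∑ s, c 0 s * sg (τ l s) = 0 := by
        intro l
        rw [expect_marginal l (fun τ : S → ℤˣ => ∑ s, c 0 s * sg (τ s))]
        exact expect_sum_lin _
      simp [this]
    rw [h5, sub_zero]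
    rfl
  refine le_trans (le_of_eq ?_) (Finset.expect_le_expect (fun σ _ => h3 σ))
  rw [Finset.expect_add_distrib, Fintype.expect_const, ← Finset.mul_expect]
  rfl

/-- One level of the lower bound. -/
theorem LBd_step (c : T → S → ℝ)
    (hinv : ∀ x y z, dsq c (z + x) (z + y) = dsq c x y)
    (x : ι → T) (K : ℝ) (hK : LBd c x K) (r : ℝ) (hr : 0 ≤ r)
    (hx : ∀ u, dsq c (x u) 0 ≤ r ^ 2) (N : ℕ) (t : Fin (N+1) → T)
    (ht : ∀ j j', j ≠ j' → ∀ u u', 4 * r ^ 2 ≤ dsq c (t j + x u) (t j' + x u')) :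
    LBd c (fun p : Fin (N+1) × ι => t p.1 + x p.2)
      (K + r * ((1/24) * Real.sqrt (Real.log (N+1 : ℕ)) - 1)) := by
  intro ε hε
  have hcd : ∀ i j : Fin (N+1) × ι, ∑ s, (cmp c x r N i s - cmp c x r N j s) ^ 2 ≤
      ∑ s, (c (t i.1 + x i.2) s - c (t j.1 + x j.2) s) ^ 2 := by
    intro p p'
    rw [cmp_dist]
    split_ifs with h
    · rw [h]
      have := hinv (x p.2) (x p'.2) (t p'.1)
      unfold dsq at this ⊢
      rw [this]
    · have h1 := ht p.1 p'.1 h p.2 p'.2
      have h2 := hx p.2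
      have h3 := hx p'.2
      unfold dsq at h1 h2 h3 ⊢
      linarith
  obtain ⟨L1, hL1⟩ := emax_compare (fun i : Fin (N+1) × ι => c (t i.1 + x i.2)) (cmp c x r N) hcd
    (ε/2) (by linarith)
  obtain ⟨L2, hL2⟩ := hK (ε/2) (by linarith)
  obtain ⟨L3, hL3⟩ := emax_indep N
  refine ⟨max L1 (max L2 L3), fun L hL => ?_⟩
  have h1 := hL1 L (le_trans (le_max_left _ _) hL)
  have h2 := hL2 L (le_trans (le_trans (le_max_left _ _) (le_max_right _ _)) hL)
  have h3 := hL3 L (le_trans (le_trans (le_max_right _ _) (le_max_right _ _)) hL)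
  have h4 := emax_cmp c x r hr N L
  have h5 := mul_le_mul_of_nonneg_left h3 hr
  linarith

/-- starting point of the induction -/
lemma LBd_unit (c : T → S → ℝ) : LBd c (fun _ : Unit => (0:T)) 0 := by
  intro ε hε
  refine ⟨0, fun L _ => ?_⟩
  have : emax (fun _ : Unit => c 0) L = 0 := by
    unfold emax
    have h1 : ∀ ω : Fin L → S → ℤˣ, Finset.univ.sup' Finset.univ_nonempty
        (fun i : Unit => (Real.sqrt L)⁻¹ * ∑ l, proc (fun _ : Unit => c 0) (ω l) i) =
        (Real.sqrt L)⁻¹ * ∑ l, ∑ s, c 0 s * sg (ω l s) := by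
      intro ω
      simp [proc]
    simp only [h1]
    rw [← Finset.mul_expect, Finset.expect_sum_comm]
    have : ∀ l : Fin L, 𝔼 τ : Fin L → S → ℤˣ, ∑ s, c 0 s * sg (τ l s) = 0 := by
      intro l
      rw [expect_marginal l (fun τ : S → ℤˣ => ∑ s, c 0 s * sg (τ s))]
      exact expect_sum_lin _
    simp [this]
  rw [this]; linarith

end

end H59.RB
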