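import Pool.Agent.H59.BMOA.Signs

/-! Exponential square integrability for jointly sub-Gaussian families. -/

namespace H59.RB

set_option linter.unusedSectionVars false

open Finset BigOperators MeasureTheory ProbabilityTheory

/-- standard Gaussian -/
noncomputable abbrev gam : Measure ℝ := gaussianReal 0 1

lemma gam_exp (t : ℝ) : ∫⁻ x, ENNReal.ofReal (Real.exp (t * x)) ∂gam =
    ENNReal.ofReal (Real.exp (t ^ 2 / 2)) := by
  rw [← ofReal_integral_eq_lintegral_ofReal (integrable_exp_mul_gaussianReal t)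
    (Filter.Eventually.of_forall (fun _ => (Real.exp_pos _).le))]
  congr 1
  have := congrFun (mgf_fun_id_gaussianReal (μ := 0) (v := 1)) t
  simpa [mgf] using this

lemma gam_sq : ∫⁻ x, ENNReal.ofReal (Real.exp (x ^ 2 / 4)) ∂gam = ENNReal.ofReal (Real.sqrt 2) := by
  unfold gam
  rw [gaussianReal_of_var_ne_zero _ (one_ne_zero),
    lintegral_withDensity_eq_lintegral_mul _ (measurable_gaussianPDF _ _) (by fun_prop)]
  have h1 : ∀ x : ℝ, (gaussianPDF 0 1 * fun x : ℝ => ENNReal.ofReal (Real.exp (x ^ 2 / 4))) x =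
      ENNReal.ofReal (Real.sqrt 2) * gaussianPDF 0 2 x := by
    intro x
    simp only [Pi.mul_apply, gaussianPDF]
    rw [← ENNReal.ofReal_mul (gaussianPDFReal_nonneg _ _ _), ← ENNReal.ofReal_mul (Real.sqrt_nonneg _)]
    congr 1
    simp only [gaussianPDFReal]
    have e1 : Real.sqrt (2 * Real.pi * (2 : NNReal)) = Real.sqrt 2 * Real.sqrt (2 * Real.pi * (1 : NNReal)) := by
      rw [← Real.sqrt_mul (by norm_num)]
      congr 1
      push_cast; ring
    rw [e1]
    have h2 : Real.sqrt 2 ≠ 0 := by positivity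
    have h3 : Real.sqrt (2 * Real.pi * (1 : NNReal)) ≠ 0 := by
      have : 0 < Real.sqrt (2 * Real.pi * (1 : NNReal)) := Real.sqrt_pos.2 (by
        have := Real.pi_pos; push_cast; positivity)
      exact this.ne'
    rw [mul_assoc, ← Real.exp_add, mul_inv, ← mul_assoc, ← mul_assoc, mul_inv_cancel₀ h2, one_mul]
    congr 2
    push_cast
    ring
  simp only [h1]
  rw [lintegral_const_mul _ (measurable_gaussianPDF _ _), lintegral_gaussianPDF_eq_one _ (by norm_num),
    mul_one]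

/-- linearisation of the exponential of a square -/
lemma exp_sq_eq (z : ℂ) : ENNReal.ofReal (Real.exp (‖z‖ ^ 2 / 4)) =
    ∫⁻ x, ∫⁻ y, ENNReal.ofReal (Real.exp ((((x - Complex.I * y) / Real.sqrt 2 : ℂ) * z).re)) ∂gam ∂gam := by
  have h2 : Real.sqrt 2 ≠ 0 := by positivity
  have h0 : ∀ x y : ℝ, (((x - Complex.I * y) / Real.sqrt 2 : ℂ) * z).re =
      (z.re / Real.sqrt 2) * x + (z.im / Real.sqrt 2) * y := by
    intro x y
    have : ((x - Complex.I * y) / Real.sqrt 2 : ℂ) * z =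
        (((x / Real.sqrt 2 : ℝ) : ℂ) - Complex.I * ((y / Real.sqrt 2 : ℝ) : ℂ)) * z := by
      push_cast; ring
    rw [this]
    simp
    ring
  simp only [h0, Real.exp_add]
  have h1 : ∀ x y : ℝ, ENNReal.ofReal (Real.exp (z.re / Real.sqrt 2 * x) * Real.exp (z.im / Real.sqrt 2 * y)) =
      ENNReal.ofReal (Real.exp (z.re / Real.sqrt 2 * x)) * ENNReal.ofReal (Real.exp (z.im / Real.sqrt 2 * y)) :=
    fun x y => ENNReal.ofReal_mul (Real.exp_pos _).le
  simp only [h1]
  have h3 : ∀ x : ℝ, ∫⁻ y, ENNReal.ofReal (Real.exp (z.re / Real.sqrt 2 * x)) *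
      ENNReal.ofReal (Real.exp (z.im / Real.sqrt 2 * y)) ∂gam =
      ENNReal.ofReal (Real.exp (z.re / Real.sqrt 2 * x)) * ENNReal.ofReal (Real.exp ((z.im / Real.sqrt 2)^2/2)) := by
    intro x
    rw [lintegral_const_mul _ (by fun_prop), gam_exp]
  simp only [h3]
  rw [lintegral_mul_const _ (by fun_prop), gam_exp, ← ENNReal.ofReal_mul (Real.exp_pos _).le, ← Real.exp_add]
  congr 2
  rw [div_pow, div_pow, Real.sq_sqrt (by norm_num), Complex.sq_norm, Complex.normSq_apply]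
  ring

/-- integral of exp(|g|²/4) for a complex Gaussian -/
lemma gam_gam_sq : ∫⁻ x, ∫⁻ y, ENNReal.ofReal (Real.exp ((x ^ 2 + y ^ 2) / 4)) ∂gam ∂gam = 2 := by
  have h1 : ∀ x y : ℝ, ENNReal.ofReal (Real.exp ((x ^ 2 + y ^ 2) / 4)) =
      ENNReal.ofReal (Real.exp (x ^ 2 / 4)) * ENNReal.ofReal (Real.exp (y ^ 2 / 4)) := by
    intro x y
    rw [← ENNReal.ofReal_mul (Real.exp_pos _).le, ← Real.exp_add]
    congr 2; ring
  simp only [h1]
  have h3 : ∀ x : ℝ, ∫⁻ y, ENNReal.ofReal (Real.exp (x ^ 2 / 4)) * ENNReal.ofReal (Real.exp (y ^ 2 / 4)) ∂gam =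
      ENNReal.ofReal (Real.exp (x ^ 2 / 4)) * ENNReal.ofReal (Real.sqrt 2) := by
    intro x
    rw [lintegral_const_mul _ (by fun_prop), gam_sq]
  simp only [h3]
  rw [lintegral_mul_const _ (by fun_prop), gam_sq, ← ENNReal.ofReal_mul (Real.sqrt_nonneg _),
    Real.mul_self_sqrt (by norm_num)]
  simp

lemma swap3 {Ω : Type*} [MeasurableSpace Ω] {P : Measure Ω} [SFinite P]
    (H : Ω × (ℝ × ℝ) → ENNReal) (hH : Measurable H) :
    ∫⁻ ω, ∫⁻ x, ∫⁻ y, H (ω, (x, y)) ∂gam ∂gam ∂P = ∫⁻ x, ∫⁻ y, ∫⁻ ω, H (ω, (x, y)) ∂P ∂gam ∂gam := by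
  have h1 : Measurable (fun q : (Ω × ℝ) × ℝ => H (q.1.1, (q.1.2, q.2))) :=
    hH.comp ((measurable_fst.comp measurable_fst).prodMk
      ((measurable_snd.comp measurable_fst).prodMk measurable_snd))
  have h2 : Measurable (fun q : Ω × ℝ => ∫⁻ y, H (q.1, (q.2, y)) ∂gam) := h1.lintegral_prod_right'
  have h3 := lintegral_lintegral_swap (μ := P) (ν := gam)
    (f := fun ω x => ∫⁻ y, H (ω, (x, y)) ∂gam) h2.aemeasurable
  rw [h3]
  refine lintegral_congr (fun x => ?_)
  have h4 : Measurable (fun q : Ω × ℝ => H (q.1, (x, q.2))) :=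
    hH.comp (measurable_fst.prodMk (measurable_const.prodMk measurable_snd))
  exact lintegral_lintegral_swap (μ := P) (ν := gam) (f := fun ω y => H (ω, (x, y))) h4.aemeasurable

/-- jointly sub-Gaussian families of complex random variables -/
structure SubG {Ω κ : Type*} [MeasurableSpace Ω] (P : Measure Ω) (X : κ → Ω → ℂ) : Prop where
  meas : ∀ k, Measurable (X k)
  sg : ∀ (s : Finset κ) (u : κ → ℂ),
    ∫⁻ ω, ENNReal.ofReal (Real.exp (∑ k ∈ s, (u k * X k ω).re)) ∂P ≤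
      ENNReal.ofReal (Real.exp ((∑ k ∈ s, ‖u k‖ ^ 2) / 2))

variable {Ω κ : Type*} [MeasurableSpace Ω] [DecidableEq κ] {P : Measure Ω} [SFinite P] {X : κ → Ω → ℂ}

lemma expsq_aux (hX : SubG P X) {ι : Type*} [DecidableEq ι] (s : ι → Finset κ) (v : ι → κ → ℂ)
    (J : Finset ι) (hdisj : ∀ i ∈ J, ∀ j ∈ J, i ≠ j → Disjoint (s i) (s j))
    (hv : ∀ j ∈ J, ∑ k ∈ s j, ‖v j k‖ ^ 2 ≤ 1)
    (s0 : Finset κ) (hs0 : ∀ j ∈ J, Disjoint s0 (s j)) (u : κ → ℂ) :
    ∫⁻ ω, ENNReal.ofReal (Real.exp (∑ k ∈ s0, (u k * X k ω).re +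
      (∑ j ∈ J, ‖∑ k ∈ s j, v j k * X k ω‖ ^ 2) / 4)) ∂P ≤
      2 ^ J.card * ENNReal.ofReal (Real.exp ((∑ k ∈ s0, ‖u k‖ ^ 2) / 2)) := by
  induction J using Finset.induction_on generalizing s0 u with
  | empty => simpa using hX.sg s0 u
  | insert j J hj ih =>
    have hm : ∀ (s : Finset κ) (w : κ → ℂ), Measurable (fun ω => ∑ k ∈ s, w k * X k ω) := by
      intro s w
      exact Finset.measurable_sum _ (fun k _ => (hX.meas k).const_mul _)
    have hmr : ∀ (s : Finset κ) (w : κ → ℂ), Measurable (fun ω => ∑ k ∈ s, (w k * X k ω).re) := by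
      intro s w
      exact Finset.measurable_sum _ (fun k _ => Complex.measurable_re.comp ((hX.meas k).const_mul _))
    have hmq : Measurable (fun ω => ∑ i ∈ J, ‖∑ k ∈ s i, v i k * X k ω‖ ^ 2) :=
      Finset.measurable_sum _ (fun i _ => ((hm (s i) (v i)).norm.pow_const 2))
    -- rewrite integrand
    have h1 : ∀ ω, ENNReal.ofReal (Real.exp (∑ k ∈ s0, (u k * X k ω).re +
        (∑ i ∈ insert j J, ‖∑ k ∈ s i, v i k * X k ω‖ ^ 2) / 4)) =
        ∫⁻ x, ∫⁻ y, ENNReal.ofReal (Real.exp (∑ k ∈ s0 ∪ s j, ((if k ∈ s j then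
          ((x - Complex.I * y) / Real.sqrt 2 : ℂ) * v j k else u k) * X k ω).re +
          (∑ i ∈ J, ‖∑ k ∈ s i, v i k * X k ω‖ ^ 2) / 4)) ∂gam ∂gam := by
      intro ω
      have h2 : ∀ x y : ℝ, ∑ k ∈ s0 ∪ s j, ((if k ∈ s j then
          ((x - Complex.I * y) / Real.sqrt 2 : ℂ) * v j k else u k) * X k ω).re =
          ∑ k ∈ s0, (u k * X k ω).re +
            (((x - Complex.I * y) / Real.sqrt 2 : ℂ) * ∑ k ∈ s j, v j k * X k ω).re := by
        intro x y
        rw [Finset.sum_union (hs0 j (Finset.mem_insert_self _ _))]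
        congr 1
        · refine Finset.sum_congr rfl (fun k hk => ?_)
          rw [if_neg (Finset.disjoint_left.1 (hs0 j (Finset.mem_insert_self _ _)) hk)]
        · rw [Finset.mul_sum, Complex.re_sum]
          refine Finset.sum_congr rfl (fun k hk => ?_)
          rw [if_pos hk, mul_assoc]
      simp only [h2]
      rw [Finset.sum_insert hj]
      have h3 : ∑ k ∈ s0, (u k * X k ω).re + (‖∑ k ∈ s j, v j k * X k ω‖ ^ 2 +
          ∑ i ∈ J, ‖∑ k ∈ s i, v i k * X k ω‖ ^ 2) / 4 =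
          (∑ k ∈ s0, (u k * X k ω).re + (∑ i ∈ J, ‖∑ k ∈ s i, v i k * X k ω‖ ^ 2) / 4) +
          ‖∑ k ∈ s j, v j k * X k ω‖ ^ 2 / 4 := by ring
      rw [h3, Real.exp_add, ENNReal.ofReal_mul (Real.exp_pos _).le, exp_sq_eq]
      have hmeas : Measurable (fun p : ℝ × ℝ => ENNReal.ofReal (Real.exp
          ((((p.1 - Complex.I * p.2) / Real.sqrt 2 : ℂ) * ∑ k ∈ s j, v j k * X k ω).re))) := by
        fun_prop
      rw [← lintegral_const_mul _ (hmeas.lintegral_prod_right')]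
      refine lintegral_congr (fun x => ?_)
      have hmeas2 : Measurable (fun y : ℝ => ENNReal.ofReal (Real.exp
          ((((x - Complex.I * y) / Real.sqrt 2 : ℂ) * ∑ k ∈ s j, v j k * X k ω).re))) := by
        fun_prop
      rw [← lintegral_const_mul _ hmeas2]
      refine lintegral_congr (fun y => ?_)
      rw [← ENNReal.ofReal_mul (Real.exp_pos _).le, ← Real.exp_add]
      congr 2
      ring
    simp only [h1]
    -- measurability of the joint function
    have hjoint : Measurable (fun p : Ω × (ℝ × ℝ) => ENNReal.ofReal (Real.exp (∑ k ∈ s0 ∪ s j,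
        ((if k ∈ s j then ((p.2.1 - Complex.I * p.2.2) / Real.sqrt 2 : ℂ) * v j k else u k) *
          X k p.1).re + (∑ i ∈ J, ‖∑ k ∈ s i, v i k * X k p.1‖ ^ 2) / 4))) := by
      apply ENNReal.measurable_ofReal.comp
      apply Real.measurable_exp.comp
      apply Measurable.add
      · apply Finset.measurable_sum
        intro k _
        apply Complex.measurable_re.comp
        apply Measurable.mul
        · split_ifs
          · fun_prop
          · exact measurable_const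
        · exact (hX.meas k).comp measurable_fst
      · exact (hmq.comp measurable_fst).div_const 4
    -- swap the integrals
    have hA : ∫⁻ ω, ∫⁻ x, ∫⁻ y, ENNReal.ofReal (Real.exp (∑ k ∈ s0 ∪ s j, ((if k ∈ s j then
          ((x - Complex.I * y) / Real.sqrt 2 : ℂ) * v j k else u k) * X k ω).re +
          (∑ i ∈ J, ‖∑ k ∈ s i, v i k * X k ω‖ ^ 2) / 4)) ∂gam ∂gam ∂P =
        ∫⁻ x, ∫⁻ y, ∫⁻ ω, ENNReal.ofReal (Real.exp (∑ k ∈ s0 ∪ s j, ((if k ∈ s j then
          ((x - Complex.I * y) / Real.sqrt 2 : ℂ) * v j k else u k) * X k ω).re +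
          (∑ i ∈ J, ‖∑ k ∈ s i, v i k * X k ω‖ ^ 2) / 4)) ∂P ∂gam ∂gam :=
      swap3 _ hjoint
    rw [hA]
    -- use the induction hypothesis
    have hB : ∀ x y : ℝ, ∫⁻ ω, ENNReal.ofReal (Real.exp (∑ k ∈ s0 ∪ s j, ((if k ∈ s j then
          ((x - Complex.I * y) / Real.sqrt 2 : ℂ) * v j k else u k) * X k ω).re +
          (∑ i ∈ J, ‖∑ k ∈ s i, v i k * X k ω‖ ^ 2) / 4)) ∂P ≤
        2 ^ J.card * ENNReal.ofReal (Real.exp ((∑ k ∈ s0, ‖u k‖ ^ 2) / 2)) *
          ENNReal.ofReal (Real.exp ((x ^ 2 + y ^ 2) / 4)) := by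
      intro x y
      refine (ih (fun i hi i' hi' => hdisj i (Finset.mem_insert_of_mem hi) i' (Finset.mem_insert_of_mem hi'))
        (fun i hi => hv i (Finset.mem_insert_of_mem hi)) (s0 ∪ s j) (by
          intro i hi
          rw [Finset.disjoint_union_left]
          refine ⟨hs0 i (Finset.mem_insert_of_mem hi), ?_⟩
          apply hdisj j (Finset.mem_insert_self _ _) i (Finset.mem_insert_of_mem hi)
          rintro rfl; exact hj hi) _).trans ?_
      rw [mul_assoc]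
      refine mul_le_mul_right ?_ _
      rw [← ENNReal.ofReal_mul (Real.exp_pos _).le, ← Real.exp_add]
      apply ENNReal.ofReal_le_ofReal
      apply Real.exp_le_exp.2
      have h4 : ∑ k ∈ s0 ∪ s j, ‖(if k ∈ s j then
          ((x - Complex.I * y) / Real.sqrt 2 : ℂ) * v j k else u k)‖ ^ 2 ≤
          ∑ k ∈ s0, ‖u k‖ ^ 2 + (x ^ 2 + y ^ 2) / 2 := by
        rw [Finset.sum_union (hs0 j (Finset.mem_insert_self _ _))]
        apply add_le_add
        · apply le_of_eq
          refine Finset.sum_congr rfl (fun k hk => ?_)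
          rw [if_neg (Finset.disjoint_left.1 (hs0 j (Finset.mem_insert_self _ _)) hk)]
        · have h5 : ‖((x - Complex.I * y) / Real.sqrt 2 : ℂ)‖ ^ 2 = (x ^ 2 + y ^ 2) / 2 := by
            rw [norm_div, div_pow, Complex.norm_real, Real.norm_eq_abs, sq_abs,
              Real.sq_sqrt (by norm_num), Complex.sq_norm, Complex.normSq_apply]
            simp
            ring
          calc ∑ k ∈ s j, ‖(if k ∈ s j then
              ((x - Complex.I * y) / Real.sqrt 2 : ℂ) * v j k else u k)‖ ^ 2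
              = ∑ k ∈ s j, (x ^ 2 + y ^ 2) / 2 * ‖v j k‖ ^ 2 := by
                refine Finset.sum_congr rfl (fun k hk => ?_)
                rw [if_pos hk, norm_mul, mul_pow, h5]
            _ = (x ^ 2 + y ^ 2) / 2 * ∑ k ∈ s j, ‖v j k‖ ^ 2 := by rw [Finset.mul_sum]
            _ ≤ (x ^ 2 + y ^ 2) / 2 * 1 := by
                apply mul_le_mul_of_nonneg_left (hv j (Finset.mem_insert_self _ _)) (by positivity)
            _ = _ := mul_one _
      linarith
    calc _ ≤ ∫⁻ x, ∫⁻ y, 2 ^ J.card * ENNReal.ofReal (Real.exp ((∑ k ∈ s0, ‖u k‖ ^ 2) / 2)) *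
          ENNReal.ofReal (Real.exp ((x ^ 2 + y ^ 2) / 4)) ∂gam ∂gam :=
          lintegral_mono (fun x => lintegral_mono (fun y => hB x y))
      _ = 2 ^ J.card * ENNReal.ofReal (Real.exp ((∑ k ∈ s0, ‖u k‖ ^ 2) / 2)) * 2 := by
          have h6 : Measurable (fun p : ℝ × ℝ => ENNReal.ofReal (Real.exp ((p.1 ^ 2 + p.2 ^ 2) / 4))) := by
            fun_prop
          have h7 : ∀ x : ℝ, ∫⁻ y, 2 ^ J.card * ENNReal.ofReal (Real.exp ((∑ k ∈ s0, ‖u k‖ ^ 2) / 2)) *
            ENNReal.ofReal (Real.exp ((x ^ 2 + y ^ 2) / 4)) ∂gam =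
            2 ^ J.card * ENNReal.ofReal (Real.exp ((∑ k ∈ s0, ‖u k‖ ^ 2) / 2)) *
            ∫⁻ y, ENNReal.ofReal (Real.exp ((x ^ 2 + y ^ 2) / 4)) ∂gam := by
            intro x
            rw [lintegral_const_mul _ (by fun_prop)]
          simp only [h7]
          rw [lintegral_const_mul _ (h6.lintegral_prod_right'), gam_gam_sq]
      _ = _ := by rw [Finset.card_insert_of_notMem hj, pow_succ]; ring

/-- Exponential square integrability. -/
theorem expsq (hX : SubG P X) {ι : Type*} [DecidableEq ι] (s : ι → Finset κ) (v : ι → κ → ℂ)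
    (J : Finset ι) (hdisj : ∀ i ∈ J, ∀ j ∈ J, i ≠ j → Disjoint (s i) (s j))
    (hv : ∀ j ∈ J, ∑ k ∈ s j, ‖v j k‖ ^ 2 ≤ 1) :
    ∫⁻ ω, ENNReal.ofReal (Real.exp ((∑ j ∈ J, ‖∑ k ∈ s j, v j k * X k ω‖ ^ 2) / 4)) ∂P ≤
      2 ^ J.card := by
  have := expsq_aux hX s v J hdisj hv ∅ (fun j _ => Finset.disjoint_empty_left _) 0
  simpa using this

end H59.RB
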